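import Pool.Agent.Lib.MP_a38fe7_coS.Psi0

/-!
# Line graphs and a new leaf
-/

set_option autoImplicit false

namespace Pool.Agent.Lib.MP_a38fe7_coS

open Pool.Agent.Lib.MP_a38fe7_co

/-- The edges of `addLeaf G p`. -/
private def addLeaf_edge {V : Type} (G : SimpleGraph V) (p : V) :
    Option G.edgeSet → (addLeaf G p).edgeSet
  | none => ⟨s(some p, none), (rfl : p = p)⟩
  | some e => ⟨e.1.map some, by
      obtain ⟨e, he⟩ := e
      induction e with
      | _ x y => exact he⟩

private theorem addLeaf_edge_mem {V : Type} (e : Sym2 V) : (none : Option V) ∉ e.map some := by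
  intro h
  rw [Sym2.mem_map] at h
  obtain ⟨a, -, ha⟩ := h
  exact Option.some_ne_none a ha

private theorem addLeaf_edge_ne {V : Type} (G : SimpleGraph V) (p : V) (e : G.edgeSet) :
    addLeaf_edge G p none ≠ addLeaf_edge G p (some e) := by
  intro h
  have h1 : s(some p, none) = e.1.map some := congrArg Subtype.val h
  apply addLeaf_edge_mem e.1
  rw [← h1]
  exact Sym2.mem_mk_right _ _

private theorem addLeaf_edge_bij {V : Type} (G : SimpleGraph V) (p : V) :
    Function.Bijective (addLeaf_edge G p) := by
  constructor
  · rintro (_ | e) (_ | f) h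
    · rfl
    · exact absurd h (addLeaf_edge_ne G p f)
    · exact absurd h.symm (addLeaf_edge_ne G p e)
    · have h1 : e.1.map some = f.1.map some := congrArg Subtype.val h
      exact congrArg some (Subtype.ext (Sym2.map.injective (Option.some_injective V) h1))
  · rintro ⟨e, he⟩
    induction e with
    | _ x y =>
      rcases x with _ | u
      · rcases y with _ | v
        · exact absurd he id
        · have hv : v = p := he
          refine ⟨none, Subtype.ext ?_⟩
          show s(some p, none) = s(none, some v)
          rw [hv, Sym2.eq_swap]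
      · rcases y with _ | v
        · have hu : u = p := he
          refine ⟨none, Subtype.ext ?_⟩
          show s(some p, none) = s(some u, none)
          rw [hu]
        · exact ⟨some ⟨s(u, v), he⟩, rfl⟩

private theorem addLeaf_card1 {V : Type} [Finite V] (G : SimpleGraph V) (p : V) :
    lsz 1 (addLeaf G p) = lsz 1 G + 1 := by
  have h1 : lsz 1 (addLeaf G p) = Nat.card (addLeaf G p).edgeSet := rfl
  have h2 : lsz 1 G = Nat.card G.edgeSet := rfl
  rw [h1, h2, ← Nat.card_congr (Equiv.ofBijective _ (addLeaf_edge_bij G p)), Finite.card_option]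

private theorem addLeaf_nbr_none {V : Type} (G : SimpleGraph V) (p : V) :
    (addLeaf G p).neighborSet none = {some p} := by
  ext x
  rw [SimpleGraph.mem_neighborSet, Set.mem_singleton_iff]
  rcases x with _ | v
  · exact ⟨fun h => h.elim, fun h => (Option.some_ne_none p h.symm).elim⟩
  · constructor
    · intro h
      have : v = p := h
      rw [this]
    · intro h
      exact Option.some.inj h

private theorem addLeaf_nbr_some {V : Type} (G : SimpleGraph V) {p u : V} (hu : u ≠ p) :
    (addLeaf G p).neighborSet (some u) = some '' G.neighborSet u := by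
  ext x
  rw [SimpleGraph.mem_neighborSet, Set.mem_image]
  rcases x with _ | v
  · exact ⟨fun h => (hu h).elim, fun ⟨a, _, ha⟩ => (Option.some_ne_none a ha).elim⟩
  · constructor
    · intro h
      exact ⟨v, h, rfl⟩
    · rintro ⟨a, ha, hav⟩
      rw [← Option.some.inj hav]
      exact ha

private theorem addLeaf_nbr_p {V : Type} (G : SimpleGraph V) (p : V) :
    (addLeaf G p).neighborSet (some p) = insert none (some '' G.neighborSet p) := by
  ext x
  rw [SimpleGraph.mem_neighborSet, Set.mem_insert_iff, Set.mem_image]
  rcases x with _ | v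
  · exact ⟨fun _ => Or.inl rfl, fun _ => (rfl : p = p)⟩
  · constructor
    · intro h
      exact Or.inr ⟨v, h, rfl⟩
    · rintro (h | ⟨a, ha, hav⟩)
      · exact (Option.some_ne_none v h).elim
      · rw [← Option.some.inj hav]
        exact ha

/-- One more vertex, one more edge; in the line graph the new edge has `deg p` neighbours (use `psi0` for
`addLeaf G p` and `G`: `xx` of `some p` grows by one, `q (x + 1) - q x = 2 (x + 1)`, the new vertex has
`q (-1) = 0`). -/
theorem addLeaf_base {V : Type} [Finite V] (G : SimpleGraph V) (p : V) :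
    lsz 0 (addLeaf G p) = lsz 0 G + 1 ∧ lsz 1 (addLeaf G p) = lsz 1 G + 1 ∧
      lsz 2 (addLeaf G p) = lsz 2 G + (G.neighborSet p).ncard := by
  classical
  have c0 : lsz 0 (addLeaf G p) = lsz 0 G + 1 := by
    have h1 : lsz 0 (addLeaf G p) = Nat.card (Option V) := rfl
    have h2 : lsz 0 G = Nat.card V := rfl
    rw [h1, h2, Finite.card_option]
  have c1 := addLeaf_card1 G p
  refine ⟨c0, c1, ?_⟩
  have : Fintype V := Fintype.ofFinite V
  have p1 := psi0 (addLeaf G p)
  have p2 := psi0 G
  have x0 : xx (addLeaf G p) none = -1 := by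
    unfold xx
    rw [addLeaf_nbr_none, Set.ncard_singleton]
    norm_num
  have xp : xx (addLeaf G p) (some p) = xx G p + 1 := by
    unfold xx
    rw [addLeaf_nbr_p, Set.ncard_insert_of_notMem _ (Set.toFinite _),
      Set.ncard_image_of_injective _ (Option.some_injective V)]
    · push_cast
      ring
    · rintro ⟨a, -, ha⟩
      exact Option.some_ne_none a ha
  have xu : ∀ u, u ≠ p → xx (addLeaf G p) (some u) = xx G u := by
    intro u hu
    unfold xx
    rw [addLeaf_nbr_some G hu, Set.ncard_image_of_injective _ (Option.some_injective V)]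
  rw [Fintype.sum_option, x0, ← Finset.add_sum_erase _ _ (Finset.mem_univ p), xp,
    Finset.sum_congr rfl (g := fun u => q (xx G u)) fun u hu => by
      rw [xu u (Finset.ne_of_mem_erase hu)]] at p1
  rw [← Finset.add_sum_erase _ _ (Finset.mem_univ p)] at p2
  have e1 : q (xx G p + 1) = q (xx G p) + 2 * (xx G p + 1) := by
    unfold q
    ring
  have e2 : q (-1) = 0 := by
    unfold q
    ring
  have e3 : xx G p = ((G.neighborSet p).ncard : ℤ) - 2 := rfl
  rw [e1, e2, c0, c1] at p1
  push_cast at p1
  have : (lsz 2 (addLeaf G p) : ℤ) = lsz 2 G + (G.neighborSet p).ncard := by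
    linarith
  exact_mod_cast this

/-- If `p` has only one neighbour `p'`, the line graph of `addLeaf G p` is the line graph of `G` with a
new leaf at the edge `p p'`. -/
theorem addLeaf_line {V : Type} {G : SimpleGraph V} {p p' : V} (hp : G.neighborSet p = {p'})
    (he : s(p', p) ∈ G.edgeSet) :
    Nonempty ((addLeaf G p).lineGraph ≃g addLeaf G.lineGraph ⟨s(p', p), he⟩) := by
  have key : ∀ e : G.edgeSet, (addLeaf G p).lineGraph.Adj (addLeaf_edge G p none)
      (addLeaf_edge G p (some e)) ↔ e = ⟨s(p', p), he⟩ := by
    intro e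
    rw [SimpleGraph.lineGraph_adj_iff_exists]
    constructor
    · rintro ⟨-, v, hv1, hv2⟩
      have hv1' : v ∈ s(some p, none) := hv1
      have hv2' : v ∈ e.1.map some := hv2
      rw [Sym2.mem_iff] at hv1'
      rcases hv1' with rfl | rfl
      · rw [Sym2.mem_map] at hv2'
        obtain ⟨a, ha, hap⟩ := hv2'
        have hpe : p ∈ e.1 := by
          rw [← Option.some.inj hap]
          exact ha
        obtain ⟨b, hb⟩ := Sym2.mem_iff_exists.1 hpe
        have hadj : G.Adj p b := by
          have := e.2
          rw [hb] at this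
          exact this
        have hb' : b = p' := by
          have : b ∈ G.neighborSet p := hadj
          rw [hp] at this
          exact this
        apply Subtype.ext
        rw [hb, hb', Sym2.eq_swap]
      · exact absurd hv2' (addLeaf_edge_mem e.1)
    · rintro rfl
      refine ⟨addLeaf_edge_ne G p _, some p, ?_, ?_⟩
      · exact Sym2.mem_mk_left _ _
      · show some p ∈ Sym2.map some s(p', p)
        rw [Sym2.mem_map]
        exact ⟨p, Sym2.mem_mk_right _ _, rfl⟩
  have main : ∀ x y : Option G.edgeSet,
      (addLeaf G p).lineGraph.Adj (addLeaf_edge G p x) (addLeaf_edge G p y) ↔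
        (addLeaf G.lineGraph ⟨s(p', p), he⟩).Adj x y := by
    rintro (_ | e) (_ | f)
    · exact ⟨fun h => ((addLeaf G p).lineGraph.loopless.irrefl _ h).elim, fun h => h.elim⟩
    · exact key f
    · rw [SimpleGraph.adj_comm]
      exact key e
    · rw [SimpleGraph.lineGraph_adj_iff_exists]
      have h2 : (addLeaf G.lineGraph ⟨s(p', p), he⟩).Adj (some e) (some f) ↔
          G.lineGraph.Adj e f := Iff.rfl
      rw [h2, SimpleGraph.lineGraph_adj_iff_exists]
      have h3 : addLeaf_edge G p (some e) ≠ addLeaf_edge G p (some f) ↔ e ≠ f := by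
        rw [not_iff_not]
        constructor
        · intro h
          exact Option.some.inj ((addLeaf_edge_bij G p).1 h)
        · intro h
          rw [h]
      rw [h3]
      apply and_congr_right
      intro _
      constructor
      · rintro ⟨v, hv1, hv2⟩
        have hv1' : v ∈ e.1.map some := hv1
        have hv2' : v ∈ f.1.map some := hv2
        rw [Sym2.mem_map] at hv1' hv2'
        obtain ⟨a, ha, hav⟩ := hv1'
        obtain ⟨b, hb, hbv⟩ := hv2'
        have hab : a = b := Option.some.inj (hav.trans hbv.symm)
        exact ⟨a, ha, hab ▸ hb⟩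
      · rintro ⟨v, hv1, hv2⟩
        exact ⟨some v, Sym2.mem_map.2 ⟨v, hv1, rfl⟩, Sym2.mem_map.2 ⟨v, hv2, rfl⟩⟩
  let σ : addLeaf G.lineGraph ⟨s(p', p), he⟩ ≃g (addLeaf G p).lineGraph :=
    ⟨Equiv.ofBijective _ (addLeaf_edge_bij G p), fun {x y} => main x y⟩
  exact ⟨σ.symm⟩

end Pool.Agent.Lib.MP_a38fe7_coS
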