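import Pool.Agent.Lib.MP_a38fe7_coS.Defs

/-!
# Rooted trees: degrees
-/

set_option autoImplicit false

namespace Pool.Agent.Lib.MP_a38fe7_coS

open Pool.Agent.Lib.MP_a38fe7_co

variable {V : Type} [Fintype V] {G : SimpleGraph V} {H : V} {par : V → V} {dep : V → ℕ}

theorem RT.par_ne (h : RT G H par dep) {v : V} (hv : v ≠ H) : par v ≠ v := by
  intro h1
  have h2 := h.dep v hv
  rw [h1] at h2
  omega

/-- `u` and `par u` cannot be each other's parents (depth). -/
theorem RT.par_par_ne (h : RT G H par dep) {v : V} (hv : v ≠ H) (hp : par v ≠ H) :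
    par (par v) ≠ v := by
  intro h1
  have h2 := h.dep v hv
  have h3 := h.dep (par v) hp
  rw [h1] at h3
  omega

open Classical in
private theorem rdeg_mem_ch (u w : V) : w ∈ ch H par u ↔ w ≠ H ∧ par w = u := by
  unfold ch
  rw [Finset.mem_filter]
  exact ⟨fun h => h.2, fun h => ⟨Finset.mem_univ _, h⟩⟩

/-- The neighbours of `v ≠ H` are its children and `par v`. -/
theorem RT.card_ch (h : RT G H par dep) {v : V} (hv : v ≠ H) :
    xx G v = ((ch H par v).card : ℤ) - 1 := by
  classical
  have h1 : G.neighborSet v = ((insert (par v) (ch H par v) : Finset V) : Set V) := by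
    ext w
    rw [SimpleGraph.mem_neighborSet, Finset.mem_coe, Finset.mem_insert, rdeg_mem_ch, h.adj]
    constructor
    · rintro (⟨-, h2⟩ | h2)
      · exact Or.inl h2.symm
      · exact Or.inr h2
    · rintro (h2 | h2)
      · exact Or.inl ⟨hv, h2.symm⟩
      · exact Or.inr h2
  have h2 : par v ∉ ch H par v := by
    rw [rdeg_mem_ch]
    rintro ⟨h3, h4⟩
    exact h.par_par_ne hv h3 h4
  unfold xx
  rw [h1, Set.ncard_coe_finset, Finset.card_insert_of_notMem h2]
  push_cast
  ring

theorem RT.card_ch_root (h : RT G H par dep) : xx G H = ((ch H par H).card : ℤ) - 2 := by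
  classical
  have h1 : G.neighborSet H = ((ch H par H : Finset V) : Set V) := by
    ext w
    rw [SimpleGraph.mem_neighborSet, Finset.mem_coe, rdeg_mem_ch, h.adj]
    constructor
    · rintro (⟨h2, -⟩ | h2)
      · exact absurd rfl h2
      · exact h2
    · exact Or.inr
  unfold xx
  rw [h1, Set.ncard_coe_finset]

theorem RT.xx_ge (h : RT G H par dep) {v : V} (hv : v ≠ H) : -1 ≤ xx G v := by
  rw [h.card_ch hv]
  have h1 : (0 : ℤ) ≤ ((ch H par v).card : ℤ) := Int.natCast_nonneg _
  omega

/-- `par v` has the child `v` and a parent. -/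
theorem RT.xx_par (h : RT G H par dep) {v : V} (hv : v ≠ H) (hp : par v ≠ H) :
    0 ≤ xx G (par v) := by
  rw [h.card_ch hp]
  have h1 : 0 < (ch H par (par v)).card :=
    Finset.card_pos.2 ⟨v, (rdeg_mem_ch (par v) v).2 ⟨hv, rfl⟩⟩
  omega

open Classical in
/-- Every vertex `v` occurs `deg v` times. -/
theorem RT.sum_deg (h : RT G H par dep) (f : V → ℤ) :
    ∑ v ∈ Finset.univ.filter (fun v => v ≠ H), (f v + f (par v)) = ∑ v, (xx G v + 2) * f v := by
  have h1 : ∑ v ∈ Finset.univ.filter (fun v => v ≠ H), f (par v) =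
      ∑ u, ((ch H par u).card : ℤ) * f u := by
    rw [← Finset.sum_fiberwise (Finset.univ.filter (fun v => v ≠ H)) par (fun v => f (par v))]
    refine Finset.sum_congr rfl fun u _ => ?_
    rw [Finset.filter_filter]
    have h2 : ∀ v ∈ Finset.univ.filter (fun v => v ≠ H ∧ par v = u), f (par v) = f u := by
      intro v hv
      rw [(Finset.mem_filter.1 hv).2.2]
    rw [Finset.sum_congr rfl h2, Finset.sum_const, nsmul_eq_mul]
    rfl
  have h3 : ∀ v, (xx G v + 2) * f v =
      ((ch H par v).card : ℤ) * f v + (if v ≠ H then f v else 0) := by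
    intro v
    by_cases hv : v = H
    · rw [if_neg (not_not.2 hv), hv, h.card_ch_root]
      ring
    · rw [if_pos hv, h.card_ch hv]
      ring
  rw [Finset.sum_add_distrib, h1, Finset.sum_congr rfl fun v _ => h3 v, Finset.sum_add_distrib,
    Finset.sum_filter, add_comm]

end Pool.Agent.Lib.MP_a38fe7_coS
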