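import Pool.Agent.Lib.MP_a38fe7_coS.PolyB
import Pool.Agent.Lib.MP_a38fe7_coS.RDeg

/-!
# Smaller hubs
-/

set_option autoImplicit false

namespace Pool.Agent.Lib.MP_a38fe7_coS

open Pool.Agent.Lib.MP_a38fe7_co

variable {V : Type} [Fintype V] {G : SimpleGraph V} {H : V} {par : V → V} {dep : V → ℕ}

theorem C1_q_nonneg (z : ℤ) : 0 ≤ q z := by
  unfold q
  rcases le_or_gt 0 z with h | h
  · positivity
  · have h1 : z + 1 ≤ 0 := by omega
    exact mul_nonneg_of_nonpos_of_nonpos h.le h1

open Classical in
theorem C1_sum (f : V → ℤ) :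
    ∑ v, f v = f H + ∑ v ∈ Finset.univ.filter (fun v => v ≠ H), f v := by
  rw [Finset.filter_ne', Finset.add_sum_erase _ _ (Finset.mem_univ H)]

/-- `q (a + b) = q a + q b + 2 a b` and `sum_deg` with `f = q ∘ xx`. -/
theorem RT.S1_eq (h : RT G H par dep) :
    S1 G H par = ∑ v, (xx G v + 2) * q (xx G v) + 2 * SX G H par := by
  classical
  rw [← h.sum_deg (fun v => q (xx G v))]
  unfold S1 SX
  rw [Finset.mul_sum, ← Finset.sum_add_distrib]
  refine Finset.sum_congr rfl fun v _ => ?_
  unfold av q
  ring

/-- `S1 - m S0 = ∑_v q (x_v) (x_v + 2 - m) + 2 ∑_{v ≠ H} x_v x_{par v}`. Put `Y = xx H`, `p = xx (par v) ≥ 0`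
(`xx_par`, or `par v = H`). A vertex `v ≠ H` with `x_v = 0` contributes `0`, one with `x_v = -1` contributes
`- 2 p ≤ 0`; for `x_v = z ≥ 1` the contribution is `q z (z + 2 - m) + 2 z p`.
(1) `Y ≤ m - 3`: all contributions are `≤ 0` (`b1`; `q z ≤ m (m + 1) - q Y` as `q ≥ 0` on integers), and
the one of `H` is `q Y (Y + 2 - m) < 0`.
(2) `Y = m - 2`: `H` contributes `0`, and `∑_{v ≠ H} q (x_v) = 4 m - 2`. Let `A` be the set of the children of
`H` with `x_v = 1`: each contributes `2 = q (x_v)`. The others contribute at most `- q (x_v)` (`b2` for the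
children of `H`, `b3` otherwise; trivially if `x_v ≤ 0`), so the total is at most
`2 |A| - (4 m - 2 - 2 |A|) = 4 |A| - 4 m + 2`, which is negative if `|A| ≤ m - 1`. Since `H` has `Y + 2 = m`
children, otherwise `|A| = m` and all children of `H` are in `A`; then all vertices outside `A ∪ {H}` with
`x_v ≥ 1` are not children of `H` and `b3` gives the total `≤ 2 m - 2 (4 m - 2 - 2 m) < 0`. -/
theorem RT.C1 (h : RT G H par dep) (m : ℤ) (hm : 12 ≤ m)
    (h0 : ∑ v, q (xx G v) = m * (m + 1)) (hY : 1 ≤ xx G H) (hmax : ∀ v, xx G v ≤ xx G H)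
    (hY2 : xx G H ≤ m - 2) : S1 G H par < m * (m * (m + 1)) := by
  classical
  set s : Finset V := Finset.univ.filter (fun v => v ≠ H) with hs
  have hms : ∀ v, v ∈ s ↔ v ≠ H := fun v => by rw [hs, Finset.mem_filter]; simp
  have hsum : ∀ f : V → ℤ, ∑ v, f v = f H + ∑ v ∈ s, f v := fun f => by
    rw [C1_sum (H := H) f]
  set T : V → ℤ := fun v => q (xx G v) * (xx G v + 2 - m) + 2 * (xx G v * xx G (par v)) with hT
  have hsq : ∑ v ∈ s, q (xx G v) = m * (m + 1) - q (xx G H) := by
    have := hsum (fun v => q (xx G v))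
    rw [h0] at this
    linarith
  have hS : S1 G H par - m * (m * (m + 1)) = q (xx G H) * (xx G H + 2 - m) + ∑ v ∈ s, T v := by
    have e1 : SX G H par = ∑ v ∈ s, xx G v * xx G (par v) := by
      unfold SX
      rw [hs]
    rw [h.S1_eq, ← h0, hsum (fun v => (xx G v + 2) * q (xx G v)), hsum (fun v => q (xx G v)), e1, hT]
    simp only [mul_add, Finset.mul_sum, Finset.sum_add_distrib]
    have e2 : ∑ v ∈ s, q (xx G v) * (xx G v + 2 - m) =
        ∑ v ∈ s, (xx G v + 2) * q (xx G v) - ∑ v ∈ s, m * q (xx G v) := by
      rw [← Finset.sum_sub_distrib]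
      exact Finset.sum_congr rfl fun v _ => by ring
    rw [e2]
    ring
  -- nonnegativity at the parents
  have hp0 : ∀ v ∈ s, 0 ≤ xx G (par v) := by
    intro v hv
    by_cases hp : par v = H
    · rw [hp]; linarith
    · exact h.xx_par ((hms v).1 hv) hp
  have hsmall : ∀ v ∈ s, xx G v ≤ 0 → q (xx G v) = 0 ∧ T v ≤ 0 := by
    intro v hv hx
    have h1 := h.xx_ge ((hms v).1 hv)
    have h2 := hp0 v hv
    have h3 : xx G v = 0 ∨ xx G v = -1 := by omega
    rcases h3 with h3 | h3
    · refine ⟨by rw [h3]; unfold q; norm_num, ?_⟩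
      rw [hT]
      simp only [h3]
      unfold q
      norm_num
    · refine ⟨by rw [h3]; unfold q; norm_num, ?_⟩
      rw [hT]
      simp only [h3]
      unfold q
      linarith
  have hle : ∀ v ∈ s, q (xx G v) ≤ m * (m + 1) - q (xx G H) := by
    intro v hv
    rw [← hsq]
    exact Finset.single_le_sum (f := fun v => q (xx G v)) (fun u _ => C1_q_nonneg _) hv
  rcases lt_or_eq_of_le hY2 with hlt | heq
  · -- case 1
    have hT0 : ∑ v ∈ s, T v ≤ 0 := by
      refine Finset.sum_nonpos fun v hv => ?_
      rcases le_or_gt (xx G v) 0 with hx | hx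
      · exact (hsmall v hv hx).2
      · exact b1 hm (by omega) (by omega) (hmax v) (hmax (par v)) (hle v hv)
    have hH : q (xx G H) * (xx G H + 2 - m) < 0 := by
      have h1 : 0 < q (xx G H) := by
        unfold q
        positivity
      have h2 : xx G H + 2 - m < 0 := by omega
      exact mul_neg_of_pos_of_neg h1 h2
    linarith
  · -- case 2
    have hYm : xx G H = m - 2 := heq
    have hsq' : ∑ v ∈ s, q (xx G v) = 4 * m - 2 := by
      rw [hsq, hYm]
      unfold q
      ring
    have hH : q (xx G H) * (xx G H + 2 - m) = 0 := by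
      rw [hYm]
      ring
    set A : Finset V := s.filter (fun v => par v = H ∧ xx G v = 1) with hA
    have hle' : ∀ v ∈ s, q (xx G v) ≤ 4 * m - 2 := by
      intro v hv
      rw [← hsq']
      exact Finset.single_le_sum (f := fun v => q (xx G v)) (fun u _ => C1_q_nonneg _) hv
    have hTA : ∑ v ∈ A, T v = 2 * (A.card : ℤ) := by
      have : ∀ v ∈ A, T v = 2 := by
        intro v hv
        rw [hA, Finset.mem_filter] at hv
        obtain ⟨hv1, hv2, hv3⟩ := hv
        rw [hT]
        simp only [hv2, hv3, hYm]
        unfold q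
        ring
      rw [Finset.sum_congr rfl this, Finset.sum_const, nsmul_eq_mul]
      ring
    have hqA : ∑ v ∈ A, q (xx G v) = 2 * (A.card : ℤ) := by
      have : ∀ v ∈ A, q (xx G v) = 2 := by
        intro v hv
        rw [hA, Finset.mem_filter] at hv
        rw [hv.2.2]
        unfold q
        norm_num
      rw [Finset.sum_congr rfl this, Finset.sum_const, nsmul_eq_mul]
      ring
    set B : Finset V := s.filter (fun v => ¬ (par v = H ∧ xx G v = 1)) with hB
    have hsplit : ∀ f : V → ℤ, ∑ v ∈ s, f v = ∑ v ∈ A, f v + ∑ v ∈ B, f v := fun f => by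
      rw [hA, hB, Finset.sum_filter_add_sum_filter_not]
    have hqB : ∑ v ∈ B, q (xx G v) = 4 * m - 2 - 2 * (A.card : ℤ) := by
      have := hsplit (fun v => q (xx G v))
      rw [hsq', hqA] at this
      linarith
    have hBs : ∀ v ∈ B, v ∈ s := fun v hv => (Finset.mem_filter.1 hv).1
    -- vertices which are not children of the root
    have hnc : ∀ v ∈ s, par v ≠ H → T v ≤ -2 * q (xx G v) := by
      intro v hv hp
      rcases le_or_gt (xx G v) 0 with hx | hx
      · obtain ⟨e1, e2⟩ := hsmall v hv hx
        rw [e1]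
        linarith
      · refine b3 hm (by omega) (hp0 v hv) ?_
        have hne : v ≠ par v := (h.par_ne ((hms v).1 hv)).symm
        have hps : par v ∈ s := (hms _).2 hp
        have hpair : ∑ u ∈ ({v, par v} : Finset V), q (xx G u) ≤ ∑ u ∈ s, q (xx G u) := by
          refine Finset.sum_le_sum_of_subset_of_nonneg ?_ fun u _ _ => C1_q_nonneg _
          intro u hu
          rw [Finset.mem_insert, Finset.mem_singleton] at hu
          rcases hu with hu | hu
          · rw [hu]; exact hv
          · rw [hu]; exact hps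
        rw [Finset.sum_pair hne, hsq'] at hpair
        exact hpair
    have hcard : (A.card : ℤ) ≤ m := by
      have h1 := h.card_ch_root
      have h2 : A.card ≤ (ch H par H).card := by
        refine Finset.card_le_card fun v hv => ?_
        rw [hA, Finset.mem_filter] at hv
        unfold ch
        rw [Finset.mem_filter]
        exact ⟨Finset.mem_univ v, (hms v).1 hv.1, hv.2.1⟩
      have h3 : (A.card : ℤ) ≤ ((ch H par H).card : ℤ) := by exact_mod_cast h2
      linarith
    have htot := hsplit T
    rcases lt_or_eq_of_le hcard with hc | hc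
    · have hTB : ∑ v ∈ B, T v ≤ ∑ v ∈ B, - q (xx G v) := by
        refine Finset.sum_le_sum fun v hv => ?_
        have hvs := hBs v hv
        rcases le_or_gt (xx G v) 0 with hx | hx
        · obtain ⟨e1, e2⟩ := hsmall v hvs hx
          rw [e1]
          linarith
        · by_cases hp : par v = H
          · have hx2 : 2 ≤ xx G v := by
              have hv2 := (Finset.mem_filter.1 hv).2
              have : xx G v ≠ 1 := fun e => hv2 ⟨hp, e⟩
              omega
            have := b2 hm hx2 (hle' v hvs)
            rw [hT]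
            simp only [hp, hYm]
            exact this
          · have e1 := hnc v hvs hp
            have e2 := C1_q_nonneg (xx G v)
            linarith
      rw [Finset.sum_neg_distrib, hqB] at hTB
      rw [hTA] at htot
      have hc' : (A.card : ℤ) ≤ m - 1 := by omega
      linarith
    · have hAll : A = ch H par H := by
        refine Finset.eq_of_subset_of_card_le ?_ ?_
        · intro v hv
          rw [hA, Finset.mem_filter] at hv
          unfold ch
          rw [Finset.mem_filter]
          exact ⟨Finset.mem_univ v, (hms v).1 hv.1, hv.2.1⟩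
        · have h1 := h.card_ch_root
          have h3 : ((ch H par H).card : ℤ) ≤ (A.card : ℤ) := by linarith
          exact_mod_cast h3
      have hTB : ∑ v ∈ B, T v ≤ ∑ v ∈ B, -2 * q (xx G v) := by
        refine Finset.sum_le_sum fun v hv => ?_
        have hvs := hBs v hv
        refine hnc v hvs fun hp => ?_
        have hvA : v ∈ A := by
          rw [hAll]
          unfold ch
          rw [Finset.mem_filter]
          exact ⟨Finset.mem_univ v, (hms v).1 hvs, hp⟩
        rw [hA, Finset.mem_filter] at hvA
        exact (Finset.mem_filter.1 hv).2 hvA.2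
      rw [← Finset.mul_sum, hqB, hc] at hTB
      rw [hTA, hc] at htot
      linarith

end Pool.Agent.Lib.MP_a38fe7_coS
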