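import Pool.Agent.Lib.MP_a38fe7_coS.C1

/-!
# Much smaller hubs
-/

set_option autoImplicit false

namespace Pool.Agent.Lib.MP_a38fe7_coS

variable {V : Type} [Fintype V] {G : SimpleGraph V} {H : V} {par : V → V} {dep : V → ℕ}

/-- As in `C1` (part (1)): `S1 - m S0 = ∑_v q (x_v) (x_v + 2 - m) + 2 ∑_{v ≠ H} x_v x_{par v}`. With
`Y = xx H`, `z = x_v ≥ 1`, `0 ≤ p = xx (par v) ≤ Y` the contribution of `v ≠ H` is
`z ((z + 1) (z + 2 - m) + 2 p)`. If `Y ≤ m - 4`: `(z + 1) (z + 2 - m) + 2 p ≤ 0` for `1 ≤ z ≤ m - 4`,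
`p ≤ m - 4`, and `H` contributes `q Y (Y + 2 - m) < 0`. If `Y = m - 3`, `m ≥ 7`: the contribution is `≤ 0`
for `z ≤ m - 4` (`(z + 1) (z + 2 - m) + 2 (m - 3) = (z - 1) (z + 4 - m)`), at most `(m - 3) (m - 4)` for
`z = m - 3`, there is at most one `v ≠ H` with `z = m - 3` (`3 q (m - 3) > m (m + 1)`), and `H` contributes
`- (m - 3) (m - 2)`. -/
theorem RT.C1low (h : RT G H par dep) (m : ℤ)
    (h0 : ∑ v, q (xx G v) = m * (m + 1)) (hY : 1 ≤ xx G H) (hmax : ∀ v, xx G v ≤ xx G H)
    (hY2 : xx G H ≤ m - 4 ∨ (7 ≤ m ∧ xx G H ≤ m - 3)) : S1 G H par < m * (m * (m + 1)) := by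
  classical
  set s : Finset V := Finset.univ.filter (fun v => v ≠ H) with hs
  have hms : ∀ v, v ∈ s ↔ v ≠ H := fun v => by rw [hs, Finset.mem_filter]; simp
  have hsum : ∀ f : V → ℤ, ∑ v, f v = f H + ∑ v ∈ s, f v := fun f => by
    rw [C1_sum (H := H) f]
  set T : V → ℤ := fun v => q (xx G v) * (xx G v + 2 - m) + 2 * (xx G v * xx G (par v)) with hT
  have hsq : ∑ v ∈ s, q (xx G v) = m * (m + 1) - q (xx G H) := by
    have := hsum (fun v => q (xx G v))
    rw [h0] at this
    linarith
  have hS : S1 G H par - m * (m * (m + 1)) = q (xx G H) * (xx G H + 2 - m) + ∑ v ∈ s, T v := by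
    have e1 : SX G H par = ∑ v ∈ s, xx G v * xx G (par v) := by
      unfold SX
      rw [hs]
    rw [h.S1_eq, ← h0, hsum (fun v => (xx G v + 2) * q (xx G v)), hsum (fun v => q (xx G v)), e1, hT]
    simp only [mul_add, Finset.mul_sum, Finset.sum_add_distrib]
    have e2 : ∑ v ∈ s, q (xx G v) * (xx G v + 2 - m) =
        ∑ v ∈ s, (xx G v + 2) * q (xx G v) - ∑ v ∈ s, m * q (xx G v) := by
      rw [← Finset.sum_sub_distrib]
      exact Finset.sum_congr rfl fun v _ => by ring
    rw [e2]
    ring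
  -- nonnegativity at the parents
  have hp0 : ∀ v ∈ s, 0 ≤ xx G (par v) := by
    intro v hv
    by_cases hp : par v = H
    · rw [hp]; linarith
    · exact h.xx_par ((hms v).1 hv) hp
  have hsmall : ∀ v ∈ s, xx G v ≤ 0 → T v ≤ 0 := by
    intro v hv hx
    have h1 := h.xx_ge ((hms v).1 hv)
    have h2 := hp0 v hv
    have h3 : xx G v = 0 ∨ xx G v = -1 := by omega
    rcases h3 with h3 | h3
    · rw [hT]
      simp only [h3]
      unfold q
      norm_num
    · rw [hT]
      simp only [h3]
      unfold q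
      linarith
  -- the main estimate
  have hmain : ∀ v ∈ s, xx G v ≤ m - 4 → xx G (par v) ≤ m - 3 → T v ≤ 0 := by
    intro v hv hx hpar
    rcases le_or_gt (xx G v) 0 with hx0 | hx0
    · exact hsmall v hv hx0
    · have h1 : (xx G v - 1) * (xx G v + 4 - m) ≤ 0 :=
        mul_nonpos_of_nonneg_of_nonpos (by omega) (by omega)
      have h2 : (xx G v + 1) * (xx G v + 2 - m) + 2 * xx G (par v) ≤ 0 := by
        have e : (xx G v + 1) * (xx G v + 2 - m) + 2 * (m - 3) =
            (xx G v - 1) * (xx G v + 4 - m) := by ring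
        linarith
      have h3 : T v = xx G v * ((xx G v + 1) * (xx G v + 2 - m) + 2 * xx G (par v)) := by
        rw [hT]
        simp only
        unfold q
        ring
      rw [h3]
      exact mul_nonpos_of_nonneg_of_nonpos hx0.le h2
  by_cases hA : xx G H ≤ m - 4
  · have hT0 : ∑ v ∈ s, T v ≤ 0 := by
      refine Finset.sum_nonpos fun v hv => ?_
      have h1 := hmax v
      have h2 := hmax (par v)
      exact hmain v hv (by omega) (by omega)
    have hH : q (xx G H) * (xx G H + 2 - m) < 0 := by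
      have h1 : 0 < q (xx G H) := by
        unfold q
        positivity
      have h2 : xx G H + 2 - m < 0 := by omega
      exact mul_neg_of_pos_of_neg h1 h2
    linarith
  · have hm7 : 7 ≤ m := by
      rcases hY2 with h1 | h1
      · exact absurd h1 hA
      · exact h1.1
    have hYm : xx G H = m - 3 := by
      rcases hY2 with h1 | h1
      · exact absurd h1 hA
      · omega
    set Z : Finset V := s.filter (fun v => xx G v = m - 3) with hZ
    have hqZ : ∑ v ∈ Z, q (xx G v) = (Z.card : ℤ) * ((m - 3) * (m - 2)) := by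
      have h1 : ∀ v ∈ Z, q (xx G v) = (m - 3) * (m - 2) := by
        intro v hv
        rw [(Finset.mem_filter.1 hv).2]
        unfold q
        ring
      rw [Finset.sum_congr rfl h1, Finset.sum_const, nsmul_eq_mul]
    have hqle : ∑ v ∈ Z, q (xx G v) ≤ m * (m + 1) - (m - 3) * (m - 2) := by
      have h1 : ∑ v ∈ Z, q (xx G v) ≤ ∑ v ∈ s, q (xx G v) :=
        Finset.sum_le_sum_of_subset_of_nonneg (Finset.filter_subset _ _)
          fun _ _ _ => C1_q_nonneg _
      have h2 : q (xx G H) = (m - 3) * (m - 2) := by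
        rw [hYm]
        unfold q
        ring
      rw [hsq, h2] at h1
      exact h1
    have hcard : (Z.card : ℤ) ≤ 1 := by
      by_contra hc
      have h1 : (2 : ℤ) ≤ (Z.card : ℤ) := by omega
      rw [hqZ] at hqle
      have h2 : 0 ≤ (m - 3) * (m - 2) := mul_nonneg (by omega) (by omega)
      have h3 : 2 * ((m - 3) * (m - 2)) ≤ (Z.card : ℤ) * ((m - 3) * (m - 2)) :=
        mul_le_mul_of_nonneg_right h1 h2
      have h4 : 0 ≤ (m - 7) * (2 * m - 2) := mul_nonneg (by omega) (by omega)
      nlinarith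
    have hTZ : ∑ v ∈ Z, T v ≤ (Z.card : ℤ) * ((m - 3) * (m - 4)) := by
      have h1 : ∀ v ∈ Z, T v ≤ (m - 3) * (m - 4) := by
        intro v hv
        have h2 : xx G v = m - 3 := (Finset.mem_filter.1 hv).2
        have h3 := hmax (par v)
        rw [hYm] at h3
        have h4 : T v = (m - 3) * (2 * xx G (par v) - (m - 2)) := by
          rw [hT]
          simp only [h2]
          unfold q
          ring
        rw [h4]
        exact mul_le_mul_of_nonneg_left (by omega) (by omega)
      refine (Finset.sum_le_sum h1).trans (le_of_eq ?_)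
      rw [Finset.sum_const, nsmul_eq_mul]
    have hTr : ∑ v ∈ s.filter (fun v => ¬ xx G v = m - 3), T v ≤ 0 := by
      refine Finset.sum_nonpos fun v hv => ?_
      have h1 := (Finset.mem_filter.1 hv).2
      have h2 := hmax v
      have h3 := hmax (par v)
      rw [hYm] at h2 h3
      exact hmain v (Finset.mem_filter.1 hv).1 (by omega) h3
    have hsplit : ∑ v ∈ s, T v = ∑ v ∈ Z, T v +
        ∑ v ∈ s.filter (fun v => ¬ xx G v = m - 3), T v := by
      rw [hZ, Finset.sum_filter_add_sum_filter_not]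
    have hTZ' : (Z.card : ℤ) * ((m - 3) * (m - 4)) ≤ 1 * ((m - 3) * (m - 4)) :=
      mul_le_mul_of_nonneg_right hcard (mul_nonneg (by omega) (by omega))
    have hH : q (xx G H) * (xx G H + 2 - m) = - ((m - 3) * (m - 2)) := by
      rw [hYm]
      unfold q
      ring
    nlinarith

end Pool.Agent.Lib.MP_a38fe7_coS
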