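import Pool.Agent.Lib.MP_a38fe7_coS.C2a

/-!
# The case of a hub of degree one less
-/

set_option autoImplicit false

namespace Pool.Agent.Lib.MP_a38fe7_coS

open Pool.Agent.Lib.MP_a38fe7_co

variable {V : Type} [Fintype V] {G : SimpleGraph V} {H : V} {par : V → V} {dep : V → ℕ}

theorem C2_q_nonneg (z : ℤ) : 0 ≤ q z := by
  unfold q
  rcases lt_or_ge z 0 with h | h
  · nlinarith
  · positivity

theorem C2_one_le (m : ℤ) (h0 : ∑ v, q (xx G v) = m * (m + 1)) (hH : xx G H = m - 1) {v : V}
    (hv : v ≠ H) : q (xx G v) ≤ 2 * m := by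
  classical
  have h1 := Finset.add_sum_erase Finset.univ (fun v => q (xx G v)) (Finset.mem_univ H)
  have h2 : q (xx G v) ≤ ∑ v ∈ Finset.univ.erase H, q (xx G v) :=
    Finset.single_le_sum (f := fun v => q (xx G v)) (fun w _ => C2_q_nonneg _)
      (Finset.mem_erase.2 ⟨hv, Finset.mem_univ v⟩)
  simp only [hH] at h1
  rw [h0] at h1
  have h3 : q (m - 1) = (m - 1) * m := by
    unfold q
    ring
  rw [h3] at h1
  nlinarith

theorem C2_sum_le {x y m : ℤ} (hm : 12 ≤ m) (h : q x + q y ≤ 2 * m) : x + y ≤ m - 1 := by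
  unfold q at h
  by_contra hc
  push Not at hc
  have h1 : m ≤ x + y := by omega
  nlinarith [sq_nonneg (x - y)]

open Classical in
theorem C2_split (f : V → ℤ) :
    ∑ v ∈ Finset.univ.filter (fun v => v ≠ H), f v =
      ∑ v ∈ ch H par H, f v +
      (∑ v ∈ Finset.univ.filter (fun w => w ≠ H ∧ par w ≠ H ∧ par (par w) = H), f v +
        ∑ v ∈ Finset.univ.filter (fun w => w ≠ H ∧ par w ≠ H ∧ par (par w) ≠ H), f v) := by
  have e1 := Finset.sum_filter_add_sum_filter_not (Finset.univ.filter (fun v => v ≠ H))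
    (fun v => par v = H) f
  rw [Finset.filter_filter, Finset.filter_filter] at e1
  have e2 := Finset.sum_filter_add_sum_filter_not
    (Finset.univ.filter (fun v => v ≠ H ∧ ¬ par v = H)) (fun v => par (par v) = H) f
  rw [Finset.filter_filter, Finset.filter_filter] at e2
  rw [← e1, ← e2]
  unfold ch
  congr 1
  congr 1
  · refine Finset.sum_congr ?_ fun _ _ => rfl
    ext w
    simp [and_assoc]
  · refine Finset.sum_congr ?_ fun _ _ => rfl
    ext w
    simp [and_assoc]

open Classical in
theorem C2_fiber (f : V → V → ℤ) :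
    ∑ w ∈ Finset.univ.filter (fun w => w ≠ H ∧ par w ≠ H ∧ par (par w) = H), f (par w) w =
      ∑ u ∈ ch H par H, ∑ w ∈ ch H par u, f u w := by
  rw [← Finset.sum_fiberwise_of_maps_to (g := par) (t := ch H par H)]
  · refine Finset.sum_congr rfl fun u hu => ?_
    simp only [ch, Finset.mem_filter, Finset.mem_univ, true_and] at hu
    rw [Finset.filter_filter]
    refine Finset.sum_congr ?_ ?_
    · ext w
      simp only [ch, Finset.mem_filter, Finset.mem_univ, true_and]
      constructor
      · rintro ⟨⟨h1, -, -⟩, h4⟩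
        exact ⟨h1, h4⟩
      · rintro ⟨h1, h2⟩
        rw [h2]
        exact ⟨⟨h1, hu.1, hu.2⟩, rfl⟩
    · intro w hw
      simp only [ch, Finset.mem_filter, Finset.mem_univ, true_and] at hw
      rw [hw.2]
  · intro w hw
    simp only [ch, Finset.mem_filter, Finset.mem_univ, true_and] at hw ⊢
    exact ⟨hw.2.1, hw.2.2⟩

/-- By `S2_le`, `m * S2 - (5 m ^ 2 + m - 2) * S1` is at most the sum of `Pt m (av v)` over `v ≠ H` minus
`2 m` times the sum of `Lo` over the grandchildren of `H`. Split the vertices `v ≠ H` into the children of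
`H` (`m + 1` of them), the grandchildren (the union of the `ch u`, `u` a child of `H`) and the others,
for which `Pt m (av v) ≤ 0` (`Pt_nonpos`: `v`, `par v` are different from `H`, so
`av v ≤ m - 1` by `two_le`). With `children` and `edge_bound` the sum is at most
`(m + 1) * (- m ^ 2 (m ^ 2 - m - 1)) < - m ^ 2 (m + 2) (m - 1) ^ 2`. -/
theorem RT.C2 (h : RT G H par dep) (m : ℤ) (hm : 12 ≤ m)
    (h0 : ∑ v, q (xx G v) = m * (m + 1)) (hH : xx G H = m - 1) :
    m * S2 G H par - (5 * m ^ 2 + m - 2) * S1 G H par + m ^ 2 * (m + 2) * (m - 1) ^ 2 < 0 := by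
  classical
  have hH1 : 1 ≤ xx G H := by omega
  have h1 := h.S2_le hH1
  have h2 : m * S2 G H par ≤ m * (2 * SP G H par - 2 * SL G H par) :=
    mul_le_mul_of_nonneg_left h1 (by omega)
  -- the sum over all edges
  have h3 : 2 * m * SP G H par - (5 * m ^ 2 + m - 2) * S1 G H par =
      ∑ v ∈ Finset.univ.filter (fun v => v ≠ H), Pt m (av G par v) := by
    unfold SP S1
    rw [Finset.mul_sum, Finset.mul_sum, ← Finset.sum_sub_distrib]
    refine Finset.sum_congr rfl fun v _ => ?_
    unfold Pt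
    ring
  rw [C2_split (H := H) (par := par)] at h3
  have h4 : ∑ v ∈ Finset.univ.filter (fun w => w ≠ H ∧ par w ≠ H ∧ par (par w) ≠ H),
      Pt m (av G par v) ≤ 0 := by
    refine Finset.sum_nonpos fun v hv => ?_
    simp only [Finset.mem_filter, Finset.mem_univ, true_and] at hv
    refine Pt_nonpos hm (h.av_ge hH1 hv.1) ?_
    exact C2_sum_le hm (h.two_le m h0 hH hv.1 hv.2.1 (h.par_ne hv.1).symm)
  have h5 : ∑ v ∈ Finset.univ.filter (fun w => w ≠ H ∧ par w ≠ H ∧ par (par w) = H),
      Pt m (av G par v) - 2 * m * SL G H par =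
      ∑ u ∈ ch H par H, ∑ w ∈ ch H par u,
        (Pt m (av G par w) - 2 * m * Lo (av G par u) (av G par w)) := by
    rw [← C2_fiber (H := H) (par := par)
      (fun u w => Pt m (av G par w) - 2 * m * Lo (av G par u) (av G par w)),
      Finset.sum_sub_distrib]
    unfold SL
    rw [Finset.mul_sum]
  have h6 : ∑ u ∈ ch H par H, (Pt m (av G par u) + ∑ w ∈ ch H par u,
        (Pt m (av G par w) - 2 * m * Lo (av G par u) (av G par w))) ≤
      ∑ u ∈ ch H par H, - (m ^ 2 * (m ^ 2 - m - 1)) := by
    refine Finset.sum_le_sum fun u hu => ?_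
    simp only [ch, Finset.mem_filter, Finset.mem_univ, true_and] at hu
    have h7 := h.children m hm h0 hH hu.1 hu.2
    have h8 := edge_bound hm (h.xx_ge hu.1) (C2_one_le m h0 hH hu.1)
    have h9 : av G par u = m - 1 + xx G u := by
      unfold av
      rw [hu.2, hH]
      ring
    rw [h9] at h7 ⊢
    linarith
  rw [Finset.sum_add_distrib, Finset.sum_const, nsmul_eq_mul] at h6
  have h10 : ((ch H par H).card : ℤ) = m + 1 := by
    have := h.card_ch_root
    omega
  rw [h10] at h6
  have h11 : (m + 1) * -(m ^ 2 * (m ^ 2 - m - 1)) + m ^ 2 * (m + 2) * (m - 1) ^ 2 =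
      - (m ^ 2 * (m - 3)) := by ring
  have h12 : 0 < m ^ 2 * (m - 3) := by
    have : 0 < m - 3 := by omega
    positivity
  linarith

end Pool.Agent.Lib.MP_a38fe7_coS
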