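import Pool.Agent.Lib.MP_a38fe7_coS.Defs

/-!
# Polynomial inequalities for the case of a hub of degree one less (2)
-/

set_option autoImplicit false

namespace Pool.Agent.Lib.MP_a38fe7_coS

open Pool.Agent.Lib.MP_a38fe7_co

theorem PolyA2_Pt {m a : ℤ} (ha : 0 ≤ a) :
    Pt m a = 2 * m * (a + 2) * (a * (2 * a + 1)) - (5 * m ^ 2 + m - 2) * (a * (a + 1)) := by
  unfold Pt phi q
  rw [max_eq_left ha]

theorem PolyA2_Lo {a b : ℤ} (ha : 0 ≤ a) (hb : 0 ≤ b) : Lo a b = (a - b) ^ 2 := by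
  unfold Lo phi q
  rw [max_eq_left ha, max_eq_left hb]
  ring

theorem PolyA2_step {m a : ℤ} (hm : 12 ≤ m) (ha : 0 ≤ a) (h : 2 * (a + 1) ≤ m) :
    2 * m * (2 * m - 1) ≤ Pt m a - Pt m (a + 1) := by
  rw [PolyA2_Pt ha, PolyA2_Pt (by linarith)]
  have h1 : 0 ≤ m * (a * (m - 2 * (a + 1))) := by
    have : 0 ≤ m - 2 * (a + 1) := by linarith
    positivity
  have h2 : 0 ≤ (a + 1) * (2 * m ^ 2 - 9 * m - 2) := by
    have h3 : 0 ≤ 2 * m ^ 2 - 9 * m - 2 := by nlinarith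
    have h4 : 0 ≤ a + 1 := by linarith
    positivity
  have h5 : Pt m a = Pt m a := rfl
  have h6 : 2 * m * (a + 2) * (a * (2 * a + 1)) - (5 * m ^ 2 + m - 2) * (a * (a + 1)) -
      (2 * m * (a + 1 + 2) * ((a + 1) * (2 * (a + 1) + 1)) -
        (5 * m ^ 2 + m - 2) * ((a + 1) * (a + 1 + 1))) - 2 * m * (2 * m - 1) =
      2 * (3 * (m * (a * (m - 2 * (a + 1)))) + (a + 1) * (2 * m ^ 2 - 9 * m - 2)
        + m ^ 2 + 2 * m) := by
    ring
  nlinarith [sq_nonneg m]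

theorem PolyA2_tele {m z : ℤ} (hm : 12 ≤ m) (hz : 1 ≤ z) (n : ℕ) (h : 2 * (z + n) ≤ m) :
    ((n : ℤ) + 1) * (2 * m * (2 * m - 1)) ≤ Pt m (z - 1) - Pt m (z + n) := by
  induction n with
  | zero =>
    have h1 := PolyA2_step (m := m) (a := z - 1) hm (by linarith) (by push_cast at h; linarith)
    have h2 : z - 1 + 1 = z := by ring
    rw [h2] at h1
    simpa using h1
  | succ n ih =>
    push_cast at h
    have h1 := ih (by linarith)
    have h2 := PolyA2_step (m := m) (a := z + n) hm (by positivity) (by linarith)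
    have h3 : z + ((n + 1 : ℕ) : ℤ) = z + n + 1 := by push_cast; ring
    rw [h3]
    push_cast
    linarith

/-- `b = -1`: equality (`Lo (m - 1 + z) (z - 1) = m ^ 2`). `b ≥ 0`:
`Lo (m - 1 + z) (z + b) = (m - 1 - b) ^ 2`, and the claim is
`2 m (1 + b) (2 m - 1 - b) ≤ Pt m (z - 1) - Pt m (z + b)`. For `a ≥ 0`,
`Pt m a - Pt m (a + 1) = 2 (a + 1) (5 m ^ 2 + m - 2) - 2 m (6 a ^ 2 + 16 a + 9) ≥ 2 m (2 m - 1)` as long
as `a + 1 ≤ m / 2` (concave in `a`: check `a = 0` and `a = m / 2 - 1`), and `z + b ≤ m / 2` because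
`z (z + 1) + b (b + 1) ≤ 2 m`, `m ≥ 12` (`(z + b) ^ 2 ≤ 2 (z ^ 2 + b ^ 2)`). Induction on `b`. -/
theorem child_pos {m z b : ℤ} (hm : 12 ≤ m) (hz : 1 ≤ z) (hb : -1 ≤ b)
    (hq : q z + q b ≤ 2 * m) :
    Pt m (z + b) - 2 * m * Lo (m - 1 + z) (z + b) ≤ Pt m (z - 1) - 2 * m ^ 3 := by
  rw [PolyA2_Lo (by linarith) (by linarith)]
  rcases hb.lt_or_eq with hb1 | hb1
  · have hb0 : 0 ≤ b := by linarith
    obtain ⟨n, rfl⟩ := Int.eq_ofNat_of_zero_le hb0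
    unfold q at hq
    have hs : 2 * (z + (n : ℤ)) ≤ m := by
      by_contra hlt
      push Not at hlt
      nlinarith [sq_nonneg (z - (n : ℤ))]
    have h1 := PolyA2_tele hm hz n hs
    have h2 : (m - 1 + z - (z + (n : ℤ))) ^ 2 = (m - 1 - n) ^ 2 := by ring
    rw [h2]
    have h3 : 0 ≤ 2 * m * ((n : ℤ) * (n + 1)) := by positivity
    nlinarith
  · rw [← hb1]
    have h1 : z + -1 = z - 1 := by ring
    rw [h1]
    have h2 : m - 1 + z - (z - 1) = m := by ring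
    rw [h2]
    apply le_of_eq
    ring

end Pool.Agent.Lib.MP_a38fe7_coS
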