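import Pool.Agent.Lib.MP_a38fe7_coS.Defs

/-!
# Polynomial inequalities for the case of a hub of degree one less (3)
-/

set_option autoImplicit false

namespace Pool.Agent.Lib.MP_a38fe7_coS

open Pool.Agent.Lib.MP_a38fe7_co

private theorem PolyA3_D {m z : ℤ} (hm : 12 ≤ m) (hz : 1 ≤ z) (hq : z ^ 2 + z ≤ 2 * m) :
    0 ≤ m ^ 3 + m ^ 2 * (5 * z ^ 3 - 7 * z ^ 2 - 4 * z + 2) -
      m * (4 * z ^ 4 + 5 * z ^ 3 - 9 * z ^ 2 + 2) - 2 * z * (z - 1) * (z + 2) := by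
  by_cases h5 : 5 ≤ z
  · obtain ⟨t, rfl⟩ : ∃ t, z = 5 + t := ⟨z - 5, by ring⟩
    have ht : 0 ≤ t := by linarith
    have h1 : 0 ≤ 5 * (5 + t) ^ 3 - 7 * (5 + t) ^ 2 - 4 * (5 + t) + 2 := by
      ring_nf; positivity
    have h3 : 0 ≤ ((5 + t) ^ 2 + (5 + t)) * (5 * (5 + t) ^ 3 - 7 * (5 + t) ^ 2 - 4 * (5 + t) + 2) -
        2 * (4 * (5 + t) ^ 4 + 5 * (5 + t) ^ 3 - 9 * (5 + t) ^ 2 + 2) := by
      ring_nf; positivity
    have h2 : ((5 + t) ^ 2 + (5 + t)) * (5 * (5 + t) ^ 3 - 7 * (5 + t) ^ 2 - 4 * (5 + t) + 2) ≤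
        2 * m * (5 * (5 + t) ^ 3 - 7 * (5 + t) ^ 2 - 4 * (5 + t) + 2) :=
      mul_le_mul_of_nonneg_right hq h1
    have h4 : ((5 + t) ^ 2 + (5 + t)) ^ 3 ≤ (2 * m) ^ 3 :=
      pow_le_pow_left₀ (by positivity) hq 3
    have h6 : 0 ≤ ((5 + t) ^ 2 + (5 + t)) ^ 3 - 16 * (5 + t) * ((5 + t) - 1) * ((5 + t) + 2) := by
      ring_nf; positivity
    have h7 : 0 ≤ m * (2 * m * (5 * (5 + t) ^ 3 - 7 * (5 + t) ^ 2 - 4 * (5 + t) + 2) -
        2 * (4 * (5 + t) ^ 4 + 5 * (5 + t) ^ 3 - 9 * (5 + t) ^ 2 + 2)) :=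
      mul_nonneg (by linarith) (by linarith)
    nlinarith [h7, h4, h6]
  · obtain ⟨s, rfl⟩ : ∃ s, m = 12 + s := ⟨m - 12, by ring⟩
    have hs : 0 ≤ s := by linarith
    have hz4 : z ≤ 4 := by omega
    interval_cases z
    · ring_nf; positivity
    · ring_nf; positivity
    · ring_nf; positivity
    · ring_nf; positivity

/-- `z = -1, 0`: direct. For `z ≥ 1` the claim is (expand)
`0 ≤ m ^ 3 + m ^ 2 (5 z ^ 3 - 7 z ^ 2 - 4 z + 2) - m (4 z ^ 4 + 5 z ^ 3 - 9 z ^ 2 + 2) - 2 z (z - 1) (z + 2)`,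
with `z ^ 2 + z ≤ 2 m`, `m ≥ 12` (checked numerically for all `m < 400`). -/
theorem edge_bound {m z : ℤ} (hm : 12 ≤ m) (hz : -1 ≤ z) (hq : q z ≤ 2 * m) :
    Pt m (m - 1 + z) + (z + 1) * chi m z ≤ - (m ^ 2 * (m ^ 2 - m - 1)) := by
  unfold Pt phi
  have h1 : max (m - 1 + z) 0 = m - 1 + z := max_eq_left (by linarith)
  rw [h1]
  rcases lt_or_ge z 1 with h2 | h2
  · rcases lt_or_ge z 0 with h3 | h3
    · have h4 : z = -1 := by omega
      subst h4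
      have h5 : 0 ≤ m ^ 3 - 6 * m ^ 2 + 8 * m - 4 := by
        obtain ⟨s, rfl⟩ : ∃ s, m = 12 + s := ⟨m - 12, by ring⟩
        have hs : 0 ≤ s := by linarith
        ring_nf; positivity
      unfold q
      nlinarith [h5]
    · have h4 : z = 0 := by omega
      subst h4
      have h5 : 0 ≤ m ^ 3 - 2 * m ^ 2 + 2 * m := by
        obtain ⟨s, rfl⟩ : ∃ s, m = 12 + s := ⟨m - 12, by ring⟩
        have hs : 0 ≤ s := by linarith
        ring_nf; positivity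
      unfold q chi
      rw [if_pos rfl]
      nlinarith [h5]
  · have h5 := PolyA3_D hm h2 (by unfold q at hq; linarith)
    unfold chi Pt phi
    rw [if_neg (by omega)]
    have h6 : max (z - 1) 0 = z - 1 := max_eq_left (by linarith)
    rw [h6]
    unfold q
    linarith

end Pool.Agent.Lib.MP_a38fe7_coS
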