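import Pool.Agent.Lib.MP_a38fe7_coS.NbSum

/-!
# The sum over the pairs of adjacent edges: an upper bound
-/

set_option autoImplicit false

namespace Pool.Agent.Lib.MP_a38fe7_coS

open Pool.Agent.Lib.MP_a38fe7_co

variable {V : Type} [Fintype V] {G : SimpleGraph V} {H : V} {par : V → V} {dep : V → ℕ}

theorem S2le_Lo_comm (a b : ℤ) : Lo a b = Lo b a := by
  unfold Lo
  rw [add_comm (phi a), add_comm a]

theorem S2le_nb_comm {V : Type} {par : V → V} {v w : V} (h : nb par v w) : nb par w v := by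
  refine ⟨h.1.symm, ?_⟩
  rcases h.2 with h | h | h
  · exact Or.inl h.symm
  · exact Or.inr (Or.inr h)
  · exact Or.inr (Or.inl h)

/-- In `S2` write `q (av v + av w) = phi (av v) + phi (av w) - Lo`; by symmetry and `card_nb` the sum
of `phi (av v) + phi (av w)` is `2 * ∑ (av v + 2) * phi (av v)`; `Lo ≥ 0` for all adjacent pairs, and
for every `w` in the last sum the two ordered pairs `(par w, w)`, `(w, par w)` are kept (they are
different for different `w`, as `par (par w) = H ≠ w`). -/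
theorem RT.S2_le (h : RT G H par dep) (hH : 1 ≤ xx G H) :
    S2 G H par ≤ 2 * SP G H par - 2 * SL G H par := by
  classical
  set A : Finset V := Finset.univ.filter (fun v => v ≠ H) with hA
  set B : V → Finset V := fun v => Finset.univ.filter (fun w => w ≠ H ∧ nb par v w) with hB
  set a : V → ℤ := av G par with ha
  have hmA : ∀ v, v ∈ A ↔ v ≠ H := fun v => by rw [hA, Finset.mem_filter]; simp
  have hmB : ∀ v w, w ∈ B v ↔ w ≠ H ∧ nb par v w := fun v w => by
    rw [hB]; simp
  have hcard : ∀ v ∈ A, ((B v).card : ℤ) = a v + 2 := by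
    intro v hv
    have := h.card_nb ((hmA v).1 hv)
    convert this using 2
  have hS2 : S2 G H par = ∑ v ∈ A, ∑ w ∈ B v, q (a v + a w) := by
    unfold S2
    refine Finset.sum_congr ?_ fun v _ => Finset.sum_congr ?_ fun w _ => rfl
    · ext v; simp [hA]
    · ext w; simp [hB]
  have hSP : SP G H par = ∑ v ∈ A, (a v + 2) * phi (a v) := by
    unfold SP
    refine Finset.sum_congr ?_ fun v _ => rfl
    ext v; simp [hA]
  set G2 : Finset V := Finset.univ.filter (fun w => w ≠ H ∧ par w ≠ H ∧ par (par w) = H) with hG2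
  have hSL : SL G H par = ∑ w ∈ G2, Lo (a (par w)) (a w) := by
    unfold SL
    refine Finset.sum_congr ?_ fun v _ => rfl
    ext v; simp [hG2]
  have hmG : ∀ w, w ∈ G2 ↔ w ≠ H ∧ par w ≠ H ∧ par (par w) = H := fun w => by
    rw [hG2, Finset.mem_filter]; simp
  have e1 : ∑ v ∈ A, ∑ _w ∈ B v, phi (a v) = SP G H par := by
    rw [hSP]
    refine Finset.sum_congr rfl fun v hv => ?_
    rw [Finset.sum_const, nsmul_eq_mul, hcard v hv]
  have e2 : ∑ v ∈ A, ∑ w ∈ B v, phi (a w) = SP G H par := by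
    rw [← e1]
    refine Finset.sum_comm' fun v w => ?_
    rw [hmA, hmB, hmA, hmB]
    constructor
    · rintro ⟨h1, h2, h3⟩
      exact ⟨⟨h1, S2le_nb_comm h3⟩, h2⟩
    · rintro ⟨⟨h1, h3⟩, h2⟩
      exact ⟨h1, h2, S2le_nb_comm h3⟩
  have e3 : S2 G H par = 2 * SP G H par - ∑ v ∈ A, ∑ w ∈ B v, Lo (a v) (a w) := by
    have : ∑ v ∈ A, ∑ w ∈ B v, Lo (a v) (a w) =
        ∑ v ∈ A, ∑ w ∈ B v, (phi (a v) + phi (a w) - q (a v + a w)) := rfl
    rw [this]
    simp only [Finset.sum_sub_distrib, Finset.sum_add_distrib]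
    rw [e1, e2, ← hS2]
    ring
  have hnn : ∀ v ∈ A, ∀ w ∈ B v, 0 ≤ Lo (a v) (a w) := by
    intro v hv w hw
    rw [hmA] at hv
    rw [hmB] at hw
    exact Lo_nonneg (h.av_ge hH hv) (h.av_ge hH hw.1) (h.nonneg_of_nb hH hv hw.1 hw.2)
  have e4 : 2 * SL G H par ≤ ∑ v ∈ A, ∑ w ∈ B v, Lo (a v) (a w) := by
    rw [Finset.sum_sigma']
    set f : (Σ _ : V, V) → ℤ := fun x => Lo (a x.1) (a x.2) with hf
    set I1 : Finset (Σ _ : V, V) := G2.image (fun w => ⟨par w, w⟩) with hI1
    set I2 : Finset (Σ _ : V, V) := G2.image (fun w => ⟨w, par w⟩) with hI2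
    have s1 : ∑ x ∈ I1, f x = SL G H par := by
      rw [hSL, hI1, Finset.sum_image]
      intro w _ w' _ hww
      have h2 := congrArg Sigma.snd hww
      exact h2
    have s2 : ∑ x ∈ I2, f x = SL G H par := by
      rw [hSL, hI2, Finset.sum_image]
      · exact Finset.sum_congr rfl fun w _ => S2le_Lo_comm _ _
      · intro w _ w' _ hww
        have h2 := congrArg Sigma.fst hww
        exact h2
    have hdis : Disjoint I1 I2 := by
      rw [Finset.disjoint_left]
      intro x hx1 hx2
      rw [hI1, Finset.mem_image] at hx1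
      rw [hI2, Finset.mem_image] at hx2
      obtain ⟨w, hw, rfl⟩ := hx1
      obtain ⟨w', hw', hww⟩ := hx2
      have g1 : w' = par w := congrArg Sigma.fst hww
      have g2 : par w' = w := congrArg Sigma.snd hww
      rw [hmG] at hw
      rw [g1, hw.2.2] at g2
      exact hw.1 g2.symm
    have hsub : I1 ∪ I2 ⊆ A.sigma B := by
      intro x hx
      rw [Finset.mem_sigma, hmA, hmB]
      rcases Finset.mem_union.1 hx with hx | hx
      · rw [hI1, Finset.mem_image] at hx
        obtain ⟨w, hw, rfl⟩ := hx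
        rw [hmG] at hw
        refine ⟨hw.2.1, hw.1, ?_, Or.inr (Or.inr rfl)⟩
        intro hpw
        have hpw' : par w = w := hpw
        rw [hpw', hpw'] at hw
        exact hw.1 hw.2.2
      · rw [hI2, Finset.mem_image] at hx
        obtain ⟨w, hw, rfl⟩ := hx
        rw [hmG] at hw
        refine ⟨hw.1, hw.2.1, ?_, Or.inr (Or.inl rfl)⟩
        intro hpw
        have hpw' : par w = w := hpw.symm
        rw [hpw', hpw'] at hw
        exact hw.1 hw.2.2
    have hle : ∑ x ∈ I1 ∪ I2, f x ≤ ∑ x ∈ A.sigma B, f x := by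
      refine Finset.sum_le_sum_of_subset_of_nonneg hsub fun x hx _ => ?_
      rw [Finset.mem_sigma] at hx
      exact hnn x.1 hx.1 x.2 hx.2
    rw [Finset.sum_union hdis, s1, s2] at hle
    linarith
  rw [e3]
  linarith

end Pool.Agent.Lib.MP_a38fe7_coS
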