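import Pool.Agent.Lib.MP_a38fe7_coS.PolyA
import Pool.Agent.Lib.MP_a38fe7_coS.PolyA2
import Pool.Agent.Lib.MP_a38fe7_coS.PolyA3
import Pool.Agent.Lib.MP_a38fe7_coS.S2le

/-!
# The case of a hub of degree one less: the children
-/

set_option autoImplicit false

namespace Pool.Agent.Lib.MP_a38fe7_coS

open Pool.Agent.Lib.MP_a38fe7_co

variable {V : Type} [Fintype V] {G : SimpleGraph V} {H : V} {par : V → V} {dep : V → ℕ}

theorem C2a_q_nonneg (z : ℤ) : 0 ≤ q z := by
  unfold q
  rcases le_or_gt 0 z with h | h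
  · exact mul_nonneg h (by omega)
  · exact mul_nonneg_of_nonpos_of_nonpos h.le (by omega)

/-- The sum over the other vertices. -/
theorem RT.two_le (h : RT G H par dep) (m : ℤ) (h0 : ∑ v, q (xx G v) = m * (m + 1))
    (hH : xx G H = m - 1) {v w : V} (hv : v ≠ H) (hw : w ≠ H) (hvw : v ≠ w) :
    q (xx G v) + q (xx G w) ≤ 2 * m := by
  classical
  have h1 : ∑ x ∈ ({H, v, w} : Finset V), q (xx G x) ≤ ∑ x, q (xx G x) :=
    Finset.sum_le_sum_of_subset_of_nonneg (Finset.subset_univ _) fun i _ _ => C2a_q_nonneg _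
  rw [Finset.sum_insert (by simp [hv.symm, hw.symm]), Finset.sum_insert (by simp [hvw]),
    Finset.sum_singleton, h0, hH] at h1
  have h2 : q (m - 1) = m * (m - 1) := by unfold q; ring
  rw [h2] at h1
  linarith

/-- The contribution of the children of a neighbour `u` of the root: every child `w` has
`av w = xx w + xx u`, `av u = xx u + (m - 1)`; use `child_zero`, `child_pos` (with `two_le`), and
`(ch u).card = xx u + 1`. -/
theorem RT.children (h : RT G H par dep) (m : ℤ) (hm : 12 ≤ m)
    (h0 : ∑ v, q (xx G v) = m * (m + 1)) (hH : xx G H = m - 1) {u : V} (hu : u ≠ H)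
    (hp : par u = H) :
    ∑ w ∈ ch H par u, (Pt m (av G par w) - 2 * m * Lo (av G par u) (av G par w)) ≤
      (xx G u + 1) * chi m (xx G u) := by
  classical
  have hc : xx G u + 1 = ((ch H par u).card : ℤ) := by rw [h.card_ch hu]; ring
  rw [hc, ← nsmul_eq_mul]
  refine Finset.sum_le_card_nsmul _ _ _ fun w hw => ?_
  have hw' : w ≠ H ∧ par w = u := by simpa [ch] using hw
  obtain ⟨hwH, hwu⟩ := hw'
  have hz : 0 ≤ xx G u := by
    have := h.xx_par hwH (by rw [hwu]; exact hu)
    rwa [hwu] at this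
  have huw : u ≠ w := by
    intro e
    exact h.par_ne hwH (by rw [hwu, e])
  have h2 := h.two_le m h0 hH hu hwH huw
  have hb := h.xx_ge hwH
  have e1 : av G par w = xx G u + xx G w := by
    unfold av; rw [hwu]; ring
  have e2 : av G par u = m - 1 + xx G u := by
    unfold av; rw [hp, hH]; ring
  rw [e1, e2]
  unfold chi
  split_ifs with hz0
  · rw [hz0] at h2 ⊢
    have h3 : q 0 = 0 := by simp [q]
    rw [h3, zero_add] at h2
    rw [zero_add, add_zero]
    exact child_zero hm hb h2
  · exact child_pos hm (by omega) hb h2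

end Pool.Agent.Lib.MP_a38fe7_coS
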