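import Pool.Agent.Lib.MP_a38fe7_coS.Defs

/-!
# Polynomial inequalities for smaller hubs (2)
-/

set_option autoImplicit false

namespace Pool.Agent.Lib.MP_a38fe7_coS

open Pool.Agent.Lib.MP_a38fe7_co

/-- `z ≤ m - 2` or `Y ≤ m - 2`: `(m - z) (z + 1) ≥ 2 Y`. -/
theorem b4 {m Y z : ℤ} (hz : 1 ≤ z) (hzY : z ≤ Y) (hY : Y ≤ m - 2) :
    0 ≤ q z * (m - z) - 2 * (z * Y) := by
  have h1 : 0 ≤ (z - 1) * (m - z - 2) := mul_nonneg (by linarith) (by linarith)
  have h2 : 0 ≤ (z + 1) * (m - z) - 2 * Y := by nlinarith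
  have h3 : 0 ≤ z * ((z + 1) * (m - z) - 2 * Y) := mul_nonneg (by linarith) h2
  have h4 : q z * (m - z) - 2 * (z * Y) = z * ((z + 1) * (m - z) - 2 * Y) := by
    unfold q
    ring
  rw [h4]
  exact h3

/-- `(m - z) (z + 1) - 2 (m - 1) = (z - 1) (m - z - 2)`. -/
theorem b5 {m z : ℤ} (hm : 2 ≤ m) (hz : 1 ≤ z) (hzY : z ≤ m - 1) :
    - ((m - 2) * q z) ≤ m * (q z * (m - z) - 2 * (z * (m - 1))) := by
  rcases eq_or_lt_of_le hzY with h | h
  · subst h
    unfold q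
    apply le_of_eq
    ring
  · have hz2 : z ≤ m - 2 := by linarith
    have h0 := b4 (m := m) (Y := m - 2) hz hz2 le_rfl
    have h1 : 0 ≤ (z - 1) * (m - z - 2) := mul_nonneg (by linarith) (by linarith)
    have h2 : 0 ≤ z * ((z - 1) * (m - z - 2)) := mul_nonneg (by linarith) h1
    have h3 : 0 ≤ m * (z * ((z - 1) * (m - z - 2))) := mul_nonneg (by linarith) h2
    have h4 : m * (q z * (m - z) - 2 * (z * (m - 1))) = m * (z * ((z - 1) * (m - z - 2))) := by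
      unfold q
      ring
    have h5 : 0 ≤ (m - 2) * q z := by
      unfold q
      exact mul_nonneg (by linarith) (mul_nonneg (by linarith) (by linarith))
    rw [h4]
    linarith

/-- The algebra of the starlike case. -/
theorem D_alg {m N n s1 s2 : ℤ} (hm : 1 ≤ m) (hN : 0 ≤ N) (hn : 0 ≤ n) (hNn : N + n = m + 2)
    (h1 : s1 = N * (m * (m + 1)) + n * (m * (m - 1)))
    (h2 : N * (N - 1) * (2 * m * (2 * m + 1)) + 2 * N * n * ((2 * m - 1) * (2 * m)) +
      n * (n - 1) * ((2 * m - 2) * (2 * m - 1)) + 2 * N * (m * (m - 1)) ≤ s2) :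
    0 ≤ m * s2 - (5 * m ^ 2 + m - 2) * s1 + m ^ 2 * (m + 2) * (m - 1) ^ 2 := by
  obtain rfl : n = m + 2 - N := by linarith
  have h3 := mul_le_mul_of_nonneg_left h2 (by linarith : (0 : ℤ) ≤ m)
  have h4 : 0 ≤ N * (N - 1) := by
    rcases eq_or_lt_of_le hN with h | h
    · rw [← h]
      norm_num
    · exact mul_nonneg hN (by linarith)
  have h5 : 0 ≤ 2 * m * (N * (N - 1)) := mul_nonneg (by linarith) h4
  have h6 : m * (N * (N - 1) * (2 * m * (2 * m + 1)) + 2 * N * (m + 2 - N) *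
      ((2 * m - 1) * (2 * m)) + (m + 2 - N) * (m + 2 - N - 1) * ((2 * m - 2) * (2 * m - 1)) +
      2 * N * (m * (m - 1))) - (5 * m ^ 2 + m - 2) * s1 + m ^ 2 * (m + 2) * (m - 1) ^ 2 =
      2 * m * (N * (N - 1)) := by
    rw [h1]
    ring
  linarith

end Pool.Agent.Lib.MP_a38fe7_coS
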