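import Pool.Agent.Lib.MP_a38fe7_coS.C1
import Pool.Agent.Lib.MP_a38fe7_coS.PolyB2

/-!
# Smaller hubs: long legs
-/

set_option autoImplicit false

namespace Pool.Agent.Lib.MP_a38fe7_coS

open Pool.Agent.Lib.MP_a38fe7_co

variable {V : Type} [Fintype V] {G : SimpleGraph V} {H : V} {par : V → V} {dep : V → ℕ}

open Classical in
theorem C3_diff (h : RT G H par dep) (m : ℤ) (h0 : ∑ v, q (xx G v) = m * (m + 1)) :
    (m + 2) * (m * (m + 1)) - S1 G H par = q (xx G H) * (m - xx G H) +
      ∑ v ∈ Finset.univ.erase H,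
        (q (xx G v) * (m - xx G v) - 2 * (xx G v * xx G (par v))) := by
  have hSX : SX G H par = ∑ v ∈ Finset.univ.erase H, xx G v * xx G (par v) := by
    unfold SX
    refine Finset.sum_congr ?_ fun _ _ => rfl
    ext v
    simp
  have e1 : ∑ v, q (xx G v) * (m - xx G v) = q (xx G H) * (m - xx G H) +
      ∑ v ∈ Finset.univ.erase H, q (xx G v) * (m - xx G v) :=
    (Finset.add_sum_erase _ _ (Finset.mem_univ H)).symm
  have e2 : ∑ v, q (xx G v) * (m - xx G v) =
      (m + 2) * ∑ v, q (xx G v) - ∑ v, (xx G v + 2) * q (xx G v) := by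
    rw [Finset.mul_sum, ← Finset.sum_sub_distrib]
    refine Finset.sum_congr rfl fun v _ => ?_
    ring
  rw [h.S1_eq, ← h0, hSX, Finset.sum_sub_distrib, ← Finset.mul_sum]
  linarith

/-- `(m + 2) S0 - S1 = ∑_v q (x_v) (m - x_v) - 2 ∑_{v ≠ H} x_v x_{par v}`. With `Y = xx H`: a vertex
`v ≠ H` with `x_v ≤ 0` contributes `≥ 0`, one with `x_v = z ≥ 1` at least `q z (m - z) - 2 z Y`. If `Y ≤ m - 2`
use `b4` and the contribution `q Y (m - Y) > 0` of `H`. If `Y = m - 1`, then `∑_{v ≠ H} q = 2 m`, and `b5`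
gives the total `≥ m (m - 1) - (m - 2) * 2 > 0`. -/
theorem RT.C3 (h : RT G H par dep) (m : ℤ)
    (h0 : ∑ v, q (xx G v) = m * (m + 1)) (hY : 1 ≤ xx G H) (hmax : ∀ v, xx G v ≤ xx G H)
    (hY2 : xx G H ≤ m - 1) : S1 G H par < (m + 2) * (m * (m + 1)) := by
  classical
  have hd := C3_diff h m h0
  have hpar : ∀ v, v ≠ H → 0 ≤ xx G (par v) := by
    intro v hv
    by_cases hp : par v = H
    · rw [hp]; omega
    · exact h.xx_par hv hp
  -- the terms with `x_v ≤ 0`
  have hneg : ∀ v, v ≠ H → xx G v ≤ 0 → q (xx G v) = 0 ∧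
      0 ≤ q (xx G v) * (m - xx G v) - 2 * (xx G v * xx G (par v)) := by
    intro v hv h1
    have h2 := h.xx_ge hv
    have h3 := hpar v hv
    rcases (show xx G v = 0 ∨ xx G v = -1 by omega) with h4 | h4
    · rw [h4]
      simp [q]
    · rw [h4]
      refine ⟨by simp [q], ?_⟩
      have : q (-1) = 0 := by simp [q]
      rw [this]
      linarith
  have hpos : ∀ v, v ≠ H → 1 ≤ xx G v →
      q (xx G v) * (m - xx G v) - 2 * (xx G v * xx G H) ≤
        q (xx G v) * (m - xx G v) - 2 * (xx G v * xx G (par v)) := by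
    intro v hv h1
    have h2 := mul_le_mul_of_nonneg_left (hmax (par v)) (show 0 ≤ xx G v by omega)
    linarith
  rcases (show xx G H ≤ m - 2 ∨ xx G H = m - 1 by omega) with hY3 | hY3
  · have h1 : 0 ≤ ∑ v ∈ Finset.univ.erase H,
        (q (xx G v) * (m - xx G v) - 2 * (xx G v * xx G (par v))) := by
      refine Finset.sum_nonneg fun v hv => ?_
      have hv' : v ≠ H := (Finset.mem_erase.1 hv).1
      rcases (show xx G v ≤ 0 ∨ 1 ≤ xx G v by omega) with h2 | h2
      · exact (hneg v hv' h2).2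
      · exact (b4 h2 (hmax v) hY3).trans (hpos v hv' h2)
    have h2 : 0 < q (xx G H) * (m - xx G H) := by
      refine mul_pos ?_ (by omega)
      unfold q
      exact mul_pos (by omega) (by omega)
    linarith
  · have hm : 2 ≤ m := by omega
    have hsum : ∑ v ∈ Finset.univ.erase H, q (xx G v) = 2 * m := by
      have e := Finset.add_sum_erase Finset.univ (fun v => q (xx G v)) (Finset.mem_univ H)
      rw [h0, hY3] at e
      have e2 : q (m - 1) = (m - 1) * m := by unfold q; ring
      rw [e2] at e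
      linarith
    have h1 : - ((m - 2) * ∑ v ∈ Finset.univ.erase H, q (xx G v)) ≤
        m * ∑ v ∈ Finset.univ.erase H,
          (q (xx G v) * (m - xx G v) - 2 * (xx G v * xx G (par v))) := by
      rw [Finset.mul_sum, Finset.mul_sum, ← Finset.sum_neg_distrib]
      refine Finset.sum_le_sum fun v hv => ?_
      have hv' : v ≠ H := (Finset.mem_erase.1 hv).1
      rcases (show xx G v ≤ 0 ∨ 1 ≤ xx G v by omega) with h2 | h2
      · obtain ⟨h3, h4⟩ := hneg v hv' h2
        have h5 := mul_nonneg (show 0 ≤ m by omega) h4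
        rw [h3] at h5 ⊢
        linarith
      · have h3 := b5 hm h2 (hY3 ▸ hmax v)
        have h4 := mul_le_mul_of_nonneg_left (hpos v hv' h2) (show 0 ≤ m by omega)
        rw [hY3] at h4
        linarith
    rw [hsum] at h1
    rw [hY3] at hd
    have e2 : q (m - 1) * (m - (m - 1)) = (m - 1) * m := by unfold q; ring
    rw [e2] at hd
    have h2 : 0 < m * ((m + 2) * (m * (m + 1)) - S1 G H par) := by
      rw [hd, mul_add]
      have h5 : 0 < m * m - 3 * m + 4 := by nlinarith [sq_nonneg (m - 2)]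
      have h6 : 0 < m * (m * m - 3 * m + 4) := mul_pos (by omega) h5
      linarith
    have h3 := (mul_pos_iff_of_pos_left (show 0 < m by omega)).1 h2
    linarith

end Pool.Agent.Lib.MP_a38fe7_coS
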