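import Pool.Agent.Lib.MP_a38fe7_coS.Defs

/-!
# Counting the vertices
-/

set_option autoImplicit false

namespace Pool.Agent.Lib.MP_a38fe7_coS

open Pool.Agent.Lib.MP_a38fe7_co

/-- `∑ (deg - 2) = -2` in a tree, all degrees are at least one (`m ≥ 2` excludes one vertex), so the
number of leaves is `2 + ∑_{x_v ≥ 1} x_v` and `card V ≥ 2 + ∑_{x_v ≥ 1} (x_v + 1)`. As
`(m - 1) ∑_{x_v ≥ 1} (x_v + 1) ≥ ∑ x_v (x_v + 1) = m (m + 1) > (m - 1) (m + 1)`, that sum is at least
`m + 2`. -/
theorem C4 {V : Type} [Fintype V] {G : SimpleGraph V} (hG : G.IsTree) (m : ℤ) (hm : 2 ≤ m)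
    (h0 : ∑ v, q (xx G v) = m * (m + 1)) (hmax : ∀ v, xx G v ≤ m - 1) :
    m + 4 ≤ (Fintype.card V : ℤ) := by
  classical
  have hdeg : ∀ v, ((G.neighborSet v).ncard : ℤ) = G.degree v := by
    intro v
    have h : (G.neighborSet v).ncard = G.degree v := by
      rw [← G.card_neighborSet_eq_degree v, ← Nat.card_eq_fintype_card, Nat.card_coe_set_eq]
    exact_mod_cast h
  have hxx : ∀ v, xx G v = (G.degree v : ℤ) - 2 := fun v => by rw [xx, hdeg]
  have hcard := hG.card_edgeFinset
  have hsum := G.sum_degrees_eq_twice_card_edges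
  have hS : ∑ v, xx G v = -2 := by
    have h1 : ∑ v, xx G v = (∑ v, (G.degree v : ℤ)) - 2 * (Fintype.card V : ℤ) := by
      rw [Finset.sum_congr rfl fun v _ => hxx v, Finset.sum_sub_distrib]
      simp [mul_comm]
    have h2 : (∑ v, (G.degree v : ℤ)) = 2 * ((G.edgeFinset.card : ℕ) : ℤ) := by
      exact_mod_cast hsum
    have h3 : ((G.edgeFinset.card : ℕ) : ℤ) + 1 = (Fintype.card V : ℤ) := by
      exact_mod_cast hcard
    rw [h1, h2]
    linarith
  have hnt : Nontrivial V := by
    by_contra hn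
    rw [not_nontrivial_iff_subsingleton] at hn
    have hne : Nonempty V := hG.1.nonempty
    obtain ⟨v⟩ := hne
    have h1 : ∑ v, xx G v = xx G v := Fintype.sum_subsingleton _ v
    have h2 : ∑ v, q (xx G v) = q (xx G v) := Fintype.sum_subsingleton _ v
    rw [h2, ← h1, hS] at h0
    unfold q at h0
    nlinarith
  have hpos : ∀ v, -1 ≤ xx G v := by
    intro v
    have h1 : 0 < G.degree v := hG.1.preconnected.degree_pos_of_nontrivial v
    rw [hxx]
    have : (1 : ℤ) ≤ G.degree v := by exact_mod_cast h1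
    linarith
  set s : V → ℤ := fun v => if 1 ≤ xx G v then xx G v + 1 else 0 with hs
  have hA : ∀ v, s v - xx G v ≤ 1 := by
    intro v
    have := hpos v
    simp only [hs]
    split_ifs with h
    · linarith
    · linarith
  have hB : ∀ v, q (xx G v) ≤ (m - 1) * s v := by
    intro v
    have h1 := hpos v
    have h2 := hmax v
    simp only [hs, q]
    split_ifs with h
    · nlinarith
    · have h3 : xx G v = -1 ∨ xx G v = 0 := by omega
      rcases h3 with h3 | h3 <;> rw [h3] <;> simp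
  have hA' : (∑ v, s v) - ∑ v, xx G v ≤ (Fintype.card V : ℤ) := by
    rw [← Finset.sum_sub_distrib]
    calc ∑ v, (s v - xx G v) ≤ ∑ _v : V, (1 : ℤ) := Finset.sum_le_sum fun v _ => hA v
      _ = (Fintype.card V : ℤ) := by simp
  have hB' : m * (m + 1) ≤ (m - 1) * ∑ v, s v := by
    rw [← h0, Finset.mul_sum]
    exact Finset.sum_le_sum fun v _ => hB v
  have hC : m + 2 ≤ ∑ v, s v := by
    by_contra hc
    have hc' : ∑ v, s v ≤ m + 1 := by omega
    nlinarith
  rw [hS] at hA'
  linarith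

end Pool.Agent.Lib.MP_a38fe7_coS
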