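import Pool.Agent.Lib.MP_a38fe7_coS.S2le

/-!
# Certificates for hubs of degree one or two less
-/

set_option autoImplicit false

namespace Pool.Agent.Lib.MP_a38fe7_coS

variable {V : Type} [Fintype V] {G : SimpleGraph V} {H : V} {par : V → V} {dep : V → ℕ}

/-- The contribution of an edge (`Pt m = Pb m (5 m ^ 2 + m - 2)`). -/
def Pb (m β a : ℤ) : ℤ := 2 * m * (a + 2) * phi a - β * q a

/-- A certificate: `Y = xx H`, all other vertices have `∑ q (xx) = m (m + 1) - q Y`. -/
structure Cert (m β Y K : ℤ) : Prop where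
  O : ∀ x p : ℤ, -1 ≤ x → 0 ≤ p → q x + q p ≤ m * (m + 1) - q Y → Pb m β (x + p) ≤ 0
  E0 : Pb m β (Y - 1) ≤ K
  E : ∀ z : ℤ, 0 ≤ z → q z ≤ m * (m + 1) - q Y → ∃ c : ℤ,
    (∀ b : ℤ, -1 ≤ b → q z + q b ≤ m * (m + 1) - q Y →
      Pb m β (z + b) - 2 * m * Lo (Y + z) (z + b) ≤ c) ∧
    Pb m β (Y + z) + (z + 1) * c ≤ K

theorem Cgen_q_nonneg (z : ℤ) : 0 ≤ q z := by
  unfold q
  rcases le_or_gt 0 z with h | h
  · exact mul_nonneg h (by omega)
  · exact mul_nonneg_of_nonpos_of_nonpos h.le (by omega)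

theorem Cgen_two_le (m : ℤ) (h0 : ∑ v, q (xx G v) = m * (m + 1)) {v w : V} (hv : v ≠ H)
    (hw : w ≠ H) (hvw : v ≠ w) : q (xx G v) + q (xx G w) ≤ m * (m + 1) - q (xx G H) := by
  classical
  have h1 : ∑ x ∈ ({H, v, w} : Finset V), q (xx G x) ≤ ∑ x, q (xx G x) :=
    Finset.sum_le_sum_of_subset_of_nonneg (Finset.subset_univ _) fun i _ _ => Cgen_q_nonneg _
  rw [Finset.sum_insert (by simp [hv.symm, hw.symm]), Finset.sum_insert (by simp [hvw]),
    Finset.sum_singleton, h0] at h1
  linarith

theorem Cgen_one_le (m : ℤ) (h0 : ∑ v, q (xx G v) = m * (m + 1)) {v : V} (hv : v ≠ H) :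
    q (xx G v) ≤ m * (m + 1) - q (xx G H) := by
  classical
  have h1 : ∑ x ∈ ({H, v} : Finset V), q (xx G x) ≤ ∑ x, q (xx G x) :=
    Finset.sum_le_sum_of_subset_of_nonneg (Finset.subset_univ _) fun i _ _ => Cgen_q_nonneg _
  rw [Finset.sum_insert (by simp [hv.symm]), Finset.sum_singleton, h0] at h1
  linarith

open Classical in
theorem Cgen_split (f : V → ℤ) :
    ∑ v ∈ Finset.univ.filter (fun v => v ≠ H), f v =
      ∑ v ∈ ch H par H, f v +
      (∑ v ∈ Finset.univ.filter (fun w => w ≠ H ∧ par w ≠ H ∧ par (par w) = H), f v +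
        ∑ v ∈ Finset.univ.filter (fun w => w ≠ H ∧ par w ≠ H ∧ par (par w) ≠ H), f v) := by
  have e1 := Finset.sum_filter_add_sum_filter_not (Finset.univ.filter (fun v => v ≠ H))
    (fun v => par v = H) f
  rw [Finset.filter_filter, Finset.filter_filter] at e1
  have e2 := Finset.sum_filter_add_sum_filter_not
    (Finset.univ.filter (fun v => v ≠ H ∧ ¬ par v = H)) (fun v => par (par v) = H) f
  rw [Finset.filter_filter, Finset.filter_filter] at e2
  rw [← e1, ← e2]
  unfold ch
  congr 1
  congr 1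
  · refine Finset.sum_congr ?_ fun _ _ => rfl
    ext w
    simp [and_assoc]
  · refine Finset.sum_congr ?_ fun _ _ => rfl
    ext w
    simp [and_assoc]

open Classical in
theorem Cgen_fiber (f : V → V → ℤ) :
    ∑ w ∈ Finset.univ.filter (fun w => w ≠ H ∧ par w ≠ H ∧ par (par w) = H), f (par w) w =
      ∑ u ∈ ch H par H, ∑ w ∈ ch H par u, f u w := by
  rw [← Finset.sum_fiberwise_of_maps_to (g := par) (t := ch H par H)]
  · refine Finset.sum_congr rfl fun u hu => ?_
    simp only [ch, Finset.mem_filter, Finset.mem_univ, true_and] at hu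
    rw [Finset.filter_filter]
    refine Finset.sum_congr ?_ ?_
    · ext w
      simp only [ch, Finset.mem_filter, Finset.mem_univ, true_and]
      constructor
      · rintro ⟨⟨h1, -, -⟩, h4⟩
        exact ⟨h1, h4⟩
      · rintro ⟨h1, h2⟩
        rw [h2]
        exact ⟨⟨h1, hu.1, hu.2⟩, rfl⟩
    · intro w hw
      simp only [ch, Finset.mem_filter, Finset.mem_univ, true_and] at hw
      rw [hw.2]
  · intro w hw
    simp only [ch, Finset.mem_filter, Finset.mem_univ, true_and] at hw ⊢
    exact ⟨hw.2.1, hw.2.2⟩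

/-- The contribution of a child of the root and of its children. -/
theorem RT.Cgen_child (h : RT G H par dep) (m β K : ℤ)
    (h0 : ∑ v, q (xx G v) = m * (m + 1)) (hc : Cert m β (xx G H) K) {u : V} (hu : u ≠ H)
    (hp : par u = H) :
    Pb m β (av G par u) +
      ∑ w ∈ ch H par u, (Pb m β (av G par w) - 2 * m * Lo (av G par u) (av G par w)) ≤ K := by
  classical
  have hcard : ((ch H par u).card : ℤ) = xx G u + 1 := by rw [h.card_ch hu]; ring
  have e2 : av G par u = xx G H + xx G u := by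
    unfold av; rw [hp]; ring
  rcases lt_or_ge (xx G u) 0 with hz | hz
  · have hge := h.xx_ge hu
    have hz1 : xx G u = -1 := by omega
    have hemp : ch H par u = ∅ := by
      rw [← Finset.card_eq_zero]
      rw [hz1] at hcard
      have : ((ch H par u).card : ℤ) = 0 := by rw [hcard]; norm_num
      exact_mod_cast this
    rw [hemp, Finset.sum_empty, add_zero, e2, hz1]
    have := hc.E0
    rwa [sub_eq_add_neg] at this
  · obtain ⟨c, hc1, hc2⟩ := hc.E (xx G u) hz (Cgen_one_le m h0 hu)
    have h1 : ∑ w ∈ ch H par u, (Pb m β (av G par w) - 2 * m * Lo (av G par u) (av G par w)) ≤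
        (ch H par u).card • c := by
      refine Finset.sum_le_card_nsmul _ _ _ fun w hw => ?_
      have hw' : w ≠ H ∧ par w = u := by simpa [ch] using hw
      obtain ⟨hwH, hwu⟩ := hw'
      have huw : u ≠ w := by
        intro e
        exact h.par_ne hwH (by rw [hwu, e])
      have e1 : av G par w = xx G u + xx G w := by
        unfold av; rw [hwu]; ring
      rw [e1, e2]
      exact hc1 (xx G w) (h.xx_ge hwH) (Cgen_two_le m h0 hu hwH huw)
    rw [nsmul_eq_mul, hcard] at h1
    rw [e2] at h1 ⊢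
    linarith

/-- As in `C2` (files `C2a.lean`, `C2.lean`): by `S2_le`, `m * S2 - β * S1` is at most the sum of
`Pb m β (av v)` over `v ≠ H` minus `2 m` times the sum of `Lo` over the grandchildren of `H`. Split the
vertices `v ≠ H` into the children of `H` (`xx H + 2` of them), their children, and the others, for which
`Pb m β (av v) ≤ 0` (`Cert.O`; two different vertices `≠ H` have `q + q ≤ m (m + 1) - q (xx H)`; for `v` with
`par v = H`'s children use `Cert.E0` if `xx v = -1` and `Cert.E` otherwise, `(ch v).card = xx v + 1`). -/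
theorem RT.Cgen (h : RT G H par dep) (m β K : ℤ) (hm : 0 ≤ m)
    (h0 : ∑ v, q (xx G v) = m * (m + 1)) (hH : 1 ≤ xx G H) (hc : Cert m β (xx G H) K) :
    m * S2 G H par - β * S1 G H par ≤ (xx G H + 2) * K := by
  classical
  have h1 := h.S2_le hH
  have h2 : m * S2 G H par ≤ m * (2 * SP G H par - 2 * SL G H par) :=
    mul_le_mul_of_nonneg_left h1 hm
  have h3 : 2 * m * SP G H par - β * S1 G H par =
      ∑ v ∈ Finset.univ.filter (fun v => v ≠ H), Pb m β (av G par v) := by
    unfold SP S1
    rw [Finset.mul_sum, Finset.mul_sum, ← Finset.sum_sub_distrib]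
    refine Finset.sum_congr rfl fun v _ => ?_
    unfold Pb
    ring
  rw [Cgen_split (H := H) (par := par)] at h3
  have h4 : ∑ v ∈ Finset.univ.filter (fun w => w ≠ H ∧ par w ≠ H ∧ par (par w) ≠ H),
      Pb m β (av G par v) ≤ 0 := by
    refine Finset.sum_nonpos fun v hv => ?_
    simp only [Finset.mem_filter, Finset.mem_univ, true_and] at hv
    exact hc.O (xx G v) (xx G (par v)) (h.xx_ge hv.1) (h.xx_par hv.1 hv.2.1)
      (Cgen_two_le m h0 hv.1 hv.2.1 (h.par_ne hv.1).symm)
  have h5 : ∑ v ∈ Finset.univ.filter (fun w => w ≠ H ∧ par w ≠ H ∧ par (par w) = H),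
      Pb m β (av G par v) - 2 * m * SL G H par =
      ∑ u ∈ ch H par H, ∑ w ∈ ch H par u,
        (Pb m β (av G par w) - 2 * m * Lo (av G par u) (av G par w)) := by
    rw [← Cgen_fiber (H := H) (par := par)
      (fun u w => Pb m β (av G par w) - 2 * m * Lo (av G par u) (av G par w)),
      Finset.sum_sub_distrib]
    unfold SL
    rw [Finset.mul_sum]
  have h6 : ∑ u ∈ ch H par H, (Pb m β (av G par u) + ∑ w ∈ ch H par u,
        (Pb m β (av G par w) - 2 * m * Lo (av G par u) (av G par w))) ≤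
      ∑ u ∈ ch H par H, K := by
    refine Finset.sum_le_sum fun u hu => ?_
    simp only [ch, Finset.mem_filter, Finset.mem_univ, true_and] at hu
    exact h.Cgen_child m β K h0 hc hu.1 hu.2
  rw [Finset.sum_add_distrib, Finset.sum_const, nsmul_eq_mul] at h6
  have h10 : ((ch H par H).card : ℤ) = xx G H + 2 := by
    have := h.card_ch_root
    omega
  rw [h10] at h6
  linarith

end Pool.Agent.Lib.MP_a38fe7_coS
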