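import Pool.Agent.Lib.MP_a38fe7_coS.RDeg

/-!
# Starlike trees: the sum of the values
-/

set_option autoImplicit false

namespace Pool.Agent.Lib.MP_a38fe7_coS

open Pool.Agent.Lib.MP_a38fe7_co

variable {V : Type} [Fintype V] {G : SimpleGraph V} {H : V} {par : V → V} {dep : V → ℕ}

/-- All other vertices have `xx = 0` or `-1`. -/
theorem RT.D0 (h : RT G H par dep) (hs : Star G H) : ∑ v, q (xx G v) = q (xx G H) := by
  classical
  refine Finset.sum_eq_single H ?_ (fun hH => absurd (Finset.mem_univ H) hH)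
  intro v _ hv
  have h1 : (G.neighborSet v).ncard ≤ 2 := hs v hv
  have h2 : 0 < (G.neighborSet v).ncard := by
    rw [Set.ncard_pos (Set.toFinite _)]
    exact ⟨par v, (h.adj v (par v)).2 (Or.inl ⟨hv, rfl⟩)⟩
  unfold q xx
  have h3 : (G.neighborSet v).ncard = 1 ∨ (G.neighborSet v).ncard = 2 := by omega
  rcases h3 with h3 | h3 <;> rw [h3] <;> norm_num

end Pool.Agent.Lib.MP_a38fe7_coS
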