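import Pool.Agent.Lib.MP_a38fe7_coS.RDeg

/-!
# Starlike trees: the values
-/

set_option autoImplicit false

namespace Pool.Agent.Lib.MP_a38fe7_coS

open Pool.Agent.Lib.MP_a38fe7_co

variable {V : Type} [Fintype V] {G : SimpleGraph V} {H : V} {par : V → V} {dep : V → ℕ}

theorem DMain_q_nonneg (z : ℤ) : 0 ≤ q z := by
  unfold q
  rcases le_or_gt 0 z with hz | hz
  · nlinarith
  · have : z + 1 ≤ 0 := by omega
    nlinarith

theorem DMain_q_mono {a z : ℤ} (ha : 0 ≤ a) (hz : a ≤ z) : a * (a + 1) ≤ q z := by
  unfold q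
  nlinarith

theorem DMain_mem_ch {u w : V} : w ∈ ch H par u ↔ w ≠ H ∧ par w = u := by
  classical
  unfold ch
  rw [Finset.mem_filter]
  exact ⟨fun h => h.2, fun h => ⟨Finset.mem_univ _, h⟩⟩

theorem DMain_xx (h : RT G H par dep) (hs : Star G H) {v : V} (hv : v ≠ H) :
    xx G v = 0 ∨ xx G v = -1 := by
  have h1 := h.xx_ge hv
  have h2 := hs v hv
  have h3 : xx G v ≤ 0 := by
    unfold xx
    omega
  omega

theorem DMain_xx_par (h : RT G H par dep) (hs : Star G H) {v : V} (hv : v ≠ H)
    (hp : par v ≠ H) : xx G (par v) = 0 := by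
  have h1 := h.xx_par hv hp
  rcases DMain_xx h hs hp with h2 | h2
  · exact h2
  · omega

/-- `N`, `n` are the numbers of the children `v` of `H` with `xx v = 0` resp. `xx v = -1`.
`S1`: the edges at `H` have `av = m` or `m - 1`, the others `0` or `-1` (`q = 0`).
`S2`: all terms are `≥ 0` (`q ≥ 0` on integers); keep the ordered pairs of different children of `H`
(values `2 m`, `2 m - 1`, `2 m - 2`), and for each child `u` of `H` with `xx u = 0`, which has one child `w`,
the two ordered pairs `(u, w)`, `(w, u)`, with `av u + av w = m + xx w ≥ m - 1`, `q ≥ m (m - 1)`.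
Last claim: if `N = 0` then all children of `H` are leaves, so `card V = 1 + (m + 2)`. -/
theorem RT.D_main (h : RT G H par dep) (hs : Star G H) (m : ℤ) (hm : 1 ≤ m) (hH : xx G H = m) :
    ∃ N n : ℤ, 0 ≤ N ∧ 0 ≤ n ∧ N + n = m + 2 ∧
      S1 G H par = N * (m * (m + 1)) + n * (m * (m - 1)) ∧
      N * (N - 1) * (2 * m * (2 * m + 1)) + 2 * N * n * ((2 * m - 1) * (2 * m)) +
        n * (n - 1) * ((2 * m - 2) * (2 * m - 1)) + 2 * N * (m * (m - 1)) ≤ S2 G H par ∧
      ((∀ v, G.Adj H v → xx G v ≠ -1) → n = 0) ∧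
      (N = 0 → (Fintype.card V : ℤ) = m + 3) := by
  classical
  set C := ch H par H with hC
  set C0 := C.filter (fun v => xx G v = 0) with hC0
  set C1 := C.filter (fun v => ¬ xx G v = 0) with hC1
  set A := Finset.univ.filter (fun v : V => v ≠ H) with hA
  have hCmem : ∀ v, v ∈ C ↔ v ≠ H ∧ par v = H := fun v => DMain_mem_ch
  have hC0mem : ∀ v, v ∈ C0 ↔ (v ≠ H ∧ par v = H) ∧ xx G v = 0 := fun v => by
    rw [hC0, Finset.mem_filter, hCmem]
  have hC1mem : ∀ v, v ∈ C1 ↔ (v ≠ H ∧ par v = H) ∧ xx G v = -1 := fun v => by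
    rw [hC1, Finset.mem_filter, hCmem]
    constructor
    · rintro ⟨h1, h2⟩
      exact ⟨h1, (DMain_xx h hs h1.1).resolve_left h2⟩
    · rintro ⟨h1, h2⟩
      exact ⟨h1, by omega⟩
  have hAmem : ∀ v, v ∈ A ↔ v ≠ H := fun v => by
    rw [hA, Finset.mem_filter]
    exact ⟨fun h => h.2, fun h => ⟨Finset.mem_univ _, h⟩⟩
  have hcard : C0.card + C1.card = C.card := Finset.card_filter_add_card_filter_not _
  have hCc : (C.card : ℤ) = m + 2 := by
    have := h.card_ch_root
    rw [← hC] at this
    omega
  have hCA : C ⊆ A := fun v hv => (hAmem v).2 ((hCmem v).1 hv).1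
  have hsplit : ∀ f : V → ℤ, ∑ v ∈ C, f v = ∑ v ∈ C0, f v + ∑ v ∈ C1, f v := fun f =>
    (Finset.sum_filter_add_sum_filter_not _ _ _).symm
  refine ⟨C0.card, C1.card, by positivity, by positivity, by omega, ?_, ?_, ?_, ?_⟩
  · have h1 : S1 G H par = ∑ v ∈ A, q (av G par v) := by
      unfold S1
      exact Finset.sum_congr (by ext; simp [hA]) fun _ _ => rfl
    have h2 : ∑ v ∈ A, q (av G par v) = ∑ v ∈ C, q (av G par v) := by
      refine (Finset.sum_subset hCA fun v hv hvC => ?_).symm
      have hv' := (hAmem v).1 hv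
      have hp : par v ≠ H := fun hp => hvC ((hCmem v).2 ⟨hv', hp⟩)
      unfold av
      rw [DMain_xx_par h hs hv' hp]
      rcases DMain_xx h hs hv' with h3 | h3 <;> rw [h3] <;> unfold q <;> norm_num
    rw [h1, h2, hsplit]
    have h3 : ∑ v ∈ C0, q (av G par v) = ∑ v ∈ C0, m * (m + 1) := by
      refine Finset.sum_congr rfl fun v hv => ?_
      have hv' := (hC0mem v).1 hv
      unfold av
      rw [hv'.2, hv'.1.2, hH]
      unfold q
      ring
    have h4 : ∑ v ∈ C1, q (av G par v) = ∑ v ∈ C1, m * (m - 1) := by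
      refine Finset.sum_congr rfl fun v hv => ?_
      have hv' := (hC1mem v).1 hv
      unfold av
      rw [hv'.2, hv'.1.2, hH]
      unfold q
      ring
    rw [h3, h4, Finset.sum_const, Finset.sum_const, nsmul_eq_mul, nsmul_eq_mul]
  · set F : V → ℤ := fun v =>
      ∑ w ∈ Finset.univ.filter (fun w => w ≠ H ∧ nb par v w), q (av G par v + av G par w) with hF
    have h1 : S2 G H par = ∑ v ∈ A, F v := by
      unfold S2
      refine Finset.sum_congr (by ext; simp [hA]) fun v _ => ?_
      exact Finset.sum_congr (by ext; simp) fun _ _ => rfl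
    have hF0 : ∀ v, 0 ≤ F v := fun v => Finset.sum_nonneg fun w _ => DMain_q_nonneg _
    -- lower bound of F v by the sum over a subset
    have hFs : ∀ v (T : Finset V), (∀ w ∈ T, w ≠ H ∧ nb par v w) →
        ∑ w ∈ T, q (av G par v + av G par w) ≤ F v := by
      intro v T hT
      refine Finset.sum_le_sum_of_subset_of_nonneg (fun w hw => ?_) fun w _ _ => DMain_q_nonneg _
      rw [Finset.mem_filter]
      exact ⟨Finset.mem_univ _, hT w hw⟩
    have hav0 : ∀ v ∈ C0, av G par v = m := fun v hv => by
      have hv' := (hC0mem v).1 hv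
      unfold av
      rw [hv'.2, hv'.1.2, hH]
      ring
    have hav1 : ∀ v ∈ C1, av G par v = m - 1 := fun v hv => by
      have hv' := (hC1mem v).1 hv
      unfold av
      rw [hv'.2, hv'.1.2, hH]
      ring
    have hC0C : C0 ⊆ C := Finset.filter_subset _ _
    have hC1C : C1 ⊆ C := Finset.filter_subset _ _
    have hchild : ∀ u ∈ C0, ∀ w ∈ ch H par u, w ≠ H ∧ par w = u ∧ m - 1 ≤ av G par u + av G par w ∧
        m - 1 ≤ av G par w + av G par u := by
      intro u hu w hw
      have hu' := (hC0mem u).1 hu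
      have hw' := DMain_mem_ch.1 hw
      have h2 : av G par w = xx G w := by
        unfold av
        rw [hw'.2, hu'.2]
        ring
      have h3 := h.xx_ge hw'.1
      rw [hav0 u hu, h2]
      exact ⟨hw'.1, hw'.2, by omega, by omega⟩
    have hchc : ∀ u ∈ C0, (ch H par u).card = 1 := by
      intro u hu
      have hu' := (hC0mem u).1 hu
      have := h.card_ch hu'.1.1
      omega
    have hmq : m * (m - 1) = (m - 1) * ((m - 1) + 1) := by ring
    -- the two kinds of children of the root
    have hF_0 : ∀ v ∈ C0, ((C0.card : ℤ) - 1) * (2 * m * (2 * m + 1)) +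
        C1.card * ((2 * m - 1) * (2 * m)) + m * (m - 1) ≤ F v := by
      intro v hv
      have hv' := (hC0mem v).1 hv
      obtain ⟨w, hw⟩ := Finset.card_eq_one.1 (hchc v hv)
      have hwm : w ∈ ch H par v := by rw [hw]; exact Finset.mem_singleton_self _
      obtain ⟨hw1, hw2, hw3, -⟩ := hchild v hv w hwm
      have hwC : w ∉ C := fun hwC => hv'.1.1 (hw2.symm.trans ((hCmem w).1 hwC).2)
      have h2 := hFs v (insert w (C.erase v)) (by
        intro x hx
        rcases Finset.mem_insert.1 hx with rfl | hx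
        · refine ⟨hw1, ?_, Or.inr (Or.inr hw2)⟩
          rintro rfl
          exact hwC (hC0C hv)
        · obtain ⟨hx1, hx2⟩ := Finset.mem_erase.1 hx
          have hx3 := (hCmem x).1 hx2
          exact ⟨hx3.1, hx1.symm, Or.inl (hv'.1.2.trans hx3.2.symm)⟩)
      rw [Finset.sum_insert (fun hx => hwC (Finset.mem_of_mem_erase hx))] at h2
      have h3 : ∑ x ∈ C.erase v, q (av G par v + av G par x) =
          ((C0.card : ℤ) - 1) * (2 * m * (2 * m + 1)) + C1.card * ((2 * m - 1) * (2 * m)) := by
        have h4 := Finset.sum_erase_add C (fun x => q (av G par v + av G par x)) (hC0C hv)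
        rw [hsplit] at h4
        have h5 : ∑ x ∈ C0, q (av G par v + av G par x) = ∑ x ∈ C0, 2 * m * (2 * m + 1) := by
          refine Finset.sum_congr rfl fun x hx => ?_
          rw [hav0 v hv, hav0 x hx]
          unfold q
          ring
        have h6 : ∑ x ∈ C1, q (av G par v + av G par x) = ∑ x ∈ C1, (2 * m - 1) * (2 * m) := by
          refine Finset.sum_congr rfl fun x hx => ?_
          rw [hav0 v hv, hav1 x hx]
          unfold q
          ring
        rw [h5, h6, Finset.sum_const, Finset.sum_const, nsmul_eq_mul, nsmul_eq_mul] at h4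
        have h7 : q (av G par v + av G par v) = 2 * m * (2 * m + 1) := by
          rw [hav0 v hv]
          unfold q
          ring
        rw [h7] at h4
        linear_combination h4
      rw [h3] at h2
      have h8 := DMain_q_mono (by omega : 0 ≤ m - 1) hw3
      rw [← hmq] at h8
      linarith
    have hF_1 : ∀ v ∈ C1, (C0.card : ℤ) * ((2 * m - 1) * (2 * m)) +
        ((C1.card : ℤ) - 1) * ((2 * m - 2) * (2 * m - 1)) ≤ F v := by
      intro v hv
      have hv' := (hC1mem v).1 hv
      have h2 := hFs v (C.erase v) (by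
        intro x hx
        obtain ⟨hx1, hx2⟩ := Finset.mem_erase.1 hx
        have hx3 := (hCmem x).1 hx2
        exact ⟨hx3.1, hx1.symm, Or.inl (hv'.1.2.trans hx3.2.symm)⟩)
      have h3 : ∑ x ∈ C.erase v, q (av G par v + av G par x) =
          (C0.card : ℤ) * ((2 * m - 1) * (2 * m)) +
            ((C1.card : ℤ) - 1) * ((2 * m - 2) * (2 * m - 1)) := by
        have h4 := Finset.sum_erase_add C (fun x => q (av G par v + av G par x)) (hC1C hv)
        rw [hsplit] at h4
        have h5 : ∑ x ∈ C0, q (av G par v + av G par x) = ∑ x ∈ C0, (2 * m - 1) * (2 * m) := by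
          refine Finset.sum_congr rfl fun x hx => ?_
          rw [hav1 v hv, hav0 x hx]
          unfold q
          ring
        have h6 : ∑ x ∈ C1, q (av G par v + av G par x) = ∑ x ∈ C1, (2 * m - 2) * (2 * m - 1) := by
          refine Finset.sum_congr rfl fun x hx => ?_
          rw [hav1 v hv, hav1 x hx]
          unfold q
          ring
        rw [h5, h6, Finset.sum_const, Finset.sum_const, nsmul_eq_mul, nsmul_eq_mul] at h4
        have h7 : q (av G par v + av G par v) = (2 * m - 2) * (2 * m - 1) := by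
          rw [hav1 v hv]
          unfold q
          ring
        rw [h7] at h4
        linear_combination h4
      rw [h3] at h2
      exact h2
    -- the grandchildren
    set D := C0.biUnion (ch H par) with hD
    have hDA : D ⊆ A := by
      intro w hw
      obtain ⟨u, hu, hwu⟩ := Finset.mem_biUnion.1 hw
      exact (hAmem w).2 (DMain_mem_ch.1 hwu).1
    have hCD : Disjoint C D := by
      rw [Finset.disjoint_left]
      intro w hwC hwD
      obtain ⟨u, hu, hwu⟩ := Finset.mem_biUnion.1 hwD
      exact ((hC0mem u).1 hu).1.1 ((DMain_mem_ch.1 hwu).2.symm.trans ((hCmem w).1 hwC).2)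
    have hDc : D.card = C0.card := by
      rw [hD, Finset.card_biUnion]
      · rw [Finset.sum_congr rfl hchc, Finset.sum_const, smul_eq_mul, mul_one]
      · intro u _ u' _ huu'
        rw [Function.onFun, Finset.disjoint_left]
        intro w hw hw'
        exact huu' ((DMain_mem_ch.1 hw).2.symm.trans (DMain_mem_ch.1 hw').2)
    have hFD : ∀ w ∈ D, m * (m - 1) ≤ F w := by
      intro w hw
      obtain ⟨u, hu, hwu⟩ := Finset.mem_biUnion.1 hw
      obtain ⟨hw1, hw2, -, hw4⟩ := hchild u hu w hwu
      have hu' := (hC0mem u).1 hu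
      have h2 := hFs w {u} (by
        intro x hx
        rw [Finset.mem_singleton] at hx
        subst hx
        refine ⟨hu'.1.1, ?_, Or.inr (Or.inl hw2)⟩
        rintro rfl
        exact hu'.1.1 (hw2.symm.trans hu'.1.2))
      rw [Finset.sum_singleton] at h2
      have h8 := DMain_q_mono (by omega : 0 ≤ m - 1) hw4
      rw [← hmq] at h8
      exact h8.trans h2
    have h2 : ∑ v ∈ C, F v + ∑ v ∈ D, F v ≤ ∑ v ∈ A, F v := by
      rw [← Finset.sum_union hCD]
      exact Finset.sum_le_sum_of_subset_of_nonneg (Finset.union_subset hCA hDA) fun v _ _ => hF0 v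
    have h3 : ∑ v ∈ C0, F v ≥ C0.card * (((C0.card : ℤ) - 1) * (2 * m * (2 * m + 1)) +
        C1.card * ((2 * m - 1) * (2 * m)) + m * (m - 1)) := by
      have := Finset.card_nsmul_le_sum C0 F _ hF_0
      rwa [nsmul_eq_mul] at this
    have h4 : ∑ v ∈ C1, F v ≥ C1.card * ((C0.card : ℤ) * ((2 * m - 1) * (2 * m)) +
        ((C1.card : ℤ) - 1) * ((2 * m - 2) * (2 * m - 1))) := by
      have := Finset.card_nsmul_le_sum C1 F _ hF_1
      rwa [nsmul_eq_mul] at this
    have h5 : ∑ v ∈ D, F v ≥ C0.card * (m * (m - 1)) := by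
      have := Finset.card_nsmul_le_sum D F _ hFD
      rwa [nsmul_eq_mul, hDc] at this
    rw [hsplit] at h2
    rw [h1]
    refine le_trans (le_of_eq ?_) ((add_le_add (add_le_add h3 h4) h5).trans h2)
    ring
  · intro hall
    have : C1 = ∅ := by
      rw [Finset.eq_empty_iff_forall_notMem]
      intro v hv
      have hv' := (hC1mem v).1 hv
      exact hall v ((h.adj H v).2 (Or.inr hv'.1)) hv'.2
    rw [this]
    simp
  · intro hN
    have hN0 : C0 = ∅ := Finset.card_eq_zero.1 (by exact_mod_cast hN)
    have hall : ∀ k, ∀ v, dep v = k → v ≠ H → par v = H := by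
      intro k
      induction k using Nat.strong_induction_on with
      | _ k ih =>
        intro v hk hv
        by_contra hp
        have h1 := h.dep v hv
        have h2 := ih (dep (par v)) (by omega) (par v) rfl hp
        have h3 : par v ∈ C0 := (hC0mem _).2 ⟨⟨hp, h2⟩, DMain_xx_par h hs hv hp⟩
        rw [hN0] at h3
        exact Finset.notMem_empty _ h3
    have huniv : (Finset.univ : Finset V) = insert H C := by
      ext v
      simp only [Finset.mem_univ, true_iff, Finset.mem_insert]
      by_cases hv : v = H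
      · exact Or.inl hv
      · exact Or.inr ((hCmem v).2 ⟨hv, hall _ v rfl hv⟩)
    have hHC : H ∉ C := fun hH' => ((hCmem H).1 hH').1 rfl
    rw [← Finset.card_univ, huniv, Finset.card_insert_of_notMem hHC]
    push_cast
    omega

end Pool.Agent.Lib.MP_a38fe7_coS
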