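import Pool.Agent.Lib.MP_a38fe7_coS.TSDef

/-!
# The values of a starlike tree
-/

set_option autoImplicit false

namespace Pool.Agent.Lib.MP_a38fe7_coS

variable {V : Type} [Fintype V] {G : SimpleGraph V} {H : V} {par : V → V} {dep : V → ℕ}

/-- The refinement of `D_main` (see the proof in `DMain.lean`): `N2` is the number of the children `u` of `H`
with `xx u = 0` whose child `w` has `xx w = 0`; then `av u + av w = m`, `q = m (m + 1)`, while it is
`m (m - 1)` for `xx w = -1`; the two ordered pairs give the additional `2 * (2 m) = 4 m`. If `N2 = 0`, all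
legs have at most two vertices, so `card V = 1 + (m + 2) + N`. In particular `N = 0` implies
`card V = m + 3`. -/
theorem RT.D_main2 (h : RT G H par dep) (hs : Star G H) (m : ℤ) (hm : 1 ≤ m) (hH : xx G H = m) :
    (Fintype.card V : ℤ) = m + 3 ∨ TS m (S1 G H par) (S2 G H par) (Fintype.card V) := by
  classical
  set C := ch H par H with hC
  set C0 := C.filter (fun v => xx G v = 0) with hC0
  set C1 := C.filter (fun v => ¬ xx G v = 0) with hC1
  set A := Finset.univ.filter (fun v : V => v ≠ H) with hA
  have hCmem : ∀ v, v ∈ C ↔ v ≠ H ∧ par v = H := fun v => DMain_mem_ch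
  have hC0mem : ∀ v, v ∈ C0 ↔ (v ≠ H ∧ par v = H) ∧ xx G v = 0 := fun v => by
    rw [hC0, Finset.mem_filter, hCmem]
  have hC1mem : ∀ v, v ∈ C1 ↔ (v ≠ H ∧ par v = H) ∧ xx G v = -1 := fun v => by
    rw [hC1, Finset.mem_filter, hCmem]
    constructor
    · rintro ⟨h1, h2⟩
      exact ⟨h1, (DMain_xx h hs h1.1).resolve_left h2⟩
    · rintro ⟨h1, h2⟩
      exact ⟨h1, by omega⟩
  have hAmem : ∀ v, v ∈ A ↔ v ≠ H := fun v => by
    rw [hA, Finset.mem_filter]
    exact ⟨fun h => h.2, fun h => ⟨Finset.mem_univ _, h⟩⟩
  have hcard : C0.card + C1.card = C.card := Finset.card_filter_add_card_filter_not _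
  have hCc : (C.card : ℤ) = m + 2 := by
    have := h.card_ch_root
    rw [← hC] at this
    omega
  have hCA : C ⊆ A := fun v hv => (hAmem v).2 ((hCmem v).1 hv).1
  have hsplit : ∀ f : V → ℤ, ∑ v ∈ C, f v = ∑ v ∈ C0, f v + ∑ v ∈ C1, f v := fun f =>
    (Finset.sum_filter_add_sum_filter_not _ _ _).symm
  obtain ⟨p2, hp2⟩ : ∃ p2 : V → Prop, p2 = fun u => ∃ w ∈ ch H par u, xx G w = 0 := ⟨_, rfl⟩
  set C2 := C0.filter p2 with hC2
  have hC0C : C0 ⊆ C := Finset.filter_subset _ _
  have hC1C : C1 ⊆ C := Finset.filter_subset _ _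
  have hHC : H ∉ C := fun hH' => ((hCmem H).1 hH').1 rfl
  have hchc : ∀ u ∈ C0, (ch H par u).card = 1 := by
    intro u hu
    have hu' := (hC0mem u).1 hu
    have := h.card_ch hu'.1.1
    omega
  set D := C0.biUnion (ch H par) with hD
  have hDmem : ∀ v, v ∈ D ↔ v ≠ H ∧ par v ∈ C0 := by
    intro v
    rw [hD, Finset.mem_biUnion]
    constructor
    · rintro ⟨u, hu, hvu⟩
      obtain ⟨h1, h2⟩ := DMain_mem_ch.1 hvu
      exact ⟨h1, by rw [h2]; exact hu⟩
    · rintro ⟨h1, h2⟩
      exact ⟨par v, h2, DMain_mem_ch.2 ⟨h1, rfl⟩⟩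
  have hDA : D ⊆ A := fun w hw => (hAmem w).2 ((hDmem w).1 hw).1
  have hCD : Disjoint C D := by
    rw [Finset.disjoint_left]
    intro w hwC hwD
    have h1 := ((hDmem w).1 hwD).2
    rw [((hCmem w).1 hwC).2] at h1
    exact ((hC0mem H).1 h1).1.1 rfl
  have hDpd : (C0 : Set V).PairwiseDisjoint (ch H par) := by
    intro u _ u' _ huu'
    rw [Function.onFun, Finset.disjoint_left]
    intro w hw hw'
    exact huu' ((DMain_mem_ch.1 hw).2.symm.trans (DMain_mem_ch.1 hw').2)
  have hDc : D.card = C0.card := by
    rw [hD, Finset.card_biUnion fun u hu u' hu' huu' => hDpd hu hu' huu']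
    rw [Finset.sum_congr rfl hchc, Finset.sum_const, smul_eq_mul, mul_one]
  by_cases hN : C0.card = 0
  · left
    have hN0 : C0 = ∅ := Finset.card_eq_zero.1 hN
    have hall : ∀ k, ∀ v, dep v = k → v ≠ H → par v = H := by
      intro k
      induction k using Nat.strong_induction_on with
      | _ k ih =>
        intro v hk hv
        by_contra hp
        have h1 := h.dep v hv
        have h2 := ih (dep (par v)) (by omega) (par v) rfl hp
        have h3 : par v ∈ C0 := (hC0mem _).2 ⟨⟨hp, h2⟩, DMain_xx_par h hs hv hp⟩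
        rw [hN0] at h3
        exact Finset.notMem_empty _ h3
    have huniv : (Finset.univ : Finset V) = insert H C := by
      ext v
      simp only [Finset.mem_univ, true_iff, Finset.mem_insert]
      by_cases hv : v = H
      · exact Or.inl hv
      · exact Or.inr ((hCmem v).2 ⟨hv, hall _ v rfl hv⟩)
    rw [← Finset.card_univ, huniv, Finset.card_insert_of_notMem hHC]
    push_cast
    omega
  right
  have hC2c : C2.card ≤ C0.card := Finset.card_filter_le _ _
  refine ⟨C0.card, C1.card, C2.card, by omega, by positivity, by positivity, by exact_mod_cast hC2c,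
    by omega, ?_, ?_, ?_⟩
  · have h1 : S1 G H par = ∑ v ∈ A, q (av G par v) := by
      unfold S1
      exact Finset.sum_congr (by ext; simp [hA]) fun _ _ => rfl
    have h2 : ∑ v ∈ A, q (av G par v) = ∑ v ∈ C, q (av G par v) := by
      refine (Finset.sum_subset hCA fun v hv hvC => ?_).symm
      have hv' := (hAmem v).1 hv
      have hp : par v ≠ H := fun hp => hvC ((hCmem v).2 ⟨hv', hp⟩)
      unfold av
      rw [DMain_xx_par h hs hv' hp]
      rcases DMain_xx h hs hv' with h3 | h3 <;> rw [h3] <;> unfold q <;> norm_num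
    rw [h1, h2, hsplit]
    have h3 : ∑ v ∈ C0, q (av G par v) = ∑ v ∈ C0, m * (m + 1) := by
      refine Finset.sum_congr rfl fun v hv => ?_
      have hv' := (hC0mem v).1 hv
      unfold av
      rw [hv'.2, hv'.1.2, hH]
      unfold q
      ring
    have h4 : ∑ v ∈ C1, q (av G par v) = ∑ v ∈ C1, m * (m - 1) := by
      refine Finset.sum_congr rfl fun v hv => ?_
      have hv' := (hC1mem v).1 hv
      unfold av
      rw [hv'.2, hv'.1.2, hH]
      unfold q
      ring
    rw [h3, h4, Finset.sum_const, Finset.sum_const, nsmul_eq_mul, nsmul_eq_mul]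
  · set F : V → ℤ := fun v =>
      ∑ w ∈ Finset.univ.filter (fun w => w ≠ H ∧ nb par v w), q (av G par v + av G par w) with hF
    have h1 : S2 G H par = ∑ v ∈ A, F v := by
      unfold S2
      refine Finset.sum_congr (by ext; simp [hA]) fun v _ => ?_
      exact Finset.sum_congr (by ext; simp) fun _ _ => rfl
    have hF0 : ∀ v, 0 ≤ F v := fun v => Finset.sum_nonneg fun w _ => DMain_q_nonneg _
    -- lower bound of F v by the sum over a subset
    have hFs : ∀ v (T : Finset V), (∀ w ∈ T, w ≠ H ∧ nb par v w) →
        ∑ w ∈ T, q (av G par v + av G par w) ≤ F v := by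
      intro v T hT
      refine Finset.sum_le_sum_of_subset_of_nonneg (fun w hw => ?_) fun w _ _ => DMain_q_nonneg _
      rw [Finset.mem_filter]
      exact ⟨Finset.mem_univ _, hT w hw⟩
    have hav0 : ∀ v ∈ C0, av G par v = m := fun v hv => by
      have hv' := (hC0mem v).1 hv
      unfold av
      rw [hv'.2, hv'.1.2, hH]
      ring
    have hav1 : ∀ v ∈ C1, av G par v = m - 1 := fun v hv => by
      have hv' := (hC1mem v).1 hv
      unfold av
      rw [hv'.2, hv'.1.2, hH]
      ring
    have hchild : ∀ u ∈ C0, ∀ w ∈ ch H par u, w ≠ H ∧ par w = u ∧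
        m * (m - 1) + (if p2 u then 2 * m else 0) ≤ q (av G par u + av G par w) ∧
        m * (m - 1) + (if p2 u then 2 * m else 0) ≤ q (av G par w + av G par u) := by
      intro u hu w hw
      have hu' := (hC0mem u).1 hu
      have hw' := DMain_mem_ch.1 hw
      have h2 : av G par w = xx G w := by
        unfold av
        rw [hw'.2, hu'.2]
        ring
      have h3 := h.xx_ge hw'.1
      have h4 : m * (m - 1) + (if p2 u then 2 * m else 0) ≤ q (m + xx G w) := by
        by_cases hpu : p2 u
        · rw [if_pos hpu]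
          rw [hp2] at hpu
          obtain ⟨w', hw'm, hw'0⟩ := hpu
          obtain ⟨x, hx⟩ := Finset.card_eq_one.1 (hchc u hu)
          have e1 : w' = w := by
            rw [hx, Finset.mem_singleton] at hw'm hw
            rw [hw'm, hw]
          rw [e1] at hw'0
          rw [hw'0]
          unfold q
          linarith
        · rw [if_neg hpu]
          have h5 := DMain_q_mono (by omega : 0 ≤ m - 1) (show m - 1 ≤ m + xx G w by omega)
          linarith
      refine ⟨hw'.1, hw'.2, ?_, ?_⟩
      · rw [hav0 u hu, h2]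
        exact h4
      · rw [hav0 u hu, h2, add_comm (xx G w)]
        exact h4
    -- the two kinds of children of the root
    have hF_0 : ∀ v ∈ C0, ((C0.card : ℤ) - 1) * (2 * m * (2 * m + 1)) +
        C1.card * ((2 * m - 1) * (2 * m)) + (m * (m - 1) + if p2 v then 2 * m else 0) ≤ F v := by
      intro v hv
      have hv' := (hC0mem v).1 hv
      obtain ⟨w, hw⟩ := Finset.card_eq_one.1 (hchc v hv)
      have hwm : w ∈ ch H par v := by rw [hw]; exact Finset.mem_singleton_self _
      obtain ⟨hw1, hw2, hw3, -⟩ := hchild v hv w hwm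
      have hwC : w ∉ C := fun hwC => hv'.1.1 (hw2.symm.trans ((hCmem w).1 hwC).2)
      have h2 := hFs v (insert w (C.erase v)) (by
        intro x hx
        rcases Finset.mem_insert.1 hx with rfl | hx
        · refine ⟨hw1, ?_, Or.inr (Or.inr hw2)⟩
          rintro rfl
          exact hwC (hC0C hv)
        · obtain ⟨hx1, hx2⟩ := Finset.mem_erase.1 hx
          have hx3 := (hCmem x).1 hx2
          exact ⟨hx3.1, hx1.symm, Or.inl (hv'.1.2.trans hx3.2.symm)⟩)
      rw [Finset.sum_insert (fun hx => hwC (Finset.mem_of_mem_erase hx))] at h2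
      have h3 : ∑ x ∈ C.erase v, q (av G par v + av G par x) =
          ((C0.card : ℤ) - 1) * (2 * m * (2 * m + 1)) + C1.card * ((2 * m - 1) * (2 * m)) := by
        have h4 := Finset.sum_erase_add C (fun x => q (av G par v + av G par x)) (hC0C hv)
        rw [hsplit] at h4
        have h5 : ∑ x ∈ C0, q (av G par v + av G par x) = ∑ x ∈ C0, 2 * m * (2 * m + 1) := by
          refine Finset.sum_congr rfl fun x hx => ?_
          rw [hav0 v hv, hav0 x hx]
          unfold q
          ring
        have h6 : ∑ x ∈ C1, q (av G par v + av G par x) = ∑ x ∈ C1, (2 * m - 1) * (2 * m) := by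
          refine Finset.sum_congr rfl fun x hx => ?_
          rw [hav0 v hv, hav1 x hx]
          unfold q
          ring
        rw [h5, h6, Finset.sum_const, Finset.sum_const, nsmul_eq_mul, nsmul_eq_mul] at h4
        have h7 : q (av G par v + av G par v) = 2 * m * (2 * m + 1) := by
          rw [hav0 v hv]
          unfold q
          ring
        rw [h7] at h4
        linear_combination h4
      rw [h3] at h2
      linarith
    have hF_1 : ∀ v ∈ C1, (C0.card : ℤ) * ((2 * m - 1) * (2 * m)) +
        ((C1.card : ℤ) - 1) * ((2 * m - 2) * (2 * m - 1)) ≤ F v := by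
      intro v hv
      have hv' := (hC1mem v).1 hv
      have h2 := hFs v (C.erase v) (by
        intro x hx
        obtain ⟨hx1, hx2⟩ := Finset.mem_erase.1 hx
        have hx3 := (hCmem x).1 hx2
        exact ⟨hx3.1, hx1.symm, Or.inl (hv'.1.2.trans hx3.2.symm)⟩)
      have h3 : ∑ x ∈ C.erase v, q (av G par v + av G par x) =
          (C0.card : ℤ) * ((2 * m - 1) * (2 * m)) +
            ((C1.card : ℤ) - 1) * ((2 * m - 2) * (2 * m - 1)) := by
        have h4 := Finset.sum_erase_add C (fun x => q (av G par v + av G par x)) (hC1C hv)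
        rw [hsplit] at h4
        have h5 : ∑ x ∈ C0, q (av G par v + av G par x) = ∑ x ∈ C0, (2 * m - 1) * (2 * m) := by
          refine Finset.sum_congr rfl fun x hx => ?_
          rw [hav1 v hv, hav0 x hx]
          unfold q
          ring
        have h6 : ∑ x ∈ C1, q (av G par v + av G par x) = ∑ x ∈ C1, (2 * m - 2) * (2 * m - 1) := by
          refine Finset.sum_congr rfl fun x hx => ?_
          rw [hav1 v hv, hav1 x hx]
          unfold q
          ring
        rw [h5, h6, Finset.sum_const, Finset.sum_const, nsmul_eq_mul, nsmul_eq_mul] at h4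
        have h7 : q (av G par v + av G par v) = (2 * m - 2) * (2 * m - 1) := by
          rw [hav1 v hv]
          unfold q
          ring
        rw [h7] at h4
        linear_combination h4
      rw [h3] at h2
      exact h2
    -- the grandchildren
    have hFD : ∀ u ∈ C0, ∑ w ∈ ch H par u, F w ≥ m * (m - 1) + if p2 u then 2 * m else 0 := by
      intro u hu
      obtain ⟨w, hw⟩ := Finset.card_eq_one.1 (hchc u hu)
      have hwu : w ∈ ch H par u := by rw [hw]; exact Finset.mem_singleton_self _
      obtain ⟨hw1, hw2, -, hw4⟩ := hchild u hu w hwu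
      have hu' := (hC0mem u).1 hu
      have h2 := hFs w {u} (by
        intro x hx
        rw [Finset.mem_singleton] at hx
        subst hx
        refine ⟨hu'.1.1, ?_, Or.inr (Or.inl hw2)⟩
        rintro rfl
        exact hu'.1.1 (hw2.symm.trans hu'.1.2))
      rw [Finset.sum_singleton] at h2
      rw [hw, Finset.sum_singleton]
      exact hw4.trans h2
    have h2 : ∑ v ∈ C, F v + ∑ v ∈ D, F v ≤ ∑ v ∈ A, F v := by
      rw [← Finset.sum_union hCD]
      exact Finset.sum_le_sum_of_subset_of_nonneg (Finset.union_subset hCA hDA) fun v _ _ => hF0 v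
    have hbonus : ∑ u ∈ C0, (if p2 u then 2 * m else 0) = C2.card * (2 * m) := by
      rw [← Finset.sum_filter, Finset.sum_const, nsmul_eq_mul]
    have h3 : ∑ v ∈ C0, F v ≥ C0.card * (((C0.card : ℤ) - 1) * (2 * m * (2 * m + 1)) +
        C1.card * ((2 * m - 1) * (2 * m)) + m * (m - 1)) + C2.card * (2 * m) := by
      have h5 := Finset.sum_le_sum hF_0
      simp only [Finset.sum_add_distrib, Finset.sum_const, hbonus, nsmul_eq_mul] at h5
      linarith
    have h4 : ∑ v ∈ C1, F v ≥ C1.card * ((C0.card : ℤ) * ((2 * m - 1) * (2 * m)) +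
        ((C1.card : ℤ) - 1) * ((2 * m - 2) * (2 * m - 1))) := by
      have := Finset.card_nsmul_le_sum C1 F _ hF_1
      rwa [nsmul_eq_mul] at this
    have h5 : ∑ v ∈ D, F v ≥ C0.card * (m * (m - 1)) + C2.card * (2 * m) := by
      rw [hD, Finset.sum_biUnion hDpd]
      have h6 := Finset.sum_le_sum hFD
      rw [Finset.sum_add_distrib, Finset.sum_const, hbonus, nsmul_eq_mul] at h6
      exact h6
    rw [hsplit] at h2
    rw [h1]
    refine le_trans (le_of_eq ?_) ((add_le_add (add_le_add h3 h4) h5).trans h2)
    ring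
  · intro hN2
    have hC2e : C2 = ∅ := Finset.card_eq_zero.1 (by exact_mod_cast hN2)
    have hall : ∀ k, ∀ v, dep v = k → v ≠ H → v ∈ C ∨ v ∈ D := by
      intro k
      induction k using Nat.strong_induction_on with
      | _ k ih =>
        intro v hk hv
        by_cases hp : par v = H
        · exact Or.inl ((hCmem v).2 ⟨hv, hp⟩)
        · right
          have h1 := h.dep v hv
          have h2 := DMain_xx_par h hs hv hp
          rcases ih (dep (par v)) (by omega) (par v) rfl hp with h3 | h3
          · exact (hDmem v).2 ⟨hv, (hC0mem _).2 ⟨(hCmem _).1 h3, h2⟩⟩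
          · exfalso
            have h4 := (hDmem _).1 h3
            have h5 : par (par v) ∈ C2 := by
              rw [hC2, Finset.mem_filter, hp2]
              exact ⟨h4.2, par v, DMain_mem_ch.2 ⟨hp, rfl⟩, h2⟩
            rw [hC2e] at h5
            exact Finset.notMem_empty _ h5
    have huniv : (Finset.univ : Finset V) = insert H (C ∪ D) := by
      ext v
      simp only [Finset.mem_univ, true_iff, Finset.mem_insert, Finset.mem_union]
      by_cases hv : v = H
      · exact Or.inl hv
      · exact Or.inr (hall _ v rfl hv)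
    have hHD : H ∉ C ∪ D := by
      rw [Finset.mem_union, not_or]
      exact ⟨hHC, fun hH' => ((hDmem H).1 hH').1 rfl⟩
    rw [← Finset.card_univ, huniv, Finset.card_insert_of_notMem hHD, Finset.card_union_of_disjoint hCD,
      hDc]
    push_cast
    omega

end Pool.Agent.Lib.MP_a38fe7_coS
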