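import Pool.Agent.Lib.MP_a38fe7_coS.DPDef

/-!
# The Boolean check implies the inequalities
-/

set_option autoImplicit false

namespace Pool.Agent.Lib.MP_a38fe7_coS

theorem DPChk_vals {X Y x : ℕ} (h : x ≤ X ∨ x = Y) : x ∈ vals X Y := by
  unfold vals
  rw [List.mem_cons, List.mem_range]
  omega

/-- Unfold `chk` (`List.all_eq_true`, `List.mem_range`, `decide_eq_true_eq`). In `g1` use the first
alternative for `c' = 0` and `c = c' - 1`, `e = b2 - tt c` otherwise. -/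
theorem chk_sound {A β ν : ℤ} {Y X Bud : ℕ} {F : ℕ → ℕ → ℕ → ℤ} {G : ℕ → ℕ → ℕ → ℕ → ℤ} {U : ℤ}
    (h : chk A β ν Y X Bud F G U = true) : Chk A β ν Y X Bud F G U := by
  unfold chk at h
  simp only [Bool.and_eq_true, Bool.or_eq_true, List.all_eq_true, decide_eq_true_eq] at h
  obtain ⟨⟨⟨⟨⟨⟨h1, h2⟩, h3⟩, h4⟩, h5⟩, h6⟩, h7⟩ := h
  refine ⟨h1, h2, fun x hx => h3 x (DPChk_vals hx), ?_, fun p hp => h5 p (DPChk_vals hp), ?_, ?_⟩
  · intro x hx i hi b hb s' hs' c' hc' b2 hb2 htt hc0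
    obtain ⟨ha, hb'⟩ := h4 x (DPChk_vals hx) i (List.mem_range.2 hi) b
      (List.mem_range.2 (by omega)) s' (List.mem_range.2 (by omega))
    rcases Nat.eq_zero_or_pos c' with h0 | h0
    · subst h0
      have hz : b2 = 0 := hc0 rfl
      subst hz
      simpa using ha
    · obtain ⟨c, rfl⟩ : ∃ c, c' = c + 1 := ⟨c' - 1, by omega⟩
      have hcast : (((c + 1 : ℕ) : ℤ) - 1) = (c : ℤ) := by push_cast; ring
      rw [hcast] at htt ⊢
      obtain ⟨e, rfl⟩ : ∃ e, b2 = tt c + e := ⟨b2 - tt c, by omega⟩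
      exact hb' c (List.mem_range.2 (by omega)) e (List.mem_range.2 (by omega))
  · intro p hp x hx b hb s' hs'
    exact h6 p (DPChk_vals hp) x (List.mem_range.2 (by omega)) b (List.mem_range.2 (by omega)) s'
      (List.mem_range.2 (by omega))
  · intro s' hs'
    exact h7 s' (List.mem_range.2 (by omega))

end Pool.Agent.Lib.MP_a38fe7_coS
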