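import Pool.Agent.Lib.MP_a38fe7_coS.Defs

/-!
# A dynamic program for rooted trees: definitions (helper87)

`A`, `β`, `ν` are the multipliers of `S2`, `- S1`, `- card V`; `Y = xx H`; all other vertices together
have the budget `Bud = ∑_{v ≠ H} tt (xx v)`. `F p x' b` bounds the value of a subtree hanging at a vertex
`v` with `xx v = x' - 1`, `xx (par v) = p` and budget `b`; `G x i b s'` bounds the sum of the values of
`i` children of a vertex with `xx = x`, with total budget `b` and sum of the `xx` equal to `s' - i`.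
-/

set_option autoImplicit false

namespace Pool.Agent.Lib.MP_a38fe7_coS

/-- `tt z = z (z + 1) / 2`. -/
def tt (z : ℤ) : ℕ := (z * (z + 1) / 2).toNat

/-- The linear part of the contribution of an edge at a vertex. -/
def lin (x c : ℤ) : ℤ := 2 * x * (x + c) ^ 2 + 2 * (x + 1) * (x + c)

/-- The inequalities of the dynamic program. `X` is the maximal value of the vertices `≠ H`. -/
structure Chk (A β ν : ℤ) (Y X Bud : ℕ) (F : ℕ → ℕ → ℕ → ℤ) (G : ℕ → ℕ → ℕ → ℕ → ℤ) (U : ℤ) :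
    Prop where
  hX : X ≤ Y
  hBud : Bud < tt (X + 1) ∨ X = Y
  g0 : ∀ x : ℕ, (x ≤ X ∨ x = Y) → 0 ≤ G x 0 0 0
  g1 : ∀ x : ℕ, (x ≤ X ∨ x = Y) → ∀ i : ℕ, i < (if x = Y then Y + 2 else x + 1) →
    ∀ b : ℕ, b ≤ Bud → ∀ s' : ℕ, s' ≤ i + b → ∀ c' : ℕ, c' ≤ X + 1 → ∀ b2 : ℕ, b + b2 ≤ Bud →
      tt ((c' : ℤ) - 1) ≤ b2 → (c' = 0 → b2 = 0) →
      G x i b s' + F x c' b2 + A * lin x ((c' : ℤ) - 1) ≤ G x (i + 1) (b + b2) (s' + c')
  f0 : ∀ p : ℕ, (p ≤ X ∨ p = Y) → - β * q ((p : ℤ) - 1) - ν ≤ F p 0 0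
  f1 : ∀ p : ℕ, (p ≤ X ∨ p = Y) → ∀ x : ℕ, x ≤ X → ∀ b : ℕ, b + tt x ≤ Bud →
    ∀ s' : ℕ, s' ≤ x + 1 + b →
      - β * q (x + p) + A * (lin x p + 2 * ((x + 2) * x + p + (s' - (x + 1))) ^ 2) - ν +
        G x (x + 1) b s' ≤ F p (x + 1) (b + tt x)
  r : ∀ s' : ℕ, s' ≤ Y + 2 + Bud →
    A * (2 * ((Y + 2) * Y + ((s' : ℤ) - (Y + 2))) ^ 2) - ν + G Y (Y + 2) Bud s' ≤ U

/-- Digit `i` (base `2 ^ 22`) of the table `T`, negated. -/
def dig (T i : ℕ) : ℤ := - ((T >>> (22 * i)) % 4194304 : ℕ)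

/-- The table for `F`. -/
def Fd (X Bud T : ℕ) (p x b : ℕ) : ℤ := dig T ((p * (X + 2) + x) * (Bud + 1) + b)

/-- The table for `G`. -/
def Gd (Y Bud T : ℕ) (x i b s : ℕ) : ℤ :=
  dig T (((x * (Y + 3) + i) * (Bud + 1) + b) * (Y + Bud + 4) + s)

/-- The list of the relevant values. -/
def vals (X Y : ℕ) : List ℕ := Y :: List.range (X + 1)

/-- The check of the dynamic program as a Boolean. -/
def chk (A β ν : ℤ) (Y X Bud : ℕ) (F : ℕ → ℕ → ℕ → ℤ) (G : ℕ → ℕ → ℕ → ℕ → ℤ) (U : ℤ) : Bool :=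
  decide (X ≤ Y) && (decide (Bud < tt (X + 1)) || decide (X = Y)) &&
  (vals X Y).all (fun x => decide (0 ≤ G x 0 0 0)) &&
  (vals X Y).all (fun x => (List.range (if x = Y then Y + 2 else x + 1)).all fun i =>
    (List.range (Bud + 1)).all fun b => (List.range (i + b + 1)).all fun s' =>
      decide (G x i b s' + F x 0 0 + A * lin x (- 1) ≤ G x (i + 1) b s') &&
      (List.range (X + 1)).all fun c => (List.range (Bud + 1 - b - tt c)).all fun e =>
        decide (G x i b s' + F x (c + 1) (tt c + e) + A * lin x c ≤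
          G x (i + 1) (b + (tt c + e)) (s' + (c + 1)))) &&
  (vals X Y).all (fun p => decide (- β * q ((p : ℤ) - 1) - ν ≤ F p 0 0)) &&
  (vals X Y).all (fun p => (List.range (X + 1)).all fun x =>
    (List.range (Bud + 1 - tt x)).all fun b => (List.range (x + 2 + b)).all fun s' =>
      decide (- β * q (x + p) + A * (lin x p + 2 * ((x + 2) * x + p + (s' - (x + 1))) ^ 2) - ν +
        G x (x + 1) b s' ≤ F p (x + 1) (b + tt x))) &&
  (List.range (Y + 3 + Bud)).all fun s' =>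
    decide (A * (2 * ((Y + 2) * Y + ((s' : ℤ) - (Y + 2))) ^ 2) - ν + G Y (Y + 2) Bud s' ≤ U)

end Pool.Agent.Lib.MP_a38fe7_coS
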