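import Pool.Agent.Lib.MP_a38fe7_coS.DPDef

/-!
# The dynamic program: the children of a vertex
-/

set_option autoImplicit false

namespace Pool.Agent.Lib.MP_a38fe7_coS

theorem DPFold_le_tt (c : ℕ) : c ≤ 1 + tt ((c : ℤ) - 1) := by
  rcases Nat.lt_or_ge c 2 with h | h
  · omega
  · have h1 : ((c : ℤ) - 1) ≤ ((c : ℤ) - 1) * ((c : ℤ) - 1 + 1) / 2 := by
      rw [Int.le_ediv_iff_mul_le (by norm_num)]
      have h2 : (2 : ℤ) ≤ c := by exact_mod_cast h
      nlinarith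
    unfold tt
    have h3 := Int.self_le_toNat (((c : ℤ) - 1) * ((c : ℤ) - 1 + 1) / 2)
    omega

/-- Induction on `s` (`Finset.induction_on`), with `Chk.g1` for the step (`b = ∑ bw`, `b2 = bw w`) and
`Chk.g0` for the empty set. `s'` is the sum of the numbers `c' = xv w + 1`; `s' ≤ s.card + ∑ bw` because
`c' ≤ 1 + tt (c' - 1) ≤ 1 + bw w`. -/
theorem fold_bound {A β ν : ℤ} {Y X Bud : ℕ} {F : ℕ → ℕ → ℕ → ℤ} {G : ℕ → ℕ → ℕ → ℕ → ℤ} {U : ℤ}
    (hc : Chk A β ν Y X Bud F G U) {ι : Type} (s : Finset ι) (xv : ι → ℤ) (bw : ι → ℕ)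
    (val : ι → ℤ) (x : ℕ) (hx : x ≤ X ∨ x = Y)
    (hcard : s.card ≤ if x = Y then Y + 2 else x + 1)
    (hs : ∀ w ∈ s, ∃ c' : ℕ, xv w = (c' : ℤ) - 1 ∧ c' ≤ X + 1 ∧ tt (xv w) ≤ bw w ∧
      (c' = 0 → bw w = 0) ∧ val w ≤ F x c' (bw w))
    (hb : ∑ w ∈ s, bw w ≤ Bud) :
    ∃ s' : ℕ, (s' : ℤ) = ∑ w ∈ s, xv w + s.card ∧ s' ≤ s.card + ∑ w ∈ s, bw w ∧
      ∑ w ∈ s, (val w + A * lin x (xv w)) ≤ G x s.card (∑ w ∈ s, bw w) s' := by
  classical
  induction s using Finset.induction_on with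
  | empty => exact ⟨0, by simp, by simp, by simpa using hc.g0 x hx⟩
  | insert w s hw ih =>
    rw [Finset.card_insert_of_notMem hw] at hcard ⊢
    rw [Finset.sum_insert hw] at hb
    obtain ⟨s', h1, h2, h3⟩ := ih (by omega) (fun v hv => hs v (Finset.mem_insert_of_mem hv))
      (by omega)
    obtain ⟨c', hc1, hc2, hc3, hc4, hc5⟩ := hs w (Finset.mem_insert_self w s)
    rw [hc1] at hc3
    have h4 := DPFold_le_tt c'
    refine ⟨s' + c', ?_, ?_, ?_⟩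
    · rw [Finset.sum_insert hw, hc1]
      push_cast
      linarith
    · rw [Finset.sum_insert hw]
      omega
    · rw [Finset.sum_insert hw, Finset.sum_insert hw, hc1, add_comm (bw w)]
      have h5 := hc.g1 x hx s.card (by omega) (∑ w ∈ s, bw w) (by omega) s' h2 c' hc2 (bw w)
        (by omega) hc3 hc4
      linarith

end Pool.Agent.Lib.MP_a38fe7_coS
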