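import Pool.Agent.Lib.MP_a38fe7_coS.DPVert

/-!
# The dynamic program: the whole tree
-/

set_option autoImplicit false

namespace Pool.Agent.Lib.MP_a38fe7_coS

variable {V : Type} [Fintype V] {G : SimpleGraph V} {H : V} {par : V → V} {dep : V → ℕ}

private theorem DPMain_recN_nonneg (H : V) (par : V → V) (f : V → ℤ) (hf : ∀ v, 0 ≤ f v) (n : ℕ) :
    ∀ v, 0 ≤ RecN H par f n v := by
  induction n with
  | zero => intro v; simp [RecN]
  | succ n ih =>
    intro v
    simp only [RecN]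
    exact add_nonneg (hf v) (Finset.sum_nonneg fun w _ => ih w)

/-- The root: `rec_total` for `loc` and for `tt ∘ xx`, `dp_vertex` for the children, `fold_bound` with
`x = Y`, `LP_root`, `Chk.r`, `loc_sum`. -/
theorem RT.dp {A β ν : ℤ} {Y X Bud : ℕ} {F : ℕ → ℕ → ℕ → ℤ} {T : ℕ → ℕ → ℕ → ℕ → ℤ} {U : ℤ}
    (h : RT G H par dep) (hc : Chk A β ν Y X Bud F T U) (hY : xx G H = Y)
    (hmax : ∀ v, xx G v ≤ Y) (hb : ∑ v, tt (xx G v) = tt Y + Bud) :
    A * S2 G H par - β * S1 G H par - ν * Fintype.card V ≤ U := by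
  classical
  obtain ⟨M, hM⟩ : ∃ M : ℕ, ∀ v, dep v ≤ M :=
    ⟨Finset.univ.sup dep, fun v => Finset.le_sup (Finset.mem_univ v)⟩
  set f : V → ℤ := fun w => (tt (xx G w) : ℤ) with hf
  have hf0 : ∀ v, 0 ≤ f v := fun v => by simp [hf]
  have hn0 := DPMain_recN_nonneg H par f hf0 M
  -- the budget
  have hbud : ∑ w ∈ ch H par H, RecN H par f M w = Bud := by
    have h1 := h.rec_total f M hM (M + 1) (by omega)
    simp only [RecN] at h1
    have h2 : (∑ v, f v) = (tt Y : ℤ) + Bud := by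
      have := congrArg (fun n : ℕ => (n : ℤ)) hb
      push_cast at this
      simpa [hf] using this
    have h3 : f H = (tt Y : ℤ) := by simp [hf, hY]
    rw [h2, h3] at h1
    linarith
  set bw : V → ℕ := fun w => (RecN H par f M w).toNat with hbw
  have hbwc : ∀ w, (bw w : ℤ) = RecN H par f M w := fun w => Int.toNat_of_nonneg (hn0 w)
  have hbs : ∑ w ∈ ch H par H, bw w = Bud := by
    have : ((∑ w ∈ ch H par H, bw w : ℕ) : ℤ) = (Bud : ℤ) := by
      push_cast
      rw [← hbud]
      exact Finset.sum_congr rfl fun w _ => hbwc w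
    exact_mod_cast this
  have hcard : ((ch H par H).card : ℤ) = (Y : ℤ) + 2 := by
    have := h.card_ch_root
    linarith
  have hcard' : (ch H par H).card = Y + 2 := by exact_mod_cast hcard
  -- the children
  have hs : ∀ w ∈ ch H par H, ∃ c' : ℕ, xx G w = (c' : ℤ) - 1 ∧ c' ≤ X + 1 ∧
      tt (xx G w) ≤ bw w ∧ (c' = 0 → bw w = 0) ∧
      RecN H par (loc A β ν G H par) M w ≤ F Y c' (bw w) := by
    intro w hw
    have hw' : w ≠ H ∧ par w = H := by simpa [ch] using hw
    obtain ⟨c', hc1, hc2⟩ := h.dp_le hc hY hmax hb hw'.1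
    have hle : bw w ≤ Bud := by
      rw [← hbs]
      exact Finset.single_le_sum (f := bw) (fun _ _ => Nat.zero_le _) hw
    have hdep : M < dep w + M := by
      have := h.dep w hw'.1
      omega
    have hp : xx G (par w) = (Y : ℤ) := by rw [hw'.2, hY]
    obtain ⟨h1, h2, h3⟩ := h.dp_vertex hc hY hmax hb M hM M w hw'.1 hdep (bw w) (hbwc w).symm hle
      c' Y hc1 hp
    exact ⟨c', hc1, hc2, h1, h2, h3⟩
  obtain ⟨s', hs1, hs2, hs3⟩ := fold_bound hc (ch H par H) (xx G) bw
    (fun w => RecN H par (loc A β ν G H par) M w) Y (Or.inr rfl)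
    (by rw [if_pos rfl, hcard']) hs (le_of_eq hbs)
  rw [hcard', hbs] at hs2 hs3
  rw [hcard] at hs1
  have hr := hc.r s' hs2
  -- the value
  have hval := h.rec_total (loc A β ν G H par) M hM (M + 1) (by omega)
  rw [h.loc_sum] at hval
  simp only [RecN] at hval
  rw [← hval]
  have hloc : loc A β ν G H par H = A * LP G H par H - ν := by simp [loc]
  rw [hloc, h.LP_root, hY]
  rw [Finset.sum_add_distrib, ← Finset.mul_sum] at hs3
  have hsum : ∑ w ∈ ch H par H, xx G w = (s' : ℤ) - (Y + 2) := by linarith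
  rw [hsum]
  linarith

end Pool.Agent.Lib.MP_a38fe7_coS
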