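import Pool.Agent.Lib.MP_a38fe7_coS.DPDef
import Pool.Agent.Lib.MP_a38fe7_coS.RDeg

/-!
# The pairs of adjacent edges, vertex by vertex
-/

set_option autoImplicit false

namespace Pool.Agent.Lib.MP_a38fe7_coS

open Classical in
/-- The sum of `q (av + av)` over the ordered pairs of different edges at the vertex `v`. -/
noncomputable def LP {V : Type} [Fintype V] (G : SimpleGraph V) (H : V) (par : V → V) (v : V) : ℤ :=
  ∑ w ∈ ch H par v, ∑ w' ∈ (ch H par v).erase w, q (av G par w + av G par w') +
    (if v = H then 0 else 2 * ∑ w ∈ ch H par v, q (av G par v + av G par w))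

variable {V : Type} [Fintype V] {G : SimpleGraph V} {H : V} {par : V → V} {dep : V → ℕ}

private theorem DPPair_mem_ch {u w : V} : w ∈ ch H par u ↔ w ≠ H ∧ par w = u := by
  classical
  unfold ch
  rw [Finset.mem_filter]
  exact ⟨fun h => h.2, fun h => ⟨Finset.mem_univ _, h⟩⟩

open Classical in
private theorem DPPair_inner (h : RT G H par dep) {v : V} (hv : v ≠ H) (f : V → ℤ) :
    ∑ w ∈ Finset.univ.filter (fun w => w ≠ H ∧ nb par v w), f w =
      ∑ w ∈ (ch H par (par v)).erase v, f w + ∑ w ∈ ch H par v, f w +
        (if par v = H then 0 else f (par v)) := by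
  have hvm : v ∈ ch H par (par v) := DPPair_mem_ch.2 ⟨hv, rfl⟩
  have hpv := h.par_ne hv
  have hd1 : Disjoint ((ch H par (par v)).erase v) (ch H par v) := by
    rw [Finset.disjoint_left]
    intro w h1 h2
    have h3 := (DPPair_mem_ch.1 (Finset.mem_of_mem_erase h1)).2
    have h4 := (DPPair_mem_ch.1 h2).2
    exact hpv (h3.symm.trans h4)
  by_cases hp : par v = H
  · have hS : Finset.univ.filter (fun w => w ≠ H ∧ nb par v w) =
        (ch H par (par v)).erase v ∪ ch H par v := by
      ext w
      rw [Finset.mem_filter, Finset.mem_union, Finset.mem_erase, DPPair_mem_ch, DPPair_mem_ch]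
      constructor
      · rintro ⟨_, hw, hne, h1 | h1 | h1⟩
        · exact Or.inl ⟨hne.symm, hw, h1.symm⟩
        · exact absurd (h1.symm.trans hp) hw
        · exact Or.inr ⟨hw, h1⟩
      · rintro (⟨h1, h2, h3⟩ | ⟨h2, h3⟩)
        · exact ⟨Finset.mem_univ _, h2, h1.symm, Or.inl h3.symm⟩
        · refine ⟨Finset.mem_univ _, h2, ?_, Or.inr (Or.inr h3)⟩
          rintro rfl
          exact hpv h3
    rw [hS, Finset.sum_union hd1, if_pos hp, add_zero]
  · have hS : Finset.univ.filter (fun w => w ≠ H ∧ nb par v w) =
        insert (par v) ((ch H par (par v)).erase v ∪ ch H par v) := by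
      ext w
      rw [Finset.mem_filter, Finset.mem_insert, Finset.mem_union, Finset.mem_erase, DPPair_mem_ch,
        DPPair_mem_ch]
      constructor
      · rintro ⟨_, hw, hne, h1 | h1 | h1⟩
        · exact Or.inr (Or.inl ⟨hne.symm, hw, h1.symm⟩)
        · exact Or.inl h1.symm
        · exact Or.inr (Or.inr ⟨hw, h1⟩)
      · rintro (h1 | ⟨h1, h2, h3⟩ | ⟨h2, h3⟩)
        · subst h1
          exact ⟨Finset.mem_univ _, hp, hpv.symm, Or.inr (Or.inl rfl)⟩
        · exact ⟨Finset.mem_univ _, h2, h1.symm, Or.inl h3.symm⟩
        · refine ⟨Finset.mem_univ _, h2, ?_, Or.inr (Or.inr h3)⟩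
          rintro rfl
          exact hpv h3
    have hnot : par v ∉ (ch H par (par v)).erase v ∪ ch H par v := by
      rw [Finset.mem_union, Finset.mem_erase, DPPair_mem_ch, DPPair_mem_ch]
      rintro (⟨_, h2, h3⟩ | ⟨_, h3⟩)
      · exact h.par_ne hp h3
      · exact h.par_par_ne hv hp h3
    rw [hS, Finset.sum_insert hnot, Finset.sum_union hd1, if_neg hp, add_comm]

open Classical in
private theorem DPPair_fiber (f : V → V → ℤ) :
    ∑ v ∈ Finset.univ.filter (fun v => v ≠ H), f v (par v) = ∑ u, ∑ v ∈ ch H par u, f v u := by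
  rw [← Finset.sum_fiberwise (Finset.univ.filter (fun v => v ≠ H)) par (fun v => f v (par v))]
  refine Finset.sum_congr rfl fun u _ => ?_
  rw [Finset.filter_filter]
  have h2 : ∀ v ∈ Finset.univ.filter (fun v => v ≠ H ∧ par v = u), f v (par v) = f v u := by
    intro v hv
    rw [(Finset.mem_filter.1 hv).2.2]
  rw [Finset.sum_congr rfl h2]
  rfl

/-- Every ordered pair `(v, w)` with `nb par v w` has exactly one common vertex: `par v = par w`, or
`par v = w` (the common vertex is `w`), or `par w = v` (the common vertex is `v`); these three cases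
exclude each other (`par_ne`, `par_par_ne`). -/
theorem RT.S2_eq (h : RT G H par dep) : S2 G H par = ∑ v, LP G H par v := by
  classical
  have e0 : S2 G H par = ∑ v ∈ Finset.univ.filter (fun v => v ≠ H),
      ((∑ w ∈ (ch H par (par v)).erase v, q (av G par v + av G par w)) +
        (if par v = H then 0 else q (av G par v + av G par (par v)))) +
      ∑ v ∈ Finset.univ.filter (fun v => v ≠ H), ∑ w ∈ ch H par v, q (av G par v + av G par w) := by
    rw [← Finset.sum_add_distrib]
    unfold S2
    refine Finset.sum_congr (by congr) fun v hv => ?_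
    have hv' : v ≠ H := (Finset.mem_filter.1 hv).2
    have := DPPair_inner h hv' (fun w => q (av G par v + av G par w))
    rw [this]
    ring
  have e1 := DPPair_fiber (H := H) (par := par) (fun v u =>
    ∑ w ∈ (ch H par u).erase v, q (av G par v + av G par w) +
      (if u = H then 0 else q (av G par v + av G par u)))
  have e2 : ∑ v ∈ Finset.univ.filter (fun v => v ≠ H), ∑ w ∈ ch H par v,
      q (av G par v + av G par w) =
      ∑ v, if v = H then 0 else ∑ w ∈ ch H par v, q (av G par v + av G par w) := by
    rw [Finset.sum_filter]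
    refine Finset.sum_congr rfl fun v _ => ?_
    by_cases hv : v = H
    · simp [hv]
    · simp [hv]
  have e3 : ∀ v, LP G H par v =
      (∑ w ∈ ch H par v, (∑ w' ∈ (ch H par v).erase w, q (av G par w + av G par w') +
        (if v = H then 0 else q (av G par w + av G par v)))) +
      if v = H then 0 else ∑ w ∈ ch H par v, q (av G par v + av G par w) := by
    intro v
    unfold LP
    rw [Finset.sum_add_distrib]
    by_cases hv : v = H
    · simp only [hv, if_true, Finset.sum_const_zero, add_zero]
    · simp only [hv, if_false]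
      have : ∀ w, q (av G par w + av G par v) = q (av G par v + av G par w) := fun w => by
        rw [add_comm]
      simp only [this]
      rw [two_mul]
      rw [← add_assoc]
  have e4 : ∑ v, LP G H par v =
      (∑ v, ∑ w ∈ ch H par v, (∑ w' ∈ (ch H par v).erase w, q (av G par w + av G par w') +
        (if v = H then 0 else q (av G par w + av G par v)))) +
      ∑ v, if v = H then 0 else ∑ w ∈ ch H par v, q (av G par v + av G par w) := by
    rw [Finset.sum_congr rfl (fun v _ => e3 v), Finset.sum_add_distrib]
  rw [e0, e2, e4]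
  refine congrArg₂ (· + ·) ?_ rfl
  convert e1 using 2

end Pool.Agent.Lib.MP_a38fe7_coS
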