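import Pool.Agent.Lib.MP_a38fe7_coS.DPPair

/-!
# The pairs of edges at a vertex
-/

set_option autoImplicit false

namespace Pool.Agent.Lib.MP_a38fe7_coS

theorem DPPair2_inner {W : Type} (T : Finset W) (s : W → ℤ) (a : ℤ) :
    ∑ w ∈ T, q (a + s w) = (T.card : ℤ) * (a ^ 2 + a) + (2 * a + 1) * ∑ w ∈ T, s w +
      ∑ w ∈ T, s w ^ 2 := by
  have h : ∀ w ∈ T, q (a + s w) = (a ^ 2 + a) + ((2 * a + 1) * s w + s w ^ 2) := by
    intro w _
    unfold q
    ring
  rw [Finset.sum_congr rfl h]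
  simp only [Finset.sum_add_distrib, Finset.sum_const, nsmul_eq_mul, ← Finset.mul_sum]
  ring

theorem DPPair2_pairs {W : Type} [DecidableEq W] (T : Finset W) (s : W → ℤ) :
    ∑ w ∈ T, ∑ w' ∈ T.erase w, q (s w + s w') = 2 * ((T.card : ℤ) - 2) * ∑ w ∈ T, s w ^ 2 +
      2 * ((T.card : ℤ) - 1) * ∑ w ∈ T, s w + 2 * (∑ w ∈ T, s w) ^ 2 := by
  set C := ∑ w ∈ T, s w with hC
  set S := ∑ w ∈ T, s w ^ 2 with hS
  have h : ∀ w ∈ T, ∑ w' ∈ T.erase w, q (s w + s w') =
      ((T.card : ℤ) - 4) * s w ^ 2 + ((T.card : ℤ) - 2 + 2 * C) * s w + (C + S) := by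
    intro w hw
    have h1 : ∑ w' ∈ T.erase w, q (s w + s w') = ∑ w' ∈ T, q (s w + s w') - q (s w + s w) :=
      Finset.sum_erase_eq_sub hw
    rw [h1, DPPair2_inner, ← hC, ← hS]
    unfold q
    ring
  rw [Finset.sum_congr rfl h]
  simp only [Finset.sum_add_distrib, Finset.sum_const, nsmul_eq_mul, ← Finset.mul_sum]
  rw [← hC, ← hS]
  ring

variable {V : Type} [Fintype V] {G : SimpleGraph V} {H : V} {par : V → V} {dep : V → ℕ}

theorem DPPair2_mem_ch {u w : V} (hw : w ∈ ch H par u) : par w = u := by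
  classical
  unfold ch at hw
  rw [Finset.mem_filter] at hw
  exact hw.2.2

/-- the pairs of two children -/
theorem DPPair2_ch (v : V) (hd : DecidableEq V) :
    ∑ w ∈ ch H par v, ∑ w' ∈ (ch H par v).erase w, q (av G par w + av G par w') =
      2 * (((ch H par v).card : ℤ) - 2) * ∑ w ∈ ch H par v, (xx G v + xx G w) ^ 2 +
      2 * (((ch H par v).card : ℤ) - 1) * ∑ w ∈ ch H par v, (xx G v + xx G w) +
      2 * (∑ w ∈ ch H par v, (xx G v + xx G w)) ^ 2 := by
  rw [← DPPair2_pairs]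
  refine Finset.sum_congr rfl fun w hw => Finset.sum_congr rfl fun w' hw' => ?_
  unfold av
  rw [DPPair2_mem_ch hw, DPPair2_mem_ch (Finset.mem_of_mem_erase hw')]
  congr 1
  ring

/-- the linear parts -/
theorem DPPair2_lin (v : V) : ∑ w ∈ ch H par v, lin (xx G v) (xx G w) =
    2 * xx G v * ∑ w ∈ ch H par v, (xx G v + xx G w) ^ 2 +
      2 * (xx G v + 1) * ∑ w ∈ ch H par v, (xx G v + xx G w) := by
  rw [Finset.mul_sum, Finset.mul_sum, ← Finset.sum_add_distrib]
  rfl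

theorem DPPair2_sum (v : V) : ∑ w ∈ ch H par v, (xx G v + xx G w) =
    ((ch H par v).card : ℤ) * xx G v + ∑ w ∈ ch H par v, xx G w := by
  rw [Finset.sum_add_distrib, Finset.sum_const, nsmul_eq_mul]

/-- For `k` numbers `s_1, …, s_k` with the sum `C`: the sum of `q (s_i + s_j)` over the ordered pairs
`i ≠ j` is `2 (k - 2) ∑ s_i ^ 2 + 2 (k - 1) C + 2 C ^ 2`. Here `k = xx v + 2` (`card_ch`), the `s_i` are
`xx v + xx w` (`w ∈ ch v`) and `xx v + xx (par v)`, `C = (xx v + 2) xx v + xx (par v) + ∑ xx w`. -/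
theorem RT.LP_eq (h : RT G H par dep) {v : V} (hv : v ≠ H) :
    LP G H par v = ∑ w ∈ ch H par v, lin (xx G v) (xx G w) + lin (xx G v) (xx G (par v)) +
      2 * ((xx G v + 2) * xx G v + xx G (par v) + ∑ w ∈ ch H par v, xx G w) ^ 2 := by
  have hc : ((ch H par v).card : ℤ) = xx G v + 1 := by
    have := h.card_ch hv
    linarith
  have h1 : ∑ w ∈ ch H par v, q (av G par v + av G par w) =
      ∑ w ∈ ch H par v, q ((xx G v + xx G (par v)) + (xx G v + xx G w)) := by
    refine Finset.sum_congr rfl fun w hw => ?_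
    unfold av
    rw [DPPair2_mem_ch hw]
    congr 1
    ring
  unfold LP
  rw [if_neg hv, DPPair2_ch, h1, DPPair2_inner, DPPair2_lin]
  have h2 := DPPair2_sum (G := G) (H := H) (par := par) v
  rw [hc] at h2 ⊢
  have h3 : ∑ w ∈ ch H par v, xx G w =
      ∑ w ∈ ch H par v, (xx G v + xx G w) - (xx G v + 1) * xx G v := by
    rw [h2]; ring
  rw [h3]
  unfold lin
  ring

/-- The same for the root (`card_ch_root`). -/
theorem RT.LP_root (h : RT G H par dep) :
    LP G H par H = ∑ w ∈ ch H par H, lin (xx G H) (xx G w) +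
      2 * ((xx G H + 2) * xx G H + ∑ w ∈ ch H par H, xx G w) ^ 2 := by
  have hc : ((ch H par H).card : ℤ) = xx G H + 2 := by
    have := h.card_ch_root
    linarith
  unfold LP
  rw [if_pos rfl, DPPair2_ch, DPPair2_lin]
  have h2 := DPPair2_sum (G := G) (H := H) (par := par) H
  rw [hc] at h2 ⊢
  rw [← h2]
  ring

end Pool.Agent.Lib.MP_a38fe7_coS
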