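import Pool.Agent.Lib.MP_a38fe7_coS.RDeg

/-!
# Sums over subtrees
-/

set_option autoImplicit false

namespace Pool.Agent.Lib.MP_a38fe7_coS

/-- The sum of `f` over the subtree of `v`, to depth `n`. -/
noncomputable def RecN {V : Type} [Fintype V] (H : V) (par : V → V) (f : V → ℤ) : ℕ → V → ℤ
  | 0, _ => 0
  | n + 1, v => f v + ∑ w ∈ ch H par v, RecN H par f n w

variable {V : Type} [Fintype V] {G : SimpleGraph V} {H : V} {par : V → V} {dep : V → ℕ}

theorem DPRec_dep_lt (h : RT G H par dep) : ∀ (n : ℕ) (v : V), dep v = n → v ≠ H →
    dep H < dep v := by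
  intro n
  induction n using Nat.strong_induction_on with
  | _ n ih =>
    intro v hn hv
    have h1 := h.dep v hv
    by_cases hp : par v = H
    · rw [hp] at h1
      omega
    · have h2 := ih (dep (par v)) (by omega) (par v) rfl hp
      omega

open Classical in
theorem DPRec_level (h : RT G H par dep) (f : V → ℤ) (n : ℕ) : ∀ j : ℕ,
    ∑ v ∈ Finset.univ.filter (fun v => dep v = dep H + j), RecN H par f n v =
      ∑ v ∈ Finset.univ.filter (fun v => dep H + j ≤ dep v ∧ dep v < dep H + j + n), f v := by
  induction n with
  | zero =>
    intro j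
    have h1 : Finset.univ.filter (fun v => dep H + j ≤ dep v ∧ dep v < dep H + j + 0) = ∅ := by
      refine Finset.filter_eq_empty_iff.2 fun v _ h2 => ?_
      omega
    rw [h1, Finset.sum_empty]
    exact Finset.sum_eq_zero fun v _ => rfl
  | succ n ih =>
    intro j
    have h1 : ∀ v, RecN H par f (n + 1) v = f v + ∑ w ∈ ch H par v, RecN H par f n w :=
      fun v => rfl
    rw [Finset.sum_congr rfl fun v _ => h1 v, Finset.sum_add_distrib]
    have h2 : ∑ v ∈ Finset.univ.filter (fun v => dep v = dep H + j),
        ∑ w ∈ ch H par v, RecN H par f n w =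
        ∑ w ∈ Finset.univ.filter (fun v => dep v = dep H + (j + 1)), RecN H par f n w := by
      rw [← Finset.sum_fiberwise_of_maps_to
        (s := Finset.univ.filter (fun v => dep v = dep H + (j + 1)))
        (t := Finset.univ.filter (fun v => dep v = dep H + j)) (g := par)]
      · refine Finset.sum_congr rfl fun v hv => ?_
        have hv1 := (Finset.mem_filter.1 hv).2
        refine Finset.sum_congr ?_ fun _ _ => rfl
        ext w
        unfold ch
        simp only [Finset.mem_filter, Finset.mem_univ, true_and]
        constructor
        · rintro ⟨h3, h4⟩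
          have h5 := h.dep w h3
          rw [h4] at h5
          exact ⟨by omega, h4⟩
        · rintro ⟨h3, h4⟩
          refine ⟨fun h5 => ?_, h4⟩
          rw [h5] at h3
          omega
      · intro w hw
        have hw1 := (Finset.mem_filter.1 hw).2
        have hwH : w ≠ H := by
          intro h5
          rw [h5] at hw1
          omega
        have h5 := h.dep w hwH
        refine Finset.mem_filter.2 ⟨Finset.mem_univ _, ?_⟩
        omega
    rw [h2, ih (j + 1), ← Finset.sum_union]
    · refine Finset.sum_congr ?_ fun _ _ => rfl
      ext v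
      simp only [Finset.mem_union, Finset.mem_filter, Finset.mem_univ, true_and]
      omega
    · rw [Finset.disjoint_left]
      intro v hv hv'
      have h3 := (Finset.mem_filter.1 hv).2
      have h4 := (Finset.mem_filter.1 hv').2
      omega

/-- Levels: `L j = {v | dep v = dep H + j}` (`H` is the only vertex with `dep v ≤ dep H`, every other
vertex has `dep v = dep (par v) + 1`). `∑ v ∈ L j, RecN (n + 1) v` is
`∑ v ∈ L j, f v + ∑ w ∈ L (j + 1), RecN n w`, as `L (j + 1)` is the disjoint union of the `ch v`,
`v ∈ L j`. Iterate. -/
theorem RT.rec_total (h : RT G H par dep) (f : V → ℤ) (M : ℕ) (hM : ∀ v, dep v ≤ M) (n : ℕ)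
    (hn : M < dep H + n) : RecN H par f n H = ∑ v, f v := by
  classical
  have h1 := DPRec_level h f n 0
  have h2 : Finset.univ.filter (fun v => dep v = dep H + 0) = {H} := by
    ext v
    simp only [Finset.mem_filter, Finset.mem_univ, true_and, Finset.mem_singleton]
    constructor
    · intro h3
      by_contra hv
      have := DPRec_dep_lt h (dep v) v rfl hv
      omega
    · rintro rfl
      omega
  have h3 : Finset.univ.filter (fun v => dep H + 0 ≤ dep v ∧ dep v < dep H + 0 + n) =
      (Finset.univ : Finset V) := by
    refine Finset.filter_eq_self.2 fun v _ => ?_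
    have h4 := hM v
    by_cases hv : v = H
    · rw [hv] at h4 ⊢
      omega
    · have := DPRec_dep_lt h (dep v) v rfl hv
      omega
  rw [h2, h3, Finset.sum_singleton] at h1
  exact h1

end Pool.Agent.Lib.MP_a38fe7_coS
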