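import Pool.Agent.Lib.MP_a38fe7_coS.DPRec
import Pool.Agent.Lib.MP_a38fe7_coS.DPPair
import Pool.Agent.Lib.MP_a38fe7_coS.DPFold

/-!
# The dynamic program: the bound
-/

set_option autoImplicit false

namespace Pool.Agent.Lib.MP_a38fe7_coS

variable {V : Type} [Fintype V] {G : SimpleGraph V} {H : V} {par : V → V} {dep : V → ℕ}

open Classical in
/-- The local value. -/
noncomputable def loc (A β ν : ℤ) (G : SimpleGraph V) (H : V) (par : V → V) (v : V) : ℤ :=
  A * LP G H par v - (if v = H then 0 else β * q (av G par v)) - ν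

/-- `S2_eq` and the definition of `S1`. -/
theorem RT.loc_sum (h : RT G H par dep) (A β ν : ℤ) :
    ∑ v, loc A β ν G H par v = A * S2 G H par - β * S1 G H par - ν * Fintype.card V := by
  classical
  have h1 : ∑ v : V, (if v = H then (0 : ℤ) else β * q (av G par v)) = β * S1 G H par := by
    unfold S1
    rw [Finset.mul_sum, Finset.sum_filter]
    refine Finset.sum_congr rfl fun v _ => ?_
    by_cases hv : v = H
    · rw [if_pos hv, if_neg (not_not.2 hv)]
    · rw [if_neg hv, if_pos hv]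
  have h2 : ∑ v : V, A * LP G H par v = A * S2 G H par := by
    rw [h.S2_eq, Finset.mul_sum]
  have h3 : ∑ _v : V, ν = ν * Fintype.card V := by
    rw [Finset.sum_const, Finset.card_univ, nsmul_eq_mul, mul_comm]
  unfold loc
  rw [Finset.sum_sub_distrib, Finset.sum_sub_distrib, h2, h3]
  rw [← h1]

theorem dpSound_tt_mono {a b : ℤ} (ha : -1 ≤ a) (hab : a ≤ b) : tt a ≤ tt b := by
  unfold tt
  have h1 : a * (a + 1) ≤ b * (b + 1) := by
    rcases hab.lt_or_eq with h | h
    · have h2 : 0 ≤ (b - a) * (b + a + 1) := mul_nonneg (by omega) (by omega)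
      nlinarith
    · rw [h]
  exact Int.toNat_le_toNat (Int.ediv_le_ediv (by norm_num) h1)

/-- `∑_{v ≠ H} tt (xx v) = Bud`, `Chk.hBud`, `Chk.hX`; `tt` is increasing. -/
theorem RT.dp_le {A β ν : ℤ} {Y X Bud : ℕ} {F : ℕ → ℕ → ℕ → ℤ} {T : ℕ → ℕ → ℕ → ℕ → ℤ} {U : ℤ}
    (h : RT G H par dep) (hc : Chk A β ν Y X Bud F T U) (hY : xx G H = Y)
    (hmax : ∀ v, xx G v ≤ Y) (hb : ∑ v, tt (xx G v) = tt Y + Bud) {v : V} (hv : v ≠ H) :
    ∃ c' : ℕ, xx G v = (c' : ℤ) - 1 ∧ c' ≤ X + 1 := by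
  classical
  have h0 := h.xx_ge hv
  have h1 : tt (xx G v) ≤ Bud := by
    have h2 : tt (xx G H) + tt (xx G v) ≤ ∑ u, tt (xx G u) := by
      have h3 : ∑ u ∈ ({H, v} : Finset V), tt (xx G u) ≤ ∑ u, tt (xx G u) :=
        Finset.sum_le_sum_of_subset (Finset.subset_univ _)
      rwa [Finset.sum_pair (Ne.symm hv)] at h3
    rw [hb, hY] at h2
    omega
  have h4 : xx G v ≤ X := by
    rcases hc.hBud with h5 | h5
    · by_contra h6
      have h7 : tt ((X : ℤ) + 1) ≤ tt (xx G v) := dpSound_tt_mono (by omega) (by omega)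
      omega
    · rw [h5]
      exact hmax v
  exact ⟨(xx G v + 1).toNat, by omega, by omega⟩

end Pool.Agent.Lib.MP_a38fe7_coS
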