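import Pool.Agent.Lib.MP_a38fe7_coS.DPMain
import Pool.Agent.Lib.MP_a38fe7_coS.DPChk

/-!
# The dynamic program: the form used for small hubs
-/

set_option autoImplicit false

namespace Pool.Agent.Lib.MP_a38fe7_coS

variable {V : Type} [Fintype V] {G : SimpleGraph V} {H : V} {par : V → V} {dep : V → ℕ}

private theorem DPUse_tt (z : ℤ) (hz : -1 ≤ z) : 2 * (tt z : ℤ) = q z := by
  unfold tt q
  have h0 : 0 ≤ z * (z + 1) := by
    rcases eq_or_lt_of_le hz with h | h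
    · rw [← h]; norm_num
    · have h1 : 0 ≤ z := by omega
      positivity
  have h2 : z * (z + 1) % 2 = 0 := Int.even_iff.1 (Int.even_mul_succ_self z)
  have h3 : 0 ≤ z * (z + 1) / 2 := by omega
  rw [Int.toNat_of_nonneg h3]
  omega

/-- `2 * tt z = q z` for `z ≥ -1` (`xx_ge`), `dp`, `chk_sound`. -/
theorem RT.dp_use {A β ν : ℤ} {Y X Bud : ℕ} {F : ℕ → ℕ → ℕ → ℤ} {T : ℕ → ℕ → ℕ → ℕ → ℤ} {U : ℤ}
    (h : RT G H par dep) (hc : chk A β ν Y X Bud F T U = true) (hY : xx G H = Y)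
    (hmax : ∀ v, xx G v ≤ xx G H) (m : ℤ) (h0 : ∑ v, q (xx G v) = m * (m + 1))
    (hm : m * (m + 1) = q Y + 2 * Bud) :
    A * S2 G H par - β * S1 G H par - ν * Fintype.card V ≤ U := by
  have hge : ∀ v, -1 ≤ xx G v := fun v => by
    by_cases hv : v = H
    · rw [hv, hY]; omega
    · exact h.xx_ge hv
  have hb : ∑ v, tt (xx G v) = tt Y + Bud := by
    have h1 : ∑ v, 2 * (tt (xx G v) : ℤ) = ∑ v, q (xx G v) :=
      Finset.sum_congr rfl fun v _ => DPUse_tt _ (hge v)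
    have h2 := DPUse_tt (Y : ℤ) (by omega)
    rw [← Finset.mul_sum, h0, hm, ← h2] at h1
    have h3 : ((∑ v, tt (xx G v) : ℕ) : ℤ) = ((tt Y + Bud : ℕ) : ℤ) := by
      push_cast
      linarith
    exact_mod_cast h3
  exact h.dp (chk_sound hc) hY (fun v => by rw [← hY]; exact hmax v) hb

end Pool.Agent.Lib.MP_a38fe7_coS
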