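import Pool.Agent.Lib.MP_a38fe7_coS.DPSound
import Pool.Agent.Lib.MP_a38fe7_coS.DPPair2

/-!
# The dynamic program: the subtrees
-/

set_option autoImplicit false

namespace Pool.Agent.Lib.MP_a38fe7_coS

variable {V : Type} [Fintype V] {G : SimpleGraph V} {H : V} {par : V → V} {dep : V → ℕ}

theorem DPVert_mem_ch (u w : V) : w ∈ ch H par u ↔ w ≠ H ∧ par w = u := by
  classical
  unfold ch
  rw [Finset.mem_filter]
  exact ⟨fun h => h.2, fun h => ⟨Finset.mem_univ _, h⟩⟩

theorem DPVert_nonneg (f : V → ℤ) (hf : ∀ v, 0 ≤ f v) (n : ℕ) (v : V) :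
    0 ≤ RecN H par f n v := by
  induction n generalizing v with
  | zero => exact le_refl _
  | succ n ih =>
    show 0 ≤ f v + ∑ w ∈ ch H par v, RecN H par f n w
    exact add_nonneg (hf v) (Finset.sum_nonneg fun w _ => ih w)

/-- Induction on `n` (for `n = 0` nothing to show, `dep v ≤ M`). Let `x = xx v`. If `x = -1` then
`ch v = ∅` and `b = 0`: `Chk.f0` (`LP v = lin (-1) p + 2 (p - 1) ^ 2 = 0`). If `x ≥ 0`: the children `w` have
`M < dep w + n`, and their budgets `RecN n w` are natural numbers (sums of `tt`) with the sum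
`b - tt x ≤ Bud`; `fold_bound` with `val w = RecN (loc ..) n w`, `LP_eq`, and `Chk.f1`. -/
theorem RT.dp_vertex {A β ν : ℤ} {Y X Bud : ℕ} {F : ℕ → ℕ → ℕ → ℤ} {T : ℕ → ℕ → ℕ → ℕ → ℤ}
    {U : ℤ} (h : RT G H par dep) (hc : Chk A β ν Y X Bud F T U) (hY : xx G H = Y)
    (hmax : ∀ v, xx G v ≤ Y) (hb : ∑ v, tt (xx G v) = tt Y + Bud) (M : ℕ)
    (hM : ∀ v, dep v ≤ M) (n : ℕ) (v : V) (hv : v ≠ H) (hn : M < dep v + n) (b : ℕ)
    (hbv : RecN H par (fun w => (tt (xx G w) : ℤ)) n v = b) (hbB : b ≤ Bud) (c' p : ℕ)
    (hx : xx G v = (c' : ℤ) - 1) (hp : xx G (par v) = p) :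
    tt (xx G v) ≤ b ∧ (c' = 0 → b = 0) ∧ RecN H par (loc A β ν G H par) n v ≤ F p c' b := by
  induction n generalizing v b c' p with
  | zero =>
    have := hM v
    omega
  | succ n ih =>
    -- the parent
    have hpX : p ≤ X ∨ p = Y := by
      by_cases hpH : par v = H
      · right
        rw [hpH, hY] at hp
        exact_mod_cast hp.symm
      · left
        obtain ⟨c2, h1, h2⟩ := h.dp_le hc hY hmax hb hpH
        rw [hp] at h1
        omega
    -- the budgets of the children
    have hnn : ∀ w, 0 ≤ RecN H par (fun w => (tt (xx G w) : ℤ)) n w :=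
      DPVert_nonneg _ (fun w => Int.natCast_nonneg _) n
    have hbw : ∀ w, (((RecN H par (fun w => (tt (xx G w) : ℤ)) n w).toNat : ℕ) : ℤ) =
        RecN H par (fun w => (tt (xx G w) : ℤ)) n w := fun w => Int.toNat_of_nonneg (hnn w)
    set bw : V → ℕ := fun w => (RecN H par (fun w => (tt (xx G w) : ℤ)) n w).toNat with hbwd
    have hsum : b = tt (xx G v) + ∑ w ∈ ch H par v, bw w := by
      have e : (b : ℤ) = (tt (xx G v) : ℤ) + ∑ w ∈ ch H par v, (bw w : ℤ) := by
        rw [← hbv]
        show (tt (xx G v) : ℤ) + ∑ w ∈ ch H par v, RecN H par (fun w => (tt (xx G w) : ℤ)) n w = _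
        rw [Finset.sum_congr rfl fun w _ => (hbw w).symm]
      exact_mod_cast e
    have hcard := h.card_ch hv
    have hloc : loc A β ν G H par v = A * LP G H par v - β * q (av G par v) - ν := by
      unfold loc
      rw [if_neg hv]
    have hrec : RecN H par (loc A β ν G H par) (n + 1) v =
        loc A β ν G H par v + ∑ w ∈ ch H par v, RecN H par (loc A β ν G H par) n w := rfl
    refine ⟨by omega, ?_, ?_⟩
    · intro hc0
      have h0 : (ch H par v).card = 0 := by
        rw [hx, hc0] at hcard
        push_cast at hcard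
        omega
      rw [Finset.card_eq_zero] at h0
      rw [hsum, h0, Finset.sum_empty, hx, hc0]
      simp [tt]
    · rcases Nat.eq_zero_or_pos c' with hc0 | hc0
      · have h0 : (ch H par v).card = 0 := by
          rw [hx, hc0] at hcard
          push_cast at hcard
          omega
        rw [Finset.card_eq_zero] at h0
        have hb0 : b = 0 := by
          rw [hsum, h0, Finset.sum_empty, hx, hc0]
          simp [tt]
        have hxv : xx G v = -1 := by
          rw [hx, hc0]
          simp
        rw [hrec, hloc, h.LP_eq hv, h0, Finset.sum_empty, Finset.sum_empty, Finset.sum_empty, hxv,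
          hp, hb0, hc0, av, hxv, hp]
        have f0 := hc.f0 p hpX
        have e : A * (0 + lin (-1) (p : ℤ) + 2 * ((-1 + 2) * -1 + (p : ℤ) + 0) ^ 2) -
            β * q (-1 + (p : ℤ)) - ν + 0 = - β * q ((p : ℤ) - 1) - ν := by
          unfold lin q
          ring
        rw [e]
        exact f0
      · obtain ⟨x, rfl⟩ : ∃ x, c' = x + 1 := ⟨c' - 1, by omega⟩
        have hxv : xx G v = (x : ℤ) := by
          rw [hx]
          push_cast
          ring
        have hxX : x ≤ X := by
          obtain ⟨c2, h1, h2⟩ := h.dp_le hc hY hmax hb hv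
          rw [hxv] at h1
          omega
        have hc1 : (ch H par v).card = x + 1 := by
          rw [hxv] at hcard
          omega
        have hfold := fold_bound hc (ch H par v) (fun w => xx G w) bw
          (fun w => RecN H par (loc A β ν G H par) n w) x (Or.inl hxX)
          (by rw [hc1]; split_ifs with hxY <;> omega)
          (by
            intro w hw
            rw [DPVert_mem_ch] at hw
            obtain ⟨c2, h1, h2⟩ := h.dp_le hc hY hmax hb hw.1
            have hle : bw w ≤ Bud := by
              have := Finset.single_le_sum (f := bw) (fun i _ => Nat.zero_le _)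
                ((DPVert_mem_ch (H := H) (par := par) v w).2 hw)
              omega
            have hd := h.dep w hw.1
            rw [hw.2] at hd
            obtain ⟨i1, i2, i3⟩ := ih w hw.1 (by omega) (bw w) (hbw w).symm hle c2 x h1
              (by rw [hw.2]; exact hxv)
            exact ⟨c2, h1, h2, i1, i2, i3⟩)
          (by omega)
        obtain ⟨s', hs1, hs2, hs3⟩ := hfold
        rw [hc1] at hs1 hs2 hs3
        have f1 := hc.f1 p hpX x hxX (∑ w ∈ ch H par v, bw w) (by rw [← hxv]; omega) s' (by omega)
        have hbe : b = ∑ w ∈ ch H par v, bw w + tt (x : ℤ) := by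
          rw [← hxv]
          omega
        rw [hbe]
        refine le_trans ?_ f1
        have hs4 : ∑ w ∈ ch H par v, xx G w = (s' : ℤ) - (x + 1) := by
          push_cast at hs1
          linarith
        have e : RecN H par (loc A β ν G H par) (n + 1) v =
            (- β * q (x + p) + A * (lin x p + 2 * ((x + 2) * x + p + (s' - (x + 1))) ^ 2) - ν) +
              ∑ w ∈ ch H par v, (RecN H par (loc A β ν G H par) n w + A * lin x (xx G w)) := by
          rw [hrec, hloc, h.LP_eq hv, av, hxv, hp, hs4, Finset.sum_add_distrib, ← Finset.mul_sum]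
          ring
        rw [e]
        exact add_le_add_right hs3 _

end Pool.Agent.Lib.MP_a38fe7_coS
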