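import Pool.Agent.Lib.MP_a38fe7_co.Iso

/-!
# Starlike trees and iterated line graphs: definitions (helper87)

`xx G v = deg v - 2`, `q z = z (z + 1)`.  `RT G H par dep`: the graph `G` is a tree rooted at `H` with
the parent function `par` and the depth `dep`.  The edges of `G` are the pairs `{v, par v}`, `v ≠ H`;
`av G par v = xx v + xx (par v)`, and `nb par v w` says that the edges of `v` and `w` are adjacent.
-/

set_option autoImplicit false

namespace Pool.Agent.Lib.MP_a38fe7_coS

open Pool.Agent.Lib.MP_a38fe7_co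

/-- The degree minus two. -/
noncomputable def xx {V : Type} (G : SimpleGraph V) (v : V) : ℤ :=
  ((G.neighborSet v).ncard : ℤ) - 2

/-- `q z = z (z + 1)`. -/
def q (z : ℤ) : ℤ := z * (z + 1)

/-- A rooted tree. -/
structure RT {V : Type} (G : SimpleGraph V) (H : V) (par : V → V) (dep : V → ℕ) : Prop where
  adj : ∀ u w, G.Adj u w ↔ (u ≠ H ∧ par u = w) ∨ (w ≠ H ∧ par w = u)
  dep : ∀ v, v ≠ H → dep v = dep (par v) + 1

/-- The value of the edge of `v`. -/
noncomputable def av {V : Type} (G : SimpleGraph V) (par : V → V) (v : V) : ℤ :=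
  xx G v + xx G (par v)

/-- The edges of `v` and `w` are adjacent. -/
def nb {V : Type} (par : V → V) (v w : V) : Prop :=
  v ≠ w ∧ (par v = par w ∨ par v = w ∨ par w = v)

open Classical in
/-- The children of `u`. -/
noncomputable def ch {V : Type} [Fintype V] (H : V) (par : V → V) (u : V) : Finset V :=
  Finset.univ.filter fun w => w ≠ H ∧ par w = u

open Classical in
/-- The sum of `q (av v)` over the edges. -/
noncomputable def S1 {V : Type} [Fintype V] (G : SimpleGraph V) (H : V) (par : V → V) : ℤ :=
  ∑ v ∈ Finset.univ.filter (fun v => v ≠ H), q (av G par v)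

open Classical in
/-- The sum of `q (av v + av w)` over the ordered pairs of adjacent edges. -/
noncomputable def S2 {V : Type} [Fintype V] (G : SimpleGraph V) (H : V) (par : V → V) : ℤ :=
  ∑ v ∈ Finset.univ.filter (fun v => v ≠ H),
    ∑ w ∈ Finset.univ.filter (fun w => w ≠ H ∧ nb par v w), q (av G par v + av G par w)

/-- `φ a = b (2 b + 1)`, `b = max a 0`. -/
def phi (a : ℤ) : ℤ := max a 0 * (2 * max a 0 + 1)

/-- The loss of a pair of adjacent edges. -/
def Lo (a b : ℤ) : ℤ := phi a + phi b - q (a + b)

open Classical in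
/-- The sum of `(av v + 2) * phi (av v)` over the edges. -/
noncomputable def SP {V : Type} [Fintype V] (G : SimpleGraph V) (H : V) (par : V → V) : ℤ :=
  ∑ v ∈ Finset.univ.filter (fun v => v ≠ H), (av G par v + 2) * phi (av G par v)

open Classical in
/-- The sum of the losses `Lo` over the grandchildren of `H`. -/
noncomputable def SL {V : Type} [Fintype V] (G : SimpleGraph V) (H : V) (par : V → V) : ℤ :=
  ∑ w ∈ Finset.univ.filter (fun w => w ≠ H ∧ par w ≠ H ∧ par (par w) = H),
    Lo (av G par (par w)) (av G par w)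

open Classical in
/-- The sum of the products `xx v * xx (par v)`. -/
noncomputable def SX {V : Type} [Fintype V] (G : SimpleGraph V) (H : V) (par : V → V) : ℤ :=
  ∑ v ∈ Finset.univ.filter (fun v => v ≠ H), xx G v * xx G (par v)

/-- The contribution of an edge. -/
def Pt (m a : ℤ) : ℤ := 2 * m * (a + 2) * phi a - (5 * m ^ 2 + m - 2) * q a

/-- The bound for the contribution of a child of a neighbour `u` of the root with `xx u = z`. -/
def chi (m z : ℤ) : ℤ := if z = 0 then - 2 * m * (m - 1) ^ 2 else Pt m (z - 1) - 2 * m ^ 3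

/-- A new leaf attached at `p`. -/
def addLeaf {V : Type} (G : SimpleGraph V) (p : V) : SimpleGraph (Option V) where
  Adj
    | some u, some v => G.Adj u v
    | some u, none => u = p
    | none, some v => v = p
    | none, none => False
  symm := ⟨by
    rintro (_ | u) (_ | v) h
    · exact h
    · exact h
    · exact h
    · exact G.symm.symm _ _ h⟩
  loopless := ⟨by
    rintro (_ | u) h
    · exact h
    · exact G.loopless.irrefl _ h⟩

/-- The spider with legs of `ℓ i` vertices. -/
def Sp (d : ℕ) (ℓ : Fin d → ℕ) : SimpleGraph (Option (Σ i : Fin d, Fin (ℓ i))) where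
  Adj
    | some y, some z => y.1 = z.1 ∧ ((y.2 : ℕ) + 1 = z.2 ∨ (z.2 : ℕ) + 1 = y.2)
    | some y, none => (y.2 : ℕ) = 0
    | none, some z => (z.2 : ℕ) = 0
    | none, none => False
  symm := ⟨by
    rintro (_ | u) (_ | v) h
    · exact h
    · exact h
    · exact h
    · exact ⟨h.1.symm, h.2.symm⟩⟩
  loopless := ⟨by
    rintro (_ | u) h
    · exact h
    · rcases h.2 with h | h <;> omega⟩

/-- A pendant path `p 0, …, p m` (`m ≥ 1`) with base `p 0` of degree `d`. -/
structure PP {V : Type} (G : SimpleGraph V) (p : ℕ → V) (m d : ℕ) : Prop where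
  pos : 1 ≤ m
  adj : ∀ j, j < m → G.Adj (p j) (p (j + 1))
  ne : ∀ j, j + 2 ≤ m → p j ≠ p (j + 2)
  deg0 : (G.neighborSet (p 0)).ncard = d
  deg2 : ∀ j, 1 ≤ j → j < m → (G.neighborSet (p j)).ncard = 2
  deg1 : (G.neighborSet (p m)).ncard = 1

/-- All vertices but `h` have degree at most two. -/
def Star {V : Type} (G : SimpleGraph V) (h : V) : Prop :=
  ∀ v, v ≠ h → (G.neighborSet v).ncard ≤ 2

end Pool.Agent.Lib.MP_a38fe7_coS
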