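import Pool.Agent.Lib.MP_a38fe7_coS.Psi0
import Pool.Agent.Lib.MP_a38fe7_coS.RDeg

/-!
# The edges of a rooted tree
-/

set_option autoImplicit false

namespace Pool.Agent.Lib.MP_a38fe7_coS

open Pool.Agent.Lib.MP_a38fe7_co

variable {V : Type} [Fintype V] {G : SimpleGraph V} {H : V} {par : V → V} {dep : V → ℕ}

/-- The edges of a rooted tree are the `{v, par v}`, `v ≠ H`; two of them are adjacent in the line
graph if and only if `nb par v w`. -/
theorem RT.edgeEquiv (h : RT G H par dep) :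
    ∃ e : {v : V // v ≠ H} ≃ G.edgeSet, (∀ v, (e v : Sym2 V) = s(v.1, par v.1)) ∧
      ∀ v w, G.lineGraph.Adj (e v) (e w) ↔ nb par v.1 w.1 := by
  let f : {v : V // v ≠ H} → G.edgeSet := fun v =>
    ⟨s(v.1, par v.1), by
      rw [SimpleGraph.mem_edgeSet, h.adj]
      exact Or.inl ⟨v.2, rfl⟩⟩
  have hinj : Function.Injective f := by
    rintro ⟨v, hv⟩ ⟨w, hw⟩ hvw
    have h1 : s(v, par v) = s(w, par w) := congrArg Subtype.val hvw
    rw [Sym2.eq_iff] at h1
    rcases h1 with ⟨h2, _⟩ | ⟨h2, h3⟩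
    · exact Subtype.ext h2
    · exfalso
      have e1 := h.dep v hv
      have e2 := h.dep w hw
      rw [h3] at e1
      rw [← h2] at e2
      omega
  have hsurj : Function.Surjective f := by
    rintro ⟨e, he⟩
    induction e using Sym2.ind with
    | _ a b =>
      rw [SimpleGraph.mem_edgeSet, h.adj] at he
      rcases he with ⟨h1, h2⟩ | ⟨h1, h2⟩
      · exact ⟨⟨a, h1⟩, Subtype.ext (by simp [f, h2])⟩
      · exact ⟨⟨b, h1⟩, Subtype.ext (by simp [f, h2, Sym2.eq_swap])⟩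
  refine ⟨Equiv.ofBijective f ⟨hinj, hsurj⟩, fun v => rfl, fun v w => ?_⟩
  rw [SimpleGraph.lineGraph_adj_iff_exists]
  have h1 : (Equiv.ofBijective f ⟨hinj, hsurj⟩ v ≠ Equiv.ofBijective f ⟨hinj, hsurj⟩ w) ↔
      v.1 ≠ w.1 := by
    rw [(Equiv.ofBijective f ⟨hinj, hsurj⟩).injective.ne_iff, ne_eq, ne_eq, Subtype.ext_iff]
  rw [h1]
  change v.1 ≠ w.1 ∧ (∃ x, x ∈ s(v.1, par v.1) ∧ x ∈ s(w.1, par w.1)) ↔ nb par v.1 w.1
  unfold nb
  refine and_congr_right fun hne => ?_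
  constructor
  · rintro ⟨x, hx1, hx2⟩
    rw [Sym2.mem_iff] at hx1 hx2
    rcases hx1 with rfl | rfl <;> rcases hx2 with h2 | h2
    · exact absurd h2 hne
    · exact Or.inr (Or.inr h2.symm)
    · exact Or.inr (Or.inl h2)
    · exact Or.inl h2
  · rintro (h2 | h2 | h2)
    · exact ⟨par v.1, by simp, by simp [h2]⟩
    · exact ⟨w.1, by simp [h2], by simp⟩
    · exact ⟨v.1, by simp, by simp [h2]⟩

end Pool.Agent.Lib.MP_a38fe7_coS
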