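import Pool.Agent.Lib.MP_a38fe7_coS.DMain
import Pool.Agent.Lib.MP_a38fe7_coS.PolyB2

/-!
# The values of a starlike tree
-/

set_option autoImplicit false

namespace Pool.Agent.Lib.MP_a38fe7_coS

/-- The values `S1`, `S2` and the number `c` of vertices of a starlike tree with `xx h = m`, not all legs of
length one: `n` legs of length one, `N` longer legs, `N2` of them of length at least three. -/
def TS (m s1 s2 c : ℤ) : Prop :=
  ∃ N n N2 : ℤ, 1 ≤ N ∧ 0 ≤ n ∧ 0 ≤ N2 ∧ N2 ≤ N ∧ N + n = m + 2 ∧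
    s1 = N * (m * (m + 1)) + n * (m * (m - 1)) ∧
    N * (N - 1) * (2 * m * (2 * m + 1)) + 2 * N * n * ((2 * m - 1) * (2 * m)) +
      n * (n - 1) * ((2 * m - 2) * (2 * m - 1)) + 2 * N * (m * (m - 1)) + 4 * m * N2 ≤ s2 ∧
    (N2 = 0 → c = m + 3 + N)

/-- From `D_alg`. -/
theorem TS.dalg {m s1 s2 c : ℤ} (hm : 1 ≤ m) (h : TS m s1 s2 c) :
    0 ≤ m * s2 - (5 * m ^ 2 + m - 2) * s1 + m ^ 2 * (m + 2) * (m - 1) ^ 2 := by
  obtain ⟨N, n, N2, hN, hn, hN2, _, hNn, hs1, hs2, _⟩ := h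
  have h0 : 0 ≤ 4 * m * N2 := by positivity
  exact D_alg hm (by omega) hn hNn hs1 (by linarith)

/-- `N (m (m + 1)) + n (m (m - 1)) ≥ m (m + 1) + (m + 1) m (m - 1)` for `N ≥ 1`, `N + n = m + 2`. -/
theorem TS.s1_ge {m s1 s2 c : ℤ} (hm : 1 ≤ m) (h : TS m s1 s2 c) : m * (m * (m + 1)) ≤ s1 := by
  obtain ⟨N, n, N2, hN, hn, hN2, _, hNn, hs1, hs2, _⟩ := h
  have hn' : n = m + 2 - N := by omega
  subst hn'
  have e : s1 - m * (m * (m + 1)) = 2 * m * (N - 1) := by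
    rw [hs1]
    ring
  have h1 : 0 ≤ 2 * m * (N - 1) := by
    have : 0 ≤ N - 1 := by omega
    positivity
  linarith

end Pool.Agent.Lib.MP_a38fe7_coS
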