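import Pool.Agent.Lib.MP_a38fe7_coS.Cgen
import Pool.Agent.Lib.MP_a38fe7_coS.C1low
import Pool.Agent.Lib.MP_a38fe7_coS.TSDef

/-!
# Hubs with m = 10
-/

set_option autoImplicit false

namespace Pool.Agent.Lib.MP_a38fe7_coS

/-- Finite check: `q x + q p ≤ 38`, `q z + q b ≤ 38`. In `Cert.E` take
c = -1280 for z = 0, c = -1620 for z = 1, c = -2340 for z = 2, c = -3520 for z = 3, c = -4920 for z = 4, c = -6300 for z = 5. -/
theorem cert10_8 : Cert 10 450 8 (-6120) := by
  refine ⟨?_, ?_, ?_⟩
  · intro x p hx hp h
    have hx5 : x ≤ 5 := by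
      unfold q at h
      nlinarith
    have hp5 : p ≤ 5 := by
      unfold q at h
      nlinarith
    interval_cases x <;> interval_cases p <;>
      first
        | (exfalso; revert h; norm_num [q]; done)
        | norm_num [Pb, phi, q]
  · norm_num [Pb, phi, q]
  · intro z hz hq
    have hz5 : z ≤ 5 := by
      unfold q at hq
      nlinarith
    refine ⟨if z = 0 then -1280 else if z = 1 then -1620 else if z = 2 then -2340 else
      if z = 3 then -3520 else if z = 4 then -4920 else -6300, ?_, ?_⟩
    · intro b hb h
      have hb5 : b ≤ 5 := by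
        unfold q at h
        nlinarith
      interval_cases z <;> interval_cases b <;>
        first
          | (exfalso; revert h; norm_num [q]; done)
          | norm_num [Pb, phi, q, Lo]
    · interval_cases z <;> norm_num [Pb, phi, q]

/-- Finite check: `q x + q p ≤ 20`, `q z + q b ≤ 20`. In `Cert.E` take
c = -1620 for z = 0, c = -2000 for z = 1, c = -2836 for z = 2, c = -4248 for z = 3, c = -5996 for z = 4. -/
theorem cert10_9 : Cert 10 508 9 (-9376) := by
  refine ⟨?_, ?_, ?_⟩
  · intro x p hx hp h
    have hx5 : x ≤ 4 := by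
      unfold q at h
      nlinarith
    have hp5 : p ≤ 4 := by
      unfold q at h
      nlinarith
    interval_cases x <;> interval_cases p <;>
      first
        | (exfalso; revert h; norm_num [q]; done)
        | norm_num [Pb, phi, q]
  · norm_num [Pb, phi, q]
  · intro z hz hq
    have hz5 : z ≤ 4 := by
      unfold q at hq
      nlinarith
    refine ⟨if z = 0 then -1620 else if z = 1 then -2000 else if z = 2 then -2836 else
      if z = 3 then -4248 else -5996, ?_, ?_⟩
    · intro b hb h
      have hb5 : b ≤ 4 := by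
        unfold q at h
        nlinarith
      interval_cases z <;> interval_cases b <;>
        first
          | (exfalso; revert h; norm_num [q]; done)
          | norm_num [Pb, phi, q, Lo]
    · interval_cases z <;> norm_num [Pb, phi, q]

variable {V : Type} [Fintype V] {G : SimpleGraph V} {H : V} {par : V → V} {dep : V → ℕ}

/-- `xx H ≤ 7`: `C1low` and `TS.s1_ge`. `xx H = 8`: by `Cgen` and `cert10_8`, `10 * S2 - 450 * S1 ≤ -61200`;
but `hT` gives a larger value for all `N = 1, …, 12` (`interval_cases N`, `n = 12 - N`).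
`xx H = 9`: by `Cgen` and `cert10_9`, `10 * S2 - 508 * S1 ≤ -103136`, and `TS.dalg` gives
`10 * S2 - 508 * S1 ≥ - 97200`. -/
theorem RT.kill10 (h : RT G H par dep) (h0 : ∑ v, q (xx G v) = (10 : ℤ) * (10 + 1))
    (hY : 1 ≤ xx G H) (hmax : ∀ v, xx G v ≤ xx G H) (hY2 : xx G H ≤ 9)
    (hT : TS 10 (S1 G H par) (S2 G H par) (Fintype.card V)) : False := by
  by_cases h7 : xx G H ≤ 7
  · have h1 := h.C1low 10 h0 hY hmax (Or.inr ⟨by norm_num, by linarith⟩)
    have h2 := TS.s1_ge (by norm_num) hT
    linarith
  · by_cases h8 : xx G H = 8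
    · have h1 := h.Cgen 10 450 (-6120) (by norm_num) h0 hY (by rw [h8]; exact cert10_8)
      rw [h8] at h1
      obtain ⟨N, n, N2, hN, hn, hN2, -, hNn, hs1, hs2, -⟩ := hT
      have hn' : n = 12 - N := by linarith
      have hN12 : N ≤ 12 := by linarith
      subst hn'
      rw [hs1] at h1
      norm_num at hs2
      clear hs1 hmax h0
      interval_cases N <;> norm_num at hs2 h1 <;> linarith
    · have h9 : xx G H = 9 := by omega
      have h1 := h.Cgen 10 508 (-9376) (by norm_num) h0 hY (by rw [h9]; exact cert10_9)
      rw [h9] at h1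
      have h2 := TS.dalg (by norm_num) hT
      norm_num at h1 h2
      linarith

end Pool.Agent.Lib.MP_a38fe7_coS
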