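import Pool.Agent.Lib.MP_a38fe7_coS.Cgen
import Pool.Agent.Lib.MP_a38fe7_coS.C1low
import Pool.Agent.Lib.MP_a38fe7_coS.TSDef

/-!
# Hubs with m = 11
-/

set_option autoImplicit false

namespace Pool.Agent.Lib.MP_a38fe7_coS

/-- A bound for the variables from a bound for `q`. -/
private theorem kill11_le {x R B : ℤ} (hB : 0 ≤ B) (hR : R < q (B + 1)) (hx : q x ≤ R) : x ≤ B := by
  by_contra h
  have h1 : B + 1 ≤ x := by omega
  have h2 : q (B + 1) ≤ q x := by
    unfold q
    nlinarith
  omega

private theorem kill11_nonneg {x : ℤ} (hx : -1 ≤ x) : 0 ≤ q x := by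
  unfold q
  rcases eq_or_lt_of_le hx with h | h
  · rw [← h]
    norm_num
  · have h1 : 0 ≤ x := by omega
    positivity

/-- Finite check: `q x + q p ≤ 42`, `q z + q b ≤ 42`. In `Cert.E` take
c = -1782 for z = 0, c = -2200 for z = 1, c = -3096 for z = 2, c = -4602 for z = 3, c = -6454 for z = 4, c = -8388 for z = 5, c = -10140 for z = 6. -/
theorem cert11_9 : Cert 11 547 9 (-9130) := by
  refine ⟨?_, by decide, ?_⟩
  · intro x p hx hp hq
    have hR : (11 : ℤ) * (11 + 1) - q 9 = 42 := by decide
    rw [hR] at hq
    have h1 := kill11_nonneg hx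
    have h2 := kill11_nonneg (show (-1 : ℤ) ≤ p by linarith)
    have hxB : x ≤ 6 := kill11_le (R := 42) (by norm_num) (by decide) (by linarith)
    have hpB : p ≤ 6 := kill11_le (R := 42) (by norm_num) (by decide) (by linarith)
    clear h1 h2
    revert hq
    interval_cases x <;> interval_cases p <;> decide
  · intro z hz hq
    have hzB : z ≤ 6 := kill11_le (R := 42) (by norm_num) (by decide) (by
      have : (11 : ℤ) * (11 + 1) - q 9 = 42 := by decide
      rw [this] at hq
      exact hq)
    interval_cases z
    · refine ⟨-1782, ?_, by decide⟩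
      intro b hb hqb
      have hbB : b ≤ 6 := by
        have h1 : q b ≤ 42 := by
          have : (11 : ℤ) * (11 + 1) - q 9 = 42 := by decide
          rw [this] at hqb
          have h2 := kill11_nonneg (show (-1 : ℤ) ≤ 0 by norm_num)
          linarith
        exact kill11_le (R := 42) (by norm_num) (by decide) h1
      revert hqb
      interval_cases b <;> decide
    · refine ⟨-2200, ?_, by decide⟩
      intro b hb hqb
      have hbB : b ≤ 6 := by
        have h1 : q b ≤ 42 := by
          have : (11 : ℤ) * (11 + 1) - q 9 = 42 := by decide
          rw [this] at hqb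
          have h2 := kill11_nonneg (show (-1 : ℤ) ≤ 1 by norm_num)
          linarith
        exact kill11_le (R := 42) (by norm_num) (by decide) h1
      revert hqb
      interval_cases b <;> decide
    · refine ⟨-3096, ?_, by decide⟩
      intro b hb hqb
      have hbB : b ≤ 6 := by
        have h1 : q b ≤ 42 := by
          have : (11 : ℤ) * (11 + 1) - q 9 = 42 := by decide
          rw [this] at hqb
          have h2 := kill11_nonneg (show (-1 : ℤ) ≤ 2 by norm_num)
          linarith
        exact kill11_le (R := 42) (by norm_num) (by decide) h1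
      revert hqb
      interval_cases b <;> decide
    · refine ⟨-4602, ?_, by decide⟩
      intro b hb hqb
      have hbB : b ≤ 6 := by
        have h1 : q b ≤ 42 := by
          have : (11 : ℤ) * (11 + 1) - q 9 = 42 := by decide
          rw [this] at hqb
          have h2 := kill11_nonneg (show (-1 : ℤ) ≤ 3 by norm_num)
          linarith
        exact kill11_le (R := 42) (by norm_num) (by decide) h1
      revert hqb
      interval_cases b <;> decide
    · refine ⟨-6454, ?_, by decide⟩
      intro b hb hqb
      have hbB : b ≤ 6 := by
        have h1 : q b ≤ 42 := by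
          have : (11 : ℤ) * (11 + 1) - q 9 = 42 := by decide
          rw [this] at hqb
          have h2 := kill11_nonneg (show (-1 : ℤ) ≤ 4 by norm_num)
          linarith
        exact kill11_le (R := 42) (by norm_num) (by decide) h1
      revert hqb
      interval_cases b <;> decide
    · refine ⟨-8388, ?_, by decide⟩
      intro b hb hqb
      have hbB : b ≤ 6 := by
        have h1 : q b ≤ 42 := by
          have : (11 : ℤ) * (11 + 1) - q 9 = 42 := by decide
          rw [this] at hqb
          have h2 := kill11_nonneg (show (-1 : ℤ) ≤ 5 by norm_num)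
          linarith
        exact kill11_le (R := 42) (by norm_num) (by decide) h1
      revert hqb
      interval_cases b <;> decide
    · refine ⟨-10140, ?_, by decide⟩
      intro b hb hqb
      have hbB : b ≤ 6 := by
        have h1 : q b ≤ 42 := by
          have : (11 : ℤ) * (11 + 1) - q 9 = 42 := by decide
          rw [this] at hqb
          have h2 := kill11_nonneg (show (-1 : ℤ) ≤ 6 by norm_num)
          linarith
        exact kill11_le (R := 42) (by norm_num) (by decide) h1
      revert hqb
      interval_cases b <;> decide

/-- Finite check: `q x + q p ≤ 22`, `q z + q b ≤ 22`. In `Cert.E` take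
c = -2200 for z = 0, c = -2662 for z = 1, c = -3692 for z = 2, c = -5466 for z = 3, c = -7720 for z = 4. -/
theorem cert11_10 : Cert 11 614 10 (-13878) := by
  refine ⟨?_, by decide, ?_⟩
  · intro x p hx hp hq
    have hR : (11 : ℤ) * (11 + 1) - q 10 = 22 := by decide
    rw [hR] at hq
    have h1 := kill11_nonneg hx
    have h2 := kill11_nonneg (show (-1 : ℤ) ≤ p by linarith)
    have hxB : x ≤ 4 := kill11_le (R := 22) (by norm_num) (by decide) (by linarith)
    have hpB : p ≤ 4 := kill11_le (R := 22) (by norm_num) (by decide) (by linarith)
    clear h1 h2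
    revert hq
    interval_cases x <;> interval_cases p <;> decide
  · intro z hz hq
    have hzB : z ≤ 4 := kill11_le (R := 22) (by norm_num) (by decide) (by
      have : (11 : ℤ) * (11 + 1) - q 10 = 22 := by decide
      rw [this] at hq
      exact hq)
    interval_cases z
    · refine ⟨-2200, ?_, by decide⟩
      intro b hb hqb
      have hbB : b ≤ 4 := by
        have h1 : q b ≤ 22 := by
          have : (11 : ℤ) * (11 + 1) - q 10 = 22 := by decide
          rw [this] at hqb
          have h2 := kill11_nonneg (show (-1 : ℤ) ≤ 0 by norm_num)
          linarith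
        exact kill11_le (R := 22) (by norm_num) (by decide) h1
      revert hqb
      interval_cases b <;> decide
    · refine ⟨-2662, ?_, by decide⟩
      intro b hb hqb
      have hbB : b ≤ 4 := by
        have h1 : q b ≤ 22 := by
          have : (11 : ℤ) * (11 + 1) - q 10 = 22 := by decide
          rw [this] at hqb
          have h2 := kill11_nonneg (show (-1 : ℤ) ≤ 1 by norm_num)
          linarith
        exact kill11_le (R := 22) (by norm_num) (by decide) h1
      revert hqb
      interval_cases b <;> decide
    · refine ⟨-3692, ?_, by decide⟩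
      intro b hb hqb
      have hbB : b ≤ 4 := by
        have h1 : q b ≤ 22 := by
          have : (11 : ℤ) * (11 + 1) - q 10 = 22 := by decide
          rw [this] at hqb
          have h2 := kill11_nonneg (show (-1 : ℤ) ≤ 2 by norm_num)
          linarith
        exact kill11_le (R := 22) (by norm_num) (by decide) h1
      revert hqb
      interval_cases b <;> decide
    · refine ⟨-5466, ?_, by decide⟩
      intro b hb hqb
      have hbB : b ≤ 4 := by
        have h1 : q b ≤ 22 := by
          have : (11 : ℤ) * (11 + 1) - q 10 = 22 := by decide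
          rw [this] at hqb
          have h2 := kill11_nonneg (show (-1 : ℤ) ≤ 3 by norm_num)
          linarith
        exact kill11_le (R := 22) (by norm_num) (by decide) h1
      revert hqb
      interval_cases b <;> decide
    · refine ⟨-7720, ?_, by decide⟩
      intro b hb hqb
      have hbB : b ≤ 4 := by
        have h1 : q b ≤ 22 := by
          have : (11 : ℤ) * (11 + 1) - q 10 = 22 := by decide
          rw [this] at hqb
          have h2 := kill11_nonneg (show (-1 : ℤ) ≤ 4 by norm_num)
          linarith
        exact kill11_le (R := 22) (by norm_num) (by decide) h1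
      revert hqb
      interval_cases b <;> decide

variable {V : Type} [Fintype V] {G : SimpleGraph V} {H : V} {par : V → V} {dep : V → ℕ}

/-- `xx H ≤ 8`: `C1low` and `TS.s1_ge`. `xx H = 9`: by `Cgen` and `cert11_9`, `11 * S2 - 547 * S1 ≤ -100430`;
but `hT` gives a larger value for all `N = 1, …, 13` (`interval_cases N`, `n = 13 - N`).
`xx H = 10`: by `Cgen` and `cert11_10`, `11 * S2 - 614 * S1 ≤ -166536`, and `TS.dalg` gives
`11 * S2 - 614 * S1 ≥ - 157300`. -/
theorem RT.kill11 (h : RT G H par dep) (h0 : ∑ v, q (xx G v) = (11 : ℤ) * (11 + 1))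
    (hY : 1 ≤ xx G H) (hmax : ∀ v, xx G v ≤ xx G H) (hY2 : xx G H ≤ 10)
    (hT : TS 11 (S1 G H par) (S2 G H par) (Fintype.card V)) : False := by
  rcases lt_or_ge (xx G H) 9 with h8 | h9
  · have h1 := h.C1low 11 h0 hY hmax (Or.inr ⟨by norm_num, by omega⟩)
    have h2 := TS.s1_ge (by norm_num) hT
    linarith
  · rcases eq_or_lt_of_le h9 with h9' | h10
    · have hH : xx G H = 9 := h9'.symm
      have h1 := h.Cgen 11 547 (-9130) (by norm_num) h0 hY (by rw [hH]; exact cert11_9)
      rw [hH] at h1
      obtain ⟨N, n, N2, hN1, hn, hN2, _, hNn, hs1, hs2, _⟩ := hT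
      have hn' : n = 13 - N := by linarith
      have hN13 : N ≤ 13 := by linarith
      subst hn'
      rw [hs1] at h1
      interval_cases N <;> norm_num at h1 hs2 <;> linarith
    · have hH : xx G H = 10 := by omega
      have h1 := h.Cgen 11 614 (-13878) (by norm_num) h0 hY (by rw [hH]; exact cert11_10)
      rw [hH] at h1
      have h2 := TS.dalg (by norm_num) hT
      norm_num at h1 h2
      linarith

end Pool.Agent.Lib.MP_a38fe7_coS
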