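import Pool.Agent.Lib.MP_a38fe7_coS.C1
import Pool.Agent.Lib.MP_a38fe7_coS.C2
import Pool.Agent.Lib.MP_a38fe7_coS.TSDef

/-!
# Hubs with m at least 12
-/

set_option autoImplicit false

namespace Pool.Agent.Lib.MP_a38fe7_coS

variable {V : Type} [Fintype V] {G : SimpleGraph V} {H : V} {par : V → V} {dep : V → ℕ}

/-- `xx H ≤ m - 2`: `C1` and `TS.s1_ge`. `xx H = m - 1`: `C2` and `TS.dalg`. -/
theorem RT.kill12 (h : RT G H par dep) (m : ℤ) (hm : 12 ≤ m)
    (h0 : ∑ v, q (xx G v) = m * (m + 1)) (hY : 1 ≤ xx G H) (hmax : ∀ v, xx G v ≤ xx G H)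
    (hY2 : xx G H ≤ m - 1) (hT : TS m (S1 G H par) (S2 G H par) (Fintype.card V)) : False := by
  rcases lt_or_eq_of_le hY2 with h1 | h1
  · have h2 := h.C1 m hm h0 hY hmax (by omega)
    have h3 := hT.s1_ge (by omega)
    omega
  · have h2 := h.C2 m hm h0 h1
    have h3 := hT.dalg (by omega)
    omega

end Pool.Agent.Lib.MP_a38fe7_coS
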