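import Pool.Agent.Lib.MP_a38fe7_coS.DPDef

/-!
# Tables for m = 2, Y = 1, A = 1, beta = 11, nu = 0
-/

set_option autoImplicit false

namespace Pool.Agent.Lib.MP_a38fe7_coS

/-- The table for `F`. -/
def TF21a : ℕ := 0x980002afffffc0002000006000012fffffffffff0000000001600003bfffff0000480000a000003ffffffffffc00000

/-- The table for `G`. -/
def TG21a : ℕ := 0x400000b8000220000580001afffffc00000000000000320000980001a00004bfffff00000000000000000000240000600000c00000000000000000000340000880001600006bfffff000000000000000000002600006800012fffffc0000000000000000000000000180000300000000000000000000003fffff0000580001afffffc00000000000000000000000001a00004bfffff00000000000000000000000000000000c0000000000000000000000000003ffffffffffffffff0000000000000000000000000003ffffffffffc0000000000000000000000000000000000000000000000000000000000000000000000000000000000000000000000000000000000000000000000000000000000000000000000000000000000000000000000000000000000000000000000000000000000000000000000000000000000000000000000000000000000000000000000000000000000000000000003fffff00005000012fffffc00000000000000000000000000c00002bfffff0000000000000000000000000000000000000080000000000000000000003ffffffffffffffff0000000000000000000000000003ffffffffffc00000000000000000000000000000000000000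

theorem chk21a : chk 1 11 0 1 1 2 (Fd 1 2 TF21a) (Gd 1 2 TG21a) (-14) = true := by
  decide +kernel

end Pool.Agent.Lib.MP_a38fe7_coS
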