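import Pool.Agent.Lib.MP_a38fe7_coS.DPDef

/-!
# Tables for m = 2, Y = 1, A = 1, beta = 11, nu = 4
-/

set_option autoImplicit false

namespace Pool.Agent.Lib.MP_a38fe7_coS

/-- The table for `F`. -/
def TF21b : ℕ := 0x10000036fffffc0003a0000a00001efffffffffff0000100002c00006bfffff0000b00001a000023ffffffffffc00004

/-- The table for `G`. -/
def TG21b : ℕ := 0x640001400004c0000e00003cfffffc00000000000000560001080002e0000abfffff00000000000000000000480000d000020000030000000000000004c000120000340000e3fffff000000000000000000003e0000a800026fffffc0000000000000000000000000300000700000800000000000000003fffff0000c000034fffffc00000000000000000000000002600008bfffff0000000000000000000000000000000180000100000000000000000000003ffffffffffffffff0000000000000000000000000003ffffffffffc0000000000000000000000000000000000000000000000000000000000000000000000000000000000000000000000000000000000000000000000000000000000000000000000000000000000000000000000000000000000000000000000000000000000000000000000000000000000000000000000000000000000000000000000000000000000000000000003fffff0000a80002cfffffc00000000000000000000000001800006bfffff0000000000000000000000000000000080000180000000000000000000003ffffffffffffffff0000000000000000000000000003ffffffffffc00000000000000000000000000000000000000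

theorem chk21b : chk 1 11 4 1 1 2 (Fd 1 2 TF21b) (Gd 1 2 TG21b) (-52) = true := by
  decide +kernel

end Pool.Agent.Lib.MP_a38fe7_coS
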