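import Pool.Agent.Lib.MP_a38fe7_coS.DPUse
import Pool.Agent.Lib.MP_a38fe7_coS.TSDef
import Pool.Agent.Lib.MP_a38fe7_coS.Tab21a
import Pool.Agent.Lib.MP_a38fe7_coS.Tab21b

/-!
# Hubs with m = 2
-/

set_option autoImplicit false

namespace Pool.Agent.Lib.MP_a38fe7_coS

variable {V : Type} [Fintype V] {G : SimpleGraph V} {H : V} {par : V → V} {dep : V → ℕ}

/-- `xx H = 1` (`Bud = 2`): if `N2 ≥ 1` then `chk21a` gives `S2 - 11 * S1 ≤ -14`, but `hT` gives
`S2 - 11 * S1 ≥ -20 + 8` (`N = 1, …, 4`, `n = 4 - N`). If `N2 = 0` then `card V = 5 + N`, and `chk21b` gives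
`S2 - 11 * S1 - 4 * card V ≤ -52`, but `hT` gives more for all `N = 1, …, 4`. -/
theorem RT.kill2 (h : RT G H par dep) (h0 : ∑ v, q (xx G v) = (2 : ℤ) * (2 + 1))
    (hY : 1 ≤ xx G H) (hmax : ∀ v, xx G v ≤ xx G H) (hY2 : xx G H ≤ 1)
    (hT : TS 2 (S1 G H par) (S2 G H par) (Fintype.card V)) : False := by
  have hY1 : xx G H = ((1 : ℕ) : ℤ) := by
    push_cast
    omega
  have hm : (2 : ℤ) * (2 + 1) = q ((1 : ℕ) : ℤ) + 2 * ((2 : ℕ) : ℤ) := by
    norm_num [q]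
  have ha := h.dp_use chk21a hY1 hmax 2 h0 hm
  have hb := h.dp_use chk21b hY1 hmax 2 h0 hm
  obtain ⟨N, n, N2, h1, h2, h3, h4, h5, h6, h7, h8⟩ := hT
  generalize S1 G H par = s1 at ha hb h6
  generalize S2 G H par = s2 at ha hb h7
  generalize ((Fintype.card V : ℕ) : ℤ) = c at ha hb h8
  have hn : n = 4 - N := by omega
  subst hn
  have hN : N = 1 ∨ N = 2 ∨ N = 3 ∨ N = 4 := by omega
  rcases hN with rfl | rfl | rfl | rfl
  all_goals
    norm_num at h6 h7 ha hb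
    rcases h3.eq_or_lt with h9 | h9
    · have h10 := h8 h9.symm
      norm_num at h10
      omega
    · omega

end Pool.Agent.Lib.MP_a38fe7_coS
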