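import Pool.Agent.Lib.MP_a38fe7_coS.DPDef

/-!
# Tables for m = 3, Y = 1, A = 1, beta = 16, nu = 0
-/

set_option autoImplicit false

namespace Pool.Agent.Lib.MP_a38fe7_coS

/-- The table for `F`. -/
def TF31 : ℕ := 0x2a0000940001e000064000123fffff000270000840001a00004c0000b00001cfffffffffffffffffffffffffffc000000002200007000015000038000063fffff0002100006c0001400003400005000000fffffffffffffffffffffffffffc00000

/-- The table for `G`. -/
def TG31 : ℕ := 0x3ffffffffffc000d8000318000b40002a80009800025bfffff00000000000fffffc000c40002c8000a0000238000840001fbfffff00000000000000000000a8000258000840001c80006800018bfffff0000000000000000000000000218000700001780004c00011bfffff0000000000000000000000000000000640001380003800009bfffff0000000000000000000000000000000000001080002c0000580000000000000000ffffffffffffffffc000bc0002a80009800025bfffff00000000000000003ffffffffffc000a0000238000840001fbfffff0000000000000000000000fffffc0008c0001e80006800018bfffff0000000000000000000000000000000700001780004c00011bfffff0000000000000000000000000000000000001380003800009bfffff0000000000000000000000000000000000000000002c0000580000000000000000000003fffffffffffffffffffffc0009800025bfffff0000000000000000000000ffffffffffffffffc000840001fbfffff0000000000000000000000000003ffffffffffc0006800018bfffff000000000000000000000000000000000fffffc0005400011bfffff0000000000000000000000000000000000000000003800009bfffff000000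00000000000000000000000000000000000000000058000000000000000000000000000fffffffffffffffffffffffffffffffff0000000000000000000000000003fffffffffffffffffffffffffff000000000000000000000000000000000ffffffffffffffffffffff000000000000000000000000000000000000003ffffffffffffffff00000000000000000000000000000000000000000000fffffffffff000000000000000000000000000000000000000000000000000000000000000000000000000000000000000000000000000000000000000000000000000000000000000000000000000000000000000000000000000000000000000000000000000000000000000000000000000000000000000000000000000000000000000000000000000000000000000000000000000000000000000000000000000000000000000000000000000000000000000000000000000000000000000000000000000000000000000000000000000000000000000000000000000000000000000000000000000000000000000000000000000000000000000000000000000000000000000000000000000000000000000000000000000000000000000000000000000000000000000000000000000000000000000000000000000000000000000000000000000000000000000000000000000000000000000000000000000000000000000000000000000000000003fffffffffffffffffffffc00086000213fffff0000000000000000000000ffffffffffffffffc0006e0001b3fffff0000000000000000000000000003ffffffffffc00052000143fffff000000000000000000000000000000000fffffc000360000d3fffff00000000000000000000000000000000000000000016000053fffff00000000000000000000000000000000000000000000000000000020000000000000000000000fffffffffffffffffffffffffffffffff0000000000000000000000000003fffffffffffffffffffffffffff000000000000000000000000000000000ffffffffffffffffffffff000000000000000000000000000000000000003ffffffffffffffff00000000000000000000000000000000000000000000fffffffffff0000000000000000000000000000000000000000000000000000000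

theorem chk31 : chk 1 16 0 1 1 5 (Fd 1 5 TF31) (Gd 1 5 TG31) (-144) = true := by
  decide +kernel

end Pool.Agent.Lib.MP_a38fe7_coS
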