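import Pool.Agent.Lib.MP_a38fe7_coS.DPDef

/-!
# Tables for m = 3, Y = 2, A = 1, beta = 16, nu = 0
-/

set_option autoImplicit false

namespace Pool.Agent.Lib.MP_a38fe7_coS

/-- The table for `F`. -/
def TF32a : ℕ := 0x323ffffffffffffffff0002c0000a8000243fffff0002300008000018000054ffffffffffffffffc00020000213ffffffffffffffff0001e000064000123fffff0001700004c0000b00001cffffffffffffffffc00000000153ffffffffffffffff00015000038000063fffff0001200003400005000000ffffffffffffffffc00000

/-- The table for `G`. -/
def TG32a : ℕ := 0x146000460000f6000350000b20002f0000b2fffffc0000000000000124000408000e0000328000b400029bfffff0000000000000000000102000380000be00027000086fffffc0000000000000000000000000e00002f80009c0001e80005800000000000000438000e00002f80009c0002980009cfffffc00000000000000000003b0000ca0002d00009e000243fffff0000000000000000000000000328000a800021800070fffffc0000000000000000000000000000002a0000860001900004200000000000000003fffff0002a00008600024000086fffffc0000000000000000000000000b4000278000880001ebfffff0000000000000000000000000000000920001c00005afffffc000000000000000000000000000000000000700001380002c0000000000000000000000fffffc000700001e800070fffffc000000000000000000000000000fffffc00072000193fffff00000000000000000000000000000000000016800044fffffc000000000000000000000000000000000000000000e0000160000000000000000000000000003fffffffffffffffffffffc000000000000000000000000000000003ffffffffffffffff0000000000000000000000000000000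00000003ffffffffffc000000000000000000000000000000000000000000000000000000000000000000000000000000000000000000000000000000000000000000000000000000000000000000000000000000000000000000000000000000000000000000000000000000000000000000000000000000000000000000000000000000000000000000000000000000000000000000000000000000000000000000000000000000000000000000000000000000000000000000000000000000000000000000000000000000000000000000000000000000000000000000000000000000000000000000000000000003fffff0001f0000660001a000056fffffc0000000000000000000000000700001780004c00011bfffff00000000000000000000000000000004e0000e000026fffffc0000000000000000000000000000000000002c000058000000000000000000000000000fffffc000660001a000056fffffc000000000000000000000000000fffffc0005400011bfffff0000000000000000000000000000000000000e000026fffffc00000000000000000000000000000000000000000058000000000000000000000000000000003fffffffffffffffffffffc000000000000000000000000000000003ffffffffffffffff000000000000000000000000000000000000003ffffffffffc00000000000000000000000000000000000000000000000000000000000000000000000000000000000000000000000000000000000000000000000000000000000000000000000000000000000000000000000000000000000000000000000000000000000000000000000000000000000000000000000000000000000000000000000000000000000000000000000000000000000000000000000000000000000000000000000000000000000000000000000000000000000000000000000000000000000000000000000000000000000000000000000000000000000000000000000000000000000000000000000000000000000000000000000000000000000000000000000000000000000000000000000000000000000000000000000000000000000000000000000000000000000000000000000000000000000000000000000000000000000000000fffffc0005000014800048fffffc000000000000000000000000000fffffc000360000d3fffff00000000000000000000000000000000000005800014fffffc00000000000000000000000000000000000000000000000020000000000000000000000000003fffffffffffffffffffffc000000000000000000000000000000003ffffffffffffffff000000000000000000000000000000000000003ffffffffffc0000000000000000000000000000000000000000000000000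

theorem chk32a : chk 1 16 0 2 2 3 (Fd 2 3 TF32a) (Gd 2 3 TG32a) (-80) = true := by
  decide +kernel

end Pool.Agent.Lib.MP_a38fe7_coS
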