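import Pool.Agent.Lib.MP_a38fe7_coS.DPDef

/-!
# Tables for m = 3, Y = 2, A = 1, beta = 10, nu = 20
-/

set_option autoImplicit false

namespace Pool.Agent.Lib.MP_a38fe7_coS

/-- The table for `F`. -/
def TF32b : ℕ := 0x1f3ffffffffffffffff0002b0000a0000213fffff000210000ac00020000060ffffffffffffffffc000280001a3ffffffffffffffff00026000084000183fffff0001b0000900001900003cffffffffffffffffc00014000173ffffffffffffffff00024000074000123fffff0001900008400016000028ffffffffffffffffc00014

/-- The table for `G`. -/
def TG32b : ℕ := 0x12e0003c0000ca0002900007e000340000c2fffffc00000000000001240003f8000d80003a8000c40003abfffff000000000000000000011a0003d0000ce0002a0000befffffc0000000000000000000000001100003a8000c400027800078000000000000003a8000ac000218000600002c8000a4fffffc0000000000000000000380000ba000330000a6000333fffff0000000000000000000000000358000b0000228000a0fffffc000000000000000000000000000000330000a60002000005a00000000000000003fffff0001a00004200025000086fffffc00000000000000000000000009c0002b8000880002bbfffff0000000000000000000000000000000920001b000082fffffc000000000000000000000000000000000000880001880003c0000000000000000000000fffffc000240001d800068fffffc000000000000000000000000000fffffc0006a000243fffff00000000000000000000000000000000000013800064fffffc000000000000000000000000000000000000000001100001e0000000000000000000000000003fffffffffffffffffffffc000000000000000000000000000000003ffffffffffffffff000000000000000000000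000000000000000003ffffffffffc000000000000000000000000000000000000000000000000000000000000000000000000000000000000000000000000000000000000000000000000000000000000000000000000000000000000000000000000000000000000000000000000000000000000000000000000000000000000000000000000000000000000000000000000000000000000000000000000000000000000000000000000000000000000000000000000000000000000000000000000000000000000000000000000000000000000000000000000000000000000000000000000000000000000000000000000000003fffff0002000005e0002700007afffffc0000000000000000000000000a00002a80008800027bfffff00000000000000000000000000000008600019000072fffffc0000000000000000000000000000000000006c000128000280000000000000000000000fffffc0004a00022000066fffffc000000000000000000000000000fffffc0007400022bfffff0000000000000000000000000000000000001400005efffffc000000000000000000000000000000000000000000d8000140000000000000000000000000003fffffffffffffffffffffc000000000000000000000000000000003ffffffffffffffff000000000000000000000000000000000000003ffffffffffc00000000000000000000000000000000000000000000000000000000000000000000000000000000000000000000000000000000000000000000000000000000000000000000000000000000000000000000000000000000000000000000000000000000000000000000000000000000000000000000000000000000000000000000000000000000000000000000000000000000000000000000000000000000000000000000000000000000000000000000000000000000000000000000000000000000000000000000000000000000000000000000000000000000000000000000000000000000000000000000000000000000000000000000000000000000000000000000000000000000000000000000000000000000000000000000000000000000000000000000000000000000000000000000000000000000000000000000000000000000000000000fffffc0005800023800064fffffc000000000000000000000000000fffffc00072000213fffff00000000000000000000000000000000000011800058fffffc000000000000000000000000000000000000000000a0000160000000000000000000000000003fffffffffffffffffffffc000000000000000000000000000000003ffffffffffffffff000000000000000000000000000000000000003ffffffffffc0000000000000000000000000000000000000000000000000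

theorem chk32b : chk 1 10 20 2 2 3 (Fd 2 3 TF32b) (Gd 2 3 TG32b) (-48) = true := by
  decide +kernel

end Pool.Agent.Lib.MP_a38fe7_coS
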