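import Pool.Agent.Lib.MP_a38fe7_coS.DPUse
import Pool.Agent.Lib.MP_a38fe7_coS.TSDef
import Pool.Agent.Lib.MP_a38fe7_coS.Tab31
import Pool.Agent.Lib.MP_a38fe7_coS.Tab32a
import Pool.Agent.Lib.MP_a38fe7_coS.Tab32b

/-!
# Hubs with m = 3
-/

set_option autoImplicit false

namespace Pool.Agent.Lib.MP_a38fe7_coS

variable {V : Type} [Fintype V] {G : SimpleGraph V} {H : V} {par : V → V} {dep : V → ℕ}

/-- `xx H = 1`: `dp_use` with `chk31` (`Bud = 5`) gives `S2 - 16 * S1 ≤ -144`; from `hT` (`N = 1, …, 5`,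
`n = 5 - N`) `S2 - 16 * S1 ≥ -84`. `xx H = 2` (`Bud = 3`): if `N2 ≥ 1` then `chk32a` gives
`S2 - 16 * S1 ≤ -80`, but `hT` gives `S2 - 16 * S1 ≥ -84 + 12`. If `N2 = 0` then `card V = 6 + N`,
and `chk32b` gives `S2 - 10 * S1 - 20 * card V ≤ -48`, but `hT` gives more for all `N = 1, …, 5`. -/
theorem RT.kill3 (h : RT G H par dep) (h0 : ∑ v, q (xx G v) = (3 : ℤ) * (3 + 1))
    (hY : 1 ≤ xx G H) (hmax : ∀ v, xx G v ≤ xx G H) (hY2 : xx G H ≤ 2)
    (hT : TS 3 (S1 G H par) (S2 G H par) (Fintype.card V)) : False := by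
  obtain ⟨N, n, N2, hN, hn, hN2, hN2N, hNn, hs1, hs2, hc⟩ := hT
  have hn' : n = 5 - N := by omega
  subst hn'
  have hN5 : N ≤ 5 := by omega
  rcases (by omega : xx G H = 1 ∨ xx G H = 2) with h1 | h2
  · have k := h.dp_use chk31 (by rw [h1]; norm_num) hmax 3 h0 (by norm_num [q])
    rcases (by omega : N = 1 ∨ N = 2 ∨ N = 3 ∨ N = 4 ∨ N = 5) with rfl | rfl | rfl | rfl | rfl <;>
      norm_num at hs1 hs2 k <;> omega
  · have k := h.dp_use chk32a (by rw [h2]; norm_num) hmax 3 h0 (by norm_num [q])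
    have k2 := h.dp_use chk32b (by rw [h2]; norm_num) hmax 3 h0 (by norm_num [q])
    rcases (by omega : 1 ≤ N2 ∨ N2 = 0) with h3 | h3
    · rcases (by omega : N = 1 ∨ N = 2 ∨ N = 3 ∨ N = 4 ∨ N = 5) with
        rfl | rfl | rfl | rfl | rfl <;> norm_num at hs1 hs2 k <;> omega
    · have hc' := hc h3
      rcases (by omega : N = 1 ∨ N = 2 ∨ N = 3 ∨ N = 4 ∨ N = 5) with
        rfl | rfl | rfl | rfl | rfl <;> norm_num at hs1 hs2 hc' k2 <;> omega

end Pool.Agent.Lib.MP_a38fe7_coS
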