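import Pool.Agent.Lib.MP_a38fe7_coS.DPUse
import Pool.Agent.Lib.MP_a38fe7_coS.TSDef
import Pool.Agent.Lib.MP_a38fe7_coS.Tab41
import Pool.Agent.Lib.MP_a38fe7_coS.Tab42
import Pool.Agent.Lib.MP_a38fe7_coS.Tab43

/-!
# Hubs with m = 4
-/

set_option autoImplicit false

namespace Pool.Agent.Lib.MP_a38fe7_coS

variable {V : Type} [Fintype V] {G : SimpleGraph V} {H : V} {par : V → V} {dep : V → ℕ}

/-- `xx H = 1, 2, 3`: `dp_use` with `chk41`, `chk42`, `chk43` (`Y = 1, 2, 3`, `Bud = 9, 7, 4`) gives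
`4 * S2 - 82 * S1 ≤ -1752`, `-1380`, `-920`, and `TS.dalg` gives `4 * S2 - 82 * S1 ≥ - 864`. -/
theorem RT.kill4 (h : RT G H par dep) (h0 : ∑ v, q (xx G v) = (4 : ℤ) * (4 + 1))
    (hY : 1 ≤ xx G H) (hmax : ∀ v, xx G v ≤ xx G H) (hY2 : xx G H ≤ 3)
    (hT : TS 4 (S1 G H par) (S2 G H par) (Fintype.card V)) : False := by
  have hd := hT.dalg (by norm_num)
  obtain h1 | h1 | h1 : xx G H = 1 ∨ xx G H = 2 ∨ xx G H = 3 := by omega
  · have h2 := h.dp_use chk41 (by rw [h1]; norm_num) hmax 4 h0 (by simp only [q]; norm_num)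
    linarith
  · have h2 := h.dp_use chk42 (by rw [h1]; norm_num) hmax 4 h0 (by simp only [q]; norm_num)
    linarith
  · have h2 := h.dp_use chk43 (by rw [h1]; norm_num) hmax 4 h0 (by simp only [q]; norm_num)
    linarith

end Pool.Agent.Lib.MP_a38fe7_coS
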