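import Pool.Agent.Lib.MP_a38fe7_coS.DPUse
import Pool.Agent.Lib.MP_a38fe7_coS.C1low
import Pool.Agent.Lib.MP_a38fe7_coS.TSDef
import Pool.Agent.Lib.MP_a38fe7_coS.Tab52
import Pool.Agent.Lib.MP_a38fe7_coS.Tab53
import Pool.Agent.Lib.MP_a38fe7_coS.Tab54

/-!
# Hubs with m = 5
-/

set_option autoImplicit false

namespace Pool.Agent.Lib.MP_a38fe7_coS

variable {V : Type} [Fintype V] {G : SimpleGraph V} {H : V} {par : V → V} {dep : V → ℕ}

/-- `xx H = 1`: `C1low` and `TS.s1_ge`. `xx H = 2, 3, 4`: `dp_use` with `chk52`, `chk53`, `chk54`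
(`Y = 2, 3, 4`, `Bud = 12, 9, 5`) gives `5 * S2 - 128 * S1 ≤ -4672`, `-4080`, `-3060`, and `TS.dalg` gives
`5 * S2 - 128 * S1 ≥ - 2800`. -/
theorem RT.kill5 (h : RT G H par dep) (h0 : ∑ v, q (xx G v) = (5 : ℤ) * (5 + 1))
    (hY : 1 ≤ xx G H) (hmax : ∀ v, xx G v ≤ xx G H) (hY2 : xx G H ≤ 4)
    (hT : TS 5 (S1 G H par) (S2 G H par) (Fintype.card V)) : False := by
  have hd := hT.dalg (by norm_num)
  have hcases : xx G H = 1 ∨ xx G H = 2 ∨ xx G H = 3 ∨ xx G H = 4 := by omega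
  rcases hcases with h1 | h1 | h1 | h1
  · have hlow := h.C1low 5 h0 hY hmax (Or.inl (by rw [h1]; norm_num))
    have hs := hT.s1_ge (by norm_num)
    linarith
  · have h2 := h.dp_use chk52 (by rw [h1]; norm_num) hmax 5 h0 (by norm_num [q])
    norm_num at hd h2
    linarith
  · have h2 := h.dp_use chk53 (by rw [h1]; norm_num) hmax 5 h0 (by norm_num [q])
    norm_num at hd h2
    linarith
  · have h2 := h.dp_use chk54 (by rw [h1]; norm_num) hmax 5 h0 (by norm_num [q])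
    norm_num at hd h2
    linarith

end Pool.Agent.Lib.MP_a38fe7_coS
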