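import Pool.Agent.Lib.MP_a38fe7_coS.DPUse
import Pool.Agent.Lib.MP_a38fe7_coS.C1low
import Pool.Agent.Lib.MP_a38fe7_coS.TSDef
import Pool.Agent.Lib.MP_a38fe7_coS.Tab63
import Pool.Agent.Lib.MP_a38fe7_coS.Tab64
import Pool.Agent.Lib.MP_a38fe7_coS.Tab65

/-!
# Hubs with m = 6
-/

set_option autoImplicit false

namespace Pool.Agent.Lib.MP_a38fe7_coS

variable {V : Type} [Fintype V] {G : SimpleGraph V} {H : V} {par : V → V} {dep : V → ℕ}

/-- `xx H ≤ 2`: `C1low` and `TS.s1_ge`. `xx H = 3, 4, 5`: `dp_use` with `chk63`, `chk64`, `chk65`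
(`Y = 3, 4, 5`, `Bud = 15, 11, 6`) gives `6 * S2 - 184 * S1 ≤ -11272`, `-9880`, `-7896`, and `TS.dalg` gives
`6 * S2 - 184 * S1 ≥ - 7200`. -/
theorem RT.kill6 (h : RT G H par dep) (h0 : ∑ v, q (xx G v) = (6 : ℤ) * (6 + 1))
    (hY : 1 ≤ xx G H) (hmax : ∀ v, xx G v ≤ xx G H) (hY2 : xx G H ≤ 5)
    (hT : TS 6 (S1 G H par) (S2 G H par) (Fintype.card V)) : False := by
  have hd := TS.dalg (by norm_num) hT
  have hs := TS.s1_ge (by norm_num) hT
  rcases le_or_gt (xx G H) 2 with h2 | h2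
  · have h1 := RT.C1low h 6 h0 hY hmax (Or.inl (by linarith))
    linarith
  · have h3 : xx G H = 3 ∨ xx G H = 4 ∨ xx G H = 5 := by omega
    rcases h3 with h3 | h3 | h3
    · have h4 := RT.dp_use h chk63 (by rw [h3]; norm_num) hmax 6 h0 (by norm_num [q])
      linarith
    · have h4 := RT.dp_use h chk64 (by rw [h3]; norm_num) hmax 6 h0 (by norm_num [q])
      linarith
    · have h4 := RT.dp_use h chk65 (by rw [h3]; norm_num) hmax 6 h0 (by norm_num [q])
      linarith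

end Pool.Agent.Lib.MP_a38fe7_coS
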