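import Pool.Agent.Lib.MP_a38fe7_coS.Cgen
import Pool.Agent.Lib.MP_a38fe7_coS.C1low
import Pool.Agent.Lib.MP_a38fe7_coS.TSDef

/-!
# Hubs with m = 7
-/

set_option autoImplicit false

namespace Pool.Agent.Lib.MP_a38fe7_coS

private theorem kill7_le {n x B : ℤ} (hn : 0 ≤ n) (h : q x ≤ B) (hB : B < q (n + 1)) : x ≤ n := by
  by_contra hc
  push Not at hc
  unfold q at h hB
  nlinarith

/-- Finite check: `q x + q p ≤ 26`, `q z + q b ≤ 26`. In `Cert.E` take
c = -350 for z = 0, c = -504 for z = 1, c = -852 for z = 2, c = -1274 for z = 3, c = -1344 for z = 4. -/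
theorem cert7_5 : Cert 7 237 5 (-1716) := by
  have hb : (7 : ℤ) * (7 + 1) - q 5 = 26 := by decide
  have h5 : (26 : ℤ) < q (4 + 1) := by decide
  refine ⟨fun x p hx hp h => ?_, by decide, fun z hz h => ?_⟩
  · rw [hb] at h
    have hq := C1_q_nonneg x
    have hq' := C1_q_nonneg p
    have h1 : x ≤ 4 := kill7_le (by norm_num) (B := 26) (by linarith) h5
    have h2 : p ≤ 4 := kill7_le (by norm_num) (B := 26) (by linarith) h5
    clear hq hq'
    interval_cases x <;> interval_cases p <;> revert h <;> decide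
  · rw [hb] at h
    have h1 : z ≤ 4 := kill7_le (by norm_num) (B := 26) h h5
    have hbb : ∀ b : ℤ, q z + q b ≤ (7 : ℤ) * (7 + 1) - q 5 → b ≤ 4 := fun b h2 => by
      rw [hb] at h2
      have := C1_q_nonneg z
      exact kill7_le (by norm_num) (B := 26) (by linarith) h5
    have key : ∀ c : ℤ, (∀ b : ℤ, -1 ≤ b → b ≤ 4 → q z + q b ≤ (7 : ℤ) * (7 + 1) - q 5 →
        Pb 7 237 (z + b) - 2 * 7 * Lo (5 + z) (z + b) ≤ c) ∧
        Pb 7 237 (5 + z) + (z + 1) * c ≤ -1716 → ∃ c : ℤ,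
        (∀ b : ℤ, -1 ≤ b → q z + q b ≤ (7 : ℤ) * (7 + 1) - q 5 →
        Pb 7 237 (z + b) - 2 * 7 * Lo (5 + z) (z + b) ≤ c) ∧
        Pb 7 237 (5 + z) + (z + 1) * c ≤ -1716 := fun c hc =>
      ⟨c, fun b hb1 hb2 => hc.1 b hb1 (hbb b hb2) hb2, hc.2⟩
    clear hbb h
    interval_cases z
    · refine key (-350) ⟨fun b hb1 hb2 => ?_, by decide⟩
      interval_cases b <;> decide
    · refine key (-504) ⟨fun b hb1 hb2 => ?_, by decide⟩
      interval_cases b <;> decide
    · refine key (-852) ⟨fun b hb1 hb2 => ?_, by decide⟩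
      interval_cases b <;> decide
    · refine key (-1274) ⟨fun b hb1 hb2 => ?_, by decide⟩
      interval_cases b <;> decide
    · refine key (-1344) ⟨fun b hb1 hb2 => ?_, by decide⟩
      interval_cases b <;> decide

/-- Finite check: `q x + q p ≤ 14`, `q z + q b ≤ 14`. In `Cert.E` take
c = -504 for z = 0, c = -686 for z = 1, c = -1060 for z = 2, c = -1626 for z = 3. -/
theorem cert7_6 : Cert 7 250 6 (-2110) := by
  have hb : (7 : ℤ) * (7 + 1) - q 6 = 14 := by decide
  have h5 : (14 : ℤ) < q (3 + 1) := by decide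
  refine ⟨fun x p hx hp h => ?_, by decide, fun z hz h => ?_⟩
  · rw [hb] at h
    have hq := C1_q_nonneg x
    have hq' := C1_q_nonneg p
    have h1 : x ≤ 3 := kill7_le (by norm_num) (B := 14) (by linarith) h5
    have h2 : p ≤ 3 := kill7_le (by norm_num) (B := 14) (by linarith) h5
    clear hq hq'
    interval_cases x <;> interval_cases p <;> revert h <;> decide
  · rw [hb] at h
    have h1 : z ≤ 3 := kill7_le (by norm_num) (B := 14) h h5
    have hbb : ∀ b : ℤ, q z + q b ≤ (7 : ℤ) * (7 + 1) - q 6 → b ≤ 3 := fun b h2 => by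
      rw [hb] at h2
      have := C1_q_nonneg z
      exact kill7_le (by norm_num) (B := 14) (by linarith) h5
    have key : ∀ c : ℤ, (∀ b : ℤ, -1 ≤ b → b ≤ 3 → q z + q b ≤ (7 : ℤ) * (7 + 1) - q 6 →
        Pb 7 250 (z + b) - 2 * 7 * Lo (6 + z) (z + b) ≤ c) ∧
        Pb 7 250 (6 + z) + (z + 1) * c ≤ -2110 → ∃ c : ℤ,
        (∀ b : ℤ, -1 ≤ b → q z + q b ≤ (7 : ℤ) * (7 + 1) - q 6 →
        Pb 7 250 (z + b) - 2 * 7 * Lo (6 + z) (z + b) ≤ c) ∧
        Pb 7 250 (6 + z) + (z + 1) * c ≤ -2110 := fun c hc =>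
      ⟨c, fun b hb1 hb2 => hc.1 b hb1 (hbb b hb2) hb2, hc.2⟩
    clear hbb h
    interval_cases z
    · refine key (-504) ⟨fun b hb1 hb2 => ?_, by decide⟩
      interval_cases b <;> decide
    · refine key (-686) ⟨fun b hb1 hb2 => ?_, by decide⟩
      interval_cases b <;> decide
    · refine key (-1060) ⟨fun b hb1 hb2 => ?_, by decide⟩
      interval_cases b <;> decide
    · refine key (-1626) ⟨fun b hb1 hb2 => ?_, by decide⟩
      interval_cases b <;> decide

variable {V : Type} [Fintype V] {G : SimpleGraph V} {H : V} {par : V → V} {dep : V → ℕ}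

/-- `xx H ≤ 4`: `C1low` and `TS.s1_ge`. `xx H = 5`: by `Cgen` and `cert7_5`, `7 * S2 - 237 * S1 ≤ -12012`;
but `hT` gives a larger value for all `N = 1, …, 9` (`interval_cases N`, `n = 9 - N`).
`xx H = 6`: by `Cgen` and `cert7_6`, `7 * S2 - 250 * S1 ≤ -16880`, and `TS.dalg` gives
`7 * S2 - 250 * S1 ≥ - 15876`. -/
theorem RT.kill7 (h : RT G H par dep) (h0 : ∑ v, q (xx G v) = (7 : ℤ) * (7 + 1))
    (hY : 1 ≤ xx G H) (hmax : ∀ v, xx G v ≤ xx G H) (hY2 : xx G H ≤ 6)
    (hT : TS 7 (S1 G H par) (S2 G H par) (Fintype.card V)) : False := by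
  rcases le_or_gt (xx G H) 4 with h4 | h4
  · have h1 := h.C1low 7 h0 hY hmax (Or.inr ⟨le_rfl, by linarith⟩)
    have h2 := hT.s1_ge (by norm_num)
    linarith
  · have h5 : xx G H = 5 ∨ xx G H = 6 := by omega
    rcases h5 with h5 | h5
    · have h1 := h.Cgen 7 237 (-1716) (by norm_num) h0 hY (by rw [h5]; exact cert7_5)
      rw [h5] at h1
      obtain ⟨N, n, N2, hN, hn, hN2, hN2', hNn, hs1, hs2, -⟩ := hT
      have hn' : n = 9 - N := by linarith
      have hN9 : N ≤ 9 := by linarith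
      subst hn'
      interval_cases N <;> norm_num at hs1 hs2 h1 <;> linarith
    · have h1 := h.Cgen 7 250 (-2110) (by norm_num) h0 hY (by rw [h5]; exact cert7_6)
      rw [h5] at h1
      have h2 := hT.dalg (by norm_num)
      norm_num at h1 h2
      linarith

end Pool.Agent.Lib.MP_a38fe7_coS
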