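import Pool.Agent.Lib.MP_a38fe7_coS.Cgen
import Pool.Agent.Lib.MP_a38fe7_coS.C1low
import Pool.Agent.Lib.MP_a38fe7_coS.TSDef

/-!
# Hubs with m = 8
-/

set_option autoImplicit false

namespace Pool.Agent.Lib.MP_a38fe7_coS

private theorem Kill8_q_nonneg (z : ℤ) : 0 ≤ q z := by
  unfold q
  rcases le_or_gt 0 z with h | h
  · exact mul_nonneg h (by omega)
  · exact mul_nonneg_of_nonpos_of_nonpos h.le (by omega)

private theorem Kill8_le {k x y B : ℤ} (hk : 0 ≤ k) (h : q x + q y ≤ B) (hB : B < q (k + 1)) :
    x ≤ k := by
  by_contra hx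
  have h1 : k + 1 ≤ x := by omega
  have h2 : q (k + 1) ≤ q x := by
    unfold q
    nlinarith
  have := Kill8_q_nonneg y
  linarith

private theorem Kill8_le' {k x y B : ℤ} (hk : 0 ≤ k) (h : q x + q y ≤ B) (hB : B < q (k + 1)) :
    y ≤ k := Kill8_le (x := y) (y := x) hk (by linarith) hB

/-- Finite check: `q x + q p ≤ 30`, `q z + q b ≤ 30`. In `Cert.E` take
c = -576 for z = 0, c = -784 for z = 1, c = -1212 for z = 2, c = -1860 for z = 3, c = -2284 for z = 4, c = -2996 for z = 5. -/
theorem cert8_6 : Cert 8 286 6 (-2420) := by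
  have hB : (8 : ℤ) * (8 + 1) - q 6 = 30 := by norm_num [q]
  have h30 : (30 : ℤ) < q (5 + 1) := by norm_num [q]
  refine ⟨fun x p hx hp h => ?_, by norm_num [Pb, phi, q], fun z hz h => ?_⟩
  · rw [hB] at h
    have h1 := Kill8_le (by norm_num) h h30
    have h2 := Kill8_le' (by norm_num) h h30
    interval_cases x <;> interval_cases p <;> first
      | (exfalso; revert h; decide)
      | decide
  · rw [hB] at h ⊢
    have h1 := Kill8_le (x := z) (y := 0) (by norm_num) (by simpa [q] using h) h30
    have key : ∀ b : ℤ, -1 ≤ b → q z + q b ≤ 30 → b ≤ 5 := fun b _ hb =>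
      Kill8_le' (by norm_num) hb h30
    interval_cases z
    · refine ⟨-576, fun b hb hq => ?_, by decide⟩
      have := key b hb hq
      interval_cases b <;> first
        | decide
        | (exfalso; revert hq; decide)
    · refine ⟨-784, fun b hb hq => ?_, by decide⟩
      have := key b hb hq
      interval_cases b <;> first
        | decide
        | (exfalso; revert hq; decide)
    · refine ⟨-1212, fun b hb hq => ?_, by decide⟩
      have := key b hb hq
      interval_cases b <;> first
        | decide
        | (exfalso; revert hq; decide)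
    · refine ⟨-1860, fun b hb hq => ?_, by decide⟩
      have := key b hb hq
      interval_cases b <;> first
        | decide
        | (exfalso; revert hq; decide)
    · refine ⟨-2284, fun b hb hq => ?_, by decide⟩
      have := key b hb hq
      interval_cases b <;> first
        | decide
        | (exfalso; revert hq; decide)
    · refine ⟨-2996, fun b hb hq => ?_, by decide⟩
      have := key b hb hq
      interval_cases b <;> first
        | decide
        | (exfalso; revert hq; decide)

/-- Finite check: `q x + q p ≤ 16`, `q z + q b ≤ 16`. In `Cert.E` take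
c = -784 for z = 0, c = -1024 for z = 1, c = -1532 for z = 2, c = -2340 for z = 3. -/
theorem cert8_7 : Cert 8 326 7 (-3708) := by
  have hB : (8 : ℤ) * (8 + 1) - q 7 = 16 := by norm_num [q]
  have h30 : (16 : ℤ) < q (3 + 1) := by norm_num [q]
  refine ⟨fun x p hx hp h => ?_, by norm_num [Pb, phi, q], fun z hz h => ?_⟩
  · rw [hB] at h
    have h1 := Kill8_le (by norm_num) h h30
    have h2 := Kill8_le' (by norm_num) h h30
    interval_cases x <;> interval_cases p <;> first
      | (exfalso; revert h; decide)
      | decide
  · rw [hB] at h ⊢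
    have h1 := Kill8_le (x := z) (y := 0) (by norm_num) (by simpa [q] using h) h30
    have key : ∀ b : ℤ, -1 ≤ b → q z + q b ≤ 16 → b ≤ 3 := fun b _ hb =>
      Kill8_le' (by norm_num) hb h30
    interval_cases z
    · refine ⟨-784, fun b hb hq => ?_, by decide⟩
      have := key b hb hq
      interval_cases b <;> first
        | decide
        | (exfalso; revert hq; decide)
    · refine ⟨-1024, fun b hb hq => ?_, by decide⟩
      have := key b hb hq
      interval_cases b <;> first
        | decide
        | (exfalso; revert hq; decide)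
    · refine ⟨-1532, fun b hb hq => ?_, by decide⟩
      have := key b hb hq
      interval_cases b <;> first
        | decide
        | (exfalso; revert hq; decide)
    · refine ⟨-2340, fun b hb hq => ?_, by decide⟩
      have := key b hb hq
      interval_cases b <;> first
        | decide
        | (exfalso; revert hq; decide)

variable {V : Type} [Fintype V] {G : SimpleGraph V} {H : V} {par : V → V} {dep : V → ℕ}

/-- `xx H ≤ 5`: `C1low` and `TS.s1_ge`. `xx H = 6`: by `Cgen` and `cert8_6`, `8 * S2 - 286 * S1 ≤ -19360`;
but `hT` gives a larger value for all `N = 1, …, 10` (`interval_cases N`, `n = 10 - N`).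
`xx H = 7`: by `Cgen` and `cert8_7`, `8 * S2 - 326 * S1 ≤ -33372`, and `TS.dalg` gives
`8 * S2 - 326 * S1 ≥ - 31360`. -/
theorem RT.kill8 (h : RT G H par dep) (h0 : ∑ v, q (xx G v) = (8 : ℤ) * (8 + 1))
    (hY : 1 ≤ xx G H) (hmax : ∀ v, xx G v ≤ xx G H) (hY2 : xx G H ≤ 7)
    (hT : TS 8 (S1 G H par) (S2 G H par) (Fintype.card V)) : False := by
  rcases le_or_gt (xx G H) 5 with h5 | h5
  · have h1 := h.C1low 8 h0 hY hmax (Or.inr ⟨by norm_num, by linarith⟩)
    have h2 := hT.s1_ge (by norm_num)
    linarith
  · have h67 : xx G H = 6 ∨ xx G H = 7 := by omega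
    rcases h67 with h6 | h7
    · have h1 := h.Cgen 8 286 (-2420) (by norm_num) h0 hY (by rw [h6]; exact cert8_6)
      rw [h6] at h1
      obtain ⟨N, n, N2, hN, hn, hN2, hN2N, hNn, hs1, hs2, -⟩ := hT
      obtain rfl : n = 10 - N := by linarith
      have hN10 : N ≤ 10 := by linarith
      rw [hs1] at h1
      interval_cases N <;> linarith
    · have h1 := h.Cgen 8 326 (-3708) (by norm_num) h0 hY (by rw [h7]; exact cert8_7)
      rw [h7] at h1
      have h2 := hT.dalg (by norm_num)
      linarith

end Pool.Agent.Lib.MP_a38fe7_coS
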