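import Pool.Agent.Lib.MP_a38fe7_coS.Cgen
import Pool.Agent.Lib.MP_a38fe7_coS.C1low
import Pool.Agent.Lib.MP_a38fe7_coS.TSDef

/-!
# Hubs with m = 9
-/

set_option autoImplicit false

namespace Pool.Agent.Lib.MP_a38fe7_coS

theorem Kill9_q_nonneg (x : ℤ) (hx : -1 ≤ x) : 0 ≤ q x := by
  unfold q
  rcases eq_or_lt_of_le hx with h | h
  · rw [← h]
    norm_num
  · have h2 : 0 ≤ x := by omega
    positivity

theorem Kill9_le (x R k : ℤ) (h : q x ≤ R) (hR : R < k * (k + 1)) (hk : 0 ≤ k) : x < k := by
  by_contra hc
  push Not at hc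
  unfold q at h
  nlinarith

/-- Finite check: `q x + q p ≤ 34`, `q z + q b ≤ 34`. In `Cert.E` take
c = -882 for z = 0, c = -1152 for z = 1, c = -1716 for z = 2, c = -2610 for z = 3, c = -3606 for z = 4, c = -4524 for z = 5. -/
theorem cert9_7 : Cert 9 363 7 (-3960) := by
  refine ⟨?_, ?_, ?_⟩
  · intro x p hx hp h
    have hqx := Kill9_q_nonneg x hx
    have hqp := Kill9_q_nonneg p (by omega)
    have h7 : q 7 = 56 := by norm_num [q]
    rw [h7] at h
    have hx2 : x < 6 := Kill9_le x 34 6 (by linarith) (by norm_num) (by norm_num)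
    have hp2 : p < 6 := Kill9_le p 34 6 (by linarith) (by norm_num) (by norm_num)
    interval_cases x <;> interval_cases p <;> first | decide | (exfalso; revert h; decide)
  · decide
  · intro z hz hqz
    have h7 : q 7 = 56 := by norm_num [q]
    rw [h7] at hqz
    have hz2 : z < 6 := Kill9_le z 34 6 (by linarith) (by norm_num) (by norm_num)
    have key : ∀ b : ℤ, -1 ≤ b → q z + q b ≤ 9 * (9 + 1) - q 7 → b < 6 := by
      intro b _ hb2
      rw [h7] at hb2
      have := Kill9_q_nonneg z (by omega)
      exact Kill9_le b 34 6 (by linarith) (by norm_num) (by norm_num)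
    interval_cases z
    · refine ⟨-882, fun b hb hb2 => ?_, by decide⟩
      have hb3 := key b hb hb2
      interval_cases b <;> first | decide | (exfalso; revert hb2; decide)
    · refine ⟨-1152, fun b hb hb2 => ?_, by decide⟩
      have hb3 := key b hb hb2
      interval_cases b <;> first | decide | (exfalso; revert hb2; decide)
    · refine ⟨-1716, fun b hb hb2 => ?_, by decide⟩
      have hb3 := key b hb hb2
      interval_cases b <;> first | decide | (exfalso; revert hb2; decide)
    · refine ⟨-2610, fun b hb hb2 => ?_, by decide⟩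
      have hb3 := key b hb hb2
      interval_cases b <;> first | decide | (exfalso; revert hb2; decide)
    · refine ⟨-3606, fun b hb hb2 => ?_, by decide⟩
      have hb3 := key b hb hb2
      interval_cases b <;> first | decide | (exfalso; revert hb2; decide)
    · refine ⟨-4524, fun b hb hb2 => ?_, by decide⟩
      have hb3 := key b hb hb2
      interval_cases b <;> first | decide | (exfalso; revert hb2; decide)

/-- Finite check: `q x + q p ≤ 18`, `q z + q b ≤ 18`. In `Cert.E` take
c = -1152 for z = 0, c = -1458 for z = 1, c = -2120 for z = 2, c = -3210 for z = 3. -/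
theorem cert9_8 : Cert 9 412 8 (-6062) := by
  refine ⟨?_, ?_, ?_⟩
  · intro x p hx hp h
    have hqx := Kill9_q_nonneg x hx
    have hqp := Kill9_q_nonneg p (by omega)
    have h7 : q 8 = 72 := by norm_num [q]
    rw [h7] at h
    have hx2 : x < 4 := Kill9_le x 18 4 (by linarith) (by norm_num) (by norm_num)
    have hp2 : p < 4 := Kill9_le p 18 4 (by linarith) (by norm_num) (by norm_num)
    interval_cases x <;> interval_cases p <;> first | decide | (exfalso; revert h; decide)
  · decide
  · intro z hz hqz
    have h7 : q 8 = 72 := by norm_num [q]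
    rw [h7] at hqz
    have hz2 : z < 4 := Kill9_le z 18 4 (by linarith) (by norm_num) (by norm_num)
    have key : ∀ b : ℤ, -1 ≤ b → q z + q b ≤ 9 * (9 + 1) - q 8 → b < 4 := by
      intro b _ hb2
      rw [h7] at hb2
      have := Kill9_q_nonneg z (by omega)
      exact Kill9_le b 18 4 (by linarith) (by norm_num) (by norm_num)
    interval_cases z
    · refine ⟨-1152, fun b hb hb2 => ?_, by decide⟩
      have hb3 := key b hb hb2
      interval_cases b <;> first | decide | (exfalso; revert hb2; decide)
    · refine ⟨-1458, fun b hb hb2 => ?_, by decide⟩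
      have hb3 := key b hb hb2
      interval_cases b <;> first | decide | (exfalso; revert hb2; decide)
    · refine ⟨-2120, fun b hb hb2 => ?_, by decide⟩
      have hb3 := key b hb hb2
      interval_cases b <;> first | decide | (exfalso; revert hb2; decide)
    · refine ⟨-3210, fun b hb hb2 => ?_, by decide⟩
      have hb3 := key b hb hb2
      interval_cases b <;> first | decide | (exfalso; revert hb2; decide)

variable {V : Type} [Fintype V] {G : SimpleGraph V} {H : V} {par : V → V} {dep : V → ℕ}

/-- `xx H ≤ 6`: `C1low` and `TS.s1_ge`. `xx H = 7`: by `Cgen` and `cert9_7`, `9 * S2 - 363 * S1 ≤ -35640`;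
but `hT` gives a larger value for all `N = 1, …, 11` (`interval_cases N`, `n = 11 - N`).
`xx H = 8`: by `Cgen` and `cert9_8`, `9 * S2 - 412 * S1 ≤ -60620`, and `TS.dalg` gives
`9 * S2 - 412 * S1 ≥ - 57024`. -/
theorem RT.kill9 (h : RT G H par dep) (h0 : ∑ v, q (xx G v) = (9 : ℤ) * (9 + 1))
    (hY : 1 ≤ xx G H) (hmax : ∀ v, xx G v ≤ xx G H) (hY2 : xx G H ≤ 8)
    (hT : TS 9 (S1 G H par) (S2 G H par) (Fintype.card V)) : False := by
  rcases le_or_gt (xx G H) 6 with h6 | h6
  · have h1 := h.C1low 9 h0 hY hmax (Or.inr ⟨by norm_num, by linarith⟩)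
    have h2 := hT.s1_ge (by norm_num)
    linarith
  · rcases le_or_gt (xx G H) 7 with h7 | h7
    · have h8 : xx G H = 7 := by omega
      have h1 := h.Cgen 9 363 (-3960) (by norm_num) h0 hY (by rw [h8]; exact cert9_7)
      rw [h8] at h1
      obtain ⟨N, n, N2, hN, hn, hN2, -, hNn, hs1, hs2, -⟩ := hT
      have hn2 : n = 11 - N := by linarith
      have hN3 : N ≤ 11 := by linarith
      rw [hn2] at hs1 hs2
      clear hn2 hNn hn
      interval_cases N <;> (norm_num at hs1 hs2; linarith)
    · have h8 : xx G H = 8 := by omega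
      have h1 := h.Cgen 9 412 (-6062) (by norm_num) h0 hY (by rw [h8]; exact cert9_8)
      rw [h8] at h1
      have h2 := hT.dalg (by norm_num)
      norm_num at h1 h2
      linarith

end Pool.Agent.Lib.MP_a38fe7_coS
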