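import Pool.Agent.Lib.MP_a38fe7_coS.Defs

/-!
# Degrees in the line graph
-/

set_option autoImplicit false

namespace Pool.Agent.Lib.MP_a38fe7_coS

open Pool.Agent.Lib.MP_a38fe7_co

theorem Line_image {V : Type} (G : SimpleGraph V) {u v : V} (h : s(u, v) ∈ G.edgeSet) :
    Subtype.val '' (G.lineGraph.neighborSet ⟨s(u, v), h⟩) =
      ((fun w => s(u, w)) '' (G.neighborSet u \ {v})) ∪
        ((fun w => s(v, w)) '' (G.neighborSet v \ {u})) := by
  ext x
  constructor
  · rintro ⟨⟨y, hy⟩, hadj, rfl⟩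
    rw [SimpleGraph.mem_neighborSet, SimpleGraph.lineGraph_adj_iff_exists] at hadj
    obtain ⟨hne, z, hz1, hz2⟩ := hadj
    have hz1' : z = u ∨ z = v := by simpa using hz1
    obtain ⟨w, hw⟩ : ∃ w, y = s(z, w) := by
      obtain ⟨w, hw⟩ := (Sym2.mem_iff_exists.1 (show z ∈ y from hz2))
      exact ⟨w, hw⟩
    subst hw
    rw [SimpleGraph.mem_edgeSet] at hy
    rcases hz1' with rfl | rfl
    · refine Or.inl ⟨w, ⟨hy, ?_⟩, rfl⟩
      intro hwv
      have hwv' := Set.mem_singleton_iff.1 hwv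
      subst hwv'
      exact hne rfl
    · refine Or.inr ⟨w, ⟨hy, ?_⟩, rfl⟩
      intro hwv
      have hwv' := Set.mem_singleton_iff.1 hwv
      subst hwv'
      exact hne (Subtype.ext Sym2.eq_swap)
  · rintro (⟨w, ⟨hw, hwv⟩, rfl⟩ | ⟨w, ⟨hw, hwv⟩, rfl⟩)
    · refine ⟨⟨s(u, w), hw⟩, ?_, rfl⟩
      rw [SimpleGraph.mem_neighborSet, SimpleGraph.lineGraph_adj_iff_exists]
      refine ⟨fun he => hwv ?_, u, by simp, by simp⟩
      have h1 := congrArg Subtype.val he
      simp only at h1
      rw [Set.mem_singleton_iff]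
      exact ((Sym2.congr_right).1 h1).symm
    · refine ⟨⟨s(v, w), hw⟩, ?_, rfl⟩
      rw [SimpleGraph.mem_neighborSet, SimpleGraph.lineGraph_adj_iff_exists]
      refine ⟨fun he => hwv ?_, v, by simp, by simp⟩
      have h1 := congrArg Subtype.val he
      simp only at h1
      rw [Set.mem_singleton_iff]
      rw [Sym2.eq_swap] at h1
      exact ((Sym2.congr_right).1 h1).symm

/-- The degree of an edge `uv` in the line graph is `deg u + deg v - 2`. -/
theorem xx_line {V : Type} [Finite V] (G : SimpleGraph V) {u v : V} (h : s(u, v) ∈ G.edgeSet) :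
    xx G.lineGraph ⟨s(u, v), h⟩ = xx G u + xx G v := by
  have huv : G.Adj u v := h
  have hne : u ≠ v := huv.ne
  have h1 : (G.lineGraph.neighborSet ⟨s(u, v), h⟩).ncard =
      ((fun w => s(u, w)) '' (G.neighborSet u \ {v}) ∪
        (fun w => s(v, w)) '' (G.neighborSet v \ {u})).ncard := by
    rw [← Line_image G h, Set.ncard_image_of_injective _ Subtype.val_injective]
  have hinj : ∀ z : V, Function.Injective (fun w => s(z, w)) := fun z a b hab =>
    Sym2.congr_right.1 hab
  have hdis : Disjoint ((fun w => s(u, w)) '' (G.neighborSet u \ {v}))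
      ((fun w => s(v, w)) '' (G.neighborSet v \ {u})) := by
    rw [Set.disjoint_left]
    rintro x ⟨w, ⟨-, hw⟩, rfl⟩ ⟨w', ⟨-, hw'⟩, he⟩
    have h2 : (v = u ∧ w' = w) ∨ (v = w ∧ w' = u) := by simpa using he
    rcases h2 with h2 | h2
    · exact hne h2.1.symm
    · exact hw (Set.mem_singleton_iff.2 h2.1.symm)
  have hfin : ∀ s : Set V, s.Finite := fun s => Set.toFinite s
  rw [Set.ncard_union_eq hdis ((hfin _).image _) ((hfin _).image _),
    Set.ncard_image_of_injective _ (hinj u), Set.ncard_image_of_injective _ (hinj v)] at h1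
  have h3 := Set.ncard_sdiff_singleton_add_one (show v ∈ G.neighborSet u from huv) (hfin _)
  have h4 := Set.ncard_sdiff_singleton_add_one (show u ∈ G.neighborSet v from huv.symm) (hfin _)
  unfold xx
  rw [h1]
  omega

end Pool.Agent.Lib.MP_a38fe7_coS
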