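import Pool.Agent.Lib.MP_a38fe7_coS.EdgeEq

/-!
# The second differences at the levels 1 and 2 in a rooted tree
-/

set_option autoImplicit false

namespace Pool.Agent.Lib.MP_a38fe7_coS

open Pool.Agent.Lib.MP_a38fe7_co

variable {V : Type} [Fintype V] {G : SimpleGraph V} {H : V} {par : V → V} {dep : V → ℕ}

open Classical in
/-- The sum over the ordered pairs of adjacent vertices is twice the sum over the edges. -/
theorem Psi_pairs {X : Type} [Fintype X] (Γ : SimpleGraph X) [Fintype Γ.edgeSet] (g : Sym2 X → ℤ) :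
    ∑ x, ∑ y, (if Γ.Adj x y then g s(x, y) else 0) = 2 * ∑ e : Γ.edgeSet, g e := by
  have h1 : ∑ x, ∑ y, (if Γ.Adj x y then g s(x, y) else 0) = ∑ d : Γ.Dart, g d.edge := by
    rw [← Fintype.sum_prod_type', ← Finset.sum_filter]
    symm
    refine Finset.sum_bij (fun d _ => d.toProd) (fun d _ => ?_) (fun a _ b _ hab => ?_)
      (fun p hp => ?_) (fun d _ => rfl)
    · exact Finset.mem_filter.2 ⟨Finset.mem_univ _, d.adj⟩
    · exact SimpleGraph.Dart.toProd_injective hab
    · exact ⟨⟨p, (Finset.mem_filter.1 hp).2⟩, Finset.mem_univ _, rfl⟩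
  have h2 : ∑ d : Γ.Dart, g d.edge =
      ∑ e ∈ Γ.edgeFinset, ∑ d ∈ Finset.univ.filter (fun d : Γ.Dart => d.edge = e), g d.edge :=
    (Finset.sum_fiberwise_of_maps_to (fun d _ => SimpleGraph.mem_edgeFinset.2 d.edge_mem) _).symm
  rw [h1, h2, Finset.mul_sum]
  rw [Finset.sum_subtype Γ.edgeFinset (fun x => SimpleGraph.mem_edgeFinset)]
  refine Finset.sum_congr rfl fun e _ => ?_
  rw [Finset.sum_congr rfl (fun d hd => by
    rw [(Finset.mem_filter.1 hd).2] : ∀ d ∈ Finset.univ.filter
      (fun d : Γ.Dart => d.edge = (e : Sym2 X)), g d.edge = g e), Finset.sum_const,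
    Γ.dart_edge_fiber_card (e : Sym2 X) e.2, nsmul_eq_mul]
  rfl

theorem Psi_xx (_h : RT G H par dep) (e : {v : V // v ≠ H} ≃ G.edgeSet)
    (he : ∀ v, (e v : Sym2 V) = s(v.1, par v.1)) (v : {v : V // v ≠ H}) :
    xx G.lineGraph (e v) = av G par v := by
  have h1 : s(v.1, par v.1) ∈ G.edgeSet := by
    rw [← he v]
    exact (e v).2
  have h2 : e v = ⟨s(v.1, par v.1), h1⟩ := Subtype.ext (he v)
  rw [h2, xx_line G h1]
  rfl

/-- `psi0` for `G.lineGraph` (`lsz_succ`), `edgeEquiv` and `xx_line`. -/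
theorem RT.psi1 (h : RT G H par dep) :
    S1 G H par = 2 * ((lsz 3 G : ℤ) - 2 * lsz 2 G + lsz 1 G) := by
  classical
  obtain ⟨e, he, -⟩ := h.edgeEquiv
  have : Fintype G.edgeSet := Fintype.ofFinite _
  have h0 := psi0 G.lineGraph
  rw [← e.sum_comp] at h0
  unfold S1
  rw [Finset.sum_subtype (Finset.univ.filter fun v => v ≠ H) (p := fun v => v ≠ H)
    (fun x => by simp)]
  have h1 : ∀ v : {v : V // v ≠ H}, q (av G par v) = q (xx G.lineGraph (e v)) := fun v => by
    rw [Psi_xx h e he v]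
  rw [Finset.sum_congr rfl fun v _ => h1 v]
  exact h0

/-- `psi0` for `G.lineGraph.lineGraph`, `xx_line` for `G.lineGraph`: the sum over the edges of
`G.lineGraph`, twice, is the sum over the ordered pairs of adjacent vertices of `G.lineGraph`. -/
theorem RT.psi2 (h : RT G H par dep) :
    S2 G H par = 4 * ((lsz 4 G : ℤ) - 2 * lsz 3 G + lsz 2 G) := by
  classical
  obtain ⟨e, he, hadj⟩ := h.edgeEquiv
  have : Fintype G.edgeSet := Fintype.ofFinite _
  have : Fintype G.lineGraph.edgeSet := Fintype.ofFinite _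
  have h0 := psi0 G.lineGraph.lineGraph
  set g : Sym2 G.edgeSet → ℤ := Sym2.lift ⟨fun x y => q (xx G.lineGraph x + xx G.lineGraph y),
    fun x y => congrArg q (add_comm _ _)⟩ with hg
  have hg' : ∀ x y, g s(x, y) = q (xx G.lineGraph x + xx G.lineGraph y) := fun x y => rfl
  have h1 : ∀ E : G.lineGraph.edgeSet, q (xx G.lineGraph.lineGraph E) = g E := by
    rintro ⟨E, hE⟩
    induction E using Sym2.ind with
    | _ x y => rw [xx_line G.lineGraph hE, hg']
  have h2 := Psi_pairs G.lineGraph g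
  have h3 : S2 G H par = ∑ x, ∑ y, (if G.lineGraph.Adj x y then g s(x, y) else 0) := by
    rw [← e.sum_comp]
    unfold S2
    rw [Finset.sum_subtype (Finset.univ.filter fun v => v ≠ H) (p := fun v => v ≠ H)
      (fun x => by simp)]
    refine Finset.sum_congr rfl fun v _ => ?_
    rw [← e.sum_comp]
    have h4 : ∑ w ∈ Finset.univ.filter (fun w => w ≠ H ∧ nb par v w),
        q (av G par v + av G par w) = ∑ w ∈ Finset.univ.filter (fun w => w ≠ H),
          if nb par v w then q (av G par v + av G par w) else 0 := by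
      rw [← Finset.sum_filter, Finset.filter_filter]
    rw [h4, Finset.sum_subtype (Finset.univ.filter fun v => v ≠ H) (p := fun v => v ≠ H)
      (fun x => by simp)]
    refine Finset.sum_congr rfl fun w _ => ?_
    by_cases h5 : nb par v w
    · rw [if_pos h5, if_pos ((hadj v w).2 h5), hg', Psi_xx h e he v, Psi_xx h e he w]
    · rw [if_neg h5, if_neg fun h6 => h5 ((hadj v w).1 h6)]
  rw [h3, h2, ← Finset.sum_congr rfl fun E _ => h1 E, h0]
  show _ = 4 * ((lsz 2 G.lineGraph.lineGraph : ℤ) - 2 * lsz 1 G.lineGraph.lineGraph +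
    lsz 0 G.lineGraph.lineGraph)
  ring

end Pool.Agent.Lib.MP_a38fe7_coS
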