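import Pool.Agent.Lib.MP_a38fe7_coS.RTree
import Pool.Agent.Lib.MP_a38fe7_coS.Psi
import Pool.Agent.Lib.MP_a38fe7_coS.C3
import Pool.Agent.Lib.MP_a38fe7_coS.C2
import Pool.Agent.Lib.MP_a38fe7_coS.C4
import Pool.Agent.Lib.MP_a38fe7_coS.D
import Pool.Agent.Lib.MP_a38fe7_coS.DMain

/-!
# A starlike tree and a tree that is not starlike
-/

set_option autoImplicit false

namespace Pool.Agent.Lib.MP_a38fe7_coS

open Pool.Agent.Lib.MP_a38fe7_co

theorem NonStar_q_nonneg (z : ℤ) : 0 ≤ q z := by
  unfold q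
  rcases le_or_gt 0 z with h | h
  · exact mul_nonneg h (by linarith)
  · exact mul_nonneg_of_nonpos_of_nonpos h.le (by linarith)

/-- Two different vertices with `xx ≥ 1`. -/
theorem NonStar_two {W : Type} [Fintype W] {T' : SimpleGraph W} {H : W}
    (hmax : ∀ v, xx T' v ≤ xx T' H) (hn : ¬ Star T' H) :
    1 ≤ xx T' H ∧ q (xx T' H) + 2 ≤ ∑ v, q (xx T' v) := by
  classical
  unfold Star at hn
  push Not at hn
  obtain ⟨v, hvH, hv⟩ := hn
  have h1 : 1 ≤ xx T' v := by
    unfold xx
    have : ((2 : ℕ) : ℤ) < ((T'.neighborSet v).ncard : ℤ) := by exact_mod_cast hv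
    push_cast at this
    linarith
  have h2 : 2 ≤ q (xx T' v) := by
    unfold q
    nlinarith
  refine ⟨h1.trans (hmax v), ?_⟩
  have h3 : q (xx T' H) + q (xx T' v) ≤ ∑ v, q (xx T' v) := by
    have h4 : ∑ w ∈ ({H, v} : Finset W), q (xx T' w) ≤ ∑ w, q (xx T' w) :=
      Finset.sum_le_sum_of_subset_of_nonneg (Finset.subset_univ _)
        fun w _ _ => NonStar_q_nonneg _
    rwa [Finset.sum_pair hvH.symm] at h4
  linarith

/-- Root `T` at `h` and `T'` at a vertex `H` of maximal degree (`exists_rt`). `psi0`, `psi1`, `psi2` and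
`hσ` for `k ≤ 4` give equal `∑ q (xx)`, `S1`, `S2`. As `T'` is not starlike, it has two vertices with
`xx ≥ 1`; so the sum is at least `4`, hence `m := xx T h ≥ 2` (`D0`) and `xx T' H ≤ m - 1`
(`q (xx T' H) + 2 ≤ m (m + 1)`). (c): `n = 0` in `D_main`, `S1 = (m + 2) m (m + 1)`, contradiction to `C3`.
(b): `m ≥ 12` (the vertex of degree `≥ 14` is `h`). If `N = 0` then `card V = m + 3`, contradiction to `C4`
(`lsz 0`). If `N ≥ 1` then `S1 ≥ m * (m * (m + 1))`, so `xx T' H = m - 1` by `C1`, and `D_alg`, `C2`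
contradict each other. -/
theorem nonstar_false {V W : Type} [Finite V] [Finite W] (T : SimpleGraph V) (T' : SimpleGraph W)
    (hT : T.IsTree) (hT' : T'.IsTree) (h : V) (hs : Star T h) (hn : ¬ ∃ h', Star T' h')
    (hσ : ∀ k ≤ 4, lsz k T = lsz k T')
    (hc : (∃ v, 14 ≤ (T.neighborSet v).ncard) ∨
      (∀ u v, T.Adj u v → (T.neighborSet u).ncard = 1 → (T.neighborSet v).ncard ≤ 2)) : False := by
  classical
  cases nonempty_fintype V
  cases nonempty_fintype W
  have : Nonempty W := hT'.connected.nonempty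
  obtain ⟨H, hmax⟩ := Finite.exists_max (fun v => xx T' v)
  have hmax' : ∀ v, xx T' v ≤ xx T' H := hmax
  obtain ⟨par, dep, r⟩ := exists_rt hT h
  obtain ⟨par', dep', r'⟩ := exists_rt hT' H
  have e0 := hσ 0 (by norm_num)
  have e1 := hσ 1 (by norm_num)
  have e2 := hσ 2 (by norm_num)
  have e3 := hσ 3 (by norm_num)
  have e4 := hσ 4 (by norm_num)
  have hq : ∑ v, q (xx T' v) = q (xx T h) := by
    rw [← r.D0 hs, psi0, psi0, e0, e1, e2]
  have hS1 : S1 T h par = S1 T' H par' := by rw [r.psi1, r'.psi1, e1, e2, e3]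
  have hS2 : S2 T h par = S2 T' H par' := by rw [r.psi2, r'.psi2, e2, e3, e4]
  obtain ⟨hY, hsum⟩ := NonStar_two hmax' (fun hst => hn ⟨H, hst⟩)
  obtain ⟨m, hm⟩ : ∃ m : ℤ, m = xx T h := ⟨_, rfl⟩
  obtain ⟨Y, hYe⟩ : ∃ Y : ℤ, Y = xx T' H := ⟨_, rfl⟩
  have hm0 : -2 ≤ m := by
    rw [hm]
    unfold xx
    have : (0 : ℤ) ≤ ((T.neighborSet h).ncard : ℤ) := by positivity
    linarith
  rw [hq, ← hm, ← hYe] at hsum
  rw [← hYe] at hY
  have hm2 : 2 ≤ m := by
    by_contra hcon
    have h3 : m ≤ 1 := by omega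
    have h4 : 2 ≤ q Y := by
      unfold q
      nlinarith
    have h5 : 4 ≤ m * (m + 1) := by
      have : q m = m * (m + 1) := rfl
      linarith
    interval_cases m <;> omega
  have hYm : Y ≤ m - 1 := by
    by_contra hcon
    have h3 : m ≤ Y := by omega
    have h4 : m * (m + 1) ≤ Y * (Y + 1) := by nlinarith
    have h5 : q m = m * (m + 1) := rfl
    have h6 : q Y = Y * (Y + 1) := rfl
    linarith
  have h0 : ∑ v, q (xx T' v) = m * (m + 1) := by
    rw [hq, ← hm]
    rfl
  obtain ⟨N, n, hN, hn0, hNn, hs1, hs2, hleaf, hcard⟩ := r.D_main hs m (by linarith) hm.symm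
  rcases hc with ⟨v, hv⟩ | hc
  · have hvh : v = h := by
      by_contra hne
      have := hs v hne
      omega
    rw [hvh] at hv
    have hm12 : 12 ≤ m := by
      rw [hm]
      unfold xx
      have : ((14 : ℕ) : ℤ) ≤ ((T.neighborSet h).ncard : ℤ) := by exact_mod_cast hv
      push_cast at this
      linarith
    rcases eq_or_lt_of_le hN with hN0 | hN1
    · have h3 := hcard hN0.symm
      have h4 := C4 hT' m hm2 h0 fun v => (hmax' v).trans (by rw [← hYe]; exact hYm)
      have h5 : (Fintype.card V : ℤ) = (Fintype.card W : ℤ) := by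
        rw [lsz_zero, lsz_zero, Nat.card_eq_fintype_card, Nat.card_eq_fintype_card] at e0
        exact_mod_cast e0
      linarith
    · have hS1ge : m * (m * (m + 1)) ≤ S1 T h par := by
        rw [hs1]
        have h3 : n = m + 2 - N := by linarith
        rw [h3]
        have h4 : N * (m * (m + 1)) + (m + 2 - N) * (m * (m - 1)) - m * (m * (m + 1)) =
            2 * m * (N - 1) := by ring
        have h5 : 0 ≤ 2 * m * (N - 1) := mul_nonneg (by linarith) (by linarith)
        linarith
      have hYeq : Y = m - 1 := by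
        by_contra hne
        have h3 : Y ≤ m - 2 := by omega
        have h4 := r'.C1 m hm12 h0 (by rw [← hYe]; exact hY) hmax' (by rw [← hYe]; exact h3)
        rw [← hS1] at h4
        linarith
      have h6 := r'.C2 m hm12 h0 (by rw [← hYe]; exact hYeq)
      have h7 := D_alg (by linarith : 1 ≤ m) hN hn0 hNn hs1 hs2
      rw [← hS1, ← hS2] at h6
      linarith
  · have hn1 : n = 0 := hleaf fun v hadj hv => by
      have h3 : (T.neighborSet v).ncard = 1 := by
        unfold xx at hv
        have : ((T.neighborSet v).ncard : ℤ) = 1 := by linarith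
        exact_mod_cast this
      have h4 := hc v h hadj.symm h3
      have h5 : m ≤ 0 := by
        rw [hm]
        unfold xx
        have : ((T.neighborSet h).ncard : ℤ) ≤ ((2 : ℕ) : ℤ) := by exact_mod_cast h4
        push_cast at this
        linarith
      linarith
    have h3 := r'.C3 m h0 (by rw [← hYe]; exact hY) hmax' (by rw [← hYe]; exact hYm)
    rw [← hS1, hs1, hn1] at h3
    have h4 : N = m + 2 := by linarith
    rw [h4] at h3
    linarith

end Pool.Agent.Lib.MP_a38fe7_coS
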