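import Pool.Agent.Lib.MP_a38fe7_coS.RTree
import Pool.Agent.Lib.MP_a38fe7_coS.Psi
import Pool.Agent.Lib.MP_a38fe7_coS.C4
import Pool.Agent.Lib.MP_a38fe7_coS.D
import Pool.Agent.Lib.MP_a38fe7_coS.DMain2
import Pool.Agent.Lib.MP_a38fe7_coS.Kill2
import Pool.Agent.Lib.MP_a38fe7_coS.Kill3
import Pool.Agent.Lib.MP_a38fe7_coS.Kill4
import Pool.Agent.Lib.MP_a38fe7_coS.Kill5
import Pool.Agent.Lib.MP_a38fe7_coS.Kill6
import Pool.Agent.Lib.MP_a38fe7_coS.Kill7
import Pool.Agent.Lib.MP_a38fe7_coS.Kill8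
import Pool.Agent.Lib.MP_a38fe7_coS.Kill9
import Pool.Agent.Lib.MP_a38fe7_coS.Kill10
import Pool.Agent.Lib.MP_a38fe7_coS.Kill11
import Pool.Agent.Lib.MP_a38fe7_coS.Kill12

/-!
# A starlike tree and a tree that is not starlike: all hubs
-/

set_option autoImplicit false

namespace Pool.Agent.Lib.MP_a38fe7_coS

open Pool.Agent.Lib.MP_a38fe7_co

theorem NonStar2_q_nonneg (z : ℤ) : 0 ≤ q z := by
  unfold q
  rcases le_or_gt 0 z with h | h
  · exact mul_nonneg h (by linarith)
  · exact mul_nonneg_of_nonpos_of_nonpos h.le (by linarith)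

/-- Two different vertices with `xx ≥ 1`. -/
theorem NonStar2_two {W : Type} [Fintype W] {T' : SimpleGraph W} {H : W}
    (hmax : ∀ v, xx T' v ≤ xx T' H) (hn : ¬ Star T' H) :
    1 ≤ xx T' H ∧ q (xx T' H) + 2 ≤ ∑ v, q (xx T' v) := by
  classical
  unfold Star at hn
  push Not at hn
  obtain ⟨v, hvH, hv⟩ := hn
  have h1 : 1 ≤ xx T' v := by
    unfold xx
    have : ((2 : ℕ) : ℤ) < ((T'.neighborSet v).ncard : ℤ) := by exact_mod_cast hv
    push_cast at this
    linarith
  have h2 : 2 ≤ q (xx T' v) := by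
    unfold q
    nlinarith
  refine ⟨h1.trans (hmax v), ?_⟩
  have h3 : q (xx T' H) + q (xx T' v) ≤ ∑ v, q (xx T' v) := by
    have h4 : ∑ w ∈ ({H, v} : Finset W), q (xx T' w) ≤ ∑ w, q (xx T' w) :=
      Finset.sum_le_sum_of_subset_of_nonneg (Finset.subset_univ _)
        fun w _ _ => NonStar2_q_nonneg _
    rwa [Finset.sum_pair hvH.symm] at h4
  linarith

/-- As `nonstar_false` in `NonStar.lean` (same preparations: root `T` at `h` and `T'` at a vertex `H` of maximal
degree; `m := xx T h ≥ 2`, `1 ≤ xx T' H ≤ m - 1`, equal sums `∑ q (xx)`, `S1`, `S2` and numbers of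
vertices). `D_main2` for `T`: in the first case `card V = m + 3`, contradiction to `C4` for `T'`; in the
second case `TS m (S1 T') (S2 T') (card W)`, contradiction to `kill2`, …, `kill12`. -/
theorem nonstar_false2 {V W : Type} [Finite V] [Finite W] (T : SimpleGraph V)
    (T' : SimpleGraph W) (hT : T.IsTree) (hT' : T'.IsTree) (h : V) (hs : Star T h)
    (hn : ¬ ∃ h', Star T' h') (hσ : ∀ k ≤ 4, lsz k T = lsz k T') : False := by
  classical
  cases nonempty_fintype V
  cases nonempty_fintype W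
  have : Nonempty W := hT'.connected.nonempty
  obtain ⟨H, hmax⟩ := Finite.exists_max (fun v => xx T' v)
  have hmax' : ∀ v, xx T' v ≤ xx T' H := hmax
  obtain ⟨par, dep, r⟩ := exists_rt hT h
  obtain ⟨par', dep', r'⟩ := exists_rt hT' H
  have e0 := hσ 0 (by norm_num)
  have e1 := hσ 1 (by norm_num)
  have e2 := hσ 2 (by norm_num)
  have e3 := hσ 3 (by norm_num)
  have e4 := hσ 4 (by norm_num)
  have hq : ∑ v, q (xx T' v) = q (xx T h) := by
    rw [← r.D0 hs, psi0, psi0, e0, e1, e2]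
  have hS1 : S1 T h par = S1 T' H par' := by rw [r.psi1, r'.psi1, e1, e2, e3]
  have hS2 : S2 T h par = S2 T' H par' := by rw [r.psi2, r'.psi2, e2, e3, e4]
  obtain ⟨hY, hsum⟩ := NonStar2_two hmax' (fun hst => hn ⟨H, hst⟩)
  obtain ⟨m, hm⟩ : ∃ m : ℤ, m = xx T h := ⟨_, rfl⟩
  obtain ⟨Y, hYe⟩ : ∃ Y : ℤ, Y = xx T' H := ⟨_, rfl⟩
  have hm0 : -2 ≤ m := by
    rw [hm]
    unfold xx
    have : (0 : ℤ) ≤ ((T.neighborSet h).ncard : ℤ) := by positivity
    linarith
  rw [hq, ← hm, ← hYe] at hsum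
  rw [← hYe] at hY
  have hm2 : 2 ≤ m := by
    by_contra hcon
    have h3 : m ≤ 1 := by omega
    have h4 : 2 ≤ q Y := by
      unfold q
      nlinarith
    have h5 : 4 ≤ m * (m + 1) := by
      have : q m = m * (m + 1) := rfl
      linarith
    interval_cases m <;> omega
  have hYm : Y ≤ m - 1 := by
    by_contra hcon
    have h3 : m ≤ Y := by omega
    have h4 : m * (m + 1) ≤ Y * (Y + 1) := by nlinarith
    have h5 : q m = m * (m + 1) := rfl
    have h6 : q Y = Y * (Y + 1) := rfl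
    linarith
  have h0 : ∑ v, q (xx T' v) = m * (m + 1) := by
    rw [hq, ← hm]
    rfl
  have hcV : (Fintype.card V : ℤ) = (Fintype.card W : ℤ) := by
    rw [lsz_zero, lsz_zero, Nat.card_eq_fintype_card, Nat.card_eq_fintype_card] at e0
    exact_mod_cast e0
  have hY1 : 1 ≤ xx T' H := by rw [← hYe]; exact hY
  have hY2 : xx T' H ≤ m - 1 := by rw [← hYe]; exact hYm
  rcases r.D_main2 hs m (by linarith) hm.symm with hc | hTS
  · have h4 := C4 hT' m hm2 h0 fun v => (hmax' v).trans hY2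
    linarith
  · rw [hS1, hS2, hcV] at hTS
    rcases le_or_gt 12 m with h12 | h12
    · exact r'.kill12 m h12 h0 hY1 hmax' hY2 hTS
    · have h11 : m ≤ 11 := by omega
      clear hm hm0 hq hsum
      interval_cases m
      · exact r'.kill2 h0 hY1 hmax' (by linarith) hTS
      · exact r'.kill3 h0 hY1 hmax' (by linarith) hTS
      · exact r'.kill4 h0 hY1 hmax' (by linarith) hTS
      · exact r'.kill5 h0 hY1 hmax' (by linarith) hTS
      · exact r'.kill6 h0 hY1 hmax' (by linarith) hTS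
      · exact r'.kill7 h0 hY1 hmax' (by linarith) hTS
      · exact r'.kill8 h0 hY1 hmax' (by linarith) hTS
      · exact r'.kill9 h0 hY1 hmax' (by linarith) hTS
      · exact r'.kill10 h0 hY1 hmax' (by linarith) hTS
      · exact r'.kill11 h0 hY1 hmax' (by linarith) hTS

end Pool.Agent.Lib.MP_a38fe7_coS
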