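import Pool.Agent.Lib.MP_a38fe7_coS.SpFinal
import Pool.Agent.Lib.MP_a38fe7_coS.NonStar2

/-!
# The main theorem, for all hubs
-/

set_option autoImplicit false

namespace Pool.Agent.Lib.MP_a38fe7_coS

open Pool.Agent.Lib.MP_a38fe7_co

theorem main2 {V W : Type} [Finite V] [Finite W] (T : SimpleGraph V) (T' : SimpleGraph W)
    (hT : T.IsTree) (hT' : T'.IsTree) (hs : ∃ h, Star T h) (hσ : ∀ k, lsz k T = lsz k T') :
    Nonempty (T ≃g T') := by
  obtain ⟨h, hs⟩ := hs
  by_cases hn : ∃ h', Star T' h'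
  · obtain ⟨h', hs'⟩ := hn
    exact star_star hT hT' hs hs' hσ
  · exact (nonstar_false2 T T' hT hT' h hs hn (fun k _ => hσ k)).elim

end Pool.Agent.Lib.MP_a38fe7_coS
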