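import Pool.Agent.Lib.MP_a38fe7_coS.RDeg

/-!
# The adjacent edges
-/

set_option autoImplicit false

namespace Pool.Agent.Lib.MP_a38fe7_coS

open Pool.Agent.Lib.MP_a38fe7_co

variable {V : Type} [Fintype V] {G : SimpleGraph V} {H : V} {par : V → V} {dep : V → ℕ}

private theorem NbSum_mem_ch {u w : V} : w ∈ ch H par u ↔ w ≠ H ∧ par w = u := by
  classical
  unfold ch
  rw [Finset.mem_filter]
  exact ⟨fun h => h.2, fun h => ⟨Finset.mem_univ _, h⟩⟩

open Classical in
/-- The edges adjacent to the edge of `v`: the siblings of `v` (`w ≠ v`, `par w = par v`), the children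
of `v`, and `par v` if it is not `H`. By `card_ch`, `card_ch_root` their number is
`xx v + xx (par v) + 2`. -/
theorem RT.card_nb (h : RT G H par dep) {v : V} (hv : v ≠ H) :
    ((Finset.univ.filter (fun w => w ≠ H ∧ nb par v w)).card : ℤ) = av G par v + 2 := by
  have hvm : v ∈ ch H par (par v) := NbSum_mem_ch.2 ⟨hv, rfl⟩
  have hpv := h.par_ne hv
  have hd1 : Disjoint ((ch H par (par v)).erase v) (ch H par v) := by
    rw [Finset.disjoint_left]
    intro w h1 h2
    have h3 := (NbSum_mem_ch.1 (Finset.mem_of_mem_erase h1)).2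
    have h4 := (NbSum_mem_ch.1 h2).2
    exact hpv (h3.symm.trans h4)
  have hc : (((ch H par (par v)).erase v ∪ ch H par v).card : ℤ) =
      ((ch H par (par v)).card : ℤ) - 1 + (ch H par v).card := by
    rw [Finset.card_union_of_disjoint hd1, Finset.card_erase_of_mem hvm]
    have : 1 ≤ (ch H par (par v)).card := Finset.card_pos.2 ⟨v, hvm⟩
    push_cast [Nat.cast_sub this]
    ring
  by_cases hp : par v = H
  · have hS : Finset.univ.filter (fun w => w ≠ H ∧ nb par v w) =
        (ch H par (par v)).erase v ∪ ch H par v := by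
      ext w
      rw [Finset.mem_filter, Finset.mem_union, Finset.mem_erase, NbSum_mem_ch, NbSum_mem_ch]
      constructor
      · rintro ⟨_, hw, hne, h1 | h1 | h1⟩
        · exact Or.inl ⟨hne.symm, hw, h1.symm⟩
        · exact absurd (h1.symm.trans hp) hw
        · exact Or.inr ⟨hw, h1⟩
      · rintro (⟨h1, h2, h3⟩ | ⟨h2, h3⟩)
        · exact ⟨Finset.mem_univ _, h2, h1.symm, Or.inl h3.symm⟩
        · refine ⟨Finset.mem_univ _, h2, ?_, Or.inr (Or.inr h3)⟩
          rintro rfl
          exact hpv h3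
    rw [hS, hc]
    have e1 := h.card_ch hv
    have e2 := h.card_ch_root
    unfold av
    rw [hp, e1, e2]
    ring
  · have hS : Finset.univ.filter (fun w => w ≠ H ∧ nb par v w) =
        insert (par v) ((ch H par (par v)).erase v ∪ ch H par v) := by
      ext w
      rw [Finset.mem_filter, Finset.mem_insert, Finset.mem_union, Finset.mem_erase, NbSum_mem_ch,
        NbSum_mem_ch]
      constructor
      · rintro ⟨_, hw, hne, h1 | h1 | h1⟩
        · exact Or.inr (Or.inl ⟨hne.symm, hw, h1.symm⟩)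
        · exact Or.inl h1.symm
        · exact Or.inr (Or.inr ⟨hw, h1⟩)
      · rintro (h1 | ⟨h1, h2, h3⟩ | ⟨h2, h3⟩)
        · subst h1
          exact ⟨Finset.mem_univ _, hp, hpv.symm, Or.inr (Or.inl rfl)⟩
        · exact ⟨Finset.mem_univ _, h2, h1.symm, Or.inl h3.symm⟩
        · refine ⟨Finset.mem_univ _, h2, ?_, Or.inr (Or.inr h3)⟩
          rintro rfl
          exact hpv h3
    have hnot : par v ∉ (ch H par (par v)).erase v ∪ ch H par v := by
      rw [Finset.mem_union, Finset.mem_erase, NbSum_mem_ch, NbSum_mem_ch]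
      rintro (⟨_, h2, h3⟩ | ⟨_, h3⟩)
      · exact h.par_ne hp h3
      · exact h.par_par_ne hv hp h3
    rw [hS, Finset.card_insert_of_notMem hnot]
    push_cast
    rw [hc]
    have e1 := h.card_ch hv
    have e2 := h.card_ch hp
    unfold av
    rw [e1, e2]
    ring

theorem RT.av_ge (h : RT G H par dep) (hH : 1 ≤ xx G H) {v : V} (hv : v ≠ H) :
    -1 ≤ av G par v := by
  have h1 := h.xx_ge hv
  unfold av
  by_cases hp : par v = H
  · rw [hp]
    linarith
  · have h2 := h.xx_par hv hp
    linarith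

private theorem NbSum_neg (h : RT G H par dep) (hH : 1 ≤ xx G H) {v : V} (hv : v ≠ H)
    (hn : av G par v < 0) : par v ≠ H ∧ xx G v = -1 ∧ xx G (par v) = 0 := by
  have h1 := h.xx_ge hv
  unfold av at hn
  have hp : par v ≠ H := by
    intro hp
    rw [hp] at hn
    linarith
  have h2 := h.xx_par hv hp
  exact ⟨hp, by linarith, by linarith⟩

/-- If `av v < 0`, then `v` is a leaf and `par v ≠ H` has degree two (`xx_par`), so `v` has no
siblings and no children; hence `w = par v`, and `av w = 0 + xx (par w) ≥ 0`. -/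
theorem RT.nonneg_of_nb (h : RT G H par dep) (hH : 1 ≤ xx G H) {v w : V} (hv : v ≠ H)
    (hw : w ≠ H) (hn : nb par v w) : 0 ≤ av G par v ∨ 0 ≤ av G par w := by
  classical
  by_contra hcon
  push Not at hcon
  obtain ⟨a1, a2, a3⟩ := NbSum_neg h hH hv hcon.1
  obtain ⟨b1, b2, b3⟩ := NbSum_neg h hH hw hcon.2
  obtain ⟨hne, h1 | h1 | h1⟩ := hn
  · have e := h.card_ch a1
    have hsub : ({v, w} : Finset V) ⊆ ch H par (par v) := by
      intro x hx
      rw [Finset.mem_insert, Finset.mem_singleton] at hx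
      rw [NbSum_mem_ch]
      rcases hx with rfl | rfl
      · exact ⟨hv, rfl⟩
      · exact ⟨hw, h1.symm⟩
    have h2 := Finset.card_le_card hsub
    rw [Finset.card_pair hne] at h2
    have h3 : (2 : ℤ) ≤ ((ch H par (par v)).card : ℤ) := by exact_mod_cast h2
    linarith
  · rw [h1, b2] at a3
    norm_num at a3
  · rw [h1, a2] at b3
    norm_num at b3

/-- For `a, b ≥ 0` it is `(a - b) ^ 2`, for `b = -1` it is `(a + 1) ^ 2 - 1`. -/
theorem Lo_nonneg {a b : ℤ} (ha : -1 ≤ a) (hb : -1 ≤ b) (h : 0 ≤ a ∨ 0 ≤ b) : 0 ≤ Lo a b := by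
  unfold Lo phi q
  rcases le_or_gt 0 a with ha0 | ha0
  · rcases le_or_gt 0 b with hb0 | hb0
    · rw [max_eq_left ha0, max_eq_left hb0]
      nlinarith [sq_nonneg (a - b)]
    · have hb1 : b = -1 := by omega
      subst hb1
      rw [max_eq_left ha0, max_eq_right (by norm_num : (-1 : ℤ) ≤ 0)]
      nlinarith [sq_nonneg (a + 1)]
  · have ha1 : a = -1 := by omega
    subst ha1
    have hb0 : 0 ≤ b := by
      rcases h with h | h
      · norm_num at h
      · exact h
    rw [max_eq_left hb0, max_eq_right (by norm_num : (-1 : ℤ) ≤ 0)]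
    nlinarith [sq_nonneg (b + 1)]

end Pool.Agent.Lib.MP_a38fe7_coS
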