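import Pool.Agent.Lib.MP_a38fe7_coS.Line

/-!
# The line graph of a pendant path
-/

set_option autoImplicit false

namespace Pool.Agent.Lib.MP_a38fe7_coS

open Pool.Agent.Lib.MP_a38fe7_co

/-- The degree of an edge in the line graph (from `xx_line`). -/
theorem deg_line {V : Type} [Finite V] (G : SimpleGraph V) {u v : V} (h : s(u, v) ∈ G.edgeSet) :
    (G.lineGraph.neighborSet ⟨s(u, v), h⟩).ncard + 2 =
      (G.neighborSet u).ncard + (G.neighborSet v).ncard := by
  have h1 := xx_line G h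
  unfold xx at h1
  omega

private theorem PPLine_adj {V : Type} {G : SimpleGraph V} {a b c : V} (h1 : s(a, b) ∈ G.edgeSet)
    (h2 : s(b, c) ∈ G.edgeSet) (hne : a ≠ c) :
    G.lineGraph.Adj ⟨s(a, b), h1⟩ ⟨s(b, c), h2⟩ := by
  refine ⟨fun h => ?_, b, ?_, ?_⟩
  · have h3 : s(a, b) = s(b, c) := congrArg Subtype.val h
    rcases Sym2.eq_iff.1 h3 with ⟨h4, h5⟩ | ⟨h4, _⟩
    · exact hne (h4.trans h5)
    · exact hne h4
  · exact Sym2.mem_mk_right a b
  · exact Sym2.mem_mk_left b c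

/-- The pendant path of the edges `p j p (j + 1)`, `j < m`, of the line graph, if `m ≥ 2`. -/
theorem PP.line {V : Type} [Finite V] {G : SimpleGraph V} {p : ℕ → V} {m d : ℕ}
    (h : PP G p m d) (hm : 2 ≤ m) :
    ∃ p' : ℕ → G.edgeSet, PP G.lineGraph p' (m - 1) d ∧
      (p' (m - 1) : Sym2 V) = s(p (m - 1), p m) := by
  have he : ∀ j, j < m → s(p j, p (j + 1)) ∈ G.edgeSet := fun j hj => h.adj j hj
  have h0 : 0 < m := by omega
  have hp : ∀ j (hj : j < m), (fun j => if hj : j < m then (⟨s(p j, p (j + 1)), he j hj⟩ : G.edgeSet)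
      else ⟨s(p 0, p (0 + 1)), he 0 h0⟩) j = ⟨s(p j, p (j + 1)), he j hj⟩ := by
    intro j hj
    exact dif_pos hj
  generalize (fun j => if hj : j < m then (⟨s(p j, p (j + 1)), he j hj⟩ : G.edgeSet)
      else ⟨s(p 0, p (0 + 1)), he 0 h0⟩) = p' at hp
  have hm1 : m - 1 + 1 = m := by omega
  refine ⟨p', ⟨by omega, ?_, ?_, ?_, ?_, ?_⟩, ?_⟩
  · intro j hj
    rw [hp j (by omega), hp (j + 1) (by omega)]
    exact PPLine_adj _ _ (h.ne j (by omega))
  · intro j hj hc
    rw [hp j (by omega), hp (j + 2) (by omega)] at hc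
    have h3 : s(p j, p (j + 1)) = s(p (j + 2), p (j + 2 + 1)) := congrArg Subtype.val hc
    rcases Sym2.eq_iff.1 h3 with ⟨h4, _⟩ | ⟨_, h5⟩
    · exact h.ne j (by omega) h4
    · exact (h.adj (j + 1) (by omega)).ne h5
  · rw [hp 0 h0]
    have h1 := deg_line G (he 0 h0)
    rw [h.deg0, h.deg2 (0 + 1) (by omega) (by omega)] at h1
    omega
  · intro j hj hj'
    rw [hp j (by omega)]
    have h1 := deg_line G (he j (by omega))
    rw [h.deg2 j hj (by omega), h.deg2 (j + 1) (by omega) (by omega)] at h1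
    omega
  · rw [hp (m - 1) (by omega)]
    have h1 := deg_line G (he (m - 1) (by omega))
    rw [h.deg2 (m - 1) (by omega) (by omega)] at h1
    have h2 := h.deg1
    rw [← hm1] at h2
    rw [h2] at h1
    omega
  · rw [hp (m - 1) (by omega)]
    change s(p (m - 1), p (m - 1 + 1)) = s(p (m - 1), p m)
    rw [hm1]

end Pool.Agent.Lib.MP_a38fe7_coS
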