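import Pool.Agent.Lib.MP_a38fe7_coS.AddLeaf
import Pool.Agent.Lib.MP_a38fe7_coS.PPLine

/-!
# Iterated line graphs and a new leaf
-/

set_option autoImplicit false

namespace Pool.Agent.Lib.MP_a38fe7_coS

open Pool.Agent.Lib.MP_a38fe7_co

theorem PPLsz_aux (n : ℕ) : ∀ {V : Type} [Finite V] {G : SimpleGraph V} {p : ℕ → V} {d : ℕ},
    PP G p (n + 1) d →
    (∀ k, k ≤ n + 1 + 1 → lsz k (addLeaf G (p (n + 1))) = lsz k G + 1) ∧
      lsz (n + 1 + 2) (addLeaf G (p (n + 1))) = lsz (n + 1 + 2) G + (d - 1) := by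
  induction n with
  | zero =>
    intro V _ G p d h
    have hadj : G.Adj (p 0) (p (0 + 1)) := h.adj 0 (by omega)
    have hns : G.neighborSet (p (0 + 1)) = {p 0} := by
      obtain ⟨a, ha⟩ := Set.ncard_eq_one.1 h.deg1
      have : p 0 ∈ G.neighborSet (p (0 + 1)) := hadj.symm
      rw [ha] at this ⊢
      rw [Set.mem_singleton_iff.1 this]
    have he : s(p 0, p (0 + 1)) ∈ G.edgeSet := hadj
    obtain ⟨i⟩ := addLeaf_line hns he
    have hstep : ∀ k, lsz (k + 1) (addLeaf G (p (0 + 1))) =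
        lsz k (addLeaf G.lineGraph ⟨s(p 0, p (0 + 1)), he⟩) := by
      intro k
      rw [lsz_succ]
      exact lsz_iso k i
    obtain ⟨b0, b1, b2⟩ := addLeaf_base G (p (0 + 1))
    obtain ⟨c0, c1, c2⟩ := addLeaf_base G.lineGraph ⟨s(p 0, p (0 + 1)), he⟩
    have hdeg := deg_line G he
    rw [h.deg0, h.deg1] at hdeg
    refine ⟨fun k hk => ?_, ?_⟩
    · match k, hk with
      | 0, _ => exact b0
      | 1, _ => exact b1
      | 2, _ => exact (hstep 1).trans c1
    · have e1 : lsz (0 + 1 + 2) G = lsz 2 G.lineGraph := lsz_succ 2 G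
      rw [e1]
      have e2 := (hstep 2).trans c2
      have e3 : lsz (0 + 1 + 2) (addLeaf G (p (0 + 1))) = lsz (2 + 1) (addLeaf G (p (0 + 1))) := rfl
      rw [e3, e2]
      omega
  | succ n ih =>
    intro V _ G p d h
    have hadj : G.Adj (p (n + 1)) (p (n + 1 + 1)) := h.adj (n + 1) (by omega)
    have hns : G.neighborSet (p (n + 1 + 1)) = {p (n + 1)} := by
      obtain ⟨a, ha⟩ := Set.ncard_eq_one.1 h.deg1
      have : p (n + 1) ∈ G.neighborSet (p (n + 1 + 1)) := hadj.symm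
      rw [ha] at this ⊢
      rw [Set.mem_singleton_iff.1 this]
    have he : s(p (n + 1), p (n + 1 + 1)) ∈ G.edgeSet := hadj
    obtain ⟨i⟩ := addLeaf_line hns he
    have hstep : ∀ k, lsz (k + 1) (addLeaf G (p (n + 1 + 1))) =
        lsz k (addLeaf G.lineGraph ⟨s(p (n + 1), p (n + 1 + 1)), he⟩) := by
      intro k
      rw [lsz_succ]
      exact lsz_iso k i
    obtain ⟨p', hp', hpe⟩ := h.line (by omega)
    have hpe' : p' (n + 1) = ⟨s(p (n + 1), p (n + 1 + 1)), he⟩ := Subtype.ext hpe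
    obtain ⟨i1, i2⟩ := ih (V := G.edgeSet) (G := G.lineGraph) (p := p') (d := d) hp'
    rw [hpe'] at i1 i2
    refine ⟨fun k hk => ?_, ?_⟩
    · match k, hk with
      | 0, _ => exact (addLeaf_base G _).1
      | k + 1, hk => exact (hstep k).trans (i1 k (by omega))
    · exact (hstep (n + 1 + 2)).trans i2

/-- Induction on `m`. `lsz (k + 1) (addLeaf G (p m)) = lsz k (addLeaf G.lineGraph e)` by `addLeaf_line` and
`lsz_iso`, where `e` is the edge `p (m - 1) p m`, and `lsz 0` by `addLeaf_base`. If `m = 1`, use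
`addLeaf_base` for `G.lineGraph` and `e`, whose degree is `d + 1 - 2` (`deg_line`); if `m ≥ 2`, use `PP.line`
and the induction hypothesis. -/
theorem PP.lsz {V : Type} [Finite V] {G : SimpleGraph V} {p : ℕ → V} {m d : ℕ}
    (h : PP G p m d) :
    (∀ k, k ≤ m + 1 → lsz k (addLeaf G (p m)) = lsz k G + 1) ∧
      lsz (m + 2) (addLeaf G (p m)) = lsz (m + 2) G + (d - 1) := by
  obtain ⟨n, rfl⟩ : ∃ n, m = n + 1 := ⟨m - 1, by have := h.pos; omega⟩
  exact PPLsz_aux n h

end Pool.Agent.Lib.MP_a38fe7_coS
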