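import Pool.Agent.Lib.MP_a38fe7_coS.Defs

/-!
# Polynomial inequalities for the case of a hub of degree one less (1)
-/

set_option autoImplicit false

namespace Pool.Agent.Lib.MP_a38fe7_coS

open Pool.Agent.Lib.MP_a38fe7_co

theorem PolyA_phi_nonpos {a : ℤ} (h : a ≤ 0) : phi a = 0 := by
  unfold phi
  rw [max_eq_right h]
  ring

theorem PolyA_phi_pos {a : ℤ} (h : 0 ≤ a) : phi a = a * (2 * a + 1) := by
  unfold phi
  rw [max_eq_left h]

/-- The main inequality behind `Pt_nonpos`. -/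
theorem PolyA_main {m a : ℤ} (hm : 12 ≤ m) (h1 : 1 ≤ a) (h2 : a ≤ m - 1) :
    2 * m * (a + 2) * (2 * a + 1) ≤ (5 * m ^ 2 + m - 2) * (a + 1) := by
  have e1 : 0 ≤ 2 * m * (a + 1) * (m - 1 - a) := by
    apply mul_nonneg
    · apply mul_nonneg <;> omega
    · omega
  have e2 : 0 ≤ (m - 2) * (m + 1) * (a + 1) := by
    apply mul_nonneg
    · apply mul_nonneg <;> omega
    · omega
  nlinarith [e1, e2]

/-- For `a ≥ 1`: `2 m (a + 2) (2 a + 1) ≤ 2 m (a + 1) (2 a + 3) ≤ 2 m (2 m + 1) (a + 1)` and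
`2 m (2 m + 1) ≤ 5 m ^ 2 + m - 2`. -/
theorem Pt_nonpos {m a : ℤ} (hm : 12 ≤ m) (h1 : -1 ≤ a) (h2 : a ≤ m - 1) : Pt m a ≤ 0 := by
  unfold Pt
  rcases le_or_gt a 0 with h | h
  · rw [PolyA_phi_nonpos h]
    have h3 : q a = 0 := by
      unfold q
      rcases (show a = -1 ∨ a = 0 by omega) with h4 | h4 <;> rw [h4] <;> norm_num
    rw [h3]
    simp
  · rw [PolyA_phi_pos h.le]
    unfold q
    have h3 := PolyA_main hm (show 1 ≤ a by omega) h2
    have h4 := mul_le_mul_of_nonneg_left h3 h.le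
    linarith

/-- `b = -1, 0`: direct. `b ≥ 1`: `Lo (m - 1) b = (m - 1 - b) ^ 2` and the claim is
`4 m (b ^ 2 + 2 b + m) ≤ (5 m ^ 2 + m - 2) (b + 1)`, with `b ^ 2 + b ≤ 2 m`. -/
theorem child_zero {m b : ℤ} (hm : 12 ≤ m) (hb : -1 ≤ b) (hq : q b ≤ 2 * m) :
    Pt m b - 2 * m * Lo (m - 1) b ≤ - 2 * m * (m - 1) ^ 2 := by
  have hφ : phi (m - 1) = (m - 1) * (2 * (m - 1) + 1) := PolyA_phi_pos (by omega)
  unfold Pt Lo
  rw [hφ]
  rcases lt_trichotomy b 0 with h | h | h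
  · have hb1 : b = -1 := by omega
    subst hb1
    rw [PolyA_phi_nonpos (by norm_num)]
    unfold q
    nlinarith [mul_nonneg (show (0 : ℤ) ≤ m by omega) (show (0 : ℤ) ≤ m - 1 by omega)]
  · subst h
    rw [PolyA_phi_nonpos le_rfl]
    unfold q
    nlinarith
  · rw [PolyA_phi_pos h.le]
    unfold q at hq ⊢
    have key : 4 * m * (b ^ 2 + 2 * b + m) ≤ (5 * m ^ 2 + m - 2) * (b + 1) := by
      rcases (show b = 1 ∨ 2 ≤ b by omega) with h3 | h3
      · subst h3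
        nlinarith
      · have e1 : 0 ≤ 4 * m * (2 * m - b * (b + 1)) := mul_nonneg (by omega) (by omega)
        have e2 : 0 ≤ (5 * m ^ 2 - 3 * m - 2) * (b - 2) :=
          mul_nonneg (by nlinarith) (by omega)
        have e3 : 0 ≤ 3 * m ^ 2 - 5 * m - 6 := by nlinarith
        nlinarith [e1, e2, e3]
    have h4 := mul_le_mul_of_nonneg_left key h.le
    nlinarith [h4]

end Pool.Agent.Lib.MP_a38fe7_coS
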