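import Pool.Agent.Lib.MP_a38fe7_coS.Defs

/-!
# Polynomial inequalities for smaller hubs (1)
-/

set_option autoImplicit false

namespace Pool.Agent.Lib.MP_a38fe7_coS

open Pool.Agent.Lib.MP_a38fe7_co

/-- `Y ≤ m - 4`: `(z + 1) (z + 2 - m) + 2 p ≤ - ((z - 1) Y - (z - 2) (z + 1)) < 0`.
`Y = m - 3`: `(z + 1) (z + 2 - m) + 2 (m - 3) = (z - 1) (z + 4 - m) ≤ 0` for `z ≤ m - 4`, and `z = m - 3`
contradicts `hq`. -/
theorem b1 {m Y z p : ℤ} (hm : 12 ≤ m) (hY : Y ≤ m - 3) (hz : 1 ≤ z) (hzY : z ≤ Y) (hp : p ≤ Y)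
    (hq : q z ≤ m * (m + 1) - q Y) : q z * (z + 2 - m) + 2 * (z * p) ≤ 0 := by
  unfold q at *
  have key : (z + 1) * (z + 2 - m) + 2 * p ≤ 0 := by
    rcases (by omega : Y ≤ m - 4 ∨ Y = m - 3) with h | h
    · have h1 : (z + 1) * (z + 2 - m) ≤ (z + 1) * (z - 2 - Y) :=
        mul_le_mul_of_nonneg_left (by omega) (by omega)
      nlinarith [mul_nonneg (by omega : (0 : ℤ) ≤ z - 1) (by omega : (0 : ℤ) ≤ Y - z)]
    · rcases (by omega : z ≤ m - 4 ∨ z = m - 3) with h2 | h2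
      · nlinarith [mul_nonneg (by omega : (0 : ℤ) ≤ z - 1) (by omega : (0 : ℤ) ≤ m - 4 - z)]
      · subst h
        subst h2
        nlinarith
  have h3 : z * (z + 1) * (z + 2 - m) + 2 * (z * p) = z * ((z + 1) * (z + 2 - m) + 2 * p) := by
    ring
  rw [h3]
  exact mul_nonpos_of_nonneg_of_nonpos (by omega) key

/-- `(m - 2) (z - 1) ≥ (z + 1) ^ 2`: `z ≤ 6` by cases, for `z ≥ 7` use `4 m - 2 ≥ z ^ 2 + z`. -/
theorem b2 {m z : ℤ} (hm : 12 ≤ m) (hz : 2 ≤ z) (hq : q z ≤ 4 * m - 2) :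
    q z * (z + 2 - m) + 2 * (z * (m - 2)) ≤ - q z := by
  unfold q at *
  have key : (z + 1) ^ 2 ≤ (m - 2) * (z - 1) := by
    rcases (by omega : z ≤ 6 ∨ 7 ≤ z) with h | h
    · interval_cases z <;> nlinarith
    · have h1 : (z ^ 2 + z - 6) * (z - 1) ≤ 4 * (m - 2) * (z - 1) :=
        mul_le_mul_of_nonneg_right (by nlinarith) (by omega)
      nlinarith [mul_nonneg (by omega : (0 : ℤ) ≤ z - 7) (sq_nonneg z),
        mul_nonneg (by omega : (0 : ℤ) ≤ z - 7) (by omega : (0 : ℤ) ≤ z)]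
  have h3 : z * (z + 1) * (z + 2 - m) + 2 * (z * (m - 2)) + z * (z + 1)
      = z * ((z + 1) ^ 2 - (m - 2) * (z - 1)) := by
    ring
  have h4 : z * ((z + 1) ^ 2 - (m - 2) * (z - 1)) ≤ 0 :=
    mul_nonpos_of_nonneg_of_nonpos (by omega) (by omega)
  omega

/-- `2 p ≤ (z + 1) (m - 4 - z)`. -/
theorem b3 {m z p : ℤ} (hm : 12 ≤ m) (hz : 1 ≤ z) (hp : 0 ≤ p) (hq : q z + q p ≤ 4 * m - 2) :
    q z * (z + 2 - m) + 2 * (z * p) ≤ - 2 * q z := by
  unfold q at *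
  have key : 2 * p ≤ (z + 1) * (m - 4 - z) := by
    rcases (by omega : z ≤ 6 ∨ 7 ≤ z) with h | h
    · rcases (by omega : p ≤ 6 ∨ 7 ≤ p) with h' | h'
      · interval_cases z <;> interval_cases p <;> nlinarith
      · have h2 : 7 * p ≤ p * p := mul_le_mul_of_nonneg_right h' hp
        interval_cases z <;> nlinarith
    · have h1 : 14 + p * (p + 1) ≤ 4 * (m - 4 - z) := by nlinarith
      have h2 : 8 * (14 + p * (p + 1)) ≤ (z + 1) * (14 + p * (p + 1)) :=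
        mul_le_mul_of_nonneg_right (by omega) (by nlinarith)
      have h3 : (z + 1) * (14 + p * (p + 1)) ≤ (z + 1) * (4 * (m - 4 - z)) :=
        mul_le_mul_of_nonneg_left h1 (by omega)
      nlinarith
  have h3 : z * (z + 1) * (z + 2 - m) + 2 * (z * p) + 2 * (z * (z + 1))
      = z * (2 * p - (z + 1) * (m - 4 - z)) := by
    ring
  have h4 : z * (2 * p - (z + 1) * (m - 4 - z)) ≤ 0 :=
    mul_nonpos_of_nonneg_of_nonpos (by omega) (by omega)
  linarith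

end Pool.Agent.Lib.MP_a38fe7_coS
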