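import Pool.Agent.Lib.MP_a38fe7_coS.Line

/-!
# The second difference
-/

set_option autoImplicit false

namespace Pool.Agent.Lib.MP_a38fe7_coS

open Pool.Agent.Lib.MP_a38fe7_co

open Classical in
theorem psi0_deg {V : Type} [Fintype V] (G : SimpleGraph V) (v : V) :
    xx G v + 2 = (G.degree v : ℤ) := by
  have h1 : (G.neighborSet v).ncard = G.degree v := by
    rw [← SimpleGraph.card_neighborSet_eq_degree, ← Nat.card_eq_fintype_card,
      Nat.card_coe_set_eq]
  rw [xx, h1]
  ring

open Classical in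
theorem psi0_hand {V : Type} [Fintype V] (G : SimpleGraph V) :
    ∑ v, (xx G v + 2) = 2 * (lsz 1 G : ℤ) := by
  have h1 : lsz 1 G = G.edgeFinset.card := by
    rw [lsz_succ, lsz_zero, Nat.card_eq_fintype_card, SimpleGraph.edgeFinset_card]
  rw [h1]
  have h2 := G.sum_degrees_eq_twice_card_edges
  simp only [psi0_deg]
  exact_mod_cast h2

open Classical in
/-- `∑_e (f u + f v) = ∑_v deg v * f v`. -/
theorem psi0_sum {V : Type} [Fintype V] (G : SimpleGraph V) (f : V → ℤ)
    (F : G.edgeSet → ℤ) (hF : ∀ (u v : V) (h : s(u, v) ∈ G.edgeSet), F ⟨s(u, v), h⟩ = f u + f v) :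
    ∑ e, F e = ∑ v, (xx G v + 2) * f v := by
  have h1 : ∀ e : G.edgeSet, F e = ∑ w, if w ∈ (e : Sym2 V) then f w else 0 := by
    rintro ⟨e, he⟩
    induction e with
    | _ u v =>
      rw [hF u v he]
      have huv : u ≠ v := G.ne_of_adj he
      have h2 : (Finset.univ.filter fun w => w ∈ s(u, v)) = {u, v} := by
        ext w
        simp
      rw [← Finset.sum_filter, h2, Finset.sum_pair huv]
  simp only [h1]
  rw [Finset.sum_comm]
  refine Finset.sum_congr rfl fun w _ => ?_
  rw [psi0_deg, ← G.card_incidenceFinset_eq_degree, SimpleGraph.incidenceFinset_eq_filter,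
    ← Finset.sum_filter, Finset.sum_const, nsmul_eq_mul]
  congr 2
  rw [← Finset.card_map (Function.Embedding.subtype (fun e => e ∈ G.edgeSet))]
  congr 1
  ext e
  simp only [Finset.mem_map, Finset.mem_filter, Finset.mem_univ, true_and,
    Function.Embedding.coe_subtype, Subtype.exists, exists_and_right, exists_eq_right,
    SimpleGraph.mem_edgeFinset]
  tauto

/-- `lsz 1 G` is the number of edges, and `lsz 2 G` the number of edges of the line graph, which is
`∑ C(deg v, 2)` (double count the pairs (v, {e, f}), or use `xx_line`: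
`2 |E(L(G))| = ∑_e deg e = ∑_e (deg u + deg v - 2) = ∑_v deg v ^ 2 - 2 |E|`, `∑_v deg v = 2 |E|`).
Then `∑_v (d - 2) (d - 1) = ∑ (d (d - 1) - 2 d + 2)`. -/
theorem psi0 {V : Type} [Fintype V] (G : SimpleGraph V) :
    ∑ v, q (xx G v) = 2 * ((lsz 2 G : ℤ) - 2 * lsz 1 G + lsz 0 G) := by
  classical
  have h1 := psi0_hand G
  have h2 := psi0_hand G.lineGraph
  have h3 : (lsz 1 G.lineGraph : ℤ) = lsz 2 G := rfl
  rw [h3, Finset.sum_add_distrib, psi0_sum G (xx G) (xx G.lineGraph) fun u v h => xx_line G h,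
    Finset.sum_const, nsmul_eq_mul] at h2
  have h4 : (lsz 0 G : ℤ) = ∑ _v : V, (1 : ℤ) := by
    rw [lsz_zero, Nat.card_eq_fintype_card]
    simp
  have h5 : ((Finset.univ : Finset G.edgeSet).card : ℤ) = lsz 1 G := by
    rw [lsz_succ, lsz_zero, Nat.card_eq_fintype_card]
    simp
  rw [h5] at h2
  have h6 : ∑ v, q (xx G v) = ∑ v, (xx G v + 2) * xx G v - ∑ v, (xx G v + 2) + 2 * ∑ _v : V, (1 : ℤ) := by
    rw [Finset.mul_sum, ← Finset.sum_sub_distrib, ← Finset.sum_add_distrib]
    refine Finset.sum_congr rfl fun v _ => ?_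
    rw [q]
    ring
  rw [h6, h1, ← h4]
  linarith

end Pool.Agent.Lib.MP_a38fe7_coS
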