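import Pool.Agent.Lib.MP_a38fe7_coS.Defs

/-!
# Rooted trees: existence
-/

set_option autoImplicit false

namespace Pool.Agent.Lib.MP_a38fe7_coS

open Pool.Agent.Lib.MP_a38fe7_co

/-- the parent in a rooted tree is unique -/
private theorem RTree_unique {V : Type} {G : SimpleGraph V} (hT : G.IsTree) (r : V) {x y z : V}
    (hy : G.Adj x y) (hz : G.Adj x z) (hy' : G.dist r y < G.dist r x)
    (hz' : G.dist r z < G.dist r x) : y = z := by
  classical
  obtain ⟨p, hp, hp'⟩ := (hT.connected r x).exists_path_of_dist
  have key : ∀ y, G.Adj x y → G.dist r y < G.dist r x → y = p.penultimate := by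
    intro y hy hy'
    obtain ⟨q, hq, hq'⟩ := (hT.connected r y).exists_path_of_dist
    have hx : x ∉ q.support := by
      intro h
      have h1 := SimpleGraph.dist_le (q.takeUntil x h)
      have h2 := q.length_takeUntil_le_length h
      omega
    exact hT.isAcyclic.eq_penultimate_of_adj_end hp hy
      (hT.isAcyclic.mem_support_of_ne_mem_support_of_adj_of_isPath hp hq hy hx)
  rw [key y hy hy', key z hz hz']

private theorem RTree_parent {V : Type} {G : SimpleGraph V} (hT : G.IsTree) (r : V) {x : V}
    (hx : x ≠ r) : ∃ y, G.Adj x y ∧ G.dist r x = G.dist r y + 1 := by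
  obtain ⟨p, hp⟩ := (hT.connected.preconnected x r).exists_walk_length_eq_dist
  cases p with
  | nil => exact absurd rfl hx
  | @cons _ y _ h q =>
    refine ⟨y, h, ?_⟩
    rw [SimpleGraph.Walk.length_cons] at hp
    have h1 : G.dist r y ≤ q.length := by
      rw [SimpleGraph.dist_comm]
      exact SimpleGraph.dist_le q
    have h2 : G.dist r x = q.length + 1 := by
      rw [SimpleGraph.dist_comm]
      exact hp.symm
    rcases hT.dist_eq_dist_add_one_of_adj r h with h3 | h3
    · exact h3
    · omega

/-- Every vertex of a finite tree can be taken as the root: `par v` is the neighbour of `v` with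
`dist H (par v) + 1 = dist H v` (`SimpleGraph.IsTree.dist_eq_dist_add_one_of_adj`; uniqueness: two such
neighbours give two paths from `H`; compare `parent_unique` in `Pool.Agent.Lib.MP_cfc9ed_co.T5`),
`par H = H`, `dep v = dist H v`. -/
theorem exists_rt {V : Type} [Finite V] {G : SimpleGraph V} (hG : G.IsTree) (H : V) :
    ∃ (par : V → V) (dep : V → ℕ), RT G H par dep := by
  classical
  choose! par h1 h2 using fun (x : V) (hx : x ≠ H) => RTree_parent hG H hx
  refine ⟨par, fun v => G.dist H v, ?_, fun v hv => h2 v hv⟩
  intro u w
  constructor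
  · intro h
    rcases hG.dist_eq_dist_add_one_of_adj H h with h3 | h3
    · left
      have hu : u ≠ H := by
        rintro rfl
        rw [SimpleGraph.dist_self] at h3
        omega
      refine ⟨hu, RTree_unique hG H (h1 u hu) h ?_ ?_⟩
      · have := h2 u hu
        omega
      · omega
    · right
      have hw : w ≠ H := by
        rintro rfl
        rw [SimpleGraph.dist_self] at h3
        omega
      refine ⟨hw, RTree_unique hG H (h1 w hw) h.symm ?_ ?_⟩
      · have := h2 w hw
        omega
      · omega
  · rintro (⟨hu, rfl⟩ | ⟨hw, rfl⟩)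
    · exact h1 u hu
    · exact (h1 w hw).symm

end Pool.Agent.Lib.MP_a38fe7_coS
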