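import Pool.Agent.Lib.MP_a38fe7_coS.Defs

/-!
# Functions with the same fibre sizes
-/

set_option autoImplicit false

namespace Pool.Agent.Lib.MP_a38fe7_coS

open Pool.Agent.Lib.MP_a38fe7_co

/-- The fibre sizes of a truncation. -/
private theorem spFin_card {d : ℕ} (ℓ : Fin d → ℕ) (j m : ℕ) :
    (Finset.univ.filter fun i => min (ℓ i) j = m).card =
      if m < j then (Finset.univ.filter fun i => m ≤ ℓ i).card -
        (Finset.univ.filter fun i => m + 1 ≤ ℓ i).card
      else if m = j then (Finset.univ.filter fun i => m ≤ ℓ i).card else 0 := by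
  by_cases h1 : m < j
  · rw [if_pos h1]
    have h2 : (Finset.univ.filter fun i => m + 1 ≤ ℓ i) ⊆
        (Finset.univ.filter fun i => m ≤ ℓ i) := by
      intro i hi
      rw [Finset.mem_filter] at hi ⊢
      exact ⟨hi.1, by omega⟩
    rw [← Finset.card_sdiff_of_subset h2]
    congr 1
    ext i
    rw [Finset.mem_sdiff, Finset.mem_filter, Finset.mem_filter, Finset.mem_filter]
    constructor
    · rintro ⟨h3, h4⟩
      exact ⟨⟨h3, by omega⟩, fun h5 => by omega⟩
    · rintro ⟨⟨h3, h4⟩, h5⟩
      refine ⟨h3, ?_⟩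
      have h6 : ¬ (m + 1 ≤ ℓ i) := fun h7 => h5 ⟨h3, h7⟩
      omega
  · rw [if_neg h1]
    by_cases h2 : m = j
    · rw [if_pos h2]
      congr 1
      ext i
      rw [Finset.mem_filter, Finset.mem_filter]
      constructor
      · rintro ⟨h3, h4⟩
        exact ⟨h3, by omega⟩
      · rintro ⟨h3, h4⟩
        exact ⟨h3, by omega⟩
    · rw [if_neg h2, Finset.card_eq_zero, Finset.filter_eq_empty_iff]
      intro i _ h3
      omega

/-- Two functions whose fibres have the same size differ by a permutation (`Equiv.ofFiberEquiv`); for the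
truncations it is enough that the numbers `#{i | m ≤ ℓ i}` are equal for `m ≤ j`. -/
theorem exists_perm {d : ℕ} (ℓ ℓ' : Fin d → ℕ) (j : ℕ)
    (h : ∀ m ≤ j, (Finset.univ.filter fun i => m ≤ ℓ i).card =
      (Finset.univ.filter fun i => m ≤ ℓ' i).card) :
    ∃ e : Fin d ≃ Fin d, ∀ i, min (ℓ i) j = min (ℓ' (e i)) j := by
  have h1 : ∀ m, (Finset.univ.filter fun i => min (ℓ i) j = m).card =
      (Finset.univ.filter fun i => min (ℓ' i) j = m).card := by
    intro m
    rw [spFin_card, spFin_card]
    by_cases h2 : m < j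
    · rw [if_pos h2, if_pos h2, h m h2.le, h (m + 1) h2]
    · rw [if_neg h2, if_neg h2]
      by_cases h3 : m = j
      · rw [if_pos h3, if_pos h3, h m h3.le]
      · rw [if_neg h3, if_neg h3]
  have h2 : ∀ m, Nonempty ({i // min (ℓ i) j = m} ≃ {i // min (ℓ' i) j = m}) := by
    intro m
    refine ⟨Fintype.equivOfCardEq ?_⟩
    rw [Fintype.card_subtype, Fintype.card_subtype]
    exact h1 m
  refine ⟨Equiv.ofFiberEquiv fun m => (h2 m).some, fun i => ?_⟩
  exact (Equiv.ofFiberEquiv_map (fun m => (h2 m).some) i).symm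

end Pool.Agent.Lib.MP_a38fe7_coS
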