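import Pool.Agent.Lib.MP_a38fe7_coS.Defs

/-!
# Spiders: permutations of the legs, number of vertices
-/

set_option autoImplicit false

namespace Pool.Agent.Lib.MP_a38fe7_coS

open Pool.Agent.Lib.MP_a38fe7_co

theorem sp_perm {d : ℕ} (ℓ ℓ' : Fin d → ℕ) (e : Fin d ≃ Fin d) (he : ∀ i, ℓ i = ℓ' (e i)) :
    Nonempty (Sp d ℓ ≃g Sp d ℓ') := by
  refine ⟨⟨Equiv.optionCongr (Equiv.sigmaCongr e fun i => finCongr (he i)), ?_⟩⟩
  intro a b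
  rcases a with _ | ⟨i, x⟩ <;> rcases b with _ | ⟨j, y⟩
  · exact Iff.rfl
  · exact Iff.rfl
  · exact Iff.rfl
  · show (e i = e j ∧ ((x : ℕ) + 1 = y ∨ (y : ℕ) + 1 = x)) ↔
      (i = j ∧ ((x : ℕ) + 1 = y ∨ (y : ℕ) + 1 = x))
    rw [e.injective.eq_iff]

theorem sp_card {d : ℕ} (ℓ : Fin d → ℕ) : lsz 0 (Sp d ℓ) = 1 + ∑ i, ℓ i := by
  rw [lsz_zero, Nat.card_eq_fintype_card, Fintype.card_option, Fintype.card_sigma, add_comm]
  simp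

end Pool.Agent.Lib.MP_a38fe7_coS
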