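import Pool.Agent.Lib.MP_a38fe7_coS.SpTele
import Pool.Agent.Lib.MP_a38fe7_coS.SpFin
import Pool.Agent.Lib.MP_a38fe7_coS.SpPerm

/-!
# Spiders are determined
-/

set_option autoImplicit false

namespace Pool.Agent.Lib.MP_a38fe7_coS

open Pool.Agent.Lib.MP_a38fe7_co

theorem SpDet_sum {d : ℕ} (hd : 3 ≤ d) (ℓ : Fin d → ℕ) (j : ℕ) :
    (∑ i, (if j < ℓ i then (d - 1) + (ℓ i - j - 1) else 0)) + ∑ i, min (ℓ i) j =
      (d - 2) * (Finset.univ.filter fun i => j + 1 ≤ ℓ i).card + ∑ i, ℓ i := by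
  have h1 : (Finset.univ.filter fun i => j + 1 ≤ ℓ i).card = ∑ i, (if j < ℓ i then 1 else 0) := by
    rw [Finset.card_filter]
    rfl
  rw [h1, Finset.mul_sum, ← Finset.sum_add_distrib, ← Finset.sum_add_distrib]
  refine Finset.sum_congr rfl fun i _ => ?_
  split_ifs with h
  · rw [min_eq_right h.le]
    omega
  · rw [min_eq_left (not_lt.1 h)]
    omega

/-- Show by induction on `j` that `#{i | m ≤ ℓ i} = #{i | m ≤ ℓ' i}` for all `m ≤ j`: `m = 0, 1` is clear.
From `j ≥ 1` to `j + 1`: the truncations at `j` differ by a permutation (`exists_perm`), so their `lsz` agree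
(`sp_perm`, `lsz_iso`) and `∑ min (ℓ i) j = ∑ min (ℓ' i) j`; `∑ ℓ i = ∑ ℓ' i` by `sp_card`. In `sp_tele`
the last sum is `(d - 2) * #{i | j + 1 ≤ ℓ i} + ∑ (ℓ i - min (ℓ i) j)`, and `d ≥ 3`. Finally take `j`
larger than all `ℓ i`, `ℓ' i`. -/
theorem sp_det {d : ℕ} (hd : 3 ≤ d) (ℓ ℓ' : Fin d → ℕ) (hℓ : ∀ i, 1 ≤ ℓ i) (hℓ' : ∀ i, 1 ≤ ℓ' i)
    (hσ : ∀ k, lsz k (Sp d ℓ) = lsz k (Sp d ℓ')) :
    ∃ e : Fin d ≃ Fin d, ∀ i, ℓ i = ℓ' (e i) := by
  have hsm : ∑ i, ℓ i = ∑ i, ℓ' i := by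
    have := hσ 0
    rw [sp_card, sp_card] at this
    omega
  have key : ∀ j, 1 ≤ j → ∀ m ≤ j, (Finset.univ.filter fun i => m ≤ ℓ i).card =
      (Finset.univ.filter fun i => m ≤ ℓ' i).card := by
    intro j hj
    induction j, hj using Nat.le_induction with
    | base =>
      intro m hm
      have e1 : (Finset.univ.filter fun i => m ≤ ℓ i) = Finset.univ :=
        Finset.filter_true_of_mem fun i _ => hm.trans (hℓ i)
      have e2 : (Finset.univ.filter fun i => m ≤ ℓ' i) = Finset.univ :=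
        Finset.filter_true_of_mem fun i _ => hm.trans (hℓ' i)
      rw [e1, e2]
    | succ j hj ih =>
      intro m hm
      rcases Nat.lt_or_ge j m with hjm | hjm
      · have hmj : m = j + 1 := by omega
        rw [hmj]
        obtain ⟨e, he⟩ := exists_perm ℓ ℓ' j ih
        obtain ⟨f⟩ := sp_perm (fun i => min (ℓ i) j) (fun i => min (ℓ' i) j) e he
        have h1 := lsz_iso (j + 2) f
        have h2 : ∑ i, min (ℓ i) j = ∑ i, min (ℓ' i) j := by
          rw [← Equiv.sum_comp e (fun i => min (ℓ' i) j)]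
          exact Finset.sum_congr rfl fun i _ => he i
        have h3 := sp_tele ℓ hℓ j hj
        have h4 := sp_tele ℓ' hℓ' j hj
        have h5 := hσ (j + 2)
        have h6 := SpDet_sum hd ℓ j
        have h7 := SpDet_sum hd ℓ' j
        have h8 : (d - 2) * (Finset.univ.filter fun i => j + 1 ≤ ℓ i).card =
            (d - 2) * (Finset.univ.filter fun i => j + 1 ≤ ℓ' i).card := by
          omega
        exact Nat.eq_of_mul_eq_mul_left (by omega) h8
      · exact ih m hjm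
  obtain ⟨e, he⟩ := exists_perm ℓ ℓ' (1 + ∑ i, ℓ i) (key _ (by omega))
  refine ⟨e, fun i => ?_⟩
  have h1 : ℓ i ≤ ∑ i, ℓ i := Finset.single_le_sum (f := ℓ) (fun _ _ => Nat.zero_le _)
    (Finset.mem_univ i)
  have h2 : ℓ' (e i) ≤ ∑ i, ℓ' i := Finset.single_le_sum (f := ℓ') (fun _ _ => Nat.zero_le _)
    (Finset.mem_univ (e i))
  have h3 := he i
  rw [min_eq_left (by omega), min_eq_left (by omega)] at h3
  exact h3

end Pool.Agent.Lib.MP_a38fe7_coS
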