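import Pool.Agent.Lib.MP_a38fe7_coS.Defs

/-!
# A leg grows
-/

set_option autoImplicit false

namespace Pool.Agent.Lib.MP_a38fe7_coS

open Pool.Agent.Lib.MP_a38fe7_co

private theorem spEnd_ext {d : ℕ} {ℓ : Fin d → ℕ} (a b : Σ i : Fin d, Fin (ℓ i)) :
    a = b ↔ a.1 = b.1 ∧ (a.2 : ℕ) = b.2 := by
  constructor
  · rintro rfl
    exact ⟨rfl, rfl⟩
  · obtain ⟨a1, a2⟩ := a
    obtain ⟨b1, b2⟩ := b
    rintro ⟨h1, h2⟩
    simp only at h1 h2
    subst h1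
    congr 1
    exact Fin.ext h2

private theorem spEnd_le {d : ℕ} (ℓ : Fin d → ℕ) (i k : Fin d) :
    ℓ k ≤ Function.update ℓ i (ℓ i + 1) k := by
  by_cases h : k = i
  · subst h
    rw [Function.update_self]
    omega
  · rw [Function.update_of_ne h]

private theorem spEnd_eq {d : ℕ} (ℓ : Fin d → ℕ) (i k : Fin d) (y : ℕ)
    (hy : y < Function.update ℓ i (ℓ i + 1) k) (hn : ¬ y < ℓ k) : k = i ∧ y = ℓ i := by
  by_cases h : k = i
  · subst h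
    rw [Function.update_self] at hy
    exact ⟨rfl, by omega⟩
  · rw [Function.update_of_ne h] at hy
    exact absurd hy hn

/-- The bijection. -/
private def spEndEquiv {d : ℕ} (ℓ : Fin d → ℕ) (i : Fin d) :
    Option (Option (Σ i : Fin d, Fin (ℓ i))) ≃
      Option (Σ k : Fin d, Fin (Function.update ℓ i (ℓ i + 1) k)) where
  toFun
    | none => some ⟨i, ⟨ℓ i, by rw [Function.update_self]; omega⟩⟩
    | some none => none
    | some (some a) => some ⟨a.1, ⟨a.2, lt_of_lt_of_le a.2.isLt (spEnd_le ℓ i a.1)⟩⟩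
  invFun
    | none => some none
    | some b => if h : (b.2 : ℕ) < ℓ b.1 then some (some ⟨b.1, ⟨b.2, h⟩⟩) else none
  left_inv := by
    rintro (_ | _ | a)
    · simp
    · rfl
    · simp
  right_inv := by
    rintro (_ | b)
    · rfl
    · by_cases h : (b.2 : ℕ) < ℓ b.1
      · simp only [h, ↓reduceDIte]
      · simp only [h, ↓reduceDIte]
        obtain ⟨h1, h2⟩ := spEnd_eq ℓ i b.1 b.2 b.2.isLt h
        congr 1
        rw [spEnd_ext]
        exact ⟨h1.symm, h2.symm⟩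

theorem sp_addLeaf_end {d : ℕ} (ℓ : Fin d → ℕ) (i : Fin d) (j : Fin (ℓ i))
    (hj : (j : ℕ) + 1 = ℓ i) :
    Nonempty (addLeaf (Sp d ℓ) (some ⟨i, j⟩) ≃g Sp d (Function.update ℓ i (ℓ i + 1))) := by
  have hkey : ∀ a : Σ i : Fin d, Fin (ℓ i), (some a : Option (Σ i : Fin d, Fin (ℓ i))) =
      some ⟨i, j⟩ ↔ a.1 = i ∧ (a.2 : ℕ) + 1 = ℓ i := by
    intro a
    rw [Option.some.injEq, spEnd_ext]
    constructor
    · rintro ⟨h1, h2⟩
      exact ⟨h1, by rw [h2]; exact hj⟩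
    · rintro ⟨h1, h2⟩
      refine ⟨h1, ?_⟩
      show (a.2 : ℕ) = (j : ℕ)
      omega
  refine ⟨⟨spEndEquiv ℓ i, ?_⟩⟩
  rintro (_ | _ | a) (_ | _ | b)
  · show (i = i ∧ ((ℓ i : ℕ) + 1 = ℓ i ∨ (ℓ i : ℕ) + 1 = ℓ i)) ↔ False
    constructor
    · rintro ⟨-, h | h⟩ <;> omega
    · exact False.elim
  · show (ℓ i = 0) ↔ (none : Option (Σ i : Fin d, Fin (ℓ i))) = some ⟨i, j⟩
    constructor
    · intro h
      exfalso
      omega
    · intro h
      exact absurd h (by simp)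
  · show (i = b.1 ∧ ((ℓ i : ℕ) + 1 = (b.2 : ℕ) ∨ (b.2 : ℕ) + 1 = ℓ i)) ↔
      (some b : Option (Σ i : Fin d, Fin (ℓ i))) = some ⟨i, j⟩
    rw [hkey]
    have hlt := b.2.isLt
    constructor
    · rintro ⟨h1, h2 | h2⟩
      · exfalso
        have : ℓ b.1 = ℓ i := by rw [h1]
        omega
      · exact ⟨h1.symm, h2⟩
    · rintro ⟨h1, h2⟩
      exact ⟨h1.symm, Or.inr h2⟩
  · show (ℓ i = 0) ↔ (none : Option (Σ i : Fin d, Fin (ℓ i))) = some ⟨i, j⟩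
    constructor
    · intro h
      exfalso
      omega
    · intro h
      exact absurd h (by simp)
  · exact Iff.rfl
  · exact Iff.rfl
  · show (a.1 = i ∧ ((a.2 : ℕ) + 1 = ℓ i ∨ (ℓ i : ℕ) + 1 = (a.2 : ℕ))) ↔
      (some a : Option (Σ i : Fin d, Fin (ℓ i))) = some ⟨i, j⟩
    rw [hkey]
    have hlt := a.2.isLt
    constructor
    · rintro ⟨h1, h2 | h2⟩
      · exact ⟨h1, h2⟩
      · exfalso
        have : ℓ a.1 = ℓ i := by rw [h1]
        omega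
    · rintro ⟨h1, h2⟩
      exact ⟨h1, Or.inl h2⟩
  · exact Iff.rfl
  · exact Iff.rfl

/-- A vertex of a leg which is not its last vertex has degree (at least) two. -/
theorem sp_deg_mid {d : ℕ} (ℓ : Fin d → ℕ) (i : Fin d) (j : Fin (ℓ i)) (hj : (j : ℕ) + 1 < ℓ i) :
    2 ≤ ((Sp d ℓ).neighborSet (some ⟨i, j⟩)).ncard := by
  classical
  have hnext : (Sp d ℓ).Adj (some ⟨i, j⟩) (some ⟨i, ⟨(j : ℕ) + 1, hj⟩⟩) :=
    ⟨rfl, Or.inl rfl⟩
  obtain ⟨b, hb, hbne⟩ : ∃ b, (Sp d ℓ).Adj (some ⟨i, j⟩) b ∧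
      (some ⟨i, ⟨(j : ℕ) + 1, hj⟩⟩ : Option (Σ i : Fin d, Fin (ℓ i))) ≠ b := by
    by_cases h0 : (j : ℕ) = 0
    · exact ⟨none, h0, by simp⟩
    · refine ⟨some ⟨i, ⟨(j : ℕ) - 1, by omega⟩⟩, ⟨rfl, Or.inr ?_⟩, ?_⟩
      · show (j : ℕ) - 1 + 1 = j
        omega
      · rw [Ne, Option.some.injEq, spEnd_ext]
        rintro ⟨-, h⟩
        have h' : (j : ℕ) + 1 = (j : ℕ) - 1 := h
        omega
  have hsub : ({some ⟨i, ⟨(j : ℕ) + 1, hj⟩⟩, b} : Set (Option (Σ i : Fin d, Fin (ℓ i)))) ⊆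
      (Sp d ℓ).neighborSet (some ⟨i, j⟩) := by
    intro x hx
    rcases hx with rfl | hx
    · exact hnext
    · rw [Set.mem_singleton_iff] at hx
      rw [hx]
      exact hb
  calc 2 = ({some ⟨i, ⟨(j : ℕ) + 1, hj⟩⟩, b} :
        Set (Option (Σ i : Fin d, Fin (ℓ i)))).ncard := (Set.ncard_pair hbne).symm
    _ ≤ _ := Set.ncard_le_ncard hsub (Set.toFinite _)

end Pool.Agent.Lib.MP_a38fe7_coS
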