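import Pool.Agent.Lib.MP_a38fe7_coS.SpEnd

/-!
# Starlike trees are spiders
-/

set_option autoImplicit false

namespace Pool.Agent.Lib.MP_a38fe7_coS

open Pool.Agent.Lib.MP_a38fe7_co

/-- A tree with a leaf removed and put back, with control of the map. -/
theorem SpStar_iso_addLeaf {V : Type} {G : SimpleGraph V} {v p : V}
    (hp : G.neighborSet v = {p}) (hv : p ≠ v) :
    ∃ f : G ≃g addLeaf (G.induce ({v}ᶜ : Set V)) ⟨p, hv⟩,
      ∀ (w : V) (hw : w ≠ v), f w = some ⟨w, hw⟩ := by
  classical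
  have hadj : ∀ w, G.Adj v w ↔ w = p := by
    intro w
    have h : w ∈ G.neighborSet v ↔ w ∈ ({p} : Set V) := by rw [hp]
    simpa using h
  let F : V → Option (({v}ᶜ : Set V) : Type) := fun w => if hw : w = v then none else some ⟨w, hw⟩
  have hFv : F v = none := by simp [F]
  have hFw : ∀ (w : V) (hw : w ≠ v), F w = some ⟨w, hw⟩ := by
    intro w hw
    simp [F, hw]
  have hbij : Function.Bijective F := by
    constructor
    · intro x y hxy
      by_cases hx : x = v
      · by_cases hy : y = v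
        · rw [hx, hy]
        · rw [hx, hFv, hFw y hy] at hxy
          simp at hxy
      · by_cases hy : y = v
        · rw [hy, hFv, hFw x hx] at hxy
          simp at hxy
        · rw [hFw x hx, hFw y hy] at hxy
          simpa using hxy
    · intro y
      rcases y with _ | ⟨y, hy⟩
      · exact ⟨v, hFv⟩
      · exact ⟨y, hFw y hy⟩
  refine ⟨⟨Equiv.ofBijective F hbij, ?_⟩, ?_⟩
  · intro x y
    show (addLeaf (G.induce ({v}ᶜ : Set V)) ⟨p, hv⟩).Adj (F x) (F y) ↔ G.Adj x y
    by_cases hx : x = v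
    · by_cases hy : y = v
      · rw [hx, hy, hFv]
        simp
      · rw [hx, hFv, hFw y hy, hadj]
        show (⟨y, hy⟩ : (({v}ᶜ : Set V) : Type)) = ⟨p, hv⟩ ↔ y = p
        simp
    · by_cases hy : y = v
      · rw [hy, hFv, hFw x hx, G.adj_comm, hadj]
        show (⟨x, hx⟩ : (({v}ᶜ : Set V) : Type)) = ⟨p, hv⟩ ↔ x = p
        simp
      · rw [hFw x hx, hFw y hy]
        rfl
  · intro w hw
    exact hFw w hw

theorem SpStar_addLeaf_congr {V W : Type} {G : SimpleGraph V} {K : SimpleGraph W}
    (f : G ≃g K) (p : V) (q : W) (hq : f p = q) :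
    ∃ g : addLeaf G p ≃g addLeaf K q, ∀ w, g (some w) = some (f w) := by
  subst hq
  refine ⟨⟨Equiv.optionCongr f.toEquiv, ?_⟩, fun w => rfl⟩
  intro x y
  rcases x with _ | x <;> rcases y with _ | y
  · rfl
  · show f y = f p ↔ y = p
    exact f.injective.eq_iff
  · show f x = f p ↔ x = p
    exact f.injective.eq_iff
  · show K.Adj (f x) (f y) ↔ G.Adj x y
    exact f.map_adj_iff

theorem SpStar_ext {d : ℕ} {ℓ : Fin d → ℕ} {y z : Σ i : Fin d, Fin (ℓ i)} (h1 : y.1 = z.1)
    (h2 : (y.2 : ℕ) = z.2) : y = z := by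
  obtain ⟨i, j⟩ := y
  obtain ⟨i', j'⟩ := z
  simp only at h1
  subst h1
  simp only at h2
  rw [Fin.ext h2]

/-- A new leg. -/
theorem SpStar_none {d : ℕ} (ℓ : Fin d → ℕ) :
    ∃ f : addLeaf (Sp d ℓ) none ≃g Sp (d + 1) (Fin.cons 1 ℓ), f (some none) = none := by
  let F : Option (Option (Σ i : Fin d, Fin (ℓ i))) →
      Option (Σ i : Fin (d + 1), Fin ((Fin.cons 1 ℓ : Fin (d + 1) → ℕ) i)) := fun x =>
    match x with
    | none => some ⟨0, ⟨0, Nat.one_pos⟩⟩
    | some none => none
    | some (some ⟨i, j⟩) => some ⟨i.succ, j⟩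
  have hbij : Function.Bijective F := by
    constructor
    · intro x y hxy
      rcases x with _ | _ | ⟨i, j⟩ <;> rcases y with _ | _ | ⟨i', j'⟩
      · rfl
      · simp [F] at hxy
      · have h := congrArg (fun z => z.1) (Option.some.inj hxy)
        exact absurd h (Fin.succ_ne_zero _).symm
      · simp [F] at hxy
      · rfl
      · simp [F] at hxy
      · have h := congrArg (fun z => z.1) (Option.some.inj hxy)
        exact absurd h (Fin.succ_ne_zero _)
      · simp [F] at hxy
      · have h0 := Option.some.inj hxy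
        have h1 : i.succ = i'.succ := congrArg (fun z => z.1) h0
        have h2 : (j : ℕ) = j' := congrArg (fun z => (z.2 : ℕ)) h0
        have h3 : i = i' := Fin.succ_injective _ h1
        congr 2
        exact SpStar_ext h3 h2
    · intro y
      rcases y with _ | ⟨i, j⟩
      · exact ⟨some none, rfl⟩
      · revert j
        refine Fin.cases ?_ ?_ i
        · intro j
          refine ⟨none, ?_⟩
          show some _ = some _
          congr 1
          refine SpStar_ext rfl ?_
          have hj : (j : ℕ) < 1 := j.2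
          show 0 = (j : ℕ)
          omega
        · intro i j
          exact ⟨some (some ⟨i, j⟩), rfl⟩
  refine ⟨⟨Equiv.ofBijective F hbij, ?_⟩, rfl⟩
  intro x y
  show (Sp (d + 1) (Fin.cons 1 ℓ)).Adj (F x) (F y) ↔ (addLeaf (Sp d ℓ) none).Adj x y
  rcases x with _ | _ | ⟨i, j⟩ <;> rcases y with _ | _ | ⟨i', j'⟩
  · simp
  · show (0 : ℕ) = 0 ↔ (none : Option (Σ i : Fin d, Fin (ℓ i))) = none
    simp
  · show ((0 : Fin (d + 1)) = i'.succ ∧ _) ↔ (some _ : Option (Σ i : Fin d, Fin (ℓ i))) = none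
    simp [(Fin.succ_ne_zero _).symm]
  · show (0 : ℕ) = 0 ↔ (none : Option (Σ i : Fin d, Fin (ℓ i))) = none
    simp
  · show False ↔ False
    rfl
  · show (j' : ℕ) = 0 ↔ (j' : ℕ) = 0
    rfl
  · show (i.succ = (0 : Fin (d + 1)) ∧ _) ↔ (some _ : Option (Σ i : Fin d, Fin (ℓ i))) = none
    simp
  · show (j : ℕ) = 0 ↔ (j : ℕ) = 0
    rfl
  · show (i.succ = i'.succ ∧ ((j : ℕ) + 1 = j' ∨ (j' : ℕ) + 1 = j)) ↔
      (i = i' ∧ ((j : ℕ) + 1 = j' ∨ (j' : ℕ) + 1 = j))
    rw [Fin.succ_inj]

/-- A leg grows. -/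
theorem SpStar_end {d : ℕ} (ℓ : Fin d → ℕ) (i : Fin d) (j : Fin (ℓ i))
    (hj : (j : ℕ) + 1 = ℓ i) :
    ∃ f : addLeaf (Sp d ℓ) (some ⟨i, j⟩) ≃g Sp d (Function.update ℓ i (ℓ i + 1)),
      f (some none) = none := by
  have hle : ∀ i', ℓ i' ≤ Function.update ℓ i (ℓ i + 1) i' := by
    intro i'
    by_cases h : i' = i
    · subst h
      simp
    · simp [Function.update_of_ne h]
  have hi : ℓ i < Function.update ℓ i (ℓ i + 1) i := by simp
  have hlt : ∀ i' (m : ℕ), m < Function.update ℓ i (ℓ i + 1) i' →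
      m < ℓ i' ∨ (i' = i ∧ m = ℓ i) := by
    intro i' m hm
    by_cases h : i' = i
    · subst h
      simp only [Function.update_self] at hm
      by_cases h2 : m < ℓ i'
      · exact Or.inl h2
      · exact Or.inr ⟨rfl, by omega⟩
    · rw [Function.update_of_ne h] at hm
      exact Or.inl hm
  let F : Option (Option (Σ i : Fin d, Fin (ℓ i))) →
      Option (Σ i' : Fin d, Fin (Function.update ℓ i (ℓ i + 1) i')) := fun x =>
    match x with
    | none => some ⟨i, ⟨ℓ i, hi⟩⟩
    | some none => none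
    | some (some ⟨i', j'⟩) => some ⟨i', ⟨j', lt_of_lt_of_le j'.2 (hle i')⟩⟩
  have hbij : Function.Bijective F := by
    constructor
    · intro x y hxy
      rcases x with _ | _ | ⟨i1, j1⟩ <;> rcases y with _ | _ | ⟨i2, j2⟩
      · rfl
      · simp [F] at hxy
      · have h0 := Option.some.inj hxy
        have h1 : i = i2 := congrArg (fun z => z.1) h0
        have h2 : ℓ i = (j2 : ℕ) := congrArg (fun z => (z.2 : ℕ)) h0
        have h3 := j2.2
        have h4 : ℓ i2 = ℓ i := congrArg ℓ h1.symm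
        omega
      · simp [F] at hxy
      · rfl
      · simp [F] at hxy
      · have h0 := Option.some.inj hxy
        have h1 : i1 = i := congrArg (fun z => z.1) h0
        have h2 : (j1 : ℕ) = ℓ i := congrArg (fun z => (z.2 : ℕ)) h0
        have h3 := j1.2
        have h4 : ℓ i1 = ℓ i := congrArg ℓ h1
        omega
      · simp [F] at hxy
      · have h0 := Option.some.inj hxy
        have h1 : i1 = i2 := congrArg (fun z => z.1) h0
        have h2 : (j1 : ℕ) = j2 := congrArg (fun z => (z.2 : ℕ)) h0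
        congr 2
        exact SpStar_ext h1 h2
    · intro y
      rcases y with _ | ⟨i', j'⟩
      · exact ⟨some none, rfl⟩
      · rcases hlt i' j' j'.2 with h | ⟨h, h2⟩
        · refine ⟨some (some ⟨i', ⟨j', h⟩⟩), rfl⟩
        · refine ⟨none, ?_⟩
          show some _ = some _
          congr 1
          exact SpStar_ext h.symm h2.symm
  refine ⟨⟨Equiv.ofBijective F hbij, ?_⟩, rfl⟩
  intro x y
  show (Sp d (Function.update ℓ i (ℓ i + 1))).Adj (F x) (F y) ↔
    (addLeaf (Sp d ℓ) (some ⟨i, j⟩)).Adj x y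
  have hpos : 0 < ℓ i := by omega
  rcases x with _ | _ | ⟨i1, j1⟩ <;> rcases y with _ | _ | ⟨i2, j2⟩
  · simp
  · show ℓ i = 0 ↔ (none : Option (Σ i : Fin d, Fin (ℓ i))) = some ⟨i, j⟩
    simp
    omega
  · show (i = i2 ∧ (ℓ i + 1 = (j2 : ℕ) ∨ (j2 : ℕ) + 1 = ℓ i)) ↔
      (some ⟨i2, j2⟩ : Option (Σ i : Fin d, Fin (ℓ i))) = some ⟨i, j⟩
    constructor
    · rintro ⟨h1, h2⟩
      congr 1
      have h3 := j2.2
      have h4 : ℓ i2 = ℓ i := congrArg ℓ h1.symm
      refine SpStar_ext h1.symm ?_
      show (j2 : ℕ) = (j : ℕ)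
      omega
    · intro h
      have h0 := Option.some.inj h
      have h1 : i2 = i := congrArg (fun z => z.1) h0
      have h2 : (j2 : ℕ) = j := congrArg (fun z => (z.2 : ℕ)) h0
      exact ⟨h1.symm, Or.inr (by omega)⟩
  · show ℓ i = 0 ↔ (none : Option (Σ i : Fin d, Fin (ℓ i))) = some ⟨i, j⟩
    simp
    omega
  · show False ↔ False
    rfl
  · show (j2 : ℕ) = 0 ↔ (j2 : ℕ) = 0
    rfl
  · show (i1 = i ∧ ((j1 : ℕ) + 1 = ℓ i ∨ ℓ i + 1 = (j1 : ℕ))) ↔
      (some ⟨i1, j1⟩ : Option (Σ i : Fin d, Fin (ℓ i))) = some ⟨i, j⟩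
    constructor
    · rintro ⟨h1, h2⟩
      congr 1
      have h3 := j1.2
      have h4 : ℓ i1 = ℓ i := congrArg ℓ h1
      refine SpStar_ext h1 ?_
      show (j1 : ℕ) = (j : ℕ)
      omega
    · intro h
      have h0 := Option.some.inj h
      have h1 : i1 = i := congrArg (fun z => z.1) h0
      have h2 : (j1 : ℕ) = j := congrArg (fun z => (z.2 : ℕ)) h0
      exact ⟨h1, Or.inl (by omega)⟩
  · show (j1 : ℕ) = 0 ↔ (j1 : ℕ) = 0
    rfl
  · show (i1 = i2 ∧ ((j1 : ℕ) + 1 = j2 ∨ (j2 : ℕ) + 1 = j1)) ↔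
      (i1 = i2 ∧ ((j1 : ℕ) + 1 = j2 ∨ (j2 : ℕ) + 1 = j1))
    rfl

theorem SpStar_card_iso {V W : Type} {G : SimpleGraph V} {K : SimpleGraph W} (f : G ≃g K)
    (v : V) : (K.neighborSet (f v)).ncard = (G.neighborSet v).ncard := by
  have h : K.neighborSet (f v) = f '' G.neighborSet v := by
    ext w
    simp only [SimpleGraph.mem_neighborSet, Set.mem_image]
    constructor
    · intro hw
      refine ⟨f.symm w, ?_, by simp⟩
      rw [← f.map_adj_iff]
      simpa using hw
    · rintro ⟨z, hz, rfl⟩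
      exact f.map_adj_iff.2 hz
  rw [h, Set.ncard_image_of_injective _ f.injective]

/-- The degree of the centre of a spider. -/
theorem SpStar_deg_none {d : ℕ} (ℓ : Fin d → ℕ) (hℓ : ∀ i, 1 ≤ ℓ i) :
    ((Sp d ℓ).neighborSet none).ncard = d := by
  have h : (Sp d ℓ).neighborSet none =
      Set.range (fun i : Fin d => (some ⟨i, ⟨0, hℓ i⟩⟩ : Option (Σ i : Fin d, Fin (ℓ i)))) := by
    ext w
    rcases w with _ | ⟨i, j⟩
    · simp
    · simp only [SimpleGraph.mem_neighborSet, Set.mem_range]
      constructor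
      · intro hw
        have hj : (j : ℕ) = 0 := hw
        refine ⟨i, ?_⟩
        congr 1
        exact SpStar_ext rfl hj.symm
      · rintro ⟨i', hi'⟩
        have h2 : (0 : ℕ) = (j : ℕ) := congrArg (fun z => (z.2 : ℕ)) (Option.some.inj hi')
        exact h2.symm
  have hinj : Function.Injective
      (fun i : Fin d => (some ⟨i, ⟨0, hℓ i⟩⟩ : Option (Σ i : Fin d, Fin (ℓ i)))) := by
    intro a b hab
    exact congrArg (fun z => z.1) (Option.some.inj hab)
  rw [h, ← Set.image_univ, Set.ncard_image_of_injective _ hinj, Set.ncard_univ, Nat.card_fin]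

theorem SpStar_main (n : ℕ) : ∀ (V : Type) [Finite V] (G : SimpleGraph V), G.IsTree → ∀ h : V,
    Star G h → Nat.card V ≤ n →
    ∃ (d : ℕ) (ℓ : Fin d → ℕ), (∀ i, 1 ≤ ℓ i) ∧ ∃ f : G ≃g Sp d ℓ, f h = none := by
  induction n with
  | zero =>
    intro V _ G hG h hs hn
    have : Nonempty V := ⟨h⟩
    have := Nat.card_pos (α := V)
    omega
  | succ n ih =>
    intro V _ G hG h hs hn
    classical
    have := Fintype.ofFinite V
    by_cases hnt : Nontrivial V
    · obtain ⟨a, b, hab, ha, hb⟩ := hG.exists_ne_and_degree_eq_one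
      obtain ⟨v, hvh, hv⟩ : ∃ v, v ≠ h ∧ G.degree v = 1 := by
        by_cases h1 : a = h
        · exact ⟨b, fun h2 => hab (h1.trans h2.symm), hb⟩
        · exact ⟨a, h1, ha⟩
      obtain ⟨p, hp, hpu⟩ := (G.degree_eq_one_iff_existsUnique_adj).1 hv
      have hpv : p ≠ v := fun h1 => by
        rw [h1] at hp
        exact G.loopless.irrefl _ hp
      have hns : G.neighborSet v = {p} := by
        ext w
        simp only [SimpleGraph.mem_neighborSet, Set.mem_singleton_iff]
        exact ⟨fun hw => hpu w hw, fun hw => hw ▸ hp⟩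
      obtain ⟨f1, hf1⟩ := SpStar_iso_addLeaf hns hpv
      have hT : (G.induce ({v}ᶜ : Set V)).IsTree :=
        ⟨hG.connected.induce_compl_singleton_of_degree_eq_one hv, hG.isAcyclic.induce _⟩
      have hle : ∀ w : (({v}ᶜ : Set V) : Type),
          ((G.induce ({v}ᶜ : Set V)).neighborSet w).ncard ≤ (G.neighborSet w).ncard := by
        intro w
        rw [← Set.ncard_image_of_injective _ (Subtype.val_injective)]
        refine Set.ncard_le_ncard ?_ (Set.toFinite _)
        rintro _ ⟨z, hz, rfl⟩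
        exact hz
      have hs' : Star (G.induce ({v}ᶜ : Set V)) ⟨h, fun h1 => hvh h1.symm⟩ := by
        intro w hw
        refine (hle w).trans (hs w ?_)
        intro h1
        exact hw (Subtype.ext h1)
      have hcard : Nat.card (({v}ᶜ : Set V) : Type) ≤ n := by
        have h1 : Nat.card (Option (({v}ᶜ : Set V) : Type)) = Nat.card V :=
          (Nat.card_congr f1.toEquiv).symm
        rw [Nat.card_eq_fintype_card, Fintype.card_option, ← Nat.card_eq_fintype_card] at h1
        omega
      obtain ⟨d, ℓ, hℓ, f2, hf2⟩ := ih _ (G.induce ({v}ᶜ : Set V)) hT _ hs' hcard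
      rcases hq : f2 ⟨p, hpv⟩ with _ | ⟨i, j⟩
      · obtain ⟨f3, hf3⟩ := SpStar_addLeaf_congr f2 ⟨p, hpv⟩ _ hq
        have hh : f3 (f1 h) = some none := by
          rw [hf1 h (fun h1 => hvh h1.symm), hf3, hf2]
        obtain ⟨f4, hf4⟩ := SpStar_none ℓ
        refine ⟨d + 1, Fin.cons 1 ℓ, ?_, (f1.trans f3).trans f4, ?_⟩
        · intro i
          refine Fin.cases ?_ (fun i => ?_) i
          · exact le_refl 1
          · exact hℓ i
        · show f4 (f3 (f1 h)) = none
          rw [hh, hf4]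
      · have hph : p ≠ h := by
          intro h1
          have h2 : (⟨p, hpv⟩ : (({v}ᶜ : Set V) : Type)) = ⟨h, fun h1 => hvh h1.symm⟩ :=
            Subtype.ext h1
          rw [h2, hf2] at hq
          simp at hq
        have hdeg : ((G.induce ({v}ᶜ : Set V)).neighborSet ⟨p, hpv⟩).ncard < 2 := by
          rw [← Set.ncard_image_of_injective _ (Subtype.val_injective)]
          refine lt_of_lt_of_le (Set.ncard_lt_ncard ?_ (Set.toFinite _)) (hs p hph)
          refine ⟨?_, ?_⟩
          · rintro _ ⟨z, hz, rfl⟩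
            exact hz
          · intro h1
            have h2 : v ∈ G.neighborSet p := hp.symm
            obtain ⟨z, _, hz⟩ := h1 h2
            exact z.2 hz
        have hj : (j : ℕ) + 1 = ℓ i := by
          by_contra hne
          have hlt : (j : ℕ) + 1 < ℓ i := lt_of_le_of_ne j.2 hne
          have h1 := sp_deg_mid ℓ i j hlt
          rw [← hq, SpStar_card_iso f2] at h1
          omega
        obtain ⟨f3, hf3⟩ := SpStar_addLeaf_congr f2 ⟨p, hpv⟩ _ hq
        have hh : f3 (f1 h) = some none := by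
          rw [hf1 h (fun h1 => hvh h1.symm), hf3, hf2]
        obtain ⟨f4, hf4⟩ := SpStar_end ℓ i j hj
        refine ⟨d, Function.update ℓ i (ℓ i + 1), ?_, (f1.trans f3).trans f4, ?_⟩
        · intro i'
          by_cases h1 : i' = i
          · subst h1
            simp
          · rw [Function.update_of_ne h1]
            exact hℓ i'
        · show f4 (f3 (f1 h)) = none
          rw [hh, hf4]
    · have hsub : Subsingleton V := not_nontrivial_iff_subsingleton.1 hnt
      have : Subsingleton (Option (Σ i : Fin 0, Fin (Fin.elim0 i : ℕ))) := by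
        constructor
        intro x y
        rcases x with _ | ⟨i, _⟩
        · rcases y with _ | ⟨i, _⟩
          · rfl
          · exact i.elim0
        · exact i.elim0
      refine ⟨0, fun i => Fin.elim0 i, fun i => i.elim0,
        ⟨⟨fun _ => none, fun _ => h, fun x => Subsingleton.elim _ _, fun x => Subsingleton.elim _ _⟩,
          ?_⟩, rfl⟩
      intro x y
      constructor
      · intro h1
        exact absurd h1 (by
          have h2 : (none : Option (Σ i : Fin 0, Fin (Fin.elim0 i : ℕ))) = none := rfl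
          exact (Sp 0 (fun i => Fin.elim0 i)).loopless.irrefl _)
      · intro h1
        rw [Subsingleton.elim x y] at h1
        exact absurd h1 (G.loopless.irrefl _)

/-- Every starlike tree is a spider. Prove, by induction on `Nat.card V`, that there are `d`, `ℓ` with
`1 ≤ ℓ i` and an isomorphism `f : G ≃g Sp d ℓ` with `f h = none`: take a leaf `v ≠ h` (a tree with at least
two vertices has two leaves: `SimpleGraph.IsTree.exists_ne_and_degree_eq_one`), remove it (`G - v` is a tree,
all its vertices but `h` have degree at most two), and use `iso_addLeaf`; the neighbour `p` of `v` goes to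
`none` if `p = h`, and otherwise `p` has degree at most one in `G - v`, so it is the end of a leg
(`sp_deg_mid`). Then `d` is the degree of `h` (the degree of `none` in `Sp d ℓ` is `d`). -/
theorem star_sp {V : Type} [Finite V] {G : SimpleGraph V} (hG : G.IsTree) (h : V)
    (hs : Star G h) :
    ∃ (d : ℕ) (ℓ : Fin d → ℕ), d = (G.neighborSet h).ncard ∧ (∀ i, 1 ≤ ℓ i) ∧
      ∃ f : G ≃g Sp d ℓ, f h = none := by
  obtain ⟨d, ℓ, hℓ, f, hf⟩ := SpStar_main (Nat.card V) V G hG h hs (le_refl _)
  refine ⟨d, ℓ, ?_, hℓ, f, hf⟩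
  rw [← SpStar_card_iso f, hf, SpStar_deg_none ℓ hℓ]

end Pool.Agent.Lib.MP_a38fe7_coS
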