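import Pool.Agent.Lib.MP_a38fe7_coS.SpDet
import Pool.Agent.Lib.MP_a38fe7_coS.SpStar
import Pool.Agent.Lib.MP_a38fe7_coS.Psi0

/-!
# Two starlike trees
-/

set_option autoImplicit false

namespace Pool.Agent.Lib.MP_a38fe7_coS

open Pool.Agent.Lib.MP_a38fe7_co

private theorem SpFinal_pos {V : Type} [Finite V] [Nontrivial V] {T : SimpleGraph V}
    (hT : T.IsTree) (v : V) : 1 ≤ (T.neighborSet v).ncard := by
  have h1 := hT.connected.preconnected.exists_adj_of_nontrivial v
  obtain ⟨w, hw⟩ := h1
  exact (Set.ncard_pos (Set.toFinite _)).2 ⟨w, hw⟩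

private theorem SpFinal_leaf {V : Type} [Finite V] [Nontrivial V] {T : SimpleGraph V}
    (hT : T.IsTree) : ∃ v, (T.neighborSet v).ncard = 1 := by
  classical
  have := Fintype.ofFinite V
  obtain ⟨v, hv⟩ := hT.exists_vert_degree_one_of_nontrivial
  refine ⟨v, ?_⟩
  rw [← hv, Set.ncard_eq_toFinset_card', ← SimpleGraph.card_neighborFinset_eq_degree]
  rfl

private theorem SpFinal_sum {V : Type} [Fintype V] [Nontrivial V] {T : SimpleGraph V}
    (hT : T.IsTree) {h : V} (hs : Star T h) : ∑ v, q (xx T v) = q (xx T h) := by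
  classical
  refine Finset.sum_eq_single h (fun v _ hv => ?_) (fun hh => absurd (Finset.mem_univ h) hh)
  have h1 := SpFinal_pos hT v
  have h2 := hs v hv
  have h3 : (T.neighborSet v).ncard = 1 ∨ (T.neighborSet v).ncard = 2 := by omega
  unfold xx q
  rcases h3 with h3 | h3
  · rw [h3]; norm_num
  · rw [h3]; norm_num

/-- One vertex: clear. Otherwise all degrees are at least one, and by `psi0` the sums of `q (xx)` agree; they
are `q (xx h)` and `q (xx h')` if these are `≥ 0`, and `0` if `xx h = -1` (all other vertices have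
`xx = 0, -1`, `q = 0`). If the sum is `0`, all degrees of both trees are at most two: choose a leaf as the
root in both (Mathlib: `SimpleGraph.IsTree.exists_vert_degree_one_of_nontrivial`); by `star_sp` both are
`Sp 1 ℓ`, and `ℓ 0` is determined by the number of vertices (`sp_card`). If the sum is positive, `xx h` and
`xx h'` are positive and equal, so `star_sp` gives two spiders with the same `d ≥ 3`: `sp_det`, `sp_perm`. -/
theorem star_star {V W : Type} [Finite V] [Finite W] {T : SimpleGraph V} {T' : SimpleGraph W}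
    (hT : T.IsTree) (hT' : T'.IsTree) {h : V} {h' : W} (hs : Star T h) (hs' : Star T' h')
    (hσ : ∀ k, lsz k T = lsz k T') : Nonempty (T ≃g T') := by
  classical
  have hcard : Nat.card V = Nat.card W := by
    have := hσ 0
    rwa [lsz_zero, lsz_zero] at this
  rcases subsingleton_or_nontrivial V with hV | hV
  · have hW : Subsingleton W := by
      rw [← Finite.card_le_one_iff_subsingleton, ← hcard, Finite.card_le_one_iff_subsingleton]
      exact hV
    refine ⟨⟨⟨fun _ => h', fun _ => h, fun x => Subsingleton.elim _ _,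
      fun x => Subsingleton.elim _ _⟩, ?_⟩⟩
    intro a b
    constructor
    · intro hab
      exact absurd (Subsingleton.elim _ _) hab.ne
    · intro hab
      exact absurd (Subsingleton.elim _ _) hab.ne
  have hW : Nontrivial W := by
    rw [← Finite.one_lt_card_iff_nontrivial, ← hcard, Finite.one_lt_card_iff_nontrivial]
    exact hV
  have := Fintype.ofFinite V
  have := Fintype.ofFinite W
  have hq : q (xx T h) = q (xx T' h') := by
    rw [← SpFinal_sum hT hs, ← SpFinal_sum hT' hs', psi0, psi0, hσ 2, hσ 1, hσ 0]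
  have p1 := SpFinal_pos hT h
  have p2 := SpFinal_pos hT' h'
  have e1 : xx T h = ((T.neighborSet h).ncard : ℤ) - 2 := rfl
  have e2 : xx T' h' = ((T'.neighborSet h').ncard : ℤ) - 2 := rfl
  unfold q at hq
  generalize xx T h = a at hq e1
  generalize xx T' h' = b at hq e2
  have hfac : (a - b) * (a + b + 1) = 0 := by linarith
  have hcases : (a ≤ 0 ∧ b ≤ 0) ∨ (1 ≤ a ∧ a = b) := by
    rcases mul_eq_zero.1 hfac with h1 | h1
    · rcases le_or_gt a 0 with h2 | h2
      · left; omega
      · right; omega
    · left; omega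
  rcases hcases with ⟨h1, h2⟩ | ⟨h1, h2⟩
  · obtain ⟨v, hv⟩ := SpFinal_leaf hT
    obtain ⟨v', hv'⟩ := SpFinal_leaf hT'
    have s1 : Star T v := fun w _ => by
      rcases eq_or_ne w h with h3 | h3
      · rw [h3]; omega
      · exact hs w h3
    have s2 : Star T' v' := fun w _ => by
      rcases eq_or_ne w h' with h3 | h3
      · rw [h3]; omega
      · exact hs' w h3
    obtain ⟨d, ℓ, d1, _, f, _⟩ := star_sp hT v s1
    obtain ⟨d', ℓ', d1', _, f', _⟩ := star_sp hT' v' s2
    rw [hv] at d1
    rw [hv'] at d1'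
    subst d1
    subst d1'
    have c1 := lsz_iso 0 f
    have c2 := lsz_iso 0 f'
    rw [sp_card] at c1 c2
    have c3 := hσ 0
    rw [c1, c2] at c3
    simp only [Finset.univ_unique, Finset.sum_singleton, Fin.default_eq_zero] at c3
    obtain ⟨g⟩ := sp_perm ℓ ℓ' (Equiv.refl _) (fun i => by
      have : i = 0 := Subsingleton.elim _ _
      rw [this]
      simp only [Equiv.refl_apply]
      omega)
    exact ⟨(f.trans g).trans f'.symm⟩
  · obtain ⟨d, ℓ, d1, l1, f, _⟩ := star_sp hT h hs
    obtain ⟨d', ℓ', d1', l1', f', _⟩ := star_sp hT' h' hs'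
    have hd : d' = d := by omega
    subst hd
    obtain ⟨e, he⟩ := sp_det (by omega) ℓ ℓ' l1 l1' (fun k => by
      rw [← lsz_iso k f, ← lsz_iso k f', hσ k])
    obtain ⟨g⟩ := sp_perm ℓ ℓ' e he
    exact ⟨(f.trans g).trans f'.symm⟩

end Pool.Agent.Lib.MP_a38fe7_coS
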