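import Pool.Agent.Lib.MP_a38fe7_coS.Defs

/-!
# Leaves and new legs
-/

set_option autoImplicit false

namespace Pool.Agent.Lib.MP_a38fe7_coS

open Pool.Agent.Lib.MP_a38fe7_co

/-- A tree with a leaf `v` removed (Mathlib: `SimpleGraph.Connected.induce_compl_singleton_of_degree_eq_one`),
and a new leaf put back. -/
theorem iso_addLeaf {V : Type} [Finite V] {G : SimpleGraph V} {v p : V}
    (hp : G.neighborSet v = {p}) (hv : p ≠ v) :
    Nonempty (G ≃g addLeaf (G.induce ({v}ᶜ : Set V)) ⟨p, hv⟩) := by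
  classical
  have hadj : ∀ u, G.Adj v u ↔ u = p := by
    intro u
    have h : u ∈ G.neighborSet v ↔ u ∈ ({p} : Set V) := by rw [hp]
    exact h
  let f : Option (({v}ᶜ : Set V)) → V := fun o => o.elim v Subtype.val
  have hf : Function.Bijective f := by
    constructor
    · rintro (_ | a) (_ | b) h
      · rfl
      · exact absurd h.symm b.2
      · exact absurd h a.2
      · exact congrArg some (Subtype.ext h)
    · intro u
      by_cases h : u = v
      · exact ⟨none, h.symm⟩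
      · exact ⟨some ⟨u, h⟩, rfl⟩
  refine ⟨RelIso.symm ⟨Equiv.ofBijective f hf, ?_⟩⟩
  rintro (_ | a) (_ | b)
  · show G.Adj v v ↔ False
    simp
  · show G.Adj v b.1 ↔ b = (⟨p, hv⟩ : (({v}ᶜ : Set V)))
    rw [hadj, Subtype.ext_iff]
  · show G.Adj a.1 v ↔ a = (⟨p, hv⟩ : (({v}ᶜ : Set V)))
    rw [G.adj_comm, hadj, Subtype.ext_iff]
  · show G.Adj a.1 b.1 ↔ G.Adj a.1 b.1
    exact Iff.rfl

/-- The map of `sp_addLeaf_none`. -/
def spIsoFun {d : ℕ} (ℓ : Fin d → ℕ) : Option (Option (Σ i : Fin d, Fin (ℓ i))) →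
    Option (Σ i : Fin (d + 1), Fin ((Fin.cons 1 ℓ : Fin (d + 1) → ℕ) i))
  | none => some ⟨0, ⟨0, Nat.one_pos⟩⟩
  | some none => none
  | some (some y) => some ⟨y.1.succ, y.2⟩

theorem spIsoFun_bijective {d : ℕ} (ℓ : Fin d → ℕ) : Function.Bijective (spIsoFun ℓ) := by
  constructor
  · rintro (_ | _ | ⟨i, j⟩) (_ | _ | ⟨i', j'⟩) h
    · rfl
    · cases h
    · have h1 := congrArg Sigma.fst (Option.some.inj h)
      exact absurd h1.symm (Fin.succ_ne_zero i')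
    · cases h
    · rfl
    · cases h
    · have h1 := congrArg Sigma.fst (Option.some.inj h)
      exact absurd h1 (Fin.succ_ne_zero i)
    · cases h
    · have h0 := Option.some.inj h
      have h1 : i.succ = i'.succ := congrArg Sigma.fst h0
      have h2 : i = i' := Fin.succ_injective _ h1
      subst h2
      have h3 : j = j' := by
        have := (Sigma.mk.inj h0).2
        exact eq_of_heq this
      rw [h3]
  · rintro (_ | ⟨i, j⟩)
    · exact ⟨some none, rfl⟩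
    · revert j
      refine Fin.cases ?_ (fun k => ?_) i
      · intro j
        refine ⟨none, ?_⟩
        have hj : (⟨0, Nat.one_pos⟩ : Fin 1) = j := Subsingleton.elim _ _
        show some (⟨0, ⟨0, Nat.one_pos⟩⟩ :
          Σ i : Fin (d + 1), Fin ((Fin.cons 1 ℓ : Fin (d + 1) → ℕ) i)) = some ⟨0, j⟩
        rw [← hj]
        rfl
      · intro j
        exact ⟨some (some ⟨k, j⟩), rfl⟩

/-- Adding a leaf at `none` (a new leg with one vertex) or at the end of the leg `i`. -/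
theorem sp_addLeaf_none {d : ℕ} (ℓ : Fin d → ℕ) :
    Nonempty (addLeaf (Sp d ℓ) none ≃g Sp (d + 1) (Fin.cons 1 ℓ)) := by
  refine ⟨⟨Equiv.ofBijective (spIsoFun ℓ) (spIsoFun_bijective ℓ), ?_⟩⟩
  rintro (_ | _ | ⟨i, j⟩) (_ | _ | ⟨i', j'⟩)
  · show ((0 : Fin (d + 1)) = 0 ∧ (0 + 1 = 0 ∨ 0 + 1 = 0)) ↔ False
    simp
  · show (0 : ℕ) = 0 ↔ (none : Option (Σ i : Fin d, Fin (ℓ i))) = none
    simp
  · show ((0 : Fin (d + 1)) = i'.succ ∧ (0 + 1 = (j' : ℕ) ∨ (j' : ℕ) + 1 = 0)) ↔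
      (some (⟨i', j'⟩ : Σ i : Fin d, Fin (ℓ i))) = none
    simp [(Fin.succ_ne_zero i').symm]
  · show (0 : ℕ) = 0 ↔ (none : Option (Σ i : Fin d, Fin (ℓ i))) = none
    simp
  · exact Iff.rfl
  · exact Iff.rfl
  · show (i.succ = (0 : Fin (d + 1)) ∧ ((j : ℕ) + 1 = 0 ∨ 0 + 1 = (j : ℕ))) ↔
      (some (⟨i, j⟩ : Σ i : Fin d, Fin (ℓ i))) = none
    simp [Fin.succ_ne_zero i]
  · exact Iff.rfl
  · show (i.succ = i'.succ ∧ ((j : ℕ) + 1 = (j' : ℕ) ∨ (j' : ℕ) + 1 = (j : ℕ))) ↔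
      (i = i' ∧ ((j : ℕ) + 1 = (j' : ℕ) ∨ (j' : ℕ) + 1 = (j : ℕ)))
    rw [Fin.succ_inj]

end Pool.Agent.Lib.MP_a38fe7_coS
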