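import Pool.Agent.Lib.MP_a38fe7_coS.PPLsz
import Pool.Agent.Lib.MP_a38fe7_coS.SpEnd

/-!
# Spiders: one leg grows by one vertex
-/

set_option autoImplicit false

namespace Pool.Agent.Lib.MP_a38fe7_coS

open Pool.Agent.Lib.MP_a38fe7_co

/-- The path of the leg `i` from the centre. -/
def spPath {d : ℕ} (ℓ : Fin d → ℕ) (i : Fin d) (j : ℕ) : Option (Σ i : Fin d, Fin (ℓ i)) :=
  if h : 1 ≤ j ∧ j ≤ ℓ i then some ⟨i, ⟨j - 1, by omega⟩⟩ else none

theorem spPath_zero {d : ℕ} (ℓ : Fin d → ℕ) (i : Fin d) : spPath ℓ i 0 = none := by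
  unfold spPath
  rw [dif_neg (by omega)]

theorem spPath_pos {d : ℕ} (ℓ : Fin d → ℕ) (i : Fin d) (j : ℕ) (h : 1 ≤ j ∧ j ≤ ℓ i) :
    spPath ℓ i j = some ⟨i, ⟨j - 1, by omega⟩⟩ := by
  unfold spPath
  rw [dif_pos h]

theorem spPath_inj {d : ℕ} (ℓ : Fin d → ℕ) (i : Fin d) (j k : ℕ) (hj : j ≤ ℓ i) (hk : k ≤ ℓ i)
    (h : spPath ℓ i j = spPath ℓ i k) : j = k := by
  rcases Nat.eq_zero_or_pos j with h0 | h0
  · subst h0
    rcases Nat.eq_zero_or_pos k with h1 | h1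
    · exact h1.symm
    · rw [spPath_zero, spPath_pos ℓ i k ⟨h1, hk⟩] at h
      exact absurd h (by simp)
  · rcases Nat.eq_zero_or_pos k with h1 | h1
    · subst h1
      rw [spPath_zero, spPath_pos ℓ i j ⟨h0, hj⟩] at h
      exact absurd h (by simp)
    · rw [spPath_pos ℓ i j ⟨h0, hj⟩, spPath_pos ℓ i k ⟨h1, hk⟩] at h
      simp only [Option.some.injEq, Sigma.mk.injEq, heq_eq_eq, Fin.mk.injEq, true_and] at h
      omega

theorem spPath_adj {d : ℕ} (ℓ : Fin d → ℕ) (i : Fin d) (j : ℕ) (hj : j < ℓ i) :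
    (Sp d ℓ).Adj (spPath ℓ i j) (spPath ℓ i (j + 1)) := by
  rw [spPath_pos ℓ i (j + 1) ⟨by omega, by omega⟩]
  rcases Nat.eq_zero_or_pos j with h0 | h0
  · subst h0
    rw [spPath_zero]
    change (0 + 1 - 1 : ℕ) = 0
    rfl
  · rw [spPath_pos ℓ i j ⟨h0, by omega⟩]
    refine ⟨rfl, Or.inl ?_⟩
    change j - 1 + 1 = j + 1 - 1
    omega

theorem spPath_nbr {d : ℕ} (ℓ : Fin d → ℕ) (i : Fin d) (j : ℕ) (h1 : 1 ≤ j) (h2 : j ≤ ℓ i)
    (x : Option (Σ i : Fin d, Fin (ℓ i))) (hx : (Sp d ℓ).Adj (spPath ℓ i j) x) :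
    x = spPath ℓ i (j - 1) ∨ (j + 1 ≤ ℓ i ∧ x = spPath ℓ i (j + 1)) := by
  rw [spPath_pos ℓ i j ⟨h1, h2⟩] at hx
  rcases x with _ | ⟨i', k⟩
  · left
    have h3 : j - 1 = 0 := hx
    rw [h3, spPath_zero]
  · obtain ⟨h3, h4⟩ := hx
    change i = i' at h3
    subst h3
    change j - 1 + 1 = (k : ℕ) ∨ (k : ℕ) + 1 = j - 1 at h4
    rcases h4 with h4 | h4
    · right
      have hk := k.2
      refine ⟨by omega, ?_⟩
      rw [spPath_pos ℓ i (j + 1) ⟨by omega, by omega⟩]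
      have h5 : k = ⟨j + 1 - 1, by omega⟩ := Fin.ext (by change (k : ℕ) = j + 1 - 1; omega)
      exact congrArg (fun t : Fin (ℓ i) => (some ⟨i, t⟩ : Option (Σ i : Fin d, Fin (ℓ i)))) h5
    · left
      have hk := k.2
      rw [spPath_pos ℓ i (j - 1) ⟨by omega, by omega⟩]
      have h5 : k = ⟨j - 1 - 1, by omega⟩ := Fin.ext (by change (k : ℕ) = j - 1 - 1; omega)
      exact congrArg (fun t : Fin (ℓ i) => (some ⟨i, t⟩ : Option (Σ i : Fin d, Fin (ℓ i)))) h5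

theorem spPath_deg0 {d : ℕ} (ℓ : Fin d → ℕ) (hℓ : ∀ i, 1 ≤ ℓ i) :
    ((Sp d ℓ).neighborSet none).ncard = d := by
  have h1 : (Sp d ℓ).neighborSet none =
      (fun i : Fin d => (some ⟨i, ⟨0, hℓ i⟩⟩ : Option (Σ i : Fin d, Fin (ℓ i)))) '' Set.univ := by
    ext x
    rw [SimpleGraph.mem_neighborSet]
    constructor
    · intro hx
      rcases x with _ | ⟨i', k⟩
      · exact hx.elim
      · have h3 : (k : ℕ) = 0 := hx
        refine ⟨i', trivial, ?_⟩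
        have h5 : k = ⟨0, hℓ i'⟩ := Fin.ext h3
        rw [h5]
    · rintro ⟨i', -, rfl⟩
      change (0 : ℕ) = 0
      rfl
  rw [h1, Set.ncard_image_of_injective, Set.ncard_univ, Nat.card_fin]
  intro a b hab
  simp only [Option.some.injEq, Sigma.mk.injEq] at hab
  exact hab.1

/-- The path `none, ⟨i, 0⟩, …, ⟨i, ℓ i - 1⟩`. The degree of `none` is `d` as all `ℓ i ≥ 1`. -/
theorem sp_PP {d : ℕ} (ℓ : Fin d → ℕ) (hℓ : ∀ i, 1 ≤ ℓ i) (i : Fin d) :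
    ∃ p : ℕ → Option (Σ i : Fin d, Fin (ℓ i)), PP (Sp d ℓ) p (ℓ i) d ∧
      ∃ j : Fin (ℓ i), (j : ℕ) + 1 = ℓ i ∧ p (ℓ i) = some ⟨i, j⟩ := by
  have hi := hℓ i
  refine ⟨spPath ℓ i, ⟨hi, spPath_adj ℓ i, ?_, ?_, ?_, ?_⟩, ⟨ℓ i - 1, by omega⟩, ?_, ?_⟩
  · intro j hj h
    have h2 := spPath_inj ℓ i j (j + 2) (by omega) hj h
    omega
  · rw [spPath_zero]
    exact spPath_deg0 ℓ hℓ
  · intro j h1 h2
    have h3 : (Sp d ℓ).neighborSet (spPath ℓ i j) = {spPath ℓ i (j - 1), spPath ℓ i (j + 1)} := by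
      ext x
      rw [SimpleGraph.mem_neighborSet, Set.mem_insert_iff, Set.mem_singleton_iff]
      constructor
      · intro hx
        rcases spPath_nbr ℓ i j h1 h2.le x hx with h | h
        · exact Or.inl h
        · exact Or.inr h.2
      · rintro (rfl | rfl)
        · have h4 := spPath_adj ℓ i (j - 1) (by omega)
          rw [show j - 1 + 1 = j by omega] at h4
          exact h4.symm
        · exact spPath_adj ℓ i j h2
    rw [h3, Set.ncard_pair]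
    intro h
    have := spPath_inj ℓ i _ _ (by omega) (by omega) h
    omega
  · have h3 : (Sp d ℓ).neighborSet (spPath ℓ i (ℓ i)) = {spPath ℓ i (ℓ i - 1)} := by
      ext x
      rw [SimpleGraph.mem_neighborSet, Set.mem_singleton_iff]
      constructor
      · intro hx
        rcases spPath_nbr ℓ i (ℓ i) hi le_rfl x hx with h | h
        · exact h
        · exact absurd h.1 (by omega)
      · rintro rfl
        have h4 := spPath_adj ℓ i (ℓ i - 1) (by omega)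
        rw [show ℓ i - 1 + 1 = ℓ i by omega] at h4
        exact h4.symm
    rw [h3, Set.ncard_singleton]
  · change ℓ i - 1 + 1 = ℓ i
    omega
  · exact spPath_pos ℓ i (ℓ i) ⟨hi, le_rfl⟩

/-- From `sp_PP`, `sp_addLeaf_end`, `PP.lsz`, `lsz_iso`. -/
theorem sp_step {d : ℕ} (ℓ : Fin d → ℕ) (hℓ : ∀ i, 1 ≤ ℓ i) (i : Fin d) :
    (∀ k, k ≤ ℓ i + 1 →
      lsz k (Sp d (Function.update ℓ i (ℓ i + 1))) = lsz k (Sp d ℓ) + 1) ∧
      lsz (ℓ i + 2) (Sp d (Function.update ℓ i (ℓ i + 1))) = lsz (ℓ i + 2) (Sp d ℓ) + (d - 1) := by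
  obtain ⟨p, hp, j, hj, hpj⟩ := sp_PP ℓ hℓ i
  obtain ⟨e⟩ := sp_addLeaf_end ℓ i j hj
  have h := hp.lsz
  rw [hpj] at h
  refine ⟨fun k hk => ?_, ?_⟩
  · rw [← lsz_iso k e, h.1 k hk]
  · rw [← lsz_iso (ℓ i + 2) e, h.2]

end Pool.Agent.Lib.MP_a38fe7_coS
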