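import Pool.Agent.Lib.MP_a38fe7_coS.SpStep

/-!
# Spiders: growing the legs
-/

set_option autoImplicit false

namespace Pool.Agent.Lib.MP_a38fe7_coS

open Pool.Agent.Lib.MP_a38fe7_co

theorem SpTele_sum_update {d : ℕ} (F : ℕ → ℕ) (ℓ : Fin d → ℕ) (i : Fin d) (b : ℕ) :
    ∑ k, F (Function.update ℓ i b k) = F b + ∑ k ∈ Finset.univ.erase i, F (ℓ k) := by
  rw [← Finset.add_sum_erase _ _ (Finset.mem_univ i), Function.update_self]
  congr 1
  refine Finset.sum_congr rfl fun k hk => ?_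
  rw [Function.update_of_ne (Finset.ne_of_mem_erase hk)]

theorem SpTele_congr {d : ℕ} (k : ℕ) {ℓ ℓ' : Fin d → ℕ} (h : ℓ = ℓ') :
    lsz k (Sp d ℓ) = lsz k (Sp d ℓ') := by
  subst h
  rfl

theorem SpTele_aux {d : ℕ} (j : ℕ) (hj : 1 ≤ j) (n : ℕ) :
    ∀ ℓ : Fin d → ℕ, (∀ i, 1 ≤ ℓ i) → ∑ i, (ℓ i - j) = n →
    lsz (j + 2) (Sp d ℓ) = lsz (j + 2) (Sp d fun i => min (ℓ i) j) +
      ∑ i, (if j < ℓ i then (d - 1) + (ℓ i - j - 1) else 0) := by
  induction n with
  | zero =>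
    intro ℓ hℓ hn
    have h1 : ∀ i, ℓ i ≤ j := by
      intro i
      have := (Finset.sum_eq_zero_iff.mp hn) i (Finset.mem_univ i)
      omega
    have h2 : (fun i => min (ℓ i) j) = ℓ := funext fun i => min_eq_left (h1 i)
    have h3 : ∑ i, (if j < ℓ i then (d - 1) + (ℓ i - j - 1) else 0) = 0 :=
      Finset.sum_eq_zero fun i _ => if_neg (not_lt.mpr (h1 i))
    rw [SpTele_congr (j + 2) h2, h3, add_zero]
  | succ n ih =>
    intro ℓ hℓ hn
    obtain ⟨i, hi⟩ : ∃ i, j < ℓ i := by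
      by_contra hcon
      push Not at hcon
      have : ∑ i, (ℓ i - j) = 0 := Finset.sum_eq_zero fun i _ => by
        have := hcon i
        omega
      omega
    set ℓ₀ : Fin d → ℕ := Function.update ℓ i (ℓ i - 1) with hℓ₀
    have hi0 : ℓ₀ i = ℓ i - 1 := by rw [hℓ₀, Function.update_self]
    have hne : ∀ k, k ≠ i → ℓ₀ k = ℓ k := fun k hk => by
      rw [hℓ₀, Function.update_of_ne hk]
    have h1 : ∀ k, 1 ≤ ℓ₀ k := by
      intro k
      rcases eq_or_ne k i with rfl | hk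
      · omega
      · rw [hne k hk]; exact hℓ k
    have hback : Function.update ℓ₀ i (ℓ₀ i + 1) = ℓ := by
      funext k
      rcases eq_or_ne k i with rfl | hk
      · rw [Function.update_self]; omega
      · rw [Function.update_of_ne hk, hne k hk]
    have hmin : (fun k => min (ℓ₀ k) j) = fun k => min (ℓ k) j := by
      funext k
      rcases eq_or_ne k i with rfl | hk
      · omega
      · rw [hne k hk]
    have hs : ∑ k, (ℓ k - j) = (ℓ i - j) + ∑ k ∈ Finset.univ.erase i, (ℓ k - j) :=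
      (Finset.add_sum_erase _ _ (Finset.mem_univ i)).symm
    have hs0 : ∑ k, (ℓ₀ k - j) = (ℓ i - 1 - j) + ∑ k ∈ Finset.univ.erase i, (ℓ k - j) :=
      SpTele_sum_update (fun a => a - j) ℓ i (ℓ i - 1)
    have hn0 : ∑ k, (ℓ₀ k - j) = n := by omega
    have key := ih ℓ₀ h1 hn0
    rw [SpTele_congr (j + 2) hmin] at key
    have ht : ∑ k, (if j < ℓ k then (d - 1) + (ℓ k - j - 1) else 0) =
        (if j < ℓ i then (d - 1) + (ℓ i - j - 1) else 0) +
          ∑ k ∈ Finset.univ.erase i, (if j < ℓ k then (d - 1) + (ℓ k - j - 1) else 0) :=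
      (Finset.add_sum_erase _ (fun k => if j < ℓ k then (d - 1) + (ℓ k - j - 1) else 0)
        (Finset.mem_univ i)).symm
    have ht0 : ∑ k, (if j < ℓ₀ k then (d - 1) + (ℓ₀ k - j - 1) else 0) =
        (if j < ℓ i - 1 then (d - 1) + (ℓ i - 1 - j - 1) else 0) +
          ∑ k ∈ Finset.univ.erase i, (if j < ℓ k then (d - 1) + (ℓ k - j - 1) else 0) :=
      SpTele_sum_update (fun a => if j < a then (d - 1) + (a - j - 1) else 0) ℓ i (ℓ i - 1)
    obtain ⟨s1, s2⟩ := sp_step ℓ₀ h1 i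
    rw [SpTele_congr (ℓ₀ i + 2) hback] at s2
    rw [ht]
    rw [ht0] at key
    rcases Nat.lt_or_ge (j + 1) (ℓ i) with hlt | hge
    · have h5 := s1 (j + 2) (by omega)
      rw [SpTele_congr (j + 2) hback] at h5
      rw [h5, key, if_pos (by omega), if_pos (by omega)]
      omega
    · have h6 : ℓ₀ i + 2 = j + 2 := by omega
      rw [h6] at s2
      rw [s2, key, if_neg (by omega), if_pos (by omega)]
      omega

/-- Let `ℓ` grow from `min (ℓ i) j` one vertex at a time (`sp_step`): the step `j → j + 1` of a leg adds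
`d - 1` to `lsz (j + 2)`, every later step adds `1`. Induction on `∑ i, (ℓ i - j)`: if some `ℓ i > j`, put
`ℓ₀ = update ℓ i (ℓ i - 1)`. -/
theorem sp_tele {d : ℕ} (ℓ : Fin d → ℕ) (hℓ : ∀ i, 1 ≤ ℓ i) (j : ℕ) (hj : 1 ≤ j) :
    lsz (j + 2) (Sp d ℓ) = lsz (j + 2) (Sp d fun i => min (ℓ i) j) +
      ∑ i, (if j < ℓ i then (d - 1) + (ℓ i - j - 1) else 0) :=
  SpTele_aux j hj _ ℓ hℓ rfl

end Pool.Agent.Lib.MP_a38fe7_coS
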